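import Pool.Agent.H2.WE.Exl

/-!
# [H2 WE REL] Exact relations

`Rel N G a E`: `dls a G` equals a constant of modulus 1 off `E` exceptions in `[1, N]`.

PROOFS. `dl a (dl b G) = dl b (dl a G)` (both are `G(n+a+b) conj G(n+a) conj G(n+b) G(n)`), hence `dls_perm` (`List.Perm` induction) and `dls (a :: l) G = dl a (dls l G)`. `rel_of_approx`: `dls a G n` is a `q`-th root of unity. Two `q`-th roots of unity `z ≠ w` have `‖z - w‖ ≥ 1/q`:
`u = z/w ≠ 1` has `∑_{i<q} u^i = 0`, but `|∑_{i<q} u^i - q| ≤ ∑ i |u - 1| ≤ q²/2 |u-1| < q` if `|u - 1| < 1/q` (for `q = 1` trivial). If there is no `n ∈ [1,N]` with `‖dls a G n - C‖ ≤ η` then `ex = N ≤ E` and `c = 1` works (`ex_le`); otherwise take `c = dls a G n₀` for such an `n₀`: every other such `n` has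
`‖dls a G n - c‖ ≤ 2η < 1/q`, so equality.
`rel_sub`: `F = dls l G` (modulus 1): `F(n+a) = c F(n)`, `F(n+b) = c' F(n)` off the exceptions, so `F(n + b) = c' conj(c) F(n + a)`; replace `n` by `n - a` (`ex_shift`): `dl (b - a) F = c' conj c` off `E + E' + |a|` exceptions.
`rel_upd`: `List.ofFn (fun j => update r i x j * s j)` is a permutation of `(x * s i) ::` (a list not depending on `x`), e.g. `List.ofFn` of the other coordinates (`Equiv`/`Fin.insertNth`, or `Multiset`/`List.perm_cons_erase`); then `rel_sub` (`(y - x) s i = y s i - x s i`).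
-/

namespace Pool.H2.WE

open Finset

/-- `dls a G` is constant off `E` exceptions -/
def Rel (N : ℕ) (G : ℤ → ℂ) (a : List ℤ) (E : ℕ) : Prop := ∃ c : ℂ, ‖c‖ = 1 ∧ ex N (fun n => dls a G n = c) ≤ E

theorem dls_norm (a : List ℤ) (G : ℤ → ℂ) (hG : ∀ n, ‖G n‖ = 1) : ∀ n, ‖dls a G n‖ = 1 := by
  induction a generalizing G with
  | nil => exact hG
  | cons a l ih =>
    intro n
    show ‖dls l (dl a G) n‖ = 1
    refine ih (dl a G) ?_ n
    intro m
    unfold dl
    rw [norm_mul, RCLike.norm_conj, hG, hG, one_mul]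

theorem dls_pow (a : List ℤ) (G : ℤ → ℂ) (q : ℕ) (hG : ∀ n, G n ^ q = 1) : ∀ n, dls a G n ^ q = 1 := by
  induction a generalizing G with
  | nil => exact hG
  | cons a l ih =>
    intro n
    show dls l (dl a G) n ^ q = 1
    refine ih (dl a G) ?_ n
    intro m
    unfold dl
    rw [mul_pow, ← map_pow, hG, hG, map_one, one_mul]

private theorem dl_comm (a b : ℤ) (G : ℤ → ℂ) : dl a (dl b G) = dl b (dl a G) := by
  funext n
  unfold dl
  simp only [map_mul, Complex.conj_conj]
  rw [show n + a + b = n + b + a by ring]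
  ring

theorem dls_cons (a : ℤ) (l : List ℤ) (G : ℤ → ℂ) : dls (a :: l) G = dl a (dls l G) := by
  induction l generalizing G with
  | nil => rfl
  | cons b l ih =>
    show dls (b :: l) (dl a G) = dl a (dls (b :: l) G)
    show dls l (dl b (dl a G)) = dl a (dls l (dl b G))
    rw [dl_comm b a G]
    exact ih (dl b G)

theorem dls_perm {l l' : List ℤ} (h : l.Perm l') (G : ℤ → ℂ) : dls l G = dls l' G := by
  induction h generalizing G with
  | nil => rfl
  | cons x _ ih => exact ih (dl x G)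
  | swap x y l =>
    show dls l (dl x (dl y G)) = dls l (dl y (dl x G))
    rw [dl_comm]
  | trans _ _ ih1 ih2 => exact (ih1 G).trans (ih2 G)

private theorem rel_root (q : ℕ) (hq : 1 ≤ q) (z w : ℂ) (hz : z ^ q = 1) (hw : w ^ q = 1) (h : ‖z - w‖ < 1 / q) : z = w := by
  have hq0 : (0 : ℝ) < q := by exact_mod_cast hq
  have hqn : q ≠ 0 := by omega
  have hwn : ‖w‖ = 1 := by
    have h1 : ‖w‖ ^ q = 1 := by rw [← norm_pow, hw, norm_one]
    exact (pow_eq_one_iff_of_nonneg (norm_nonneg _) hqn).1 h1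
  have hw0 : w ≠ 0 := by
    intro h0
    rw [h0, norm_zero] at hwn
    exact zero_ne_one hwn
  obtain ⟨u, hu⟩ : ∃ u, u = z / w := ⟨_, rfl⟩
  have hzu : z = u * w := by rw [hu]; field_simp
  have huq : u ^ q = 1 := by rw [hu, div_pow, hz, hw, div_one]
  have hun : ‖u‖ = 1 := by
    have h1 : ‖u‖ ^ q = 1 := by rw [← norm_pow, huq, norm_one]
    exact (pow_eq_one_iff_of_nonneg (norm_nonneg _) hqn).1 h1
  have hu1 : ‖u - 1‖ < 1 / q := by
    have h1 : z - w = (u - 1) * w := by rw [hzu]; ring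
    rw [h1, norm_mul, hwn, mul_one] at h
    exact h
  by_contra hne
  have hu0 : u ≠ 1 := by
    intro h1
    apply hne
    rw [hzu, h1, one_mul]
  have hgeom : ∑ i ∈ range q, u ^ i = 0 := by
    have h1 := mul_geom_sum u q
    rw [huq, sub_self] at h1
    rcases mul_eq_zero.1 h1 with h2 | h2
    · exact absurd (sub_eq_zero.1 h2) hu0
    · exact h2
  have hpw : ∀ i : ℕ, ‖u ^ i - 1‖ ≤ i * ‖u - 1‖ := by
    intro i
    induction i with
    | zero => simp
    | succ i ih =>
      have h1 : u ^ (i + 1) - 1 = (u ^ i - 1) * u + (u - 1) := by ring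
      rw [h1]
      refine (norm_add_le _ _).trans ?_
      rw [norm_mul, hun, mul_one]
      push_cast
      linarith
  have h2 : ‖∑ i ∈ range q, (u ^ i - 1)‖ < q := by
    refine lt_of_le_of_lt (norm_sum_le _ _) ?_
    have h3 : ∑ i ∈ range q, ‖u ^ i - 1‖ < ∑ i ∈ range q, (1 : ℝ) := by
      apply sum_lt_sum_of_nonempty
      · exact ⟨0, mem_range.2 (by omega)⟩
      · intro i hi
        refine lt_of_le_of_lt (hpw i) ?_
        have h4 : (i : ℝ) ≤ q := by exact_mod_cast (mem_range.1 hi).le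
        rcases Nat.eq_zero_or_pos i with h5 | h5
        · rw [h5]; simp
        · have h6 : (0 : ℝ) < i := by exact_mod_cast h5
          calc (i : ℝ) * ‖u - 1‖ < i * (1 / q) := mul_lt_mul_of_pos_left hu1 h6
            _ ≤ q * (1 / q) := mul_le_mul_of_nonneg_right h4 (by positivity)
            _ = 1 := by field_simp
    simpa using h3
  rw [sum_sub_distrib, hgeom] at h2
  simp at h2

theorem rel_of_approx (q : ℕ) (hq : 1 ≤ q) (N : ℕ) (G : ℤ → ℂ) (hG : ∀ n, G n ^ q = 1) (a : List ℤ) (C : ℂ) (η : ℝ) (hη : 2 * η < 1 / q) (E : ℕ)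
    (h : ex N (fun n => ‖dls a G n - C‖ ≤ η) ≤ E) : Rel N G a E := by
  by_cases hex : ∃ n : ℤ, ‖dls a G n - C‖ ≤ η
  · obtain ⟨n0, hn0⟩ := hex
    refine ⟨dls a G n0, ?_, ?_⟩
    · have h1 : ‖dls a G n0‖ ^ q = 1 := by rw [← norm_pow, dls_pow a G q hG, norm_one]
      exact (pow_eq_one_iff_of_nonneg (norm_nonneg _) (by omega)).1 h1
    · refine le_trans (ex_mono ?_) h
      intro n _ _ hn
      apply rel_root q hq _ _ (dls_pow a G q hG n) (dls_pow a G q hG n0)
      have h1 : dls a G n - dls a G n0 = (dls a G n - C) - (dls a G n0 - C) := by ring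
      rw [h1]
      refine lt_of_le_of_lt (norm_sub_le _ _) ?_
      linarith
  · refine ⟨1, norm_one, ?_⟩
    refine le_trans (ex_mono ?_) h
    intro n _ _ hn
    exact absurd ⟨n, hn⟩ hex

theorem rel_mono {N : ℕ} {G : ℤ → ℂ} {a : List ℤ} {E E' : ℕ} (h : Rel N G a E) (hE : E ≤ E') : Rel N G a E' := by
  obtain ⟨c, hc, h1⟩ := h
  exact ⟨c, hc, h1.trans hE⟩

theorem rel_sub (N : ℕ) (G : ℤ → ℂ) (hG : ∀ n, ‖G n‖ = 1) (a b : ℤ) (l : List ℤ) (E E' : ℕ) (h : Rel N G (a :: l) E) (h' : Rel N G (b :: l) E') :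
    Rel N G ((b - a) :: l) (E + E' + a.natAbs) := by
  obtain ⟨c, hc, h1⟩ := h
  obtain ⟨c', hc', h2⟩ := h'
  refine ⟨c' * (starRingEnd ℂ) c, ?_, ?_⟩
  · rw [norm_mul, RCLike.norm_conj, hc, hc', one_mul]
  · have hF : ∀ n, dls l G n * (starRingEnd ℂ) (dls l G n) = 1 := by
      intro n
      rw [Complex.mul_conj, Complex.normSq_eq_norm_sq, dls_norm l G hG]
      simp
    have h3 := ex_and N (fun n => dls (a :: l) G n = c) (fun n => dls (b :: l) G n = c')
    have h4 := ex_shift N (fun n => dls (a :: l) G n = c ∧ dls (b :: l) G n = c') (-a)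
    rw [Int.natAbs_neg] at h4
    have h5 : ex N (fun n => dls ((b - a) :: l) G n = c' * (starRingEnd ℂ) c) ≤
        ex N (fun n => dls (a :: l) G (n + -a) = c ∧ dls (b :: l) G (n + -a) = c') := by
      apply ex_mono
      intro n _ _ hn
      rw [dls_cons] at hn
      rw [dls_cons] at hn
      rw [dls_cons]
      obtain ⟨e1, e2⟩ := hn
      unfold dl at e1 e2 ⊢
      rw [show n + -a + a = n by ring] at e1
      rw [show n + -a + b = n + (b - a) by ring] at e2
      rw [← e1, ← e2, map_mul, Complex.conj_conj]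
      have h6 := hF (n + -a)
      calc dls l G (n + (b - a)) * (starRingEnd ℂ) (dls l G n) =
          dls l G (n + (b - a)) * (starRingEnd ℂ) (dls l G n) * 1 := by rw [mul_one]
        _ = _ := by rw [← h6]; ring
    omega

private theorem rel_ofFn (k : ℕ) : ∀ (i : Fin k) (f : Fin k → ℤ), ∃ l : List ℤ, ∀ g : Fin k → ℤ, (∀ j, j ≠ i → g j = f j) →
    (List.ofFn g).Perm (g i :: l) := by
  induction k with
  | zero => intro i; exact i.elim0
  | succ k ih =>
    intro i f
    refine Fin.cases ?_ (fun i => ?_) i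
    · refine ⟨List.ofFn (fun j : Fin k => f j.succ), ?_⟩
      intro g hg
      rw [List.ofFn_succ]
      have h1 : (fun j : Fin k => g j.succ) = fun j : Fin k => f j.succ := by
        funext j
        exact hg _ (Fin.succ_ne_zero j)
      rw [h1]
    · obtain ⟨l, hl⟩ := ih i (fun j => f j.succ)
      refine ⟨f 0 :: l, ?_⟩
      intro g hg
      rw [List.ofFn_succ]
      have h1 : g 0 = f 0 := hg 0 (Fin.succ_ne_zero i).symm
      have h2 := hl (fun j => g j.succ) (fun j hj => hg j.succ (fun h => hj (Fin.succ_injective _ h)))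
      rw [h1]
      exact (List.Perm.cons _ h2).trans (List.Perm.swap _ _ _)

theorem rel_upd (k N : ℕ) (G : ℤ → ℂ) (hG : ∀ n, ‖G n‖ = 1) (s r : Fin k → ℤ) (i : Fin k) (x y : ℤ) (E B : ℕ) (hB : (x * s i).natAbs ≤ B)
    (h1 : Rel N G (List.ofFn fun j => Function.update r i x j * s j) E) (h2 : Rel N G (List.ofFn fun j => Function.update r i y j * s j) E) :
    Rel N G (List.ofFn fun j => Function.update r i (y - x) j * s j) (2 * E + B) := by
  obtain ⟨l, hl⟩ := rel_ofFn k i (fun j => r j * s j)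
  have hp : ∀ z : ℤ, (List.ofFn fun j => Function.update r i z j * s j).Perm ((z * s i) :: l) := by
    intro z
    have h := hl (fun j => Function.update r i z j * s j) (fun j hj => by
      simp only [Function.update_of_ne hj])
    simpa only [Function.update_self] using h
  have hR : ∀ (z : ℤ) (E' : ℕ), Rel N G (List.ofFn fun j => Function.update r i z j * s j) E' ↔ Rel N G ((z * s i) :: l) E' := by
    intro z E'
    unfold Rel
    rw [dls_perm (hp z) G]
  rw [hR] at h1 h2 ⊢
  have h3 := rel_sub N G hG _ _ _ _ _ h1 h2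
  rw [show y * s i - x * s i = (y - x) * s i by ring] at h3
  exact rel_mono h3 (by omega)

end Pool.H2.WE
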