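import Pool.Agent.H2.WE.Defs

/-!
# [H2 WE EXL] Numbers of exceptions

`ex N Q = #{n ∈ [1, N] : ¬ Q n}` (integers). All proofs are immediate: `ex_shift`: `n ↦ n + a` is injective and maps the `n ∈ [1, N]` with `¬ Q (n + a)` and `n + a ∈ [1, N]` to exceptions of `Q`; at most
`|a|` of the `n ∈ [1, N]` have `n + a ∉ [1, N]`. `ex_chain` (`F (n + a) = F n` implies `F (n + m a) = F n`): the number of exceptions is `≤ ∑_{j<m} (E + j |a|) ≤ m (E + m |a|)` (induction on `m`, `ex_and`, `ex_shift`, `ex_mono`).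
-/

namespace Pool.H2.WE

open Finset

private theorem exl_set (N : ℕ) (Q : ℤ → Prop) : ∃ S : Finset ℤ, ex N Q = S.card ∧ ∀ n, n ∈ S ↔ (1 ≤ n ∧ n ≤ N) ∧ ¬ Q n := by
  classical
  refine ⟨(Icc (1 : ℤ) N).filter (fun n => ¬ Q n), ?_, ?_⟩
  · unfold ex
    congr 1
  · intro n
    rw [mem_filter, mem_Icc]

theorem ex_le (N : ℕ) (Q : ℤ → Prop) : ex N Q ≤ N := by
  obtain ⟨S, hS, hmem⟩ := exl_set N Q
  rw [hS]
  have h1 : S ⊆ Icc (1 : ℤ) N := fun n hn => mem_Icc.2 ((hmem n).1 hn).1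
  refine (card_le_card h1).trans ?_
  rw [Int.card_Icc]
  simp

theorem ex_mono {N : ℕ} {Q Q' : ℤ → Prop} (h : ∀ n : ℤ, 1 ≤ n → n ≤ N → Q n → Q' n) : ex N Q' ≤ ex N Q := by
  obtain ⟨S, hS, hmem⟩ := exl_set N Q
  obtain ⟨S', hS', hmem'⟩ := exl_set N Q'
  rw [hS, hS']
  apply card_le_card
  intro n hn
  rw [hmem'] at hn
  rw [hmem]
  exact ⟨hn.1, fun hq => hn.2 (h n hn.1.1 hn.1.2 hq)⟩

theorem ex_and (N : ℕ) (Q Q' : ℤ → Prop) : ex N (fun n => Q n ∧ Q' n) ≤ ex N Q + ex N Q' := by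
  obtain ⟨S, hS, hmem⟩ := exl_set N Q
  obtain ⟨S', hS', hmem'⟩ := exl_set N Q'
  obtain ⟨S2, hS2, hmem2⟩ := exl_set N (fun n => Q n ∧ Q' n)
  rw [hS, hS', hS2]
  refine le_trans (card_le_card ?_) (card_union_le _ _)
  intro n hn
  rw [hmem2] at hn
  rw [mem_union, hmem, hmem']
  by_cases h : Q n
  · right
    exact ⟨hn.1, fun h' => hn.2 ⟨h, h'⟩⟩
  · left
    exact ⟨hn.1, h⟩

theorem ex_all {ι : Type} (s : Finset ι) (N : ℕ) (Q : ι → ℤ → Prop) : ex N (fun n => ∀ i ∈ s, Q i n) ≤ ∑ i ∈ s, ex N (Q i) := by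
  classical
  obtain ⟨S2, hS2, hmem2⟩ := exl_set N (fun n => ∀ i ∈ s, Q i n)
  choose S hS hmem using fun i => exl_set N (Q i)
  rw [hS2, sum_congr rfl (fun i _ => hS i)]
  refine le_trans (card_le_card ?_) (card_biUnion_le (s := s) (t := S))
  intro n hn
  rw [hmem2] at hn
  rw [mem_biUnion]
  obtain ⟨h1, h2⟩ := hn
  have h3 : ∃ i, i ∈ s ∧ ¬ Q i n := by
    by_contra hcon
    push Not at hcon
    exact h2 hcon
  obtain ⟨i, hi, h3⟩ := h3
  exact ⟨i, hi, (hmem i n).2 ⟨h1, h3⟩⟩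

theorem ex_shift (N : ℕ) (Q : ℤ → Prop) (a : ℤ) : ex N (fun n => Q (n + a)) ≤ ex N Q + a.natAbs := by
  classical
  obtain ⟨S, hS, hmem⟩ := exl_set N Q
  obtain ⟨S2, hS2, hmem2⟩ := exl_set N (fun n => Q (n + a))
  rw [hS, hS2]
  have hsub : S2 ⊆ (S.image (fun n => n - a)) ∪
        (((Icc (1 : ℤ) N)) \ ((Icc (1 : ℤ) N).image (fun n => n - a))) := by
    intro n hn
    rw [hmem2] at hn
    rw [mem_union]
    by_cases h : n + a ∈ Icc (1 : ℤ) N
    · left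
      rw [mem_image]
      exact ⟨n + a, (hmem _).2 ⟨mem_Icc.1 h, hn.2⟩, by ring⟩
    · right
      rw [mem_sdiff, mem_image, mem_Icc]
      refine ⟨hn.1, ?_⟩
      rintro ⟨m, hm, he⟩
      apply h
      have : m = n + a := by rw [← he]; ring
      rw [← this]
      exact hm
  refine (card_le_card hsub).trans ((card_union_le _ _).trans (add_le_add card_image_le ?_))
  rcases le_or_gt 0 a with h0 | h0
  · have hsub2 : (Icc (1 : ℤ) N) \ ((Icc (1 : ℤ) N).image (fun n => n - a)) ⊆ Ioc ((N : ℤ) - a) N := by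
      intro n hn
      rw [mem_sdiff, mem_image, mem_Icc] at hn
      have hn2 : ¬ (1 ≤ n + a ∧ n + a ≤ N) := fun hh => hn.2 ⟨n + a, mem_Icc.2 hh, by ring⟩
      rw [mem_Ioc]
      omega
    refine (card_le_card hsub2).trans ?_
    rw [Int.card_Ioc]
    omega
  · have hsub2 : (Icc (1 : ℤ) N) \ ((Icc (1 : ℤ) N).image (fun n => n - a)) ⊆ Ico (1 : ℤ) (1 - a) := by
      intro n hn
      rw [mem_sdiff, mem_image, mem_Icc] at hn
      have hn2 : ¬ (1 ≤ n + a ∧ n + a ≤ N) := fun hh => hn.2 ⟨n + a, mem_Icc.2 hh, by ring⟩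
      rw [mem_Ico]
      omega
    refine (card_le_card hsub2).trans ?_
    rw [Int.card_Ico]
    omega

theorem ex_pos {N : ℕ} {Q : ℤ → Prop} (h : ex N Q < N) : ∃ n : ℤ, 1 ≤ n ∧ n ≤ N ∧ Q n := by
  by_contra hcon
  push Not at hcon
  obtain ⟨S, hS, hmem⟩ := exl_set N Q
  have h1 : S = Icc (1 : ℤ) N := by
    ext n
    rw [hmem, mem_Icc]
    exact ⟨fun hh => hh.1, fun hh => ⟨hh, hcon n hh.1 hh.2⟩⟩
  rw [hS, h1, Int.card_Icc] at h
  omega

theorem ex_chain (N : ℕ) (F : ℤ → ℂ) (a : ℤ) (m E : ℕ) (h : ex N (fun n => F (n + a) = F n) ≤ E) :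
    ex N (fun n => F (n + m * a) = F n) ≤ m * (E + m * a.natAbs) := by
  induction m with
  | zero =>
    obtain ⟨S, hS, hmem⟩ := exl_set N (fun n => F (n + ((0 : ℕ) : ℤ) * a) = F n)
    have h1 : S = ∅ := by
      apply eq_empty_of_forall_notMem
      intro n hn
      apply ((hmem n).1 hn).2
      simp
    rw [hS, h1, card_empty]
    exact Nat.zero_le _
  | succ m ih =>
    have h1 : ex N (fun n => F (n + ((m + 1 : ℕ) : ℤ) * a) = F n) ≤
        ex N (fun n => F (n + m * a + a) = F (n + m * a) ∧ F (n + m * a) = F n) := by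
      apply ex_mono
      intro n _ _ hn
      rw [← hn.2, ← hn.1]
      congr 1
      push_cast
      ring
    have h2 := ex_and N (fun n => F (n + m * a + a) = F (n + m * a)) (fun n => F (n + m * a) = F n)
    have h3 := ex_shift N (fun n => F (n + a) = F n) (m * a)
    have h4 : ((m : ℤ) * a).natAbs = m * a.natAbs := by
      rw [Int.natAbs_mul, Int.natAbs_natCast]
    rw [h4] at h3
    have h5 : m * (E + m * a.natAbs) + (E + m * a.natAbs) ≤ (m + 1) * (E + (m + 1) * a.natAbs) := by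
      nlinarith [Nat.zero_le (m * a.natAbs), Nat.zero_le a.natAbs]
    omega

/-- from natural numbers to integers -/
theorem ex_nat (N : ℕ) (Q : ℕ → Prop) [DecidablePred Q] : ex N (fun n => Q n.toNat) = ((Icc 1 N).filter (fun n => ¬ Q n)).card := by
  obtain ⟨S, hS, hmem⟩ := exl_set N (fun n => Q n.toNat)
  rw [hS]
  symm
  refine card_bij (fun n _ => (n : ℤ)) ?_ ?_ ?_
  · intro n hn
    rw [mem_filter, mem_Icc] at hn
    rw [hmem]
    refine ⟨⟨by exact_mod_cast hn.1.1, by exact_mod_cast hn.1.2⟩, ?_⟩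
    show ¬ Q ((n : ℤ).toNat)
    rw [Int.toNat_natCast]
    exact hn.2
  · intro n _ m _ h
    exact_mod_cast h
  · intro n hn
    rw [hmem] at hn
    refine ⟨n.toNat, ?_, Int.toNat_of_nonneg (by omega)⟩
    rw [mem_filter, mem_Icc]
    exact ⟨⟨by omega, by omega⟩, hn.2⟩

end Pool.H2.WE
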