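import Pool.Agent.H2.WE.Exl

/-!
# [H2 WE ORD] A relation for a function of finite order gives periodicity

`G^q = 1`, `dls l G` constant off `E` exceptions, `l` a list of `k` nonzero integers `≤ M` in absolute value. Then `G(n + K) = G(n)`, `K = (q M!)^k`, off `C (E + 1)` exceptions.

PROOF (induction on `k`, for all `G`, `E`, `c`). `k = 0`: `G n = c` off `E` exceptions, so `G (n+1) = G n` off `2E + 1`. Step: `l = a :: l'`, `dls l G = dls l' (dl a G)`, `(dl a G)^q = 1`; induction hypothesis for `dl a G`: `(dl a G)(n + K') = (dl a G)(n)` off `E₁ = C(E+1)` exceptions, `K' = (q M!)^k`.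
With `H = dl K' G` this says `H(n + a) = H(n)` (both are `G(n+a+K') conj G(n+K') = G(n+a) conj G(n)` rearranged; all values have modulus 1). If `a < 0` shift by `-a`: `H(n + |a|) = H(n)` off `E₁ + M`. By `ex_chain` `H(n + j |a|) = H(n)` for all `j ≤ J = q M! K'` off `C'(E₁+1)` exceptions, in particular
`H(n + i₂ M! K') = H(n)` for `i₂ < q` (`|a|` divides `M!`). Telescoping: `G(n + q M! K') conj G(n) = ∏_{i<qM!} H(n + i K') = ∏_{i₁<M!} ∏_{i₂<q} H(n + i₁K' + i₂ M! K') = ∏_{i₁<M!} H(n + i₁K')^q = 1`, off the exceptions of `H((n + i₁K') + i₂M!K') = H(n + i₁K')`,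
at most `q M!` conditions each with `≤ C'(E₁+1) + M!K'` exceptions (`ex_shift`).
-/

namespace Pool.H2.WE

open Finset

private theorem ord_unit (z : ℂ) (hz : ‖z‖ = 1) : z * (starRingEnd ℂ) z = 1 := by
  rw [Complex.mul_conj, Complex.normSq_eq_norm_sq, hz]
  simp

private theorem ord_tele (G : ℤ → ℂ) (hG : ∀ n, ‖G n‖ = 1) (T : ℤ) (m : ℕ) (n : ℤ) :
    G (n + m * T) = (∏ i ∈ range m, dl T G (n + i * T)) * G n := by
  induction m with
  | zero => simp
  | succ m ih =>
    rw [prod_range_succ]
    have h1 : G (n + ((m + 1 : ℕ) : ℤ) * T) = dl T G (n + m * T) * G (n + m * T) := by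
      unfold dl
      have h2 := ord_unit _ (hG (n + m * T))
      rw [show n + ((m + 1 : ℕ) : ℤ) * T = n + m * T + T by push_cast; ring]
      linear_combination (-G (n + m * T + T)) * h2
    rw [h1, ih]
    ring

private theorem ord_swap (G : ℤ → ℂ) (hG : ∀ n, ‖G n‖ = 1) (a K n : ℤ) (h : dl a G (n + K) = dl a G n) :
    dl K G (n + a) = dl K G n := by
  unfold dl at h ⊢
  have h1 := ord_unit _ (hG (n + K))
  have h2 := ord_unit _ (hG (n + a))
  rw [show n + K + a = n + a + K by ring] at h
  linear_combination (-(G (n + a + K) * (starRingEnd ℂ) (G (n + a)))) * h1 +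
    (G (n + K) * (starRingEnd ℂ) (G (n + a))) * h + (G (n + K) * (starRingEnd ℂ) (G n)) * h2

private theorem ord_num (C E q F K : ℕ) :
    q * (q * (F * (K * (F * (C * (E + 1) + F) + F + K * F) + F * K) + q * (F * K))) ≤
      q * (q * (F * (K * (F * (C + F) + F + K * F) + F * K) + q * (F * K))) * (E + 1) := by
  have e : ∀ x : ℕ, x ≤ x * (E + 1) := fun x => Nat.le_mul_of_pos_right x (Nat.succ_pos E)
  have h1 : F * (C * (E + 1) + F) + F + K * F ≤ (F * (C + F) + F + K * F) * (E + 1) := by
    have a1 := e (F * F)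
    have a2 := e F
    have a3 := e (K * F)
    calc F * (C * (E + 1) + F) + F + K * F = F * C * (E + 1) + F * F + F + K * F := by ring
      _ ≤ F * C * (E + 1) + F * F * (E + 1) + F * (E + 1) + K * F * (E + 1) := by omega
      _ = _ := by ring
  have h2 : F * (K * (F * (C * (E + 1) + F) + F + K * F) + F * K) ≤
      F * (K * (F * (C + F) + F + K * F) + F * K) * (E + 1) := by
    calc F * (K * (F * (C * (E + 1) + F) + F + K * F) + F * K) ≤
        F * (K * ((F * (C + F) + F + K * F) * (E + 1)) + F * K * (E + 1)) := by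
          apply Nat.mul_le_mul_left
          exact add_le_add (Nat.mul_le_mul_left _ h1) (e _)
      _ = _ := by ring
  calc q * (q * (F * (K * (F * (C * (E + 1) + F) + F + K * F) + F * K) + q * (F * K))) ≤
      q * (q * (F * (K * (F * (C + F) + F + K * F) + F * K) * (E + 1) + q * (F * K) * (E + 1))) := by
        apply Nat.mul_le_mul_left
        apply Nat.mul_le_mul_left
        exact add_le_add h2 (e _)
    _ = _ := by ring

theorem ord (q M : ℕ) (hq : 1 ≤ q) (k : ℕ) : ∃ C : ℕ, ∀ (l : List ℤ), l.length = k → (∀ a ∈ l, a ≠ 0 ∧ a.natAbs ≤ M) →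
    ∀ (N : ℕ) (G : ℤ → ℂ) (E : ℕ) (c : ℂ), (∀ n, G n ^ q = 1) → ex N (fun n => dls l G n = c) ≤ E →
      ex N (fun n => G (n + ((q * M.factorial) ^ k : ℕ)) = G n) ≤ C * (E + 1) := by
  induction k with
  | zero =>
    refine ⟨2, ?_⟩
    intro l hl _ N G E c _ hE
    have hnil : l = [] := List.length_eq_zero_iff.1 hl
    subst hnil
    have h1 : ex N (fun n => G n = c) ≤ E := hE
    have h2 := ex_shift N (fun n => G n = c) 1
    have h3 := ex_and N (fun n => G (n + 1) = c) (fun n => G n = c)
    have h4 : ex N (fun n => G (n + (((q * M.factorial) ^ 0 : ℕ) : ℤ)) = G n) ≤ ex N (fun n => G (n + 1) = c ∧ G n = c) := by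
      apply ex_mono
      intro n _ _ hn
      rw [pow_zero, Nat.cast_one, hn.1, hn.2]
    have h5 : (1 : ℤ).natAbs = 1 := rfl
    omega
  | succ k ih =>
    obtain ⟨C, hC⟩ := ih
    obtain ⟨F, hF⟩ : ∃ F, F = M.factorial := ⟨_, rfl⟩
    obtain ⟨K, hK⟩ : ∃ K, K = (q * M.factorial) ^ k := ⟨_, rfl⟩
    refine ⟨q * (q * (F * (K * (F * (C + F) + F + K * F) + F * K) + q * (F * K))), ?_⟩
    intro l hl hla N G E c hG hE
    obtain ⟨a, l', rfl⟩ : ∃ a l', l = a :: l' := by
      cases l with
      | nil => simp at hl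
      | cons a l' => exact ⟨a, l', rfl⟩
    have hl' : l'.length = k := by simpa using hl
    have hGn : ∀ n, ‖G n‖ = 1 := by
      intro n
      have h1 : ‖G n‖ ^ q = 1 := by rw [← norm_pow, hG, norm_one]
      exact (pow_eq_one_iff_of_nonneg (norm_nonneg _) (by omega)).1 h1
    have hdlq : ∀ (b : ℤ) n, dl b G n ^ q = 1 := by
      intro b n
      unfold dl
      rw [mul_pow, ← map_pow, hG, hG, map_one, one_mul]
    have hdln : ∀ (b : ℤ) n, ‖dl b G n‖ = 1 := by
      intro b n
      unfold dl
      rw [norm_mul, RCLike.norm_conj, hGn, hGn, one_mul]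
    have h1 := hC l' hl' (fun b hb => hla b (List.mem_cons_of_mem _ hb)) N (dl a G) E c (hdlq a) hE
    rw [← hK] at h1
    -- H(n + a) = H n
    have h2 : ex N (fun n => dl K G (n + a) = dl K G n) ≤ C * (E + 1) := by
      refine le_trans (ex_mono ?_) h1
      intro n _ _ hn
      exact ord_swap G hGn a K n hn
    obtain ⟨ha0, haM⟩ := hla a List.mem_cons_self
    have hapos : 0 < a.natAbs := Int.natAbs_pos.2 ha0
    obtain ⟨m0, hm0⟩ : a.natAbs ∣ F := by
      rw [hF]
      exact Nat.dvd_factorial hapos haM
    have hm0F : m0 ≤ F := by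
      rw [hm0]
      exact Nat.le_mul_of_pos_left _ hapos
    have h3 := ex_chain N (dl K G) a m0 _ h2
    have h3' : m0 * (C * (E + 1) + m0 * a.natAbs) ≤ F * (C * (E + 1) + F) := by
      have e1 : m0 * a.natAbs = F := by rw [hm0, mul_comm]
      rw [e1]
      exact Nat.mul_le_mul_right _ hm0F
    have h4 : ex N (fun n => dl K G (n + F) = dl K G n) ≤ F * (C * (E + 1) + F) + F := by
      rcases Int.natAbs_eq a with he | he
      · have e1 : (m0 : ℤ) * a = F := by rw [he, hm0]; push_cast; ring
        rw [e1] at h3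
        omega
      · have e1 : (m0 : ℤ) * a = -F := by rw [he, hm0]; push_cast; ring
        rw [e1] at h3
        have h5 := ex_shift N (fun n => dl K G (n + -(F : ℤ)) = dl K G n) F
        have h6 : ex N (fun n => dl K G (n + F) = dl K G n) ≤ ex N (fun n => dl K G (n + F + -(F : ℤ)) = dl K G (n + F)) := by
          apply ex_mono
          intro n _ _ hn
          rw [show n + (F : ℤ) + -(F : ℤ) = n by ring] at hn
          exact hn.symm
        rw [Int.natAbs_natCast] at h5
        omega
    -- H(n + T) = H n, T = F K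
    have h5 := ex_chain N (dl K G) F K _ h4
    rw [Int.natAbs_natCast] at h5
    -- Q = dl T G
    obtain ⟨T, hT⟩ : ∃ T : ℕ, T = F * K := ⟨_, rfl⟩
    have hTK : ((K : ℤ) * F) = T := by rw [hT]; push_cast; ring
    rw [hTK] at h5
    have hQ : ∀ n, dl T G n = ∏ i ∈ range F, dl K G (n + i * K) := by
      intro n
      have e1 := ord_tele G hGn K F n
      have e2 : (F : ℤ) * K = T := by rw [hT]; push_cast; ring
      rw [e2] at e1
      have e3 := ord_unit _ (hGn n)
      show G (n + T) * (starRingEnd ℂ) (G n) = _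
      rw [e1]
      linear_combination (∏ i ∈ range F, dl K G (n + i * K)) * e3
    have h6 : ex N (fun n => dl T G (n + T) = dl T G n) ≤
        F * (K * (F * (C * (E + 1) + F) + F + K * F) + F * K) := by
      have a1 := ex_all (range F) N (fun i n => dl K G (n + i * K + T) = dl K G (n + i * K))
      have a2 : ∀ i ∈ range F, ex N (fun n => dl K G (n + i * K + T) = dl K G (n + i * K)) ≤
          K * (F * (C * (E + 1) + F) + F + K * F) + F * K := by
        intro i hi
        have a3 := ex_shift N (fun n => dl K G (n + T) = dl K G n) (i * K)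
        have a4 : ((i : ℤ) * K).natAbs ≤ F * K := by
          rw [Int.natAbs_mul, Int.natAbs_natCast, Int.natAbs_natCast]
          exact Nat.mul_le_mul_right _ (mem_range.1 hi).le
        omega
      have a5 : ex N (fun n => dl T G (n + T) = dl T G n) ≤
          ex N (fun n => ∀ i ∈ range F, dl K G (n + i * K + T) = dl K G (n + i * K)) := by
        apply ex_mono
        intro n _ _ hn
        rw [hQ, hQ]
        apply prod_congr rfl
        intro i hi
        rw [show n + (T : ℤ) + i * K = n + i * K + T by ring]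
        exact hn i hi
      refine a5.trans (a1.trans ((sum_le_sum a2).trans ?_))
      rw [sum_const, card_range, smul_eq_mul]
    -- G (n + q T) = G n
    have h7 : ex N (fun n => G (n + q * T) = G n) ≤
        q * (q * (F * (K * (F * (C * (E + 1) + F) + F + K * F) + F * K) + q * T)) := by
      have a1 := ex_all (range q) N (fun i n => dl T G (n + i * T) = dl T G n)
      have a2 : ∀ i ∈ range q, ex N (fun n => dl T G (n + i * T) = dl T G n) ≤
          q * (F * (K * (F * (C * (E + 1) + F) + F + K * F) + F * K) + q * T) := by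
        intro i hi
        have a3 := ex_chain N (dl T G) T i _ h6
        rw [Int.natAbs_natCast] at a3
        refine a3.trans ?_
        have a4 : i ≤ q := (mem_range.1 hi).le
        exact Nat.mul_le_mul a4 (Nat.add_le_add_left (Nat.mul_le_mul_right _ a4) _)
      have a5 : ex N (fun n => G (n + q * T) = G n) ≤
          ex N (fun n => ∀ i ∈ range q, dl T G (n + i * T) = dl T G n) := by
        apply ex_mono
        intro n _ _ hn
        rw [ord_tele G hGn T q n, prod_congr rfl hn, prod_const, card_range, hdlq, one_mul]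
      refine a5.trans (a1.trans ((sum_le_sum a2).trans ?_))
      rw [sum_const, card_range, smul_eq_mul]
    have h8 : (((q * M.factorial) ^ (k + 1) : ℕ) : ℤ) = q * T := by
      rw [pow_succ, ← hK, ← hF, hT]
      push_cast
      ring
    rw [h8]
    refine h7.trans ?_
    rw [hT]
    exact ord_num C E q F K

end Pool.H2.WE
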