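import Mathlib

/-!
# [H2 WE NET] Finite nets in the unit disc; products

PROOF. The closed unit ball of `ℂ` is compact, hence totally bounded: finitely many centres in the ball (`IsCompact.finite_cover_balls` or `TotallyBounded`), numbered by `Fin A`. `prod_sub`: induction on the number of
factors, `x y - x' y' = (x - x') y + x'(y - y')`.
-/

namespace Pool.H2.WE

open Finset

theorem net (ρ : ℝ) (hρ : 0 < ρ) : ∃ (A : ℕ) (c : Fin A → ℂ) (rd : ℂ → Fin A), 1 ≤ A ∧ (∀ i, ‖c i‖ ≤ 1) ∧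
    ∀ z : ℂ, ‖z‖ ≤ 1 → ‖z - c (rd z)‖ ≤ ρ := by
  classical
  obtain ⟨t, ht1, ht2, ht3⟩ := (isCompact_closedBall (0 : ℂ) 1).finite_cover_balls hρ
  have hne : t.Nonempty := by
    have h0 : (0 : ℂ) ∈ Metric.closedBall (0 : ℂ) 1 := Metric.mem_closedBall_self zero_le_one
    obtain ⟨x, hx, _⟩ := Set.mem_iUnion₂.1 (ht3 h0)
    exact ⟨x, hx⟩
  obtain ⟨T, hT⟩ : ∃ T : Finset ℂ, ∀ x, x ∈ T ↔ x ∈ t := ⟨ht2.toFinset, fun x => ht2.mem_toFinset⟩
  have hTn : T.Nonempty := by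
    obtain ⟨x, hx⟩ := hne
    exact ⟨x, (hT x).2 hx⟩
  have hcard : 1 ≤ T.card := Finset.card_pos.2 hTn
  have hex : ∀ z : ℂ, ∃ i : Fin T.card, ‖z‖ ≤ 1 → ‖z - ((T.equivFin.symm i : T) : ℂ)‖ ≤ ρ := by
    intro z
    by_cases hz : ‖z‖ ≤ 1
    · have h1 : z ∈ Metric.closedBall (0 : ℂ) 1 := by
        rw [mem_closedBall_zero_iff]
        exact hz
      obtain ⟨x, hx, hzx⟩ := Set.mem_iUnion₂.1 (ht3 h1)
      refine ⟨T.equivFin ⟨x, (hT x).2 hx⟩, fun _ => ?_⟩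
      rw [Equiv.symm_apply_apply]
      have := Metric.mem_ball.1 hzx
      rw [dist_eq_norm] at this
      exact this.le
    · exact ⟨⟨0, hcard⟩, fun h => absurd h hz⟩
  choose rd hrd using hex
  refine ⟨T.card, fun i => ((T.equivFin.symm i : T) : ℂ), rd, hcard, fun i => ?_, hrd⟩
  have h1 : ((T.equivFin.symm i : T) : ℂ) ∈ t := (hT _).1 (T.equivFin.symm i).2
  have h2 := ht1 h1
  rwa [mem_closedBall_zero_iff] at h2

theorem prod_sub {ι : Type} (s : Finset ι) (x y : ι → ℂ) (hx : ∀ i ∈ s, ‖x i‖ ≤ 1) (hy : ∀ i ∈ s, ‖y i‖ ≤ 1) :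
    ‖∏ i ∈ s, x i - ∏ i ∈ s, y i‖ ≤ ∑ i ∈ s, ‖x i - y i‖ := by
  classical
  induction s using Finset.induction_on with
  | empty => simp
  | insert a s ha ih =>
    have hx' : ∀ i ∈ s, ‖x i‖ ≤ 1 := fun i hi => hx i (Finset.mem_insert_of_mem hi)
    have hy' : ∀ i ∈ s, ‖y i‖ ≤ 1 := fun i hi => hy i (Finset.mem_insert_of_mem hi)
    have h1 : ‖∏ i ∈ s, x i‖ ≤ 1 := by
      rw [norm_prod]
      exact Finset.prod_le_one (fun i _ => norm_nonneg _) hx'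
    have h2 : ‖y a‖ ≤ 1 := hy a (Finset.mem_insert_self a s)
    rw [Finset.prod_insert ha, Finset.prod_insert ha, Finset.sum_insert ha]
    have e : x a * ∏ i ∈ s, x i - y a * ∏ i ∈ s, y i =
        (x a - y a) * ∏ i ∈ s, x i + y a * (∏ i ∈ s, x i - ∏ i ∈ s, y i) := by ring
    rw [e]
    refine (norm_add_le _ _).trans ?_
    rw [norm_mul, norm_mul]
    apply add_le_add
    · exact mul_le_of_le_one_right (norm_nonneg _) h1
    · exact (mul_le_of_le_one_left (norm_nonneg _) h2).trans (ih hx' hy')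

end Pool.H2.WE
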