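import Pool.Agent.H2.WE.Exl
import Pool.Agent.H2.WE.Net

/-!
# [H2 WE DIR] Directions

PROOFS. `dir z = z/‖z‖` for `z ≠ 0`, `dir 0 = 1`. `dir_sub`: `‖z - dir z‖ = |1 - ‖z‖|`. `dir_pow`: if `z^q = r ≥ 0` and `z ≠ 0` then `(dir z)^q = r/‖z‖^q = r/|r| = 1`.
`str`: `ζ = dir (∑ x n)`; `∑ (1 - Re(conj ζ x n)) = N - ‖∑ x n‖ < δ N`, all terms are `≥ 0`, and `‖x n - ζ‖² = ‖x n‖² + 1 - 2 Re(conj ζ x n) ≤ 2 (1 - Re(conj ζ x n))`, so a term with `‖x n - ζ‖ > η/2` is `≥ η²/8`.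
`drl`: `‖g i (n + h i)‖ ≥ ‖∏‖ ≥ 1 - η/2` off `E1` exceptions `n ∈ [1,N]`, so `‖g i m‖ ≥ 1 - η/2` for `m ∈ [1 + h i, N + h i]` off `E1` exceptions, and `‖g i (n + p h i)‖ ≥ 1 - η/2` for `n ∈ [1, N]` off `E1 + p h i` exceptions (`p ≥ 1`: `n + p h i ≥ 1 + h i`; `n + p h i > N + h i` for at most `p h i` values `n ≤ N`). Then
`‖g i(..) - dir(g i(..))‖ ≤ η/2` for all `i`, `prod_sub`: `‖∏ dir - c‖ ≤ η + (k+1)η/2` off `E2 + ∑_i (E1 + p h i)` exceptions. If every `n ∈ [1, N]` is exceptional, the bound for `ex` is trivial (`ex ≤ N`), `c' = 1`. Otherwise `|‖c‖ - 1| ≤ (k+3)η/2`, `c' = dir c`: `‖∏ dir - c'‖ ≤ (k+3)η`.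
-/

namespace Pool.H2.WE

open Finset

theorem dir_norm (z : ℂ) : ‖dir z‖ = 1 := by
  unfold dir
  split_ifs with h
  · simp
  · have h1 : ‖z‖ ≠ 0 := norm_ne_zero_iff.2 h
    rw [norm_div, Complex.norm_real, norm_norm, div_self h1]

theorem dir_sub (z : ℂ) : ‖z - dir z‖ = |1 - ‖z‖| := by
  unfold dir
  split_ifs with h
  · subst h; simp
  · have h1 : ‖z‖ ≠ 0 := norm_ne_zero_iff.2 h
    have h2 : (‖z‖ : ℂ) ≠ 0 := by exact_mod_cast h1
    have h3 : z - z / (‖z‖ : ℂ) = z / (‖z‖ : ℂ) * (((‖z‖ - 1 : ℝ)) : ℂ) := by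
      push_cast
      field_simp
    rw [h3, norm_mul, norm_div, Complex.norm_real, Complex.norm_real, norm_norm, div_self h1, one_mul,
      Real.norm_eq_abs, abs_sub_comm]

theorem dir_pow (q : ℕ) (z : ℂ) (r : ℝ) (hr : 0 ≤ r) (h : z ^ q = r) : dir z ^ q = 1 := by
  unfold dir
  split_ifs with h0
  · simp
  · have h1 : ‖z‖ ≠ 0 := norm_ne_zero_iff.2 h0
    have h2 : ‖z‖ ^ q = r := by
      rw [← norm_pow, h, Complex.norm_real, Real.norm_eq_abs, abs_of_nonneg hr]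
    have h3 : (r : ℂ) ≠ 0 := by
      rw [← h]; exact pow_ne_zero _ h0
    rw [div_pow, h, ← Complex.ofReal_pow, h2, div_self h3]

open Classical in
theorem str (N : ℕ) (x : ℕ → ℂ) (hx : ∀ n, ‖x n‖ ≤ 1) (δ η : ℝ) (hη : 0 < η) (h : (1 - δ) * N < ‖∑ n ∈ Icc 1 N, x n‖) :
    ∃ ζ : ℂ, ‖ζ‖ = 1 ∧ (((Icc 1 N).filter (fun n => η / 2 < ‖x n - ζ‖)).card : ℝ) ≤ 8 * δ / η ^ 2 * N := by
  set S : ℂ := ∑ n ∈ Icc 1 N, x n with hS
  refine ⟨dir S, dir_norm S, ?_⟩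
  set ζ := dir S with hζ
  have hre : ((starRingEnd ℂ) ζ * S).re = ‖S‖ := by
    rw [hζ]; unfold dir
    split_ifs with h0
    · rw [h0]; simp
    · have h1 : ‖S‖ ≠ 0 := norm_ne_zero_iff.2 h0
      have h2 : (starRingEnd ℂ) (S / (‖S‖ : ℂ)) * S = ((‖S‖ : ℝ) : ℂ) := by
        rw [map_div₀, Complex.conj_ofReal, div_mul_eq_mul_div, Complex.conj_mul']
        have h2' : (‖S‖ : ℂ) ≠ 0 := by exact_mod_cast h1
        field_simp
      rw [h2, Complex.ofReal_re]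
  have hn : ∀ n, ‖x n - ζ‖ ^ 2 ≤ 2 * (1 - ((starRingEnd ℂ) ζ * x n).re) := by
    intro n
    have h1 : ‖x n - ζ‖ ^ 2 = ‖x n‖ ^ 2 + ‖ζ‖ ^ 2 - 2 * ((starRingEnd ℂ) ζ * x n).re := by
      rw [← Complex.normSq_eq_norm_sq, ← Complex.normSq_eq_norm_sq, ← Complex.normSq_eq_norm_sq, Complex.normSq_apply,
        Complex.normSq_apply, Complex.normSq_apply]
      simp only [Complex.sub_re, Complex.sub_im, Complex.mul_re, Complex.conj_re, Complex.conj_im]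
      ring
    rw [h1, dir_norm]
    have h2 : ‖x n‖ ^ 2 ≤ 1 := by
      have := hx n
      nlinarith [norm_nonneg (x n)]
    linarith
  have hsum : ∑ n ∈ Icc 1 N, (1 - ((starRingEnd ℂ) ζ * x n).re) = N - ‖S‖ := by
    rw [sum_sub_distrib, ← Complex.re_sum, ← mul_sum, hre]
    simp
  have hpos : ∀ n, 0 ≤ 1 - ((starRingEnd ℂ) ζ * x n).re := by
    intro n
    have := hn n
    nlinarith [sq_nonneg ‖x n - ζ‖]
  have h4 : (((Icc 1 N).filter (fun n => η / 2 < ‖x n - ζ‖)).card : ℝ) * (η ^ 2 / 8) ≤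
      ∑ n ∈ Icc 1 N, (1 - ((starRingEnd ℂ) ζ * x n).re) := by
    rw [← nsmul_eq_mul]
    refine le_trans ?_ (sum_le_sum_of_subset_of_nonneg (filter_subset (fun n => η / 2 < ‖x n - ζ‖) _) fun n _ _ => hpos n)
    refine card_nsmul_le_sum _ _ _ fun n hn' => ?_
    have h5 := (mem_filter.1 hn').2
    have h6 := hn n
    nlinarith
  rw [hsum] at h4
  have h7 : 0 < η ^ 2 := by positivity
  rw [div_mul_eq_mul_div, le_div_iff₀ h7]
  nlinarith

/-- a large product forces a large factor -/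
theorem fac_le {k : ℕ} (y : Fin (k + 1) → ℂ) (hy : ∀ i, ‖y i‖ ≤ 1) (i : Fin (k + 1)) : ‖∏ j, y j‖ ≤ ‖y i‖ := by
  rw [norm_prod, ← mul_prod_erase univ (fun j => ‖y j‖) (mem_univ i)]
  refine mul_le_of_le_one_right (norm_nonneg _) ?_
  exact prod_le_one (fun j _ => norm_nonneg _) fun j _ => hy j

theorem far_one {z ζ : ℂ} {η : ℝ} (hζ : ‖ζ‖ = 1) (h : ‖z‖ < 1 - η / 2) : η / 2 < ‖z - ζ‖ := by
  have h1 := norm_sub_norm_le ζ z
  rw [hζ, norm_sub_rev] at h1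
  linarith

open Classical in
theorem badi (k N : ℕ) (h : Fin (k + 1) → ℕ) (g : Fin (k + 1) → ℕ → ℂ) (hg : ∀ i n, ‖g i n‖ ≤ 1) (ζ : ℂ) (hζ : ‖ζ‖ = 1) (η : ℝ)
    (p : ℕ) (hp : 1 ≤ p) (E1 M : ℕ) (hM : ∀ i, h i ≤ M)
    (h1 : ((Icc 1 N).filter (fun n => η / 2 < ‖∏ i, g i (n + h i) - ζ‖)).card ≤ E1) (i : Fin (k + 1)) :
    ((Icc 1 N).filter (fun n => ‖g i (n + p * h i)‖ < 1 - η / 2)).card ≤ E1 + p * M := by
  have hsub : (Icc 1 N).filter (fun n => ‖g i (n + p * h i)‖ < 1 - η / 2) ⊆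
      (((Icc 1 N).filter (fun n => η / 2 < ‖∏ i, g i (n + h i) - ζ‖)).image (fun m => m - (p - 1) * h i)) ∪
        Ioc (N - (p - 1) * h i) N := by
    intro n hn
    obtain ⟨hn1, hn2⟩ := mem_filter.1 hn
    obtain ⟨ha, hb⟩ := mem_Icc.1 hn1
    rw [mem_union]
    by_cases hc : n + (p - 1) * h i ≤ N
    · left
      refine mem_image.2 ⟨n + (p - 1) * h i, mem_filter.2 ⟨mem_Icc.2 ⟨by omega, hc⟩, ?_⟩, by omega⟩
      refine far_one hζ (lt_of_le_of_lt (fac_le (fun j => g j (n + (p - 1) * h i + h j)) (fun j => hg _ _) i) ?_)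
      have he : n + (p - 1) * h i + h i = n + p * h i := by
        obtain ⟨p', rfl⟩ : ∃ p', p = p' + 1 := ⟨p - 1, by omega⟩
        simp only [Nat.add_sub_cancel]
        ring
      show ‖g i (n + (p - 1) * h i + h i)‖ < _
      rw [he]
      exact hn2
    · right
      rw [mem_Ioc]
      omega
  refine (card_le_card hsub).trans ((card_union_le _ _).trans ?_)
  refine add_le_add (card_image_le.trans h1) ?_
  rw [Nat.card_Ioc]
  have h3 : (p - 1) * h i ≤ p * M := Nat.mul_le_mul (Nat.sub_le _ _) (hM i)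
  omega

open Classical in
theorem drl (k N : ℕ) (h : Fin (k + 1) → ℕ) (g : Fin (k + 1) → ℕ → ℂ) (hg : ∀ i n, ‖g i n‖ ≤ 1) (ζ : ℂ) (hζ : ‖ζ‖ = 1) (η : ℝ) (hη : 0 < η)
    (hη1 : (k + 3) * η ≤ 1) (p : ℕ) (hp : 1 ≤ p) (c : ℂ) (E1 E2 M : ℕ) (hM : ∀ i, h i ≤ M)
    (h1 : ((Icc 1 N).filter (fun n => η / 2 < ‖∏ i, g i (n + h i) - ζ‖)).card ≤ E1)
    (h2 : ((Icc 1 N).filter (fun n => η < ‖∏ i, g i (n + p * h i) - c‖)).card ≤ E2) :
    ∃ c' : ℂ, ‖c'‖ = 1 ∧ ex N (fun n => ‖∏ i, dir (g i (n + (p : ℤ) * h i).toNat) - c'‖ ≤ (k + 3) * η) ≤ E2 + (k + 1) * (E1 + p * M) := by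
  set B2 := (Icc 1 N).filter (fun n => η < ‖∏ i, g i (n + p * h i) - c‖) with hB2
  set Bi : Fin (k + 1) → Finset ℕ := fun i => (Icc 1 N).filter (fun n => ‖g i (n + p * h i)‖ < 1 - η / 2) with hBi
  have hBc : (B2 ∪ univ.biUnion Bi).card ≤ E2 + (k + 1) * (E1 + p * M) := by
    refine (card_union_le _ _).trans (add_le_add h2 (card_biUnion_le.trans ?_))
    refine (sum_le_sum fun i _ => badi k N h g hg ζ hζ η p hp E1 M hM h1 i).trans ?_
    simp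
  -- good integers
  have hgood : ∀ n ∈ Icc 1 N, n ∉ B2 ∪ univ.biUnion Bi → ‖∏ i, dir (g i (n + p * h i)) - c‖ ≤ (k + 3) * η / 2 := by
    intro n hn hnb
    rw [mem_union, not_or] at hnb
    obtain ⟨ha, hb⟩ := hnb
    have hc1 : ‖∏ i, g i (n + p * h i) - c‖ ≤ η := by
      by_contra hcon
      exact ha (mem_filter.2 ⟨hn, not_le.1 hcon⟩)
    have hc2 : ∀ i, ‖dir (g i (n + p * h i)) - g i (n + p * h i)‖ ≤ η / 2 := by
      intro i
      rw [norm_sub_rev, dir_sub]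
      have h5 : 1 - η / 2 ≤ ‖g i (n + p * h i)‖ := by
        by_contra hcon
        exact hb (mem_biUnion.2 ⟨i, mem_univ i, mem_filter.2 ⟨hn, not_le.1 hcon⟩⟩)
      rw [abs_of_nonneg (by linarith [hg i (n + p * h i)])]
      linarith
    have h6 := prod_sub univ (fun i => dir (g i (n + p * h i))) (fun i => g i (n + p * h i))
      (fun i _ => (dir_norm _).le) (fun i _ => hg _ _)
    have h7 : ∑ i, ‖dir (g i (n + p * h i)) - g i (n + p * h i)‖ ≤ (k + 1) * (η / 2) := by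
      refine (sum_le_sum fun i _ => hc2 i).trans ?_
      simp
    calc ‖∏ i, dir (g i (n + p * h i)) - c‖ = ‖(∏ i, dir (g i (n + p * h i)) - ∏ i, g i (n + p * h i)) +
          (∏ i, g i (n + p * h i) - c)‖ := by rw [sub_add_sub_cancel]
      _ ≤ _ := norm_add_le _ _
      _ ≤ (k + 1) * (η / 2) + η := add_le_add (h6.trans h7) hc1
      _ = (k + 3) * η / 2 := by ring
  -- conversion
  have hconv : ∀ c' : ℂ, ex N (fun n => ‖∏ i, dir (g i (n + (p : ℤ) * h i).toNat) - c'‖ ≤ (k + 3) * η) ≤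
      ((Icc 1 N).filter (fun n => ¬ ‖∏ i, dir (g i (n + p * h i)) - c'‖ ≤ (k + 3) * η)).card := by
    intro c'
    rw [← ex_nat N (fun n => ‖∏ i, dir (g i (n + p * h i)) - c'‖ ≤ (k + 3) * η)]
    refine ex_mono fun n hn1 hn2 hq => ?_
    have h8 : ∀ i, (n + (p : ℤ) * h i).toNat = n.toNat + p * h i := by
      intro i
      have : n = (n.toNat : ℤ) := by omega
      rw [this]
      have h9 : ((n.toNat : ℤ) + (p : ℤ) * h i) = ((n.toNat + p * h i : ℕ) : ℤ) := by push_cast; ring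
      rw [h9, Int.toNat_natCast, Int.toNat_natCast]
    simp only [h8]
    exact hq
  by_cases hex : ∃ n ∈ Icc 1 N, n ∉ B2 ∪ univ.biUnion Bi
  · obtain ⟨n0, hn0, hnb0⟩ := hex
    have h10 := hgood n0 hn0 hnb0
    have h11 : ‖∏ i, dir (g i (n0 + p * h i))‖ = 1 := by
      rw [norm_prod]
      exact prod_eq_one fun i _ => dir_norm _
    have h12 : ‖c - dir c‖ ≤ (k + 3) * η / 2 := by
      rw [dir_sub]
      have h13 := abs_norm_sub_norm_le (∏ i, dir (g i (n0 + p * h i))) c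
      rw [h11] at h13
      exact h13.trans h10
    refine ⟨dir c, dir_norm c, (hconv _).trans (le_trans (card_le_card ?_) hBc)⟩
    intro n hn
    obtain ⟨hn1, hn2⟩ := mem_filter.1 hn
    by_contra hcon
    apply hn2
    have h14 := hgood n hn1 hcon
    calc ‖∏ i, dir (g i (n + p * h i)) - dir c‖ = ‖(∏ i, dir (g i (n + p * h i)) - c) + (c - dir c)‖ := by
          rw [sub_add_sub_cancel]
      _ ≤ _ := norm_add_le _ _
      _ ≤ (k + 3) * η / 2 + (k + 3) * η / 2 := add_le_add h14 h12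
      _ = (k + 3) * η := by ring
  · push Not at hex
    refine ⟨1, norm_one, (ex_le N _).trans (le_trans ?_ hBc)⟩
    calc N = (Icc 1 N).card := by simp
      _ ≤ _ := card_le_card fun n hn => hex n hn

open Classical in
/-- size of the first function -/
theorem siz (k N : ℕ) (h : Fin (k + 1) → ℕ) (g : Fin (k + 1) → ℕ → ℂ) (hg : ∀ i n, ‖g i n‖ ≤ 1) (ζ : ℂ) (hζ : ‖ζ‖ = 1) (η : ℝ) (hη : 0 < η)
    (hη1 : η ≤ 1) (E1 M : ℕ) (hM : ∀ i, h i ≤ M)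
    (h1 : ((Icc 1 N).filter (fun n => η / 2 < ‖∏ i, g i (n + h i) - ζ‖)).card ≤ E1) :
    ex N (fun n => 1 / 2 ≤ ‖g 0 n.toNat‖) ≤ E1 + M := by
  rw [ex_nat N (fun n => 1 / 2 ≤ ‖g 0 n‖)]
  have hsub : (Icc 1 N).filter (fun n => ¬ 1 / 2 ≤ ‖g 0 n‖) ⊆
      (((Icc 1 N).filter (fun n => η / 2 < ‖∏ i, g i (n + h i) - ζ‖)).image (fun m => m + h 0)) ∪ Icc 1 (h 0) := by
    intro n hn
    obtain ⟨hn1, hn2⟩ := mem_filter.1 hn
    obtain ⟨ha, hb⟩ := mem_Icc.1 hn1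
    rw [mem_union]
    by_cases hc : h 0 < n
    · left
      refine mem_image.2 ⟨n - h 0, mem_filter.2 ⟨mem_Icc.2 ⟨by omega, by omega⟩, ?_⟩, by omega⟩
      refine far_one hζ (lt_of_le_of_lt (fac_le (fun j => g j (n - h 0 + h j)) (fun j => hg _ _) 0) ?_)
      show ‖g 0 (n - h 0 + h 0)‖ < _
      rw [Nat.sub_add_cancel hc.le]
      push Not at hn2
      linarith
    · right
      rw [mem_Icc]
      omega
  refine (card_le_card hsub).trans ((card_union_le _ _).trans ?_)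
  refine add_le_add (card_image_le.trans h1) ?_
  rw [Nat.card_Icc]
  have := hM 0
  omega

end Pool.H2.WE
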