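import Pool.Agent.H2.WE.En2

/-!
# [H2 WE DEC] One step of the entropy decrement on `ℤ/N`

PROOF. `N` is divisible by all primes of `PP P`, so `(n + t).val % p = (n.val + t) % p` (`ZMod.val_add`, `ZMod.val_natCast`, `Nat.mod_mod_of_dvd`): `Y(n+t)` is a function of `Y(n)`, injective on
the values, hence by `Hn_equiv` (translation by `t m`) and `Hn_injOn`: `Hn (window [tm, (t+1)m), Y) = Hn (Xw m, Y)`. By `Hn_submod` (`h = Y`) and `Hn_injOn` (a window of length
`(t+1)m` is a pair: window of length `tm`, and the rest): `Hn(Xw ((t+1)m), Y) + Hn Y ≤ Hn(Xw (tm), Y) + Hn(Xw m, Y)`. Induction on `t`: `Hn(Xw (tm), Y) ≤ Hn Y + t (Hn(Xw m, Y) - Hn Y)` (`t = 0`: the window is trivial).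
Finally `Hn(Xw (tm)) ≤ Hn(Xw (tm), Y)` (`Hn_comp`).
`dec_mono`: the same without `Y` gives `Hn (Xw (t m)) ≤ t Hn (Xw m)`.
-/

namespace Pool.H2.WE

open Finset

private theorem dec_PP {P p : ℕ} (hp : p ∈ PP P) : P < p ∧ p ≤ 2 * P ∧ p.Prime := by
  unfold PP at hp
  rw [mem_filter, mem_Ioc] at hp
  exact ⟨hp.1.1, hp.1.2, hp.2⟩

/-- translation invariance -/
private theorem dec_shift (N A P m s : ℕ) [NeZero N] (hN : ∀ p ∈ PP P, p ∣ N)
    (a : ZMod N → Fin A) :
    Hn (fun n => (Xw a m (n + (s : ZMod N)), Yw N P n)) = Hn (fun n => (Xw a m n, Yw N P n)) := by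
  have h1 : Hn ((fun n => (Xw a m n, Yw N P n)) ∘ (Equiv.addRight (s : ZMod N))) =
      Hn (fun n => (Xw a m n, Yw N P n)) := Hn_equiv _ _
  rw [← h1]
  have hval : ∀ (n : ZMod N) (p : {p // p ∈ PP P}),
      (n + (s : ZMod N)).val % p.1 = (n.val % p.1 + s) % p.1 := by
    intro n p
    rw [ZMod.val_add, Nat.mod_mod_of_dvd _ (hN p.1 p.2), ZMod.val_natCast, Nat.add_mod,
      Nat.mod_mod_of_dvd _ (hN p.1 p.2), ← Nat.add_mod, Nat.mod_add_mod]
  have h2 : ((fun n => (Xw a m n, Yw N P n)) ∘ (Equiv.addRight (s : ZMod N))) =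
      (fun x : (Fin m → Fin A) × ({p // p ∈ PP P} → ℕ) => (x.1, fun p => (x.2 p + s) % p.1)) ∘
        (fun n => (Xw a m (n + (s : ZMod N)), Yw N P n)) := by
    funext n
    simp only [Function.comp_apply, Equiv.coe_addRight]
    congr 1
    funext p
    exact hval n p
  rw [h2]
  refine (Hn_injOn _ _ ?_).symm
  intro n n' h
  simp only [Prod.mk.injEq] at h ⊢
  refine ⟨h.1, ?_⟩
  funext p
  have h3 := congrFun h.2 p
  simp only [Yw] at h3 ⊢
  have h4 : n.val % p.1 ≡ n'.val % p.1 [MOD p.1] := Nat.ModEq.add_right_cancel' s h3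
  have h5 : (n.val % p.1) % p.1 = (n'.val % p.1) % p.1 := h4
  rwa [Nat.mod_mod, Nat.mod_mod] at h5

private theorem dec_step (N A P m t : ℕ) [NeZero N] (hN : ∀ p ∈ PP P, p ∣ N)
    (a : ZMod N → Fin A) :
    Hn (fun n => (Xw a ((t + 1) * m) n, Yw N P n)) + Hn (Yw N P) ≤
      Hn (fun n => (Xw a (t * m) n, Yw N P n)) + Hn (fun n => (Xw a m n, Yw N P n)) := by
  have h1 := Hn_submod (Xw a (t * m)) (fun n => Xw a m (n + ((t * m : ℕ) : ZMod N))) (Yw N P)
  rw [dec_shift N A P m (t * m) hN a] at h1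
  have h2 : Hn (fun n => (Xw a ((t + 1) * m) n, Yw N P n)) ≤
      Hn (fun n => (Xw a (t * m) n, Xw a m (n + ((t * m : ℕ) : ZMod N)), Yw N P n)) := by
    have h3 : (fun n => (Xw a ((t + 1) * m) n, Yw N P n)) =
        (fun x : (Fin (t * m) → Fin A) × (Fin m → Fin A) × ({p // p ∈ PP P} → ℕ) =>
          ((fun j : Fin ((t + 1) * m) => if h : j.1 < t * m then x.1 ⟨j.1, h⟩ else
            x.2.1 ⟨j.1 - t * m, by
              have h4 := j.2
              have h5 : (t + 1) * m = t * m + m := by ring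
              omega⟩), x.2.2)) ∘
        (fun n => (Xw a (t * m) n, Xw a m (n + ((t * m : ℕ) : ZMod N)), Yw N P n)) := by
      funext n
      simp only [Function.comp_apply]
      refine Prod.ext ?_ rfl
      funext j
      simp only [Xw]
      split_ifs with h
      · rfl
      · congr 1
        rw [add_assoc, ← Nat.cast_add, Nat.add_sub_cancel' (by omega)]
    rw [h3]
    exact Hn_comp _ _
  linarith

theorem dec (N A P m t : ℕ) [NeZero N] (hN : ∀ p ∈ PP P, p ∣ N) (a : ZMod N → Fin A) :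
    Hn (Xw a (t * m)) ≤ Hn (Yw N P) + t * (Hn (fun n => (Xw a m n, Yw N P n)) - Hn (Yw N P)) := by
  have h1 : Hn (fun n => (Xw a (t * m) n, Yw N P n)) ≤
      Hn (Yw N P) + t * (Hn (fun n => (Xw a m n, Yw N P n)) - Hn (Yw N P)) := by
    induction t with
    | zero =>
      have h2 : Hn (Yw N P) = Hn (fun n => (Xw a (0 * m) n, Yw N P n)) := by
        refine Hn_injOn (fun n => (Xw a (0 * m) n, Yw N P n)) Prod.snd ?_
        intro n n' h
        refine Prod.ext ?_ h
        funext j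
        have h3 := j.2
        have h4 : 0 * m = 0 := Nat.zero_mul m
        omega
      rw [← h2]
      simp
    | succ t ih =>
      have h2 := dec_step N A P m t hN a
      push_cast
      linarith
  refine le_trans ?_ h1
  exact Hn_comp (fun n => (Xw a (t * m) n, Yw N P n)) Prod.fst

theorem Hn_Yw (N P : ℕ) [NeZero N] (hP : 1 ≤ P) : Hn (Yw N P) ≤ 3 * P := by
  have h1 := Hn_le_log (Yw N P) (Fintype.piFinset fun p : {p // p ∈ PP P} => range p.1)
    (fun n => by
      rw [Fintype.mem_piFinset]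
      intro p
      rw [mem_range]
      exact Nat.mod_lt _ (dec_PP p.2).2.2.pos)
  refine h1.trans ?_
  rw [Fintype.card_piFinset]
  have h2 : ∏ p : {p // p ∈ PP P}, (range p.1).card = ∏ p ∈ PP P, p := by
    simp only [card_range]
    exact Finset.prod_coe_sort (PP P) (fun p => p)
  rw [h2]
  have h3 : ∏ p ∈ PP P, p ≤ primorial (2 * P) := by
    unfold primorial
    refine prod_le_prod_of_subset_of_one_le' ?_ ?_
    · intro p hp
      have h4 := dec_PP hp
      rw [mem_filter, mem_range]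
      exact ⟨by omega, h4.2.2⟩
    · intro p hp _
      rw [mem_filter] at hp
      exact hp.2.one_le
  have h4 : ∏ p ∈ PP P, p ≤ 4 ^ (2 * P) := h3.trans (primorial_le_four_pow _)
  have h5 : (0 : ℝ) < ((∏ p ∈ PP P, p : ℕ) : ℝ) := by
    have h6 : 0 < ∏ p ∈ PP P, p := prod_pos fun p hp => (dec_PP hp).2.2.pos
    exact_mod_cast h6
  have h6 : Real.log ((∏ p ∈ PP P, p : ℕ) : ℝ) ≤ Real.log ((4 : ℝ) ^ (2 * P)) := by
    refine Real.log_le_log h5 ?_
    exact_mod_cast h4
  refine h6.trans ?_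
  rw [Real.log_pow, show (4 : ℝ) = 2 ^ 2 by norm_num, Real.log_pow]
  have h7 := Real.log_two_lt_d9
  have h8 : (1 : ℝ) ≤ P := by exact_mod_cast hP
  push_cast
  nlinarith

theorem Hn_Xw (N A m : ℕ) [NeZero N] (a : ZMod N → Fin A) : Hn (Xw a m) ≤ m * Real.log A := by
  have h1 := Hn_le_log (Xw a m) univ (fun _ => mem_univ _)
  refine h1.trans (le_of_eq ?_)
  rw [card_univ, Fintype.card_fun, Fintype.card_fin, Fintype.card_fin]
  push_cast
  rw [Real.log_pow]

end Pool.H2.WE
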