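import Pool.Agent.H2.WE.Gib
import Pool.Agent.H2.WE.Dec

/-!
# [H2 WE CYC] Conclusion on `ℤ/N`

PROOF. `gib` with `Ω = ZMod N`, `X = Xw a (L P)`, `ι = PP P` (subtype), `m p = p`, `Y = Yw N P` (equidistributed by the Chinese remainder theorem: all `p ∈ PP P` are distinct primes dividing `N`, so their
product divides `N`; every class modulo the product contains `N/∏p` elements of `ZMod N`), `B = 2`, `lam ≤ 1/2`, and
`f_p(x, y) = ∑_{j < 2P, (j + y) % p = 0} b_p(x(j), ..)`, precisely `b_p` applied to the part `x(j), ..., x(j + (L-2)P - 1)` of the window (`j + (L-2)P ≤ LP`), for `y < p`. As `P < p`, there are at most 2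
such `j` (`2P < 2p`), so `0 ≤ f_p ≤ 2`. For `n` and `j < 2P`: `(j + n.val % p) % p = 0` iff `p ∣ (n+j).val`, and the part of `Xw a (LP) n` from `j` on is `Xw a ((L-2)P) (n+j)`. Hence
`(1/N) ∑_n f_p(X n, Y n p) = ∑_{j<2P} (1/N) ∑_n 1[p ∣ (n+j).val] b_p(Xw a ((L-2)P)(n+j)) = 2P (1/N) ∑_n 1[p ∣ n.val] b_p(n)` (translation), and
`(1/N) ∑_n (1/p) ∑_{y<p} f_p(X n, y) = (1/p) ∑_{j<2P} (1/N) ∑_n b_p(n+j) = (2P/p) (1/N) ∑_n b_p(n) ≥ (1/N)∑ b_p(n)` (every `j` has exactly one `y < p` with `(j+y) % p = 0`; `p ≤ 2P`, `b ≥ 0`). So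
`∑_p (1/N)∑_n b_p(n) ≤ 2P ∑_p (1/N) ∑_n 1[p∣n.val] b_p(n) + I/lam + 4 lam #PP`.
-/

namespace Pool.H2.WE

open Finset

private theorem cyc_card_le (p P y : ℕ) (hp : P < p) :
    ((univ : Finset (Fin (2 * P))).filter (fun j => (j.1 + y) % p = 0)).card ≤ 2 := by
  have h : ((univ : Finset (Fin (2 * P))).filter (fun j => (j.1 + y) % p = 0)).card ≤ (range 2).card := by
    refine Finset.card_le_card_of_injOn (fun j => j.1 / p) ?_ ?_
    · intro j _
      have hj := j.2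
      have : j.1 / p < 2 := (Nat.div_lt_iff_lt_mul (by omega)).2 (by omega)
      simpa using this
    · intro j hj j' hj' h
      have h1 : (j.1 + y) % p = 0 := (Finset.mem_filter.1 (Finset.mem_coe.1 hj)).2
      have h2 : (j'.1 + y) % p = 0 := (Finset.mem_filter.1 (Finset.mem_coe.1 hj')).2
      have h3 : j.1 % p = j'.1 % p := by
        have h4 : j.1 + y ≡ j'.1 + y [MOD p] := h1.trans h2.symm
        exact Nat.ModEq.add_right_cancel' y h4
      have h5 : j.1 / p = j'.1 / p := h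
      apply Fin.ext
      rw [← Nat.div_add_mod j.1 p, ← Nat.div_add_mod j'.1 p, h3, h5]
  simpa using h

private theorem cyc_iff (p j y : ℕ) (hp : 0 < p) (hy : y < p) : (j + y) % p = 0 ↔ y = (p - j % p) % p := by
  have hr : j % p < p := Nat.mod_lt _ hp
  have e : (j + y) % p = (j % p + y) % p := by rw [Nat.add_mod, Nat.mod_eq_of_lt hy]
  rw [e]
  generalize j % p = r at hr
  rcases Nat.eq_zero_or_pos r with h0 | h0
  · subst h0
    rw [Nat.zero_add, Nat.mod_eq_of_lt hy, Nat.sub_zero, Nat.mod_self]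
  · rw [Nat.mod_eq_of_lt (show p - r < p by omega)]
    rcases lt_or_ge (r + y) p with h1 | h1
    · rw [Nat.mod_eq_of_lt h1]
      omega
    · rw [Nat.mod_eq_sub_mod h1, Nat.mod_eq_of_lt (by omega)]
      omega

private theorem cyc_one (p j : ℕ) (hp : 0 < p) (c : ℝ) :
    ∑ y ∈ range p, (if (j + y) % p = 0 then c else 0) = c := by
  have h1 : ∀ y ∈ range p, (if (j + y) % p = 0 then c else 0) = (if y = (p - j % p) % p then c else 0) := by
    intro y hy
    by_cases h : (j + y) % p = 0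
    · rw [if_pos h, if_pos ((cyc_iff p j y hp (mem_range.1 hy)).1 h)]
    · rw [if_neg h, if_neg (fun hh => h ((cyc_iff p j y hp (mem_range.1 hy)).2 hh))]
  rw [Finset.sum_congr rfl h1, Finset.sum_ite_eq' (range p), if_pos (mem_range.2 (Nat.mod_lt _ hp))]

private theorem cyc_dvd (N p j : ℕ) [NeZero N] (hpN : p ∣ N) (n : ZMod N) :
    (j + n.val % p) % p = 0 ↔ p ∣ (n + (j : ZMod N)).val := by
  rw [Nat.dvd_iff_mod_eq_zero, ZMod.val_add, ZMod.val_natCast]
  have h1 : (n.val + j % N) % N ≡ j + n.val [MOD p] := by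
    have h2 : (n.val + j % N) % N ≡ n.val + j % N [MOD p] := (Nat.mod_modEq _ N).of_dvd hpN
    have h3 : n.val + j % N ≡ n.val + j [MOD p] := Nat.ModEq.add_left _ ((Nat.mod_modEq _ N).of_dvd hpN)
    rw [Nat.add_comm j]
    exact h2.trans h3
  have h4 : j + n.val % p ≡ j + n.val [MOD p] := Nat.ModEq.add_left _ (Nat.mod_modEq _ p)
  have h5 : (n.val + j % N) % N % p = (j + n.val % p) % p := h1.trans h4.symm
  rw [h5]

/-- shifted part of a window -/
private def cyc_sub {A : ℕ} (L P : ℕ) (hL : 2 ≤ L) (x : Fin (L * P) → Fin A) (j : Fin (2 * P)) :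
    Fin ((L - 2) * P) → Fin A := fun t => x ⟨j.1 + t.1, by
  have h1 := j.2
  have h2 := t.2
  have h3 : L * P = (L - 2) * P + 2 * P := by
    rw [← Nat.add_mul]
    congr 1
    omega
  omega⟩

private theorem cyc_subX (N A P L : ℕ) (hL : 2 ≤ L) (a : ZMod N → Fin A) (n : ZMod N) (j : Fin (2 * P)) :
    cyc_sub L P hL (Xw a (L * P) n) j = Xw a ((L - 2) * P) (n + ((j : ℕ) : ZMod N)) := by
  funext t
  unfold cyc_sub Xw
  congr 1
  push_cast
  ring

/-- the functions f_p -/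
private noncomputable def cyc_f {A : ℕ} (L P : ℕ) (hL : 2 ≤ L) (b : ℕ → (Fin ((L - 2) * P) → Fin A) → ℝ)
    (p : ℕ) (x : Fin (L * P) → Fin A) (y : ℕ) : ℝ :=
  ∑ j : Fin (2 * P), if (j.1 + y) % p = 0 then b p (cyc_sub L P hL x j) else 0

private theorem cyc_f_bd {A : ℕ} (L P : ℕ) (hL : 2 ≤ L) (b : ℕ → (Fin ((L - 2) * P) → Fin A) → ℝ)
    (hb : ∀ p x, 0 ≤ b p x ∧ b p x ≤ 1) (p : ℕ) (hp : P < p) (x : Fin (L * P) → Fin A) (y : ℕ) :
    0 ≤ cyc_f L P hL b p x y ∧ cyc_f L P hL b p x y ≤ 2 := by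
  unfold cyc_f
  constructor
  · refine Finset.sum_nonneg fun j _ => ?_
    split_ifs
    · exact (hb _ _).1
    · exact le_refl _
  · calc ∑ j : Fin (2 * P), (if (j.1 + y) % p = 0 then b p (cyc_sub L P hL x j) else 0) ≤
        ∑ j : Fin (2 * P), (if (j.1 + y) % p = 0 then (1 : ℝ) else 0) := by
          refine Finset.sum_le_sum fun j _ => ?_
          split_ifs
          · exact (hb _ _).2
          · exact le_refl _
      _ = (((univ : Finset (Fin (2 * P))).filter (fun j => (j.1 + y) % p = 0)).card : ℝ) := by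
          rw [Finset.sum_ite, Finset.sum_const_zero, add_zero, Finset.sum_const, nsmul_eq_mul, mul_one]
      _ ≤ 2 := by exact_mod_cast cyc_card_le p P y hp

private theorem cyc_first (N A P L : ℕ) [NeZero N] (hL : 2 ≤ L) (a : ZMod N → Fin A)
    (b : ℕ → (Fin ((L - 2) * P) → Fin A) → ℝ) (p : ℕ) (hp : 0 < p) :
    ∑ n : ZMod N, ∑ y ∈ range p, cyc_f L P hL b p (Xw a (L * P) n) y =
      2 * P * ∑ n : ZMod N, b p (Xw a ((L - 2) * P) n) := by
  have h1 : ∀ n : ZMod N, ∑ y ∈ range p, cyc_f L P hL b p (Xw a (L * P) n) y =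
      ∑ j : Fin (2 * P), b p (Xw a ((L - 2) * P) (n + ((j : ℕ) : ZMod N))) := by
    intro n
    unfold cyc_f
    rw [Finset.sum_comm]
    refine Finset.sum_congr rfl fun j _ => ?_
    rw [cyc_one p j.1 hp, cyc_subX]
  rw [Finset.sum_congr rfl (fun n _ => h1 n), Finset.sum_comm]
  have h2 : ∀ j : Fin (2 * P), ∑ n : ZMod N, b p (Xw a ((L - 2) * P) (n + ((j : ℕ) : ZMod N))) =
      ∑ n : ZMod N, b p (Xw a ((L - 2) * P) n) := fun j =>
    Equiv.sum_comp (Equiv.addRight (((j : ℕ) : ZMod N))) (fun n => b p (Xw a ((L - 2) * P) n))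
  rw [Finset.sum_congr rfl (fun j _ => h2 j), Finset.sum_const, Finset.card_univ, Fintype.card_fin,
    nsmul_eq_mul]
  push_cast
  ring

private theorem cyc_second (N A P L : ℕ) [NeZero N] (hL : 2 ≤ L) (a : ZMod N → Fin A)
    (b : ℕ → (Fin ((L - 2) * P) → Fin A) → ℝ) (p : ℕ) (hpN : p ∣ N) :
    ∑ n : ZMod N, cyc_f L P hL b p (Xw a (L * P) n) (n.val % p) =
      2 * P * ∑ n : ZMod N, (if p ∣ n.val then b p (Xw a ((L - 2) * P) n) else 0) := by
  have h1 : ∀ n : ZMod N, cyc_f L P hL b p (Xw a (L * P) n) (n.val % p) =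
      ∑ j : Fin (2 * P), (if p ∣ (n + ((j : ℕ) : ZMod N)).val then
        b p (Xw a ((L - 2) * P) (n + ((j : ℕ) : ZMod N))) else 0) := by
    intro n
    unfold cyc_f
    refine Finset.sum_congr rfl fun j _ => ?_
    rw [cyc_subX]
    by_cases h : (j.1 + n.val % p) % p = 0
    · rw [if_pos h, if_pos ((cyc_dvd N p j.1 hpN n).1 h)]
    · rw [if_neg h, if_neg (fun hh => h ((cyc_dvd N p j.1 hpN n).2 hh))]
  rw [Finset.sum_congr rfl (fun n _ => h1 n), Finset.sum_comm]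
  have h2 : ∀ j : Fin (2 * P), ∑ n : ZMod N, (if p ∣ (n + ((j : ℕ) : ZMod N)).val then
        b p (Xw a ((L - 2) * P) (n + ((j : ℕ) : ZMod N))) else 0) =
      ∑ n : ZMod N, (if p ∣ n.val then b p (Xw a ((L - 2) * P) n) else 0) := fun j =>
    Equiv.sum_comp (Equiv.addRight (((j : ℕ) : ZMod N)))
      (fun n => if p ∣ n.val then b p (Xw a ((L - 2) * P) n) else 0)
  rw [Finset.sum_congr rfl (fun j _ => h2 j), Finset.sum_const, Finset.card_univ, Fintype.card_fin,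
    nsmul_eq_mul]
  push_cast
  ring

open Classical in
private theorem cyc_crt (N P : ℕ) [NeZero N] (hN : ∀ p ∈ PP P, p ∣ N) (y : {p // p ∈ PP P} → ℕ)
    (hy : ∀ i, y i < i.1) :
    (univ.filter (fun w : ZMod N => Yw N P w = y)).card * ∏ i : {p // p ∈ PP P}, i.1 =
      Fintype.card (ZMod N) := by
  have hprime : ∀ i : {p // p ∈ PP P}, Nat.Prime i.1 := fun i => (Finset.mem_filter.1 i.2).2
  have hcop : Set.Pairwise ((univ : Finset {p // p ∈ PP P}) : Set {p // p ∈ PP P})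
      (Function.onFun Nat.Coprime (fun i : {p // p ∈ PP P} => i.1)) := by
    intro i _ k _ hik
    exact (Nat.coprime_primes (hprime i) (hprime k)).2 (fun h => hik (Subtype.ext h))
  obtain ⟨c, hc⟩ := Nat.chineseRemainderOfFinset (fun i : {p // p ∈ PP P} => y i)
    (fun i : {p // p ∈ PP P} => i.1) univ (fun i _ => (hprime i).ne_zero) hcop
  obtain ⟨Q, hQ⟩ : ∃ Q : ℕ, Q = ∏ i : {p // p ∈ PP P}, i.1 := ⟨_, rfl⟩
  have hQ0 : 0 < Q := by
    rw [hQ]
    exact Finset.prod_pos fun i _ => (hprime i).pos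
  have hcopZ : Set.Pairwise ((univ : Finset {p // p ∈ PP P}) : Set {p // p ∈ PP P})
      (Function.onFun IsCoprime (fun i : {p // p ∈ PP P} => ((i.1 : ℕ) : ℤ))) := by
    intro i hi k hk hik
    exact Nat.isCoprime_iff_coprime.2 (hcop hi hk hik)
  have hdvd : ∀ z : ℤ, (∀ i : {p // p ∈ PP P}, ((i.1 : ℕ) : ℤ) ∣ z) → (Q : ℤ) ∣ z := by
    intro z hz
    rw [hQ, Nat.cast_prod]
    exact Finset.prod_dvd_of_coprime hcopZ (fun i _ => hz i)
  have hQN : Q ∣ N := by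
    have := hdvd (N : ℤ) (fun i => Int.natCast_dvd_natCast.2 (hN i.1 i.2))
    exact Int.natCast_dvd_natCast.1 this
  have hiff : ∀ n : ℕ, ((fun p : {p // p ∈ PP P} => n % p.1) = y ↔ n ≡ c [MOD Q]) := by
    intro n
    constructor
    · intro h
      rw [Nat.modEq_iff_dvd]
      refine hdvd _ fun i => ?_
      rw [← Nat.modEq_iff_dvd]
      have h1 : n % i.1 = y i := congrFun h i
      have h2 : c % i.1 = y i % i.1 := hc i (mem_univ i)
      show n % i.1 = c % i.1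
      rw [h1, h2, Nat.mod_eq_of_lt (hy i)]
    · intro h
      funext i
      have h3 : i.1 ∣ Q := by
        rw [hQ]
        exact Finset.dvd_prod_of_mem (fun i : {p // p ∈ PP P} => i.1) (mem_univ i)
      have h4 : n % i.1 = c % i.1 := h.of_dvd h3
      have h2 : c % i.1 = y i % i.1 := hc i (mem_univ i)
      rw [h4, h2, Nat.mod_eq_of_lt (hy i)]
  have hcard : (univ.filter (fun w : ZMod N => Yw N P w = y)).card =
      ((range N).filter (fun n => n ≡ c [MOD Q])).card := by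
    refine Finset.card_bij (fun w _ => w.val) ?_ ?_ ?_
    · intro w hw
      rw [Finset.mem_filter] at hw ⊢
      exact ⟨mem_range.2 (ZMod.val_lt w), (hiff w.val).1 hw.2⟩
    · intro w _ w' _ h
      exact ZMod.val_injective N h
    · intro n hn
      rw [Finset.mem_filter, mem_range] at hn
      have hval : ((n : ℕ) : ZMod N).val = n := ZMod.val_natCast_of_lt hn.1
      refine ⟨(n : ZMod N), ?_, hval⟩
      rw [Finset.mem_filter]
      refine ⟨mem_univ _, ?_⟩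
      have h5 := (hiff n).2 hn.2
      rw [← h5]
      funext p
      unfold Yw
      rw [hval]
  rw [hcard, ← hQ, ZMod.card, ← Nat.count_eq_card_filter_range, Nat.count_modEq_card N hQ0 c]
  have hmod : N % Q = 0 := Nat.mod_eq_zero_of_dvd hQN
  rw [hmod]
  simp only [Nat.not_lt_zero, if_false, Nat.add_zero]
  exact Nat.div_mul_cancel hQN

private theorem cyc_arith (n P p M D : ℝ) (hn : 0 < n) (hp : 0 < p) (hpP : p ≤ 2 * P) (hM : 0 ≤ M) :
    (1 / n) * M - 2 * P * ((1 / n) * D) ≤ (1 / n) * ((1 / p) * (2 * P * M) - 2 * P * D) := by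
  have h1 : M ≤ (1 / p) * (2 * P * M) := by
    rw [one_div, inv_mul_eq_div, le_div_iff₀ hp]
    nlinarith
  have h2 : 0 ≤ 1 / n := by positivity
  have h3 := mul_le_mul_of_nonneg_left h1 h2
  nlinarith

theorem cyc (N A P L : ℕ) [NeZero N] (hL : 2 ≤ L) (hP : 1 ≤ P) (hN : ∀ p ∈ PP P, p ∣ N) (a : ZMod N → Fin A)
    (b : ℕ → (Fin ((L - 2) * P) → Fin A) → ℝ) (hb : ∀ p x, 0 ≤ b p x ∧ b p x ≤ 1) (lam : ℝ) (hl : 0 < lam) (hl2 : lam ≤ 1 / 2) :
    ∑ p ∈ PP P, (1 / (N : ℝ)) * ∑ n : ZMod N, b p (Xw a ((L - 2) * P) n) ≤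
      2 * P * ∑ p ∈ PP P, (1 / (N : ℝ)) * ∑ n : ZMod N, (if p ∣ n.val then b p (Xw a ((L - 2) * P) n) else 0) +
        (Hn (Xw a (L * P)) + Hn (Yw N P) - Hn (fun n => (Xw a (L * P) n, Yw N P n))) / lam + 4 * lam * (PP P).card := by
  classical
  have hprime : ∀ i : {p // p ∈ PP P}, Nat.Prime i.1 := fun i => (Finset.mem_filter.1 i.2).2
  have hPp : ∀ i : {p // p ∈ PP P}, P < i.1 := fun i =>
    (Finset.mem_Ioc.1 (Finset.mem_filter.1 i.2).1).1
  have hpP : ∀ i : {p // p ∈ PP P}, i.1 ≤ 2 * P := fun i =>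
    (Finset.mem_Ioc.1 (Finset.mem_filter.1 i.2).1).2
  have hg := gib (Xw a (L * P)) (Yw N P) (fun i : {p // p ∈ PP P} => i.1) (fun i => (hprime i).one_lt.le)
    (fun w i => Nat.mod_lt _ (hprime i).pos) (fun y hy => cyc_crt N P hN y hy)
    (fun i x y => cyc_f L P hL b i.1 x y) 2 lam (by norm_num) (fun i x y => cyc_f_bd L P hL b hb i.1 (hPp i) x y)
    hl (by linarith)
  rw [ZMod.card, Fintype.card_coe] at hg
  have hN0 : (0 : ℝ) < N := by
    have := NeZero.pos N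
    exact_mod_cast this
  have hsum : (1 / (N : ℝ)) * ∑ w : ZMod N, ∑ i : {p // p ∈ PP P},
      ((1 / (i.1 : ℝ)) * ∑ y ∈ range i.1, cyc_f L P hL b i.1 (Xw a (L * P) w) y -
        cyc_f L P hL b i.1 (Xw a (L * P) w) (Yw N P w i)) =
      ∑ i : {p // p ∈ PP P}, (1 / (N : ℝ)) * ((1 / (i.1 : ℝ)) *
        (2 * P * ∑ n : ZMod N, b i.1 (Xw a ((L - 2) * P) n)) -
        2 * P * ∑ n : ZMod N, (if i.1 ∣ n.val then b i.1 (Xw a ((L - 2) * P) n) else 0)) := by
    rw [Finset.sum_comm, Finset.mul_sum]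
    refine Finset.sum_congr rfl fun i _ => ?_
    rw [Finset.sum_sub_distrib, ← Finset.mul_sum, cyc_first N A P L hL a b i.1 (hprime i).pos]
    congr 2
    exact cyc_second N A P L hL a b i.1 (hN i.1 i.2)
  rw [hsum] at hg
  have hlow : ∑ i : {p // p ∈ PP P}, ((1 / (N : ℝ)) * ∑ n : ZMod N, b i.1 (Xw a ((L - 2) * P) n) -
      2 * P * ((1 / (N : ℝ)) * ∑ n : ZMod N, (if i.1 ∣ n.val then b i.1 (Xw a ((L - 2) * P) n) else 0))) ≤
      ∑ i : {p // p ∈ PP P}, (1 / (N : ℝ)) * ((1 / (i.1 : ℝ)) *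
        (2 * P * ∑ n : ZMod N, b i.1 (Xw a ((L - 2) * P) n)) -
        2 * P * ∑ n : ZMod N, (if i.1 ∣ n.val then b i.1 (Xw a ((L - 2) * P) n) else 0)) := by
    refine Finset.sum_le_sum fun i _ => ?_
    refine cyc_arith _ _ _ _ _ hN0 ?_ ?_ ?_
    · exact_mod_cast (hprime i).pos
    · exact_mod_cast hpP i
    · exact Finset.sum_nonneg fun n _ => (hb _ _).1
  have h1 := hlow.trans hg
  rw [Finset.sum_sub_distrib] at h1
  have e1 : ∑ i : {p // p ∈ PP P}, (1 / (N : ℝ)) * ∑ n : ZMod N, b i.1 (Xw a ((L - 2) * P) n) =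
      ∑ p ∈ PP P, (1 / (N : ℝ)) * ∑ n : ZMod N, b p (Xw a ((L - 2) * P) n) :=
    Finset.sum_coe_sort (PP P) (fun p => (1 / (N : ℝ)) * ∑ n : ZMod N, b p (Xw a ((L - 2) * P) n))
  have e2 : ∑ i : {p // p ∈ PP P}, (1 / (N : ℝ)) * ∑ n : ZMod N,
      (if i.1 ∣ n.val then b i.1 (Xw a ((L - 2) * P) n) else 0) =
      ∑ p ∈ PP P, (1 / (N : ℝ)) * ∑ n : ZMod N, (if p ∣ n.val then b p (Xw a ((L - 2) * P) n) else 0) :=
    Finset.sum_coe_sort (PP P) (fun p => (1 / (N : ℝ)) * ∑ n : ZMod N,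
      (if p ∣ n.val then b p (Xw a ((L - 2) * P) n) else 0))
  have e4 : ∑ i : {p // p ∈ PP P}, 2 * P * ((1 / (N : ℝ)) * ∑ n : ZMod N,
      (if i.1 ∣ n.val then b i.1 (Xw a ((L - 2) * P) n) else 0)) =
      2 * P * ∑ p ∈ PP P, (1 / (N : ℝ)) * ∑ n : ZMod N,
        (if p ∣ n.val then b p (Xw a ((L - 2) * P) n) else 0) := by
    rw [← Finset.mul_sum, e2]
  rw [e1, e4] at h1
  have e3 : lam * (2 : ℝ) ^ 2 * ((PP P).card : ℝ) = 4 * lam * (PP P).card := by ring
  rw [e3] at h1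
  linarith

end Pool.H2.WE
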