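import Pool.Agent.H2.WE.Gds
import Pool.Agent.H2.WE.Cyc
import Pool.Agent.H2.WE.Net

/-!
# [H2 WE EDC] Entropy decrement at one scale for multiplicative functions

PROOF. `hm = max h`, `L = hm·2 + 3` (so that `(L-2) P > 2P hm`), `ε' = (ε/16)²`-like: choose `lam = min(1/2, ε/64)` and `ε' = lam ε/8`, so `I/lam + 4 lam #PP ≤ (ε/8 + ε/16)#PP`. `net` with
`ρ = η/(8(k+1))`: `A', c, rd`. The alphabet is `Fin (k+1) → Fin A'`, coded by `Fin A` (`A = A'^(k+1)`, `finFunctionFinEquiv` or any equivalence). `gds` with `ε', A, L, max P0 P00`, `P00` with `8(k+1)/P00 ≤ ε/8`: `Pmax`.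
`W = ∏_{p ≤ 2Pmax} p`, `δ = ε/(16 Pmax)`, `N0` large. For `N ≥ N0` let `N' = W⌊N/W⌋`, so `N - W < N' ≤ N`. On `ZMod N'` put `a(n) = ` code of `(rd (g i (n.val)))_i` (`n.val = 0` is read as `N'`: irrelevant, one value). `P` from `gds`.
`c_p = ζ ∏_i g i p`. `b_p(x) = 1` if `‖∏_i c(x(p h_i)_i) - c_p‖ > 3η/4` (decode; the position `p h_i ≤ 2P hm < (L-2)P` lies in the window), else `0`. For `n ∈ [1, N' - 2Pmax hm)` the window at `n` is the true one
(no wrap around) and by `prod_sub` `‖∏ c(..) - ∏ g i (n + p h i)‖ ≤ (k+1)ρ ≤ η/8`. So if `‖∏ g i(n + p h i) - c_p‖ > η` then `b_p = 1`, and if `b_p = 1` then `‖∏ g i (n + p h i) - c_p‖ > η/2`.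
If `p ∣ n`, `n = p m`: `g i (n + p h i) = g i (p (m + h i)) = g i p g i (m + h i)` unless `p ∣ m + h i`, so then `‖∏ - c_p‖ ≤ ‖∏ g i(m + h i) - ζ‖`, which is `≤ η/2` unless `m ≤ N/p` is one of the `≤ δN` exceptions. So
`#{n ≤ N', p ∣ n, b_p(n) = 1} ≤ δN + (k+1)(N/p² + 1) + 2Pmax hm + 2`. `cyc`: `∑_p #{n ≤ N' : b_p = 1} ≤ 2P ∑_p (δN + (k+1)N/P² + k + 1 + 2Pmax hm + 2) + (3ε/16)#PP N'` and `2Pδ ≤ ε/8`, `2(k+1)/P ≤ ε/8`, the rest is `o(N)`:
`≤ (3ε/4) #PP N`. The `n` in `(N', N]` or near `N'` are `O(1)`: total `≤ ε #PP N`.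
-/

namespace Pool.H2.WE

open Finset Pool.H2.MR

/-- decoded value -/
noncomputable def dv {A A' k M : ℕ} (e : (Fin (k + 1) → Fin A') ≃ Fin A) (cc : Fin A' → ℂ) (j : ℕ) (i : Fin (k + 1))
    (x : Fin M → Fin A) : ℂ :=
  if hj : j < M then cc (e.symm (x ⟨j, hj⟩) i) else 0

theorem dv_le {A A' k M : ℕ} (e : (Fin (k + 1) → Fin A') ≃ Fin A) (cc : Fin A' → ℂ) (hcc : ∀ i, ‖cc i‖ ≤ 1) (j : ℕ)
    (i : Fin (k + 1)) (x : Fin M → Fin A) : ‖dv e cc j i x‖ ≤ 1 := by
  unfold dv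
  split_ifs with hj
  · exact hcc _
  · simp

theorem dv_eq {A A' k M N' : ℕ} [NeZero N'] (e : (Fin (k + 1) → Fin A') ≃ Fin A) (cc : Fin A' → ℂ) (rd : ℂ → Fin A')
    (g : Fin (k + 1) → ℕ → ℂ) (j n : ℕ) (i : Fin (k + 1)) (hj : j < M) (hn : n + j < N') :
    dv e cc j i (Xw (fun z : ZMod N' => e (fun i => rd (g i z.val))) M (n : ZMod N')) = cc (rd (g i (n + j))) := by
  unfold dv
  rw [dif_pos hj]
  simp only [Xw, Equiv.symm_apply_apply]
  rw [← Nat.cast_add, ZMod.val_natCast, Nat.mod_eq_of_lt hn]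

theorem dv_approx {A A' k M N' : ℕ} [NeZero N'] (e : (Fin (k + 1) → Fin A') ≃ Fin A) (cc : Fin A' → ℂ)
    (hcc : ∀ i, ‖cc i‖ ≤ 1) (rd : ℂ → Fin A') (ρ : ℝ) (hrd : ∀ z : ℂ, ‖z‖ ≤ 1 → ‖z - cc (rd z)‖ ≤ ρ)
    (g : Fin (k + 1) → ℕ → ℂ) (hg : ∀ i n, ‖g i n‖ ≤ 1) (h : Fin (k + 1) → ℕ) (p n : ℕ)
    (hj : ∀ i, p * h i < M) (hn : ∀ i, n + p * h i < N') :
    ‖∏ i, dv e cc (p * h i) i (Xw (fun z : ZMod N' => e (fun i => rd (g i z.val))) M (n : ZMod N')) -
      ∏ i, g i (n + p * h i)‖ ≤ (k + 1) * ρ := by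
  have h1 := prod_sub univ
    (fun i => dv e cc (p * h i) i (Xw (fun z : ZMod N' => e (fun i => rd (g i z.val))) M (n : ZMod N')))
    (fun i => g i (n + p * h i)) (fun i _ => dv_le e cc hcc _ _ _) (fun i _ => hg _ _)
  refine h1.trans ?_
  have h2 : ∀ i ∈ (univ : Finset (Fin (k + 1))),
      ‖dv e cc (p * h i) i (Xw (fun z : ZMod N' => e (fun i => rd (g i z.val))) M (n : ZMod N')) -
        g i (n + p * h i)‖ ≤ ρ := by
    intro i _
    rw [dv_eq e cc rd g (p * h i) n i (hj i) (hn i), norm_sub_rev]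
    exact hrd _ (hg _ _)
  refine (Finset.sum_le_sum h2).trans ?_
  rw [Finset.sum_const, Finset.card_univ, Fintype.card_fin, nsmul_eq_mul]
  push_cast
  exact le_rfl

theorem sum_zmod (N' : ℕ) [NeZero N'] (f : ZMod N' → ℝ) : ∑ z : ZMod N', f z = ∑ n ∈ range N', f (n : ZMod N') := by
  refine Finset.sum_nbij' (fun z => z.val) (fun n => (n : ZMod N')) ?_ ?_ ?_ ?_ ?_
  · intro z _
    exact Finset.mem_range.mpr (ZMod.val_lt z)
  · intro n _
    exact Finset.mem_univ _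
  · intro z _
    exact ZMod.natCast_zmod_val z
  · intro n hn
    exact ZMod.val_cast_of_lt (Finset.mem_range.mp hn)
  · intro z _
    rw [ZMod.natCast_zmod_val z]

theorem card_dvd_shift (X p t : ℕ) (hp : 1 ≤ p) : ((Icc 1 X).filter (fun m => p ∣ m + t)).card ≤ X / p + 1 := by
  have h1 : ((Icc 1 X).filter (fun m => p ∣ m + t)).card ≤ (range (X / p + 1)).card := by
    refine Finset.card_le_card_of_injOn (fun m => m / p) ?_ ?_
    · intro m hm
      have hm' := Finset.mem_filter.mp (Finset.mem_coe.mp hm)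
      have h2 : m ≤ X := (Finset.mem_Icc.mp hm'.1).2
      have h3 : m / p ≤ X / p := Nat.div_le_div_right h2
      simp only [Finset.coe_range, Set.mem_Iio]
      omega
    · intro m hm m' hm' he
      have h1 := (Finset.mem_filter.mp (Finset.mem_coe.mp hm)).2
      have h2 := (Finset.mem_filter.mp (Finset.mem_coe.mp hm')).2
      have he' : m / p = m' / p := he
      have h3 : m % p = m' % p := by
        have h4 : (m + t) ≡ (m' + t) [MOD p] := by
          rw [Nat.ModEq, Nat.mod_eq_zero_of_dvd h1, Nat.mod_eq_zero_of_dvd h2]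
        exact Nat.ModEq.add_right_cancel' t h4
      rw [← Nat.div_add_mod m p, ← Nat.div_add_mod m' p, he', h3]
  rwa [Finset.card_range] at h1

/-- the exceptional set -/
noncomputable def bb {A A' k M : ℕ} (e : (Fin (k + 1) → Fin A') ≃ Fin A) (cc : Fin A' → ℂ) (h : Fin (k + 1) → ℕ)
    (c : ℕ → ℂ) (η : ℝ) (p : ℕ) (x : Fin M → Fin A) : ℝ := by
  classical exact if 3 * η / 4 < ‖∏ i, dv e cc (p * h i) i x - c p‖ then 1 else 0

theorem bb_nonneg {A A' k M : ℕ} (e : (Fin (k + 1) → Fin A') ≃ Fin A) (cc : Fin A' → ℂ) (h : Fin (k + 1) → ℕ)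
    (c : ℕ → ℂ) (η : ℝ) (p : ℕ) (x : Fin M → Fin A) : 0 ≤ bb e cc h c η p x ∧ bb e cc h c η p x ≤ 1 := by
  unfold bb
  split_ifs <;> norm_num

open Classical in
theorem left_bound {A A' k M N' N W hm Pm : ℕ} [NeZero N'] (e : (Fin (k + 1) → Fin A') ≃ Fin A) (cc : Fin A' → ℂ)
    (hcc : ∀ i, ‖cc i‖ ≤ 1) (rd : ℂ → Fin A') (η : ℝ) (hη : 0 < η)
    (hrd : ∀ z : ℂ, ‖z‖ ≤ 1 → ‖z - cc (rd z)‖ ≤ η / (8 * (k + 1)))
    (g : Fin (k + 1) → ℕ → ℂ) (hg : ∀ i n, ‖g i n‖ ≤ 1) (h : Fin (k + 1) → ℕ) (c : ℕ → ℂ) (p : ℕ)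
    (hj : ∀ i, p * h i < M) (hhm : ∀ i, h i ≤ hm) (hp : p ≤ 2 * Pm) (hNN : N < N' + W) :
    (((Icc 1 N).filter (fun n => η < ‖∏ i, g i (n + p * h i) - c p‖)).card : ℝ) ≤
      ∑ n ∈ range N', bb e cc h c η p (Xw (fun z : ZMod N' => e (fun i => rd (g i z.val))) M (n : ZMod N')) +
        (W + 2 * Pm * hm + 1) := by
  set S := (Icc 1 N).filter (fun n => η < ‖∏ i, g i (n + p * h i) - c p‖) with hS
  set S1 := S.filter (fun n => n + 2 * Pm * hm < N') with hS1
  have hphi : ∀ i, p * h i ≤ 2 * Pm * hm := fun i => Nat.mul_le_mul hp (hhm i)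
  have h1 : S ⊆ S1 ∪ Icc (N' - 2 * Pm * hm) N := by
    intro n hn
    rw [Finset.mem_union]
    by_cases h2 : n + 2 * Pm * hm < N'
    · exact Or.inl (Finset.mem_filter.mpr ⟨hn, h2⟩)
    · right
      rw [Finset.mem_Icc]
      have h3 := (Finset.mem_Icc.mp (Finset.mem_filter.mp hn).1).2
      exact ⟨by omega, h3⟩
  have h2 : S.card ≤ S1.card + (W + 2 * Pm * hm + 1) := by
    refine (Finset.card_le_card h1).trans ((Finset.card_union_le _ _).trans ?_)
    rw [Nat.card_Icc]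
    omega
  have h3 : (S1.card : ℝ) ≤
      ∑ n ∈ range N', bb e cc h c η p (Xw (fun z : ZMod N' => e (fun i => rd (g i z.val))) M (n : ZMod N')) := by
    have h4 : S1 ⊆ range N' := by
      intro n hn
      have := (Finset.mem_filter.mp hn).2
      exact Finset.mem_range.mpr (by omega)
    calc (S1.card : ℝ) = ∑ n ∈ S1, (1 : ℝ) := by simp
      _ ≤ ∑ n ∈ S1, bb e cc h c η p (Xw (fun z : ZMod N' => e (fun i => rd (g i z.val))) M (n : ZMod N')) := by
          refine Finset.sum_le_sum fun n hn => ?_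
          have h5 := (Finset.mem_filter.mp hn).2
          have h6 := (Finset.mem_filter.mp (Finset.mem_filter.mp hn).1).2
          have h7 := dv_approx (N' := N') (M := M) e cc hcc rd _ hrd g hg h p n hj
            (fun i => by have := hphi i; omega)
          have h8 : ((k : ℝ) + 1) * (η / (8 * (k + 1))) = η / 8 := by
            field_simp
          rw [h8] at h7
          unfold bb
          rw [if_pos]
          set D := ∏ i, dv e cc (p * h i) i (Xw (fun z : ZMod N' => e (fun i => rd (g i z.val))) M (n : ZMod N'))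
          set G := ∏ i, g i (n + p * h i)
          have h9 : ‖G - c p‖ ≤ ‖D - c p‖ + ‖D - G‖ := by
            have : G - c p = (D - c p) - (D - G) := by ring
            rw [this]
            exact norm_sub_le _ _
          linarith
      _ ≤ _ := Finset.sum_le_sum_of_subset_of_nonneg h4 (fun n _ _ => (bb_nonneg e cc h c η p _).1)
  have h10 : (S.card : ℝ) ≤ (S1.card : ℝ) + (W + 2 * Pm * hm + 1) := by exact_mod_cast h2
  linarith

open Classical in
theorem right_bound {A A' k M N' N hm Pm : ℕ} [NeZero N'] (e : (Fin (k + 1) → Fin A') ≃ Fin A) (cc : Fin A' → ℂ)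
    (hcc : ∀ i, ‖cc i‖ ≤ 1) (rd : ℂ → Fin A') (η : ℝ) (hη : 0 < η)
    (hrd : ∀ z : ℂ, ‖z‖ ≤ 1 → ‖z - cc (rd z)‖ ≤ η / (8 * (k + 1)))
    (g : Fin (k + 1) → ℕ → ℂ) (hg : ∀ i, OB (g i)) (h : Fin (k + 1) → ℕ) (ζ : ℂ) (p : ℕ) (hpp : p.Prime)
    (hj : ∀ i, p * h i < M) (hhm : ∀ i, h i ≤ hm) (hp : p ≤ 2 * Pm) (hNN : N' ≤ N) (δ : ℝ)
    (hex : (((Icc 1 N).filter (fun n => η / 2 < ‖∏ i, g i (n + h i) - ζ‖)).card : ℝ) ≤ δ * N) :
    ∑ n ∈ range N', (if p ∣ ((n : ZMod N')).val then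
      bb e cc h (fun p => ζ * ∏ i, g i p) η p (Xw (fun z : ZMod N' => e (fun i => rd (g i z.val))) M (n : ZMod N'))
      else 0) ≤ δ * N + ((k + 1) * (N / p ^ 2 + 1) + (2 * Pm * hm + 2)) := by
  set b : ℕ → ℝ := fun n => bb e cc h (fun p => ζ * ∏ i, g i p) η p
    (Xw (fun z : ZMod N' => e (fun i => rd (g i z.val))) M (n : ZMod N')) with hb
  have hphi : ∀ i, p * h i ≤ 2 * Pm * hm := fun i => Nat.mul_le_mul hp (hhm i)
  have hp0 : 0 < p := hpp.pos
  set T := (range N').filter (fun n => p ∣ n ∧ b n = 1) with hT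
  have h1 : ∑ n ∈ range N', (if p ∣ ((n : ZMod N')).val then b n else 0) ≤ T.card := by
    calc ∑ n ∈ range N', (if p ∣ ((n : ZMod N')).val then b n else 0)
        ≤ ∑ n ∈ range N', (if p ∣ n ∧ b n = 1 then (1 : ℝ) else 0) := by
          refine Finset.sum_le_sum fun n hn => ?_
          rw [ZMod.val_cast_of_lt (Finset.mem_range.mp hn)]
          by_cases h2 : p ∣ n
          · rw [if_pos h2]
            by_cases h3 : b n = 1
            · rw [if_pos ⟨h2, h3⟩, h3]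
            · rw [if_neg (fun h => h3 h.2)]
              have h4 : b n = 1 ∨ b n = 0 := by
                simp only [hb]
                unfold bb
                split_ifs
                · exact Or.inl rfl
                · exact Or.inr rfl
              rcases h4 with h4 | h4
              · exact absurd h4 h3
              · rw [h4]
          · rw [if_neg h2]
            split_ifs <;> norm_num
      _ = T.card := by
          rw [Finset.sum_ite, Finset.sum_const_zero, add_zero, Finset.sum_const, nsmul_eq_mul, mul_one]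
  set E := (Icc 1 N).filter (fun n => η / 2 < ‖∏ i, g i (n + h i) - ζ‖) with hE
  set U : Fin (k + 1) → Finset ℕ := fun i => (Icc 1 (N / p)).filter (fun m => p ∣ m + h i) with hU
  have h2 : T ⊆ (insert 0 (Ico (N' - 2 * Pm * hm) N')) ∪
      ((E ∪ univ.biUnion U).image (fun m => p * m)) := by
    intro n hn
    obtain ⟨hn1, ⟨m, rfl⟩, hn3⟩ := Finset.mem_filter.mp hn
    rw [Finset.mem_range] at hn1
    rw [Finset.mem_union]
    by_cases h3 : p * m = 0
    · left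
      rw [h3]
      exact Finset.mem_insert_self _ _
    by_cases h4 : p * m + 2 * Pm * hm < N'
    swap
    · left
      refine Finset.mem_insert_of_mem (Finset.mem_Ico.mpr ⟨by omega, hn1⟩)
    right
    have hm0 : 1 ≤ m := by
      rcases Nat.eq_zero_or_pos m with h5 | h5
      · exact absurd (by rw [h5, mul_zero]) h3
      · exact h5
    refine Finset.mem_image.mpr ⟨m, ?_, rfl⟩
    rw [Finset.mem_union]
    have hmN : m ≤ N / p := by
      rw [Nat.le_div_iff_mul_le hp0, mul_comm]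
      omega
    by_cases h5 : ∃ i, p ∣ m + h i
    · right
      obtain ⟨i, hi⟩ := h5
      exact Finset.mem_biUnion.mpr ⟨i, Finset.mem_univ _, Finset.mem_filter.mpr
        ⟨Finset.mem_Icc.mpr ⟨hm0, hmN⟩, hi⟩⟩
    left
    push Not at h5
    refine Finset.mem_filter.mpr ⟨Finset.mem_Icc.mpr ⟨hm0, hmN.trans (Nat.div_le_self _ _)⟩, ?_⟩
    have h7 := dv_approx (N' := N') (M := M) e cc hcc rd _ hrd g (fun i n => (hg i).bd n) h p (p * m) hj
      (fun i => by have := hphi i; omega)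
    have h8 : ((k : ℝ) + 1) * (η / (8 * (k + 1))) = η / 8 := by
      field_simp
    rw [h8] at h7
    simp only [hb] at hn3
    unfold bb at hn3
    have h9 : 3 * η / 4 < ‖∏ i, dv e cc (p * h i) i
        (Xw (fun z : ZMod N' => e (fun i => rd (g i z.val))) M ((p * m : ℕ) : ZMod N')) - ζ * ∏ i, g i p‖ := by
      by_contra h10
      rw [if_neg h10] at hn3
      norm_num at hn3
    have h11 : ∏ i, g i (p * m + p * h i) = (∏ i, g i p) * ∏ i, g i (m + h i) := by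
      rw [← Finset.prod_mul_distrib]
      refine Finset.prod_congr rfl fun i _ => ?_
      rw [← mul_add]
      exact (hg i).mul _ _ ((Nat.Prime.coprime_iff_not_dvd hpp).mpr (h5 i))
    have h12 : ‖∏ i, g i p‖ ≤ 1 := by
      rw [norm_prod]
      exact Finset.prod_le_one (fun i _ => norm_nonneg _) (fun i _ => (hg i).bd p)
    set D := ∏ i, dv e cc (p * h i) i
        (Xw (fun z : ZMod N' => e (fun i => rd (g i z.val))) M ((p * m : ℕ) : ZMod N'))
    rw [h11] at h7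
    set Q := ∏ i, g i p
    set R := ∏ i, g i (m + h i)
    have h13 : ‖D - ζ * Q‖ ≤ ‖D - Q * R‖ + ‖Q‖ * ‖R - ζ‖ := by
      have : D - ζ * Q = (D - Q * R) + Q * (R - ζ) := by ring
      rw [this, ← norm_mul]
      exact norm_add_le _ _
    have h14 : ‖Q‖ * ‖R - ζ‖ ≤ 1 * ‖R - ζ‖ := mul_le_mul_of_nonneg_right h12 (norm_nonneg _)
    linarith
  have h3 : T.card ≤ (1 + 2 * Pm * hm) + (E.card + (k + 1) * (N / p / p + 1)) := by
    refine (Finset.card_le_card h2).trans ((Finset.card_union_le _ _).trans ?_)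
    refine Nat.add_le_add ?_ ?_
    · refine (Finset.card_insert_le _ _).trans ?_
      rw [Nat.card_Ico]
      omega
    · refine Finset.card_image_le.trans ((Finset.card_union_le _ _).trans ?_)
      refine Nat.add_le_add_left ?_ _
      refine Finset.card_biUnion_le.trans ?_
      refine (Finset.sum_le_sum fun i _ => card_dvd_shift (N / p) p (h i) hp0).trans ?_
      rw [Finset.sum_const, Finset.card_univ, Fintype.card_fin, smul_eq_mul]
  have h4 : ((N / p / p : ℕ) : ℝ) ≤ N / (p : ℝ) ^ 2 := by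
    rw [Nat.div_div_eq_div_mul, sq]
    have := @Nat.cast_div_le ℝ _ _ _ N (p * p)
    push_cast at this
    exact this
  have h5 : (T.card : ℝ) ≤ (1 + 2 * Pm * hm) + (E.card + (k + 1) * ((N / p / p : ℕ) + 1)) := by exact_mod_cast h3
  have h6 : ((k : ℝ) + 1) * (((N / p / p : ℕ) : ℝ) + 1) ≤ (k + 1) * (N / (p : ℝ) ^ 2 + 1) :=
    mul_le_mul_of_nonneg_left (by linarith) (by positivity)
  linarith

theorem edc_arith {X SB RS N' NR cP P Pm K hm W ε D Q : ℝ} (hcP : 0 ≤ cP) (hP : 0 ≤ P) (hε : 0 ≤ ε) (hNR : 0 ≤ NR)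
    (h2 : X ≤ SB + cP * (W + 2 * Pm * hm + 1)) (h1 : SB ≤ 2 * P * RS + N' * (3 * ε / 16 * cP))
    (h3 : RS ≤ cP * (D + (K * (Q + 1) + (2 * Pm * hm + 2)))) (c1 : 2 * P * D ≤ ε / 8 * NR)
    (c2 : 2 * P * (K * Q) ≤ ε / 8 * NR)
    (c3 : 2 * P * (K + (2 * Pm * hm + 2)) + (W + 2 * Pm * hm + 1) ≤ ε / 8 * NR) (c4 : N' ≤ NR) :
    X ≤ ε * cP * NR := by
  have h4 : 2 * P * RS ≤ 2 * P * (cP * (D + (K * (Q + 1) + (2 * Pm * hm + 2)))) :=
    mul_le_mul_of_nonneg_left h3 (by positivity)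
  have h5 : (2 * P * D + 2 * P * (K * Q) +
      (2 * P * (K + (2 * Pm * hm + 2)) + (W + 2 * Pm * hm + 1)) + NR * (3 * ε / 16)) * cP ≤
      (ε / 8 * NR + ε / 8 * NR + ε / 8 * NR + NR * (3 * ε / 16)) * cP := by
    refine mul_le_mul_of_nonneg_right ?_ hcP
    linarith
  have c5 : N' * (3 * ε / 16 * cP) ≤ NR * (3 * ε / 16 * cP) :=
    mul_le_mul_of_nonneg_right c4 (by positivity)
  have h6 : 0 ≤ ε * cP * NR := by positivity
  nlinarith

open Classical in
theorem edc (k : ℕ) (h : Fin (k + 1) → ℕ) (ε η : ℝ) (hε : 0 < ε) (hε1 : ε ≤ 1) (hη : 0 < η) (P0 : ℕ) :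
    ∃ (Pmax N0 : ℕ) (δ : ℝ), 0 < δ ∧ ∀ (N : ℕ) (g : Fin (k + 1) → ℕ → ℂ) (ζ : ℂ), N0 ≤ N → (∀ i, OB (g i)) →
      ((((Icc 1 N).filter (fun n => η / 2 < ‖∏ i, g i (n + h i) - ζ‖)).card : ℝ) ≤ δ * N) →
      ∃ (P : ℕ) (c : ℕ → ℂ), P0 ≤ P ∧ 1 ≤ P ∧ P ≤ Pmax ∧
        ∑ p ∈ PP P, (((Icc 1 N).filter (fun n => η < ‖∏ i, g i (n + p * h i) - c p‖)).card : ℝ) ≤ ε * (PP P).card * N := by
  obtain ⟨A', cc, rd, hA', hcc, hrd⟩ := net (η / (8 * (k + 1))) (by positivity)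
  set hm := ∑ i, h i with hhm0
  have hhm : ∀ i, h i ≤ hm := fun i => Finset.single_le_sum (fun _ _ => Nat.zero_le _) (Finset.mem_univ i)
  set L := 2 * hm + 3 with hL0
  have hL2 : L - 2 = 2 * hm + 1 := by omega
  have e : (Fin (k + 1) → Fin A') ≃ Fin (A' ^ (k + 1)) := finFunctionFinEquiv
  obtain ⟨P00, hP00⟩ := exists_nat_ge (16 * ((k : ℝ) + 1) / ε)
  obtain ⟨Pm, hPm⟩ := gds (ε / 64 * (ε / 8)) (by positivity) (A' ^ (k + 1)) L (max P0 P00)
    (Nat.one_le_pow _ _ hA') (by omega)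
  set W := primorial (2 * Pm) with hW
  have hW0 : 0 < W := primorial_pos _
  set RR : ℝ := 2 * Pm * ((k + 1) + (2 * Pm * hm + 2)) + (W + 2 * Pm * hm + 1) with hRR
  obtain ⟨N1, hN1⟩ := exists_nat_ge (8 * RR / ε)
  refine ⟨Pm, max N1 W, ε / (16 * (Pm + 1)), by positivity, ?_⟩
  intro N g ζ hN hg hex
  have hNW : W ≤ N := (le_max_right _ _).trans hN
  have hNN1 : N1 ≤ N := (le_max_left _ _).trans hN
  set N' := W * (N / W) with hN'
  have hN'N : N' ≤ N := Nat.mul_div_le N W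
  have hNN' : N < N' + W := by
    have h1 := Nat.div_add_mod N W
    have h2 := Nat.mod_lt N hW0
    omega
  have hN'0 : N' ≠ 0 := by
    have h1 : 0 < N / W := Nat.div_pos hNW hW0
    exact (Nat.mul_pos hW0 h1).ne'
  haveI : NeZero N' := ⟨hN'0⟩
  have hdvd : ∀ p : ℕ, p.Prime → p ≤ 2 * Pm → p ∣ N' := by
    intro p hp hp2
    refine Dvd.dvd.mul_right ?_ _
    exact (hp.dvd_primorial_iff).mpr hp2
  obtain ⟨P, hP0, hP1, hPPm, hI⟩ := hPm N' (fun z : ZMod N' => e (fun i => rd (g i z.val))) hdvd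
  have hP00' : P00 ≤ P := (le_max_right _ _).trans hP0
  refine ⟨P, fun p => ζ * ∏ i, g i p, (le_max_left _ _).trans hP0, hP1, hPPm, ?_⟩
  have hmem : ∀ p ∈ PP P, p.Prime ∧ P < p ∧ p ≤ 2 * P := by
    intro p hp
    have h1 := Finset.mem_filter.mp hp
    have h2 := Finset.mem_Ioc.mp h1.1
    exact ⟨h1.2, h2.1, h2.2⟩
  have hj : ∀ p ∈ PP P, ∀ i, p * h i < (L - 2) * P := by
    intro p hp i
    have h1 := hmem p hp
    have h2 : p * h i ≤ 2 * P * hm := Nat.mul_le_mul h1.2.2 (hhm i)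
    rw [hL2]
    nlinarith
  set a : ZMod N' → Fin (A' ^ (k + 1)) := fun z : ZMod N' => e (fun i => rd (g i z.val)) with ha
  have hcyc := cyc N' (A' ^ (k + 1)) P L (by omega) hP1 (fun p hp => hdvd p (hmem p hp).1 (by
    have := (hmem p hp).2.2
    omega)) a (bb e cc h (fun p => ζ * ∏ i, g i p) η) (fun p x => bb_nonneg e cc h _ η p x) (ε / 64)
    (by positivity) (by linarith)
  set I := Hn (Xw a (L * P)) + Hn (Yw N' P) - Hn (fun n => (Xw a (L * P) n, Yw N' P n)) with hIdef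
  set cP : ℝ := ((PP P).card : ℝ) with hcP
  have hcP0 : 0 ≤ cP := by positivity
  have hN'R : (0 : ℝ) < N' := by exact_mod_cast Nat.pos_of_ne_zero hN'0
  have hPR : (1 : ℝ) ≤ P := by exact_mod_cast hP1
  have hPPR : (P : ℝ) ≤ Pm := by exact_mod_cast hPPm
  have hI2 : I / (ε / 64) ≤ ε / 8 * cP := by
    rw [div_le_iff₀ (by positivity)]
    calc I ≤ ε / 64 * (ε / 8) * cP := hI
      _ = ε / 8 * cP * (ε / 64) := by ring
  -- left and right
  have hleft : ∀ p ∈ PP P, (((Icc 1 N).filter (fun n => η < ‖∏ i, g i (n + p * h i) - ζ * ∏ i, g i p‖)).card : ℝ) ≤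
      ∑ z : ZMod N', bb e cc h (fun p => ζ * ∏ i, g i p) η p (Xw a ((L - 2) * P) z) + (W + 2 * Pm * hm + 1) := by
    intro p hp
    rw [sum_zmod]
    exact left_bound e cc hcc rd η hη hrd g (fun i n => (hg i).bd n) h (fun p => ζ * ∏ i, g i p) p (hj p hp) hhm
      (by have := (hmem p hp).2.2; omega) hNN'
  have hright : ∀ p ∈ PP P, ∑ z : ZMod N', (if p ∣ z.val then
      bb e cc h (fun p => ζ * ∏ i, g i p) η p (Xw a ((L - 2) * P) z) else 0) ≤
      ε / (16 * (Pm + 1)) * N + ((k + 1) * (N / (P : ℝ) ^ 2 + 1) + (2 * Pm * hm + 2)) := by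
    intro p hp
    rw [sum_zmod]
    have h1 := right_bound (N := N) (Pm := Pm) e cc hcc rd η hη hrd g hg h ζ p (hmem p hp).1 (hj p hp) hhm
      (by have := (hmem p hp).2.2; omega) hN'N _ hex
    have h2 : (N : ℝ) / (p : ℝ) ^ 2 ≤ N / (P : ℝ) ^ 2 := by
      have h3 : (P : ℝ) ≤ p := by exact_mod_cast (hmem p hp).2.1.le
      exact div_le_div_of_nonneg_left (by positivity) (by positivity) (pow_le_pow_left₀ (by positivity) h3 2)
    have h4 : ((k : ℝ) + 1) * (N / (p : ℝ) ^ 2 + 1) ≤ (k + 1) * (N / (P : ℝ) ^ 2 + 1) :=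
      mul_le_mul_of_nonneg_left (by linarith) (by positivity)
    refine h1.trans ?_
    linarith
  -- assembly
  have h1 : ∑ p ∈ PP P, ∑ z : ZMod N', bb e cc h (fun p => ζ * ∏ i, g i p) η p (Xw a ((L - 2) * P) z) ≤
      2 * P * ∑ p ∈ PP P, ∑ z : ZMod N', (if p ∣ z.val then
        bb e cc h (fun p => ζ * ∏ i, g i p) η p (Xw a ((L - 2) * P) z) else 0) + N' * (3 * ε / 16 * cP) := by
    rw [← Finset.mul_sum, ← Finset.mul_sum] at hcyc
    have h2 : (N' : ℝ) * (1 / (N' : ℝ) * ∑ p ∈ PP P, ∑ z : ZMod N',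
        bb e cc h (fun p => ζ * ∏ i, g i p) η p (Xw a ((L - 2) * P) z)) ≤
        N' * (2 * P * (1 / (N' : ℝ) * ∑ p ∈ PP P, ∑ z : ZMod N', (if p ∣ z.val then
        bb e cc h (fun p => ζ * ∏ i, g i p) η p (Xw a ((L - 2) * P) z) else 0)) +
        I / (ε / 64) + 4 * (ε / 64) * cP) := mul_le_mul_of_nonneg_left hcyc hN'R.le
    have h3 : (N' : ℝ) * (1 / (N' : ℝ) * ∑ p ∈ PP P, ∑ z : ZMod N',
        bb e cc h (fun p => ζ * ∏ i, g i p) η p (Xw a ((L - 2) * P) z)) =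
        ∑ p ∈ PP P, ∑ z : ZMod N', bb e cc h (fun p => ζ * ∏ i, g i p) η p (Xw a ((L - 2) * P) z) := by
      rw [← mul_assoc, mul_one_div_cancel hN'R.ne', one_mul]
    rw [h3] at h2
    refine h2.trans ?_
    set SS := ∑ p ∈ PP P, ∑ z : ZMod N', (if p ∣ z.val then
        bb e cc h (fun p => ζ * ∏ i, g i p) η p (Xw a ((L - 2) * P) z) else 0)
    have h4 : (N' : ℝ) * (2 * P * (1 / (N' : ℝ) * SS) + I / (ε / 64) + 4 * (ε / 64) * cP) =
        2 * P * SS + N' * (I / (ε / 64) + 4 * (ε / 64) * cP) := by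
      field_simp
      ring
    rw [h4]
    have h5 : I / (ε / 64) + 4 * (ε / 64) * cP ≤ 3 * ε / 16 * cP := by nlinarith
    have h6 := mul_le_mul_of_nonneg_left h5 hN'R.le
    linarith
  have h2 := Finset.sum_le_sum hleft
  rw [Finset.sum_add_distrib, Finset.sum_const, nsmul_eq_mul] at h2
  have h3 := Finset.sum_le_sum hright
  rw [Finset.sum_const, nsmul_eq_mul] at h3
  refine h2.trans ?_
  rw [← hcP] at h3 ⊢
  set RS := ∑ p ∈ PP P, ∑ z : ZMod N', (if p ∣ z.val then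
        bb e cc h (fun p => ζ * ∏ i, g i p) η p (Xw a ((L - 2) * P) z) else 0)
  have hNR0 : (0 : ℝ) ≤ N := by positivity
  -- constants
  have c1 : 2 * P * (ε / (16 * (Pm + 1)) * N) ≤ ε / 8 * N := by
    have : (P : ℝ) / (Pm + 1) ≤ 1 := by
      rw [div_le_one (by positivity)]
      linarith
    calc 2 * P * (ε / (16 * (Pm + 1)) * N) = ε / 8 * N * (P / (Pm + 1)) := by
          field_simp
          ring
      _ ≤ ε / 8 * N * 1 := mul_le_mul_of_nonneg_left this (by positivity)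
      _ = _ := mul_one _
  have c2 : 2 * P * ((k + 1) * (N / (P : ℝ) ^ 2)) ≤ ε / 8 * N := by
    have h5 : 16 * ((k : ℝ) + 1) ≤ ε * P := by
      have h6 : 16 * ((k : ℝ) + 1) / ε ≤ P := hP00.trans (by exact_mod_cast hP00')
      rw [div_le_iff₀ hε] at h6
      linarith
    have h7 : 2 * P * ((k + 1) * (N / (P : ℝ) ^ 2)) = N * (2 * (k + 1) / P) := by
      field_simp
    rw [h7]
    have h8 : 2 * ((k : ℝ) + 1) / P ≤ ε / 8 := by
      rw [div_le_iff₀ (by linarith)]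
      linarith
    calc N * (2 * (k + 1) / P) ≤ N * (ε / 8) := mul_le_mul_of_nonneg_left h8 hNR0
      _ = _ := by ring
  have c3 : 2 * P * ((k + 1) + (2 * Pm * hm + 2)) + (W + 2 * Pm * hm + 1) ≤ ε / 8 * N := by
    have h5 : RR ≤ ε / 8 * N := by
      have h6 : 8 * RR / ε ≤ N := hN1.trans (by exact_mod_cast hNN1)
      rw [div_le_iff₀ hε] at h6
      linarith
    refine le_trans ?_ h5
    rw [hRR]
    have h7 : 2 * (P : ℝ) * ((k + 1) + (2 * Pm * hm + 2)) ≤ 2 * Pm * ((k + 1) + (2 * Pm * hm + 2)) :=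
      mul_le_mul_of_nonneg_right (by linarith) (by positivity)
    linarith
  have c4 : (N' : ℝ) ≤ N := by exact_mod_cast hN'N
  exact edc_arith hcP0 (by linarith) hε.le hNR0 le_rfl h1 h3 c1 c2 c3 c4

end Pool.H2.WE
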