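import Pool.Agent.H2.WE.Exl

/-!
# [H2 WE ELI] Elimination of the functions `G_1, ..., G_k`

`R(p, n) = G0(n + p h0) ∏_i G_i(n + p h_i)` is close to `c p` for all `p ∈ 𝒢` off `E` exceptions `n ≤ N`, all functions unimodular. If `r ∈ ℤ^k` and all `p + cs r ω` are in `𝒢` then `dls (r_i (h0 - h_i))_i G0` is close to a constant.

PROOF (induction on `k`, all data arbitrary). `k = 0`: `G0(n + p h0)` is close to `c p` off `E` exceptions; `ex_shift` by `-p h0` (`|p h0| ≤ B M`). Step `k + 1`: `s = r 0`,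
`R'(p, n) = R(p + s, n - s h_0) conj R(p, n)` (`h_0 = h 0` of the family). As `n - s h_0 + (p+s) h_0 = n + p h_0`, the factors of `G_0` (index `0` of the family) cancel (`z conj z = 1`), and
`R'(p, n) = G0'(n + p h0) ∏_{i:Fin k} G'_i(n + p h_(i+1))` with `G0' = dl (s (h0 - h_0)) G0`, `G'_i = dl (s (h_(i+1) - h_0)) G_(i+1)` (`Fin.prod_univ_succ`). For `p ∈ 𝒢' = 𝒢.filter (fun p => p + s ∈ 𝒢)`: `‖R' - c(p+s) conj c(p)‖ ≤ 2η` off `2E + |s h_0| ≤ 2E + B M`
exceptions. The vector `r' = Fin.tail r` and the same `p` satisfy `p + cs r' ω ∈ 𝒢'` (`cs r' ω = cs r (ω.map Fin.succEmb)`, `cs r' ω + s = cs r (insert 0 (ω.map ..))`). Induction hypothesis with `2E + BM`, `2η`: bounds `2^k(2E + BM + BM) = 2^(k+1)(E + BM)`, `2^k 2η`.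
`List.ofFn_succ`: the list is `s (h0 - h_0) :: List.ofFn (r' ..)` and `dls (a :: l) G = dls l (dl a G)`.
-/

namespace Pool.H2.WE

open Finset

private theorem eli_close (x y a b : ℂ) (η : ℝ) (hx : ‖x‖ = 1) (hb : ‖b‖ = 1) (h1 : ‖x - a‖ ≤ η) (h2 : ‖y - b‖ ≤ η) :
    ‖x * (starRingEnd ℂ) y - a * (starRingEnd ℂ) b‖ ≤ 2 * η := by
  have h3 : x * (starRingEnd ℂ) y - a * (starRingEnd ℂ) b = x * (starRingEnd ℂ) (y - b) + (x - a) * (starRingEnd ℂ) b := by
    rw [map_sub]; ring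
  rw [h3]
  refine (norm_add_le _ _).trans ?_
  rw [norm_mul, norm_mul, RCLike.norm_conj, RCLike.norm_conj, hx, hb, one_mul, mul_one]
  linarith

theorem eli (k : ℕ) (N : ℕ) (G0 : ℤ → ℂ) (G : Fin k → ℤ → ℂ) (hG0 : ∀ n, ‖G0 n‖ = 1) (hG : ∀ i n, ‖G i n‖ = 1) (h0 : ℤ) (h : Fin k → ℤ)
    (𝒢 : Finset ℤ) (c : ℤ → ℂ) (hc : ∀ p ∈ 𝒢, ‖c p‖ = 1) (η : ℝ) (E B M : ℕ)
    (hR : ∀ p ∈ 𝒢, ex N (fun n => ‖G0 (n + p * h0) * ∏ i, G i (n + p * h i) - c p‖ ≤ η) ≤ E)
    (hB : ∀ p ∈ 𝒢, p.natAbs ≤ B) (hM0 : h0.natAbs ≤ M) (hM : ∀ i, (h i).natAbs ≤ M)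
    (r : Fin k → ℤ) (hr : ∀ i, (r i).natAbs ≤ B) (p : ℤ) (hp : ∀ ω, p + cs r ω ∈ 𝒢) :
    ∃ C : ℂ, ‖C‖ = 1 ∧ ex N (fun n => ‖dls (List.ofFn (fun i => r i * (h0 - h i))) G0 n - C‖ ≤ 2 ^ k * η) ≤ 2 ^ k * (E + B * M) := by
  induction k generalizing G0 𝒢 c η E with
  | zero =>
    have hp0 : p ∈ 𝒢 := by
      have h1 := hp ∅
      unfold cs at h1
      rwa [sum_empty, add_zero] at h1
    refine ⟨c p, hc p hp0, ?_⟩
    have h1 := hR p hp0
    have h2 := ex_shift N (fun n => ‖G0 (n + p * h0) * ∏ i, G i (n + p * h i) - c p‖ ≤ η) (-(p * h0))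
    have h3 : (-(p * h0)).natAbs ≤ B * M := by
      rw [Int.natAbs_neg, Int.natAbs_mul]
      exact Nat.mul_le_mul (hB p hp0) hM0
    have h4 : ex N (fun n => ‖dls (List.ofFn (fun i : Fin 0 => r i * (h0 - h i))) G0 n - c p‖ ≤ 2 ^ 0 * η) ≤
        ex N (fun n => ‖G0 (n + -(p * h0) + p * h0) * ∏ i, G i (n + -(p * h0) + p * h i) - c p‖ ≤ η) := by
      apply ex_mono
      intro n _ _ hn
      rw [show n + -(p * h0) + p * h0 = n by ring] at hn
      simpa [dls] using hn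
    have h5 : 2 ^ 0 * (E + B * M) = E + B * M := by ring
    rw [h5]
    omega
  | succ k ih =>
    obtain ⟨s, hs⟩ : ∃ s, s = r 0 := ⟨_, rfl⟩
    -- the new data
    obtain ⟨𝒢', h𝒢'⟩ : ∃ S : Finset ℤ, ∀ q, q ∈ S ↔ q ∈ 𝒢 ∧ q + s ∈ 𝒢 :=
      ⟨𝒢.filter (fun q => q + s ∈ 𝒢), fun q => mem_filter⟩
    have hG0' : ∀ n, ‖dl (s * (h0 - h 0)) G0 n‖ = 1 := by
      intro n
      unfold dl
      rw [norm_mul, RCLike.norm_conj, hG0, hG0, one_mul]
    have hG' : ∀ (i : Fin k) n, ‖dl (s * (h i.succ - h 0)) (G i.succ) n‖ = 1 := by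
      intro i n
      unfold dl
      rw [norm_mul, RCLike.norm_conj, hG, hG, one_mul]
    have hc' : ∀ q ∈ 𝒢', ‖c (q + s) * (starRingEnd ℂ) (c q)‖ = 1 := by
      intro q hq
      rw [h𝒢'] at hq
      rw [norm_mul, RCLike.norm_conj, hc _ hq.1, hc _ hq.2, one_mul]
    have hR' : ∀ q ∈ 𝒢', ex N (fun n => ‖dl (s * (h0 - h 0)) G0 (n + q * h0) *
        ∏ i : Fin k, dl (s * (h i.succ - h 0)) (G i.succ) (n + q * h i.succ) - c (q + s) * (starRingEnd ℂ) (c q)‖ ≤ 2 * η) ≤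
          2 * E + B * M := by
      intro q hq
      rw [h𝒢'] at hq
      have h1 := hR q hq.1
      have h2 := hR (q + s) hq.2
      have h3 := ex_shift N (fun n => ‖G0 (n + (q + s) * h0) * ∏ i, G i (n + (q + s) * h i) - c (q + s)‖ ≤ η) (-(s * h 0))
      have h4 : (-(s * h 0)).natAbs ≤ B * M := by
        rw [Int.natAbs_neg, Int.natAbs_mul]
        exact Nat.mul_le_mul (by rw [hs]; exact hr 0) (hM 0)
      have h5 := ex_and N (fun n => ‖G0 (n + -(s * h 0) + (q + s) * h0) * ∏ i, G i (n + -(s * h 0) + (q + s) * h i) - c (q + s)‖ ≤ η)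
        (fun n => ‖G0 (n + q * h0) * ∏ i, G i (n + q * h i) - c q‖ ≤ η)
      have h6 : ex N (fun n => ‖dl (s * (h0 - h 0)) G0 (n + q * h0) *
        ∏ i : Fin k, dl (s * (h i.succ - h 0)) (G i.succ) (n + q * h i.succ) - c (q + s) * (starRingEnd ℂ) (c q)‖ ≤ 2 * η) ≤
        ex N (fun n => ‖G0 (n + -(s * h 0) + (q + s) * h0) * ∏ i, G i (n + -(s * h 0) + (q + s) * h i) - c (q + s)‖ ≤ η ∧
          ‖G0 (n + q * h0) * ∏ i, G i (n + q * h i) - c q‖ ≤ η) := by
        apply ex_mono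
        intro n _ _ hn
        have e1 : dl (s * (h0 - h 0)) G0 (n + q * h0) * ∏ i : Fin k, dl (s * (h i.succ - h 0)) (G i.succ) (n + q * h i.succ) =
            (G0 (n + -(s * h 0) + (q + s) * h0) * ∏ i, G i (n + -(s * h 0) + (q + s) * h i)) *
              (starRingEnd ℂ) (G0 (n + q * h0) * ∏ i, G i (n + q * h i)) := by
          rw [Fin.prod_univ_succ, Fin.prod_univ_succ, map_mul, map_mul, map_prod]
          unfold dl
          rw [prod_mul_distrib]
          have e2 : n + -(s * h 0) + (q + s) * h 0 = n + q * h 0 := by ring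
          have e3 : n + q * h0 + s * (h0 - h 0) = n + -(s * h 0) + (q + s) * h0 := by ring
          have e4 : ∀ i : Fin k, n + q * h i.succ + s * (h i.succ - h 0) = n + -(s * h 0) + (q + s) * h i.succ := by
            intro i; ring
          rw [e2, e3]
          simp only [e4]
          have e5 : G 0 (n + q * h 0) * (starRingEnd ℂ) (G 0 (n + q * h 0)) = 1 := by
            rw [Complex.mul_conj, Complex.normSq_eq_norm_sq, hG]
            simp
          linear_combination (-(G0 (n + -(s * h 0) + (q + s) * h0) * (∏ i : Fin k, G i.succ (n + -(s * h 0) + (q + s) * h i.succ)) *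
            (starRingEnd ℂ) (G0 (n + q * h0)) * ∏ i : Fin k, (starRingEnd ℂ) (G i.succ (n + q * h i.succ)))) * e5
        rw [e1]
        apply eli_close
        · rw [norm_mul, norm_prod, hG0, one_mul]
          exact prod_eq_one fun i _ => hG i _
        · exact hc q hq.1
        · exact hn.1
        · exact hn.2
      omega
    have hp' : ∀ ω : Finset (Fin k), p + cs (fun i : Fin k => r i.succ) ω ∈ 𝒢' := by
      intro ω
      rw [h𝒢']
      have e1 : cs (fun i : Fin k => r i.succ) ω = cs r (ω.map (Fin.succEmb k)) := by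
        unfold cs
        rw [sum_map]
        rfl
      have e2 : cs (fun i : Fin k => r i.succ) ω + s = cs r (insert 0 (ω.map (Fin.succEmb k))) := by
        rw [e1]
        unfold cs
        rw [sum_insert, hs, add_comm]
        rw [mem_map]
        rintro ⟨i, -, hi⟩
        exact Fin.succ_ne_zero i hi
      constructor
      · rw [e1]; exact hp _
      · rw [add_assoc, e2]; exact hp _
    obtain ⟨C, hC, hCe⟩ := ih (dl (s * (h0 - h 0)) G0) (fun i => dl (s * (h i.succ - h 0)) (G i.succ)) hG0' hG'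
      (fun i => h i.succ) 𝒢' (fun q => c (q + s) * (starRingEnd ℂ) (c q)) hc' (2 * η) (2 * E + B * M) hR'
      (fun q hq => hB q ((h𝒢' q).1 hq).1) (fun i => hM i.succ) (fun i => r i.succ) (fun i => hr i.succ) hp'
    refine ⟨C, hC, ?_⟩
    rw [List.ofFn_succ, ← hs]
    show ex N (fun n => ‖dls (List.ofFn fun i : Fin k => r i.succ * (h0 - h i.succ)) (dl (s * (h0 - h 0)) G0) n - C‖ ≤ 2 ^ (k + 1) * η) ≤ _
    have e1 : (2 : ℝ) ^ (k + 1) * η = 2 ^ k * (2 * η) := by ring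
    rw [e1]
    refine hCe.trans ?_
    have e2 : 2 ^ (k + 1) * (E + B * M) = 2 ^ k * (2 * E + B * M + B * M) := by ring
    rw [e2]

end Pool.H2.WE
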