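import Pool.Agent.H2.WE.Ssm
import Pool.Agent.H3.WSieve

/-!
# [H2 WE SPT] Upper bound sieve for prime tuples

`S` a set of `κ` integers, `Δ > 0` divisible by all differences. The number of `x ∈ (P, 2P]` such that all `x + s` (`s ∈ S`) are primes `> P` is `≤ C P/(log P)^κ gf(Δ)^κ`.

(The variable of the counting set is declared as `x : ℕ`; without this Lean coerces the set to `Finset ℤ`.)

PROOF. `Pool.Agent.H5.W.selberg_count` (file `H3/WSieve.lean`) with `z = ⌊P^(1/8)⌋`, `E = Δ κ!`, `q = 1`, `r = 0`, `A = X = P`, `Ω l = {(-s) mod l : s ∈ S}` (as natural numbers `< l`, `((-s) % l).toNat`). For a prime `l ≤ z` with `l ∤ E`: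
`κ < l` (otherwise `l ∣ κ!`), the residues are distinct as `l ∤ s - t` (`s - t ∣ Δ`), so `(Ω l).card = κ`; `¬ l ∣ 1`. If all `x + s` are primes `> P ≥ z` then `l ∤ x + s`, i.e. `x % l ∉ Ω l`. So the count is
`≤ P/sieveSum κ z E + z⁴`. By `ssm`: `sieveSum κ z E ≥ c (log z)^κ/gf(E)^κ`, `gf(E) ≤ gf(Δ) gf(κ!)`, `log z ≥ (log P)/16` for large `P`, and `z⁴ ≤ √P ≤ P/(log P)^κ` for large `P`, `gf(Δ) ≥ 1`.
-/

namespace Pool.H2.WE

open Finset Pool.Agent.H5.W

theorem gf_one_le (n : ℕ) : 1 ≤ gf n := one_le_prod_aux _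

theorem gf_mul_le (a b : ℕ) : gf (a * b) ≤ gf a * gf b := by
  classical
  rcases Nat.eq_zero_or_pos a with rfl | ha
  · rw [zero_mul]
    have h0 : gf 0 = 1 := by simp [gf]
    rw [h0, one_mul]
    exact gf_one_le b
  rcases Nat.eq_zero_or_pos b with rfl | hb
  · rw [mul_zero]
    have h0 : gf 0 = 1 := by simp [gf]
    rw [h0, mul_one]
    exact gf_one_le a
  unfold gf
  rw [Nat.primeFactors_mul ha.ne' hb.ne', ← prod_union_inter]
  have h1 := one_le_prod_aux (a.primeFactors ∩ b.primeFactors)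
  have h2 : 0 ≤ ∏ l ∈ a.primeFactors ∪ b.primeFactors, (1 + 1 / (l : ℝ)) :=
    zero_le_one.trans (one_le_prod_aux _)
  exact le_mul_of_one_le_right h2 h1

private theorem spt_log (κ : ℕ) : ∀ᶠ P : ℕ in Filter.atTop,
    Real.log P ^ κ ≤ Real.sqrt P := by
  have h1 := isLittleO_log_rpow_atTop (r := 1 / (2 * ((κ : ℝ) + 1))) (by positivity)
  have h2 : ∀ᶠ x : ℝ in Filter.atTop, ‖Real.log x‖ ≤ 1 * ‖x ^ (1 / (2 * ((κ : ℝ) + 1)))‖ :=
    h1.def one_pos
  have h3 := (tendsto_natCast_atTop_atTop (R := ℝ)).eventually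
    (h2.and (Filter.eventually_ge_atTop 1))
  filter_upwards [h3] with P hP
  obtain ⟨hP1, hP2⟩ := hP
  have hP0 : (0 : ℝ) < P := by linarith
  have hlog : 0 ≤ Real.log P := Real.log_nonneg hP2
  rw [Real.norm_of_nonneg hlog, one_mul, Real.norm_of_nonneg (by positivity)] at hP1
  calc Real.log P ^ κ ≤ ((P : ℝ) ^ (1 / (2 * ((κ : ℝ) + 1)))) ^ κ := pow_le_pow_left₀ hlog hP1 _
    _ = (P : ℝ) ^ ((1 / (2 * ((κ : ℝ) + 1))) * κ) := by
        rw [← Real.rpow_natCast, ← Real.rpow_mul hP0.le]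
    _ ≤ (P : ℝ) ^ (1 / 2 : ℝ) := by
        apply Real.rpow_le_rpow_of_exponent_le hP2
        rw [one_div_mul_eq_div, div_le_div_iff₀ (by positivity) (by norm_num)]
        nlinarith
    _ = Real.sqrt P := (Real.sqrt_eq_rpow _).symm

open Classical in
theorem spt (κ : ℕ) (hκ : 1 ≤ κ) : ∃ (C : ℝ) (P1 : ℕ), 0 < C ∧ 3 ≤ P1 ∧ ∀ (P : ℕ) (S : Finset ℤ) (Δ : ℕ), P1 ≤ P → S.card = κ → 0 < Δ →
    (∀ s ∈ S, ∀ t ∈ S, s ≠ t → (s - t).natAbs ∣ Δ) →
    ((((Ioc P (2 * P)).filter (fun x : ℕ => ∀ s ∈ S, ∃ p : ℕ, p.Prime ∧ P < p ∧ (x : ℤ) + s = p)).card : ℕ) : ℝ) ≤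
      C * P / Real.log P ^ κ * gf Δ ^ κ := by
  obtain ⟨c, hc, hssm⟩ := ssm κ hκ
  obtain ⟨P2, hP2⟩ := Filter.eventually_atTop.1 (spt_log κ)
  have hgk : 1 ≤ gf κ.factorial := gf_one_le _
  have hgk0 : 0 < gf κ.factorial := by linarith
  refine ⟨gf κ.factorial ^ κ * 16 ^ κ / c + 1, max P2 256, by positivity,
    le_trans (by norm_num) (le_max_right _ _), ?_⟩
  intro P S Δ hP hS hΔ hdiff
  have hPP2 := hP2 P ((le_max_left _ _).trans hP)
  have hP256 : 256 ≤ P := (le_max_right _ _).trans hP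
  obtain ⟨z, hz⟩ : ∃ z : ℕ, z = Nat.sqrt (Nat.sqrt (Nat.sqrt P)) := ⟨_, rfl⟩
  obtain ⟨z1, hz1⟩ : ∃ z1 : ℕ, z1 = Nat.sqrt (Nat.sqrt P) := ⟨_, rfl⟩
  obtain ⟨z2, hz2⟩ : ∃ z2 : ℕ, z2 = Nat.sqrt P := ⟨_, rfl⟩
  have a1 : z * z ≤ z1 := by rw [hz, hz1]; exact Nat.sqrt_le _
  have a2 : z1 * z1 ≤ z2 := by rw [hz1, hz2]; exact Nat.sqrt_le _
  have a3 : z2 * z2 ≤ P := by rw [hz2]; exact Nat.sqrt_le _
  have b1 : z1 < (z + 1) * (z + 1) := by rw [hz, hz1]; exact Nat.lt_succ_sqrt _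
  have b2 : z2 < (z1 + 1) * (z1 + 1) := by rw [hz1, hz2]; exact Nat.lt_succ_sqrt _
  have b3 : P < (z2 + 1) * (z2 + 1) := by rw [hz2]; exact Nat.lt_succ_sqrt _
  have hz2' : 2 ≤ z := by
    rw [hz, Nat.le_sqrt, Nat.le_sqrt, Nat.le_sqrt]
    omega
  have hz4 : z ^ 4 ≤ z2 := by
    calc z ^ 4 = (z * z) * (z * z) := by ring
      _ ≤ z1 * z1 := Nat.mul_le_mul a1 a1
      _ ≤ z2 := a2
  have hzP : z ≤ P := by
    have h1 : z ≤ z ^ 4 := Nat.le_self_pow (by norm_num) z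
    have h2 : z2 ≤ z2 * z2 := Nat.le_mul_self z2
    omega
  have hPz : P ≤ z ^ 16 := by
    have c1 : z1 + 1 ≤ (z + 1) * (z + 1) := b1
    have c2 : z2 + 1 ≤ ((z + 1) * (z + 1)) * ((z + 1) * (z + 1)) :=
      (Nat.succ_le_of_lt b2).trans (Nat.mul_le_mul c1 c1)
    have c3 : P ≤ (((z + 1) * (z + 1)) * ((z + 1) * (z + 1))) *
        (((z + 1) * (z + 1)) * ((z + 1) * (z + 1))) :=
      b3.le.trans (Nat.mul_le_mul c2 c2)
    have c4 : z + 1 ≤ z * z := by nlinarith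
    calc P ≤ (((z + 1) * (z + 1)) * ((z + 1) * (z + 1))) *
        (((z + 1) * (z + 1)) * ((z + 1) * (z + 1))) := c3
      _ ≤ (((z * z) * (z * z)) * ((z * z) * (z * z))) *
        (((z * z) * (z * z)) * ((z * z) * (z * z))) := by gcongr
      _ = z ^ 16 := by ring
  have hP0 : (0 : ℝ) < P := by
    have : 0 < P := by omega
    exact_mod_cast this
  have hP1 : (1 : ℝ) < P := by
    have : 1 < P := by omega
    exact_mod_cast this
  have hlogP : 0 < Real.log P := Real.log_pos hP1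
  have hlogz : 0 < Real.log z := Real.log_pos (by exact_mod_cast (by omega : 1 < z))
  have hll : Real.log P ≤ 16 * Real.log z := by
    calc Real.log P ≤ Real.log ((z : ℝ) ^ 16) := by
          apply Real.log_le_log hP0
          exact_mod_cast hPz
      _ = 16 * Real.log z := by
          rw [Real.log_pow]
          norm_num
  set E := Δ * κ.factorial with hE
  have hE0 : 0 < E := Nat.mul_pos hΔ (Nat.factorial_pos κ)
  have hgood : ∀ l ∈ goodPrimes z E, l.Prime ∧ l ≤ z ∧ ¬ l ∣ E := by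
    intro l hl
    unfold goodPrimes at hl
    rw [mem_filter, mem_range] at hl
    exact ⟨hl.2.1, by omega, hl.2.2⟩
  have hκl : ∀ l ∈ goodPrimes z E, κ < l := by
    intro l hl
    obtain ⟨h1, h2, h3⟩ := hgood l hl
    by_contra hcon
    push Not at hcon
    exact h3 (((h1.dvd_factorial).2 hcon).mul_left _)
  let Ω : ℕ → Finset ℕ := fun l => S.image (fun s => ((-s) % (l : ℤ)).toNat)
  have hΩ : ∀ l ∈ goodPrimes z E, (Ω l).card = κ := by
    intro l hl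
    obtain ⟨h1, h2, h3⟩ := hgood l hl
    rw [← hS]
    apply card_image_of_injOn
    intro s hs t ht hst
    by_contra hne
    have hl0 : (0 : ℤ) < l := by exact_mod_cast h1.pos
    have e1 := Int.emod_nonneg (-s) hl0.ne'
    have e2 := Int.emod_nonneg (-t) hl0.ne'
    simp only at hst
    have h4 : (-s) % (l : ℤ) = (-t) % (l : ℤ) := by omega
    have h5 : (l : ℤ) ∣ (-s) - (-t) := Int.ModEq.dvd (Int.ModEq.symm h4)
    have h6 : (l : ℤ) ∣ s - t := by
      have : s - t = -((-s) - (-t)) := by ring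
      rw [this]
      exact (dvd_neg).2 h5
    have h7 : l ∣ (s - t).natAbs := by
      have := Int.natAbs_dvd_natAbs.2 h6
      simpa using this
    exact h3 ((h7.trans (hdiff s hs t ht hne)).mul_right _)
  have hΩlt : ∀ l ∈ goodPrimes z E, ∀ a ∈ Ω l, a < l := by
    intro l hl a ha
    obtain ⟨h1, h2, h3⟩ := hgood l hl
    obtain ⟨s, _, rfl⟩ := mem_image.1 ha
    have hl0 : (0 : ℤ) < l := by exact_mod_cast h1.pos
    have e1 := Int.emod_nonneg (-s) hl0.ne'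
    have e2 := Int.emod_lt_of_pos (-s) hl0
    omega
  have hsel := selberg_count κ z E 1 0 P P hκ (by omega) one_pos
    (fun l hl => by
      obtain ⟨h1, h2, h3⟩ := hgood l hl
      intro h4
      exact h1.one_lt.ne' (Nat.dvd_one.1 h4)) hκl Ω hΩ hΩlt
  have hsub : (Ioc P (2 * P)).filter (fun x : ℕ => ∀ s ∈ S, ∃ p : ℕ, p.Prime ∧ P < p ∧
      (x : ℤ) + s = p) ⊆ (Ioc P (P + P)).filter (fun v => v ≡ 0 [MOD 1] ∧
      ∀ l ∈ goodPrimes z E, v % l ∉ Ω l) := by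
    intro x hx
    rw [mem_filter, mem_Ioc] at hx
    rw [mem_filter, mem_Ioc]
    refine ⟨⟨hx.1.1, by omega⟩, Nat.modEq_one, ?_⟩
    intro l hl hmem
    obtain ⟨h1, h2, h3⟩ := hgood l hl
    obtain ⟨s, hs, hsx⟩ := mem_image.1 hmem
    obtain ⟨p, hp, hPp, hxp⟩ := hx.2 s hs
    have hl0 : (0 : ℤ) < l := by exact_mod_cast h1.pos
    have e1 := Int.emod_nonneg (-s) hl0.ne'
    have h4 : (-s) % (l : ℤ) = (x : ℤ) % (l : ℤ) := by
      have h5 : ((x % l : ℕ) : ℤ) = (x : ℤ) % (l : ℤ) := by simp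
      rw [← h5, ← hsx]
      omega
    have h5 : (l : ℤ) ∣ (x : ℤ) - (-s) := Int.ModEq.dvd h4
    have h6 : (l : ℤ) ∣ (p : ℤ) := by
      rw [← hxp]
      have : (x : ℤ) + s = (x : ℤ) - (-s) := by ring
      rw [this]
      exact h5
    have h7 : l ∣ p := by exact_mod_cast h6
    have h8 : l = p := (Nat.prime_dvd_prime_iff_eq h1 hp).1 h7
    omega
  have hcount : ((((Ioc P (2 * P)).filter (fun x : ℕ => ∀ s ∈ S, ∃ p : ℕ, p.Prime ∧ P < p ∧
      (x : ℤ) + s = p)).card : ℕ) : ℝ) ≤ (P : ℝ) / sieveSum κ z E + (z : ℝ) ^ 4 := by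
    have h1 := card_le_card hsub
    have h2 : ((((Ioc P (2 * P)).filter (fun x : ℕ => ∀ s ∈ S, ∃ p : ℕ, p.Prime ∧ P < p ∧
      (x : ℤ) + s = p)).card : ℕ) : ℝ) ≤ (((Ioc P (P + P)).filter (fun v => v ≡ 0 [MOD 1] ∧
      ∀ l ∈ goodPrimes z E, v % l ∉ Ω l)).card : ℝ) := by exact_mod_cast h1
    refine h2.trans (hsel.trans (le_of_eq ?_))
    rw [Nat.cast_one, div_one]
  have hs1 := ssum_ge_one κ z E (by omega)
  have hs0 : 0 < sieveSum κ z E := by linarith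
  have hssz := hssm z E (by omega) hE0
  have hgE : gf E ≤ gf Δ * gf κ.factorial := gf_mul_le _ _
  have hgΔ : 1 ≤ gf Δ := gf_one_le _
  have hgE0 : 0 ≤ gf E := by linarith [gf_one_le E]
  have hL : 0 < Real.log P ^ κ := by positivity
  -- main term
  have hmain : (P : ℝ) / sieveSum κ z E ≤
      (gf κ.factorial ^ κ * 16 ^ κ / c) * P / Real.log P ^ κ * gf Δ ^ κ := by
    have h1 : c * Real.log P ^ κ ≤ (gf κ.factorial ^ κ * 16 ^ κ * gf Δ ^ κ) * sieveSum κ z E := by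
      calc c * Real.log P ^ κ ≤ c * (16 * Real.log z) ^ κ := by
            apply mul_le_mul_of_nonneg_left _ hc.le
            exact pow_le_pow_left₀ hlogP.le hll _
        _ = 16 ^ κ * (c * Real.log z ^ κ) := by rw [mul_pow]; ring
        _ ≤ 16 ^ κ * (gf E ^ κ * sieveSum κ z E) := mul_le_mul_of_nonneg_left hssz (by positivity)
        _ ≤ 16 ^ κ * ((gf Δ * gf κ.factorial) ^ κ * sieveSum κ z E) := by
            apply mul_le_mul_of_nonneg_left _ (by positivity)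
            apply mul_le_mul_of_nonneg_right _ hs0.le
            exact pow_le_pow_left₀ hgE0 hgE _
        _ = _ := by rw [mul_pow]; ring
    rw [div_le_iff₀ hs0]
    have e : (gf κ.factorial ^ κ * 16 ^ κ / c) * P / Real.log P ^ κ * gf Δ ^ κ *
        sieveSum κ z E = P * (((gf κ.factorial ^ κ * 16 ^ κ * gf Δ ^ κ) * sieveSum κ z E) /
          (c * Real.log P ^ κ)) := by
      field_simp
    rw [e]
    have h2 : 1 ≤ ((gf κ.factorial ^ κ * 16 ^ κ * gf Δ ^ κ) * sieveSum κ z E) /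
        (c * Real.log P ^ κ) := by
      rw [one_le_div (by positivity)]
      exact h1
    exact le_mul_of_one_le_right hP0.le h2
  have hz4R : (z : ℝ) ^ 4 ≤ P / Real.log P ^ κ * gf Δ ^ κ := by
    have h1 : (z : ℝ) ^ 4 ≤ Real.sqrt P := by
      rw [Real.le_sqrt (by positivity) hP0.le]
      have h2 : (z ^ 4) ^ 2 ≤ P := by
        calc (z ^ 4) ^ 2 = z ^ 4 * z ^ 4 := by ring
          _ ≤ z2 * z2 := Nat.mul_le_mul hz4 hz4
          _ ≤ P := a3
      exact_mod_cast h2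
    have h2 : Real.sqrt P ≤ P / Real.log P ^ κ := by
      rw [le_div_iff₀ hL]
      calc Real.sqrt P * Real.log P ^ κ ≤ Real.sqrt P * Real.sqrt P :=
            mul_le_mul_of_nonneg_left hPP2 (Real.sqrt_nonneg _)
        _ = P := Real.mul_self_sqrt hP0.le
    refine (h1.trans h2).trans ?_
    exact le_mul_of_one_le_right (by positivity) (one_le_pow₀ hgΔ)
  calc _ ≤ (P : ℝ) / sieveSum κ z E + (z : ℝ) ^ 4 := hcount
    _ ≤ (gf κ.factorial ^ κ * 16 ^ κ / c) * P / Real.log P ^ κ * gf Δ ^ κ +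
        P / Real.log P ^ κ * gf Δ ^ κ := add_le_add hmain hz4R
    _ = _ := by ring

end Pool.H2.WE
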