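import Pool.Agent.H2.WE.Cub
import Pool.Agent.H2.WE.Spt

/-!
# [H2 WE AVG] Averages of `gf`

`gf n = ∏_{l ∣ n} (1 + 1/l)`.

PROOFS. `avg1`: `gf(v)^K ≤ ∏_{l∣v} (1 + 2^K/l)` (`(1+x)^K ≤ 1 + 2^K x` for `x ∈ [0,1]`, induction or convexity) `= ∑_{d∣v, squarefree} 2^(Kω(d))/d`; sum over `v ≤ V`: `≤ ∑_{d≤V, squarefree} (V/d) 2^(Kω(d))/d ≤ V ∏_{l≤V} (1 + 2^K/l²) ≤ V exp(2·2^K)`
(`Finset.prod_one_add`/`Finset.prod_add`, `∑ 1/l² ≤ 2`).
`avgL` (linear forms): for `ω ≠ ω'` choose `i` in exactly one of them; `L(r) = cs r ω - cs r ω' = ± r i + L'(r)` with `L'` not depending on `r i`. For fixed other coordinates (`≤ (2P+1)^(k-1)` choices) the value `L(r)` determines `r i`, and `0 < |L(r)| ≤ 2kP` (terms with `L(r) = 0` are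
excluded). So `∑_{r∈box, L(r)≠0} gf(|L(r)|)^K ≤ (3P)^(k-1) 2 ∑_{v ≤ 2kP} gf(v)^K ≤ C P^k` (`avg1`). (Formally: group `box` by the map `r ↦ Function.update r i 0`.)
`deg`: similarly, for fixed other coordinates at most one value of `r i` has `L(r) = 0`; sum over the `≤ 4^k` pairs `(ω, ω')`: `#{r ∈ box : cs r not injective} ≤ 4^k (3P)^(k-1)`; for `k = 0` `cs r` is injective.
`avg`: `Dl r = ∏_{ω≠ω'} |cs r ω - cs r ω'|`; `gf(ab) ≤ gf(a) gf(b)` (also for `0`? only nonzero factors occur for injective `cs r`), so `gf(Dl r)^K ≤ ∏_{(ω,ω')} gf(|L(r)|)^K ≤ 1 + ∑_{(ω,ω')} gf(|L(r)|)^(KM)`, `M` = number of pairs (a product of `M` numbers `≥ 1` is at most the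
`M`-th power of the largest one). Then `avgL`.
-/

namespace Pool.H2.WE

open Finset Pool.Agent.H5.W

private theorem avg_bern (K : ℕ) (x : ℝ) (hx0 : 0 ≤ x) (hx1 : x ≤ 1) :
    (1 + x) ^ K ≤ 1 + (2 ^ K - 1) * x := by
  induction K with
  | zero => simp
  | succ K ih =>
    have h1 : (1 : ℝ) ≤ 2 ^ K := one_le_pow₀ (by norm_num)
    have h2 : x * x ≤ x := by nlinarith
    calc (1 + x) ^ (K + 1) = (1 + x) ^ K * (1 + x) := pow_succ _ _
      _ ≤ (1 + (2 ^ K - 1) * x) * (1 + x) := mul_le_mul_of_nonneg_right ih (by linarith)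
      _ = 1 + 2 ^ K * x + (2 ^ K - 1) * (x * x) := by ring
      _ ≤ 1 + 2 ^ K * x + (2 ^ K - 1) * x := by
          have := mul_le_mul_of_nonneg_left h2 (by linarith : (0 : ℝ) ≤ 2 ^ K - 1)
          linarith
      _ = 1 + (2 ^ (K + 1) - 1) * x := by rw [pow_succ]; ring

private theorem avg_gf_pow_le (K v : ℕ) :
    gf v ^ K ≤ ∏ l ∈ v.primeFactors, (1 + 2 ^ K / (l : ℝ)) := by
  unfold gf
  rw [← prod_pow]
  apply prod_le_prod
  · intro l _
    positivity
  · intro l hl
    have hl1 : (1 : ℝ) ≤ l := by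
      exact_mod_cast (Nat.prime_of_mem_primeFactors hl).one_lt.le
    have h1 := avg_bern K (1 / (l : ℝ)) (by positivity) (by rw [div_le_one (by linarith)]; exact hl1)
    have h2 : (2 ^ K - 1) * (1 / (l : ℝ)) ≤ 2 ^ K / (l : ℝ) := by
      rw [mul_one_div]
      apply div_le_div_of_nonneg_right _ (by linarith)
      linarith
    linarith

theorem avg1 (K : ℕ) : ∃ C : ℝ, 0 < C ∧ ∀ V : ℕ, ∑ v ∈ Icc 1 V, gf v ^ K ≤ C * V := by
  classical
  refine ⟨Real.exp (2 * 2 ^ K), Real.exp_pos _, ?_⟩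
  intro V
  set Pr := (Icc 1 V).filter Nat.Prime with hPr
  have h1 : ∀ v ∈ Icc 1 V, gf v ^ K ≤
      ∑ t ∈ Pr.powerset, if t ⊆ v.primeFactors then ∏ l ∈ t, (2 ^ K / (l : ℝ)) else 0 := by
    intro v hv
    rw [mem_Icc] at hv
    refine (avg_gf_pow_le K v).trans (le_of_eq ?_)
    rw [Finset.prod_one_add, ← sum_filter]
    apply sum_congr _ (fun _ _ => rfl)
    ext t
    rw [mem_powerset, mem_filter, mem_powerset]
    constructor
    · intro ht
      refine ⟨fun l hl => ?_, ht⟩
      have h2 := ht hl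
      have h3 := Nat.prime_of_mem_primeFactors h2
      rw [hPr, mem_filter, mem_Icc]
      exact ⟨⟨h3.one_lt.le, (Nat.le_of_dvd hv.1 (Nat.dvd_of_mem_primeFactors h2)).trans hv.2⟩, h3⟩
    · exact fun h => h.2
  have h2 : ∀ t ∈ Pr.powerset, ∑ v ∈ Icc 1 V,
      (if t ⊆ v.primeFactors then ∏ l ∈ t, (2 ^ K / (l : ℝ)) else 0) ≤
      V * ∏ l ∈ t, (2 ^ K / (l : ℝ) ^ 2) := by
    intro t ht
    rw [mem_powerset] at ht
    rw [← sum_filter, sum_const, nsmul_eq_mul]
    have htp : ∀ l ∈ t, l.Prime := fun l hl => (mem_filter.1 (ht hl)).2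
    have h0 : 0 < ∏ l ∈ t, l := prod_pos fun l hl => (htp l hl).pos
    have h3 : ((Icc 1 V).filter (fun v => t ⊆ v.primeFactors)).card ≤ V / ∏ l ∈ t, l := by
      have h4 : ((Ioc 0 V).filter (fun v => (∏ l ∈ t, l) ∣ v)).card = V / ∏ l ∈ t, l :=
        Nat.Ioc_filter_dvd_card_eq_div V _
      rw [← h4]
      apply card_le_card
      intro v hv
      rw [mem_filter, mem_Icc] at hv
      rw [mem_filter, mem_Ioc]
      refine ⟨⟨by omega, hv.1.2⟩, ?_⟩
      exact (prod_dvd_prod_of_subset _ _ _ hv.2).trans (Nat.prod_primeFactors_dvd v)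
    have h5 : (((Icc 1 V).filter (fun v => t ⊆ v.primeFactors)).card : ℝ) ≤
        V / ∏ l ∈ t, (l : ℝ) := by
      calc (((Icc 1 V).filter (fun v => t ⊆ v.primeFactors)).card : ℝ)
          ≤ ((V / ∏ l ∈ t, l : ℕ) : ℝ) := by exact_mod_cast h3
        _ ≤ (V : ℝ) / ((∏ l ∈ t, l : ℕ) : ℝ) := Nat.cast_div_le
        _ = V / ∏ l ∈ t, (l : ℝ) := by rw [Nat.cast_prod]
    have h6 : 0 ≤ ∏ l ∈ t, (2 ^ K / (l : ℝ)) := prod_nonneg fun l _ => by positivity
    refine (mul_le_mul_of_nonneg_right h5 h6).trans (le_of_eq ?_)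
    rw [div_mul_eq_mul_div, mul_div_assoc, ← prod_div_distrib]
    congr 1
    apply prod_congr rfl
    intro l _
    rw [div_div, sq]
  calc ∑ v ∈ Icc 1 V, gf v ^ K ≤ ∑ v ∈ Icc 1 V, ∑ t ∈ Pr.powerset,
        (if t ⊆ v.primeFactors then ∏ l ∈ t, (2 ^ K / (l : ℝ)) else 0) := sum_le_sum h1
    _ = ∑ t ∈ Pr.powerset, ∑ v ∈ Icc 1 V,
        (if t ⊆ v.primeFactors then ∏ l ∈ t, (2 ^ K / (l : ℝ)) else 0) := sum_comm
    _ ≤ ∑ t ∈ Pr.powerset, (V : ℝ) * ∏ l ∈ t, (2 ^ K / (l : ℝ) ^ 2) := sum_le_sum h2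
    _ = (V : ℝ) * ∏ l ∈ Pr, (1 + 2 ^ K / (l : ℝ) ^ 2) := by rw [← mul_sum, Finset.prod_one_add]
    _ ≤ (V : ℝ) * Real.exp (2 * 2 ^ K) := by
        apply mul_le_mul_of_nonneg_left _ (Nat.cast_nonneg _)
        calc ∏ p ∈ Pr, (1 + 2 ^ K / (p : ℝ) ^ 2)
            ≤ ∏ p ∈ Pr, Real.exp (2 ^ K / (p : ℝ) ^ 2) := by
              apply prod_le_prod
              · intro p _
                positivity
              · intro p _
                rw [add_comm]
                exact Real.add_one_le_exp _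
          _ = Real.exp (∑ p ∈ Pr, 2 ^ K / (p : ℝ) ^ 2) := by rw [Real.exp_sum]
          _ ≤ Real.exp (2 * 2 ^ K) := by
              apply Real.exp_le_exp.2
              calc ∑ p ∈ Pr, (2 : ℝ) ^ K / (p : ℝ) ^ 2
                  ≤ ∑ p ∈ Icc 1 V, (2 : ℝ) ^ K / (p : ℝ) ^ 2 :=
                    sum_le_sum_of_subset_of_nonneg (filter_subset _ _) fun p _ _ => by positivity
                _ = 2 ^ K * ∑ p ∈ Icc 1 V, 1 / (p : ℝ) ^ 2 := by
                    rw [mul_sum]
                    apply sum_congr rfl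
                    intro p _
                    ring
                _ ≤ 2 ^ K * 2 := mul_le_mul_of_nonneg_left (sum_inv_sq_le V) (by positivity)
                _ = 2 * 2 ^ K := by ring
    _ = _ := by ring

/-- the linear form does not see the other coordinates -/
private theorem avg_cs_inj {k : ℕ} (ω ω' : Finset (Fin k)) (i : Fin k)
    (hi : (i ∈ ω ∧ i ∉ ω') ∨ (i ∉ ω ∧ i ∈ ω')) (r r' : Fin k → ℤ)
    (h1 : Function.update r i 0 = Function.update r' i 0)
    (h2 : cs r ω - cs r ω' = cs r' ω - cs r' ω') : r = r' := by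
  classical
  have h3 : ∀ j, j ≠ i → r j = r' j := by
    intro j hj
    have := congrFun h1 j
    rwa [Function.update_of_ne hj, Function.update_of_ne hj] at this
  have h4 : ∀ s : Finset (Fin k), i ∉ s → cs r s = cs r' s := by
    intro s hs
    unfold cs
    apply sum_congr rfl
    intro j hj
    apply h3
    rintro rfl
    exact hs hj
  have h5 : ∀ s : Finset (Fin k), i ∈ s → cs r s - cs r' s = r i - r' i := by
    intro s hs
    have h6 := h4 (s.erase i) (notMem_erase i s)
    have h7 : cs r s = r i + cs r (s.erase i) := by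
      unfold cs
      exact (add_sum_erase s r hs).symm
    have h8 : cs r' s = r' i + cs r' (s.erase i) := by
      unfold cs
      exact (add_sum_erase s r' hs).symm
    rw [h7, h8, h6]
    ring
  funext j
  by_cases hj : j = i
  · subst hj
    rcases hi with ⟨ha, hb⟩ | ⟨ha, hb⟩
    · have := h4 ω' hb
      have := h5 ω ha
      omega
    · have := h4 ω ha
      have := h5 ω' hb
      omega
  · exact h3 j hj

private theorem avg_cs_le {k P : ℕ} (r : Fin k → ℤ) (hr : r ∈ box k P) (ω : Finset (Fin k)) :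
    |cs r ω| ≤ k * P := by
  unfold box at hr
  rw [Fintype.mem_piFinset] at hr
  calc |cs r ω| ≤ ∑ i ∈ ω, |r i| := by
        unfold cs
        exact abs_sum_le_sum_abs _ _
    _ ≤ ∑ _i ∈ ω, (P : ℤ) := sum_le_sum fun i _ => abs_le.2 (mem_Icc.1 (hr i))
    _ = ω.card * P := by rw [sum_const, nsmul_eq_mul]
    _ ≤ k * P := by
        apply mul_le_mul_of_nonneg_right _ (Int.natCast_nonneg P)
        have := card_le_univ ω
        rw [Fintype.card_fin] at this
        exact_mod_cast this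

/-- sums of functions of a linear form -/
private theorem avg_lin (k P : ℕ) (hP : 1 ≤ P) (ω ω' : Finset (Fin k)) (hne : ω ≠ ω') (g : ℤ → ℝ)
    (hg : ∀ m, 0 ≤ g m) : (∑ r ∈ box k P, g (cs r ω - cs r ω')) * P ≤
      (3 * (P : ℝ)) ^ k * ∑ m ∈ Icc (-(2 * k * P : ℤ)) (2 * k * P), g m := by
  classical
  obtain ⟨i, hi⟩ : ∃ i, (i ∈ ω ∧ i ∉ ω') ∨ (i ∉ ω ∧ i ∈ ω') := by
    by_contra hcon
    push Not at hcon
    apply hne
    ext i
    constructor
    · intro h
      by_contra h'
      exact h' ((hcon i).1 h)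
    · intro h
      by_contra h'
      exact (hcon i).2 h' h
  let bs : Finset (Fin k → ℤ) :=
    Fintype.piFinset (fun j => if j = i then {0} else Icc (-(P : ℤ)) P)
  have hbs : (bs.card : ℝ) * P ≤ (3 * (P : ℝ)) ^ k := by
    have h1 : bs.card = ∏ j : Fin k, (if j = i then 1 else (2 * P + 1)) := by
      rw [Fintype.card_piFinset]
      apply prod_congr rfl
      intro j _
      split_ifs
      · simp
      · rw [Int.card_Icc]
        omega
    have h2 : (bs.card : ℝ) = ∏ j ∈ univ.erase i, ((2 : ℝ) * P + 1) := by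
      rw [h1, Nat.cast_prod, ← mul_prod_erase univ _ (mem_univ i)]
      simp only [if_true, Nat.cast_one, one_mul]
      apply prod_congr rfl
      intro j hj
      rw [if_neg (mem_erase.1 hj).1]
      push_cast
      ring
    have hP1 : (1 : ℝ) ≤ P := by exact_mod_cast hP
    calc (bs.card : ℝ) * P = (P : ℝ) * ∏ j ∈ univ.erase i, ((2 : ℝ) * P + 1) := by
          rw [h2, mul_comm]
      _ ≤ (3 * P) * ∏ j ∈ univ.erase i, (3 * (P : ℝ)) := by
          apply mul_le_mul
          · linarith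
          · apply prod_le_prod
            · intro j _
              positivity
            · intro j _
              linarith
          · exact prod_nonneg fun j _ => by positivity
          · positivity
      _ = ∏ j : Fin k, (3 * (P : ℝ)) := mul_prod_erase univ (fun _ => 3 * (P : ℝ)) (mem_univ i)
      _ = (3 * (P : ℝ)) ^ k := by rw [prod_const, card_univ, Fintype.card_fin]
  have hmain : ∑ r ∈ box k P, g (cs r ω - cs r ω') ≤
      ∑ w ∈ bs ×ˢ Icc (-(2 * k * P : ℤ)) (2 * k * P), g w.2 := by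
    apply sum_le_of_injOn _ _ (fun r => (Function.update r i 0, cs r ω - cs r ω'))
    · intro r hr
      rw [mem_product]
      constructor
      · rw [Fintype.mem_piFinset]
        intro j
        unfold box at hr
        rw [Fintype.mem_piFinset] at hr
        by_cases hj : j = i
        · subst hj
          simp
        · rw [if_neg hj]
          change Function.update r i 0 j ∈ _
          rw [Function.update_of_ne hj]
          exact hr j
      · have h1 := avg_cs_le r hr ω
        have h2 := avg_cs_le r hr ω'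
        rw [mem_Icc]
        rw [abs_le] at h1 h2
        constructor
        · linarith [h1.1, h2.2]
        · linarith [h1.2, h2.1]
    · intro r _ r' _ hrr
      simp only [Prod.mk.injEq] at hrr
      exact avg_cs_inj ω ω' i hi r r' hrr.1 hrr.2
    · intro r _
      exact le_rfl
    · intro w _
      exact hg _
  have hprod : ∑ w ∈ bs ×ˢ Icc (-(2 * k * P : ℤ)) (2 * k * P), g w.2 =
      bs.card * ∑ m ∈ Icc (-(2 * k * P : ℤ)) (2 * k * P), g m := by
    rw [sum_product]
    simp only [sum_const, nsmul_eq_mul]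
  have hS : 0 ≤ ∑ m ∈ Icc (-(2 * k * P : ℤ)) (2 * k * P), g m := sum_nonneg fun m _ => hg m
  calc (∑ r ∈ box k P, g (cs r ω - cs r ω')) * P
      ≤ (bs.card * ∑ m ∈ Icc (-(2 * k * P : ℤ)) (2 * k * P), g m) * P :=
        mul_le_mul_of_nonneg_right (hmain.trans hprod.le) (Nat.cast_nonneg _)
    _ = (bs.card * P) * ∑ m ∈ Icc (-(2 * k * P : ℤ)) (2 * k * P), g m := by ring
    _ ≤ _ := mul_le_mul_of_nonneg_right hbs hS

private theorem avg_abs_sum (N : ℕ) (h : ℕ → ℝ) (hh : ∀ n, 0 ≤ h n) :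
    ∑ m ∈ Icc (-(N : ℤ)) N, (if m = 0 then 0 else h m.natAbs) ≤ 2 * ∑ v ∈ Icc 1 N, h v := by
  classical
  have h1 : ∑ m ∈ Icc (-(N : ℤ)) N, (if m = 0 then 0 else h m.natAbs) =
      ∑ m ∈ (Icc (-(N : ℤ)) N).filter (fun m => m ≠ 0), h m.natAbs := by
    rw [sum_filter]
    apply sum_congr rfl
    intro m _
    by_cases hm : m = 0
    · simp [hm]
    · simp [hm]
  have h2 : ∑ m ∈ (Icc (-(N : ℤ)) N).filter (fun m => m ≠ 0), h m.natAbs ≤
      ∑ w ∈ (univ : Finset Bool) ×ˢ Icc 1 N, h w.2 := by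
    apply sum_le_of_injOn _ _ (fun m => (decide (0 < m), m.natAbs))
    · intro m hm
      rw [mem_filter, mem_Icc] at hm
      rw [mem_product, mem_Icc]
      exact ⟨mem_univ _, by simp only; omega, by simp only; omega⟩
    · intro m hm m' hm' hmm
      simp only [Prod.mk.injEq, decide_eq_decide] at hmm
      rw [mem_coe, mem_filter] at hm hm'
      have e1 := hmm.1
      have e2 := hmm.2
      have e3 := hm.2
      have e4 := hm'.2
      rcases Int.natAbs_eq_natAbs_iff.1 e2 with h | h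
      · exact h
      · exfalso
        rcases lt_or_gt_of_ne e3 with h3 | h3
        · have h4 : 0 < m' := by omega
          have := e1.2 h4
          omega
        · have := e1.1 h3
          omega
    · intro m _
      exact le_rfl
    · intro w _
      exact hh _
  rw [h1]
  refine h2.trans (le_of_eq ?_)
  rw [sum_product]
  simp

theorem avgL (k K : ℕ) : ∃ C : ℝ, 0 < C ∧ ∀ (P : ℕ), 1 ≤ P → ∀ ω ω' : Finset (Fin k), ω ≠ ω' →
    ∑ r ∈ (box k P).filter (fun r => cs r ω - cs r ω' ≠ 0), gf (cs r ω - cs r ω').natAbs ^ K ≤ C * P ^ k := by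
  classical
  obtain ⟨C, hC, h1⟩ := avg1 K
  refine ⟨3 ^ k * (4 * k * C) + 1, by positivity, ?_⟩
  intro P hP ω ω' hne
  have hP0 : (0 : ℝ) < P := by exact_mod_cast hP
  have h2 := avg_lin k P hP ω ω' hne (fun m => if m = 0 then 0 else gf m.natAbs ^ K) (by
    intro m
    split_ifs
    · exact le_rfl
    · exact pow_nonneg (zero_le_one.trans (gf_one_le _)) _)
  have h3 := avg_abs_sum (2 * k * P) (fun n => gf n ^ K) (fun n =>
    pow_nonneg (zero_le_one.trans (gf_one_le _)) _)
  have h4 := h1 (2 * k * P)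
  push_cast at h3 h4
  have h5 : ∑ r ∈ (box k P).filter (fun r => cs r ω - cs r ω' ≠ 0),
      gf (cs r ω - cs r ω').natAbs ^ K =
      ∑ r ∈ box k P, (if cs r ω - cs r ω' = 0 then 0 else gf (cs r ω - cs r ω').natAbs ^ K) := by
    rw [sum_filter]
    apply sum_congr rfl
    intro r _
    by_cases hr : cs r ω - cs r ω' = 0
    · simp [hr]
    · simp [hr]
  rw [h5]
  have h6 : (∑ r ∈ box k P, (if cs r ω - cs r ω' = 0 then 0 else
      gf (cs r ω - cs r ω').natAbs ^ K)) * P ≤ ((3 ^ k * (4 * k * C)) * P ^ k) * P := by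
    refine h2.trans ?_
    calc (3 * (P : ℝ)) ^ k * ∑ m ∈ Icc (-(2 * k * P : ℤ)) (2 * k * P),
          (if m = 0 then 0 else gf m.natAbs ^ K)
        ≤ (3 * (P : ℝ)) ^ k * (2 * (C * (2 * k * P))) := by
          apply mul_le_mul_of_nonneg_left _ (by positivity)
          exact h3.trans (mul_le_mul_of_nonneg_left h4 (by norm_num))
      _ = ((3 ^ k * (4 * k * C)) * P ^ k) * P := by rw [mul_pow]; ring
  have h7 := le_of_mul_le_mul_right h6 hP0
  have h8 : (0 : ℝ) ≤ (P : ℝ) ^ k := by positivity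
  linarith

open Classical in
theorem deg (k : ℕ) : ∃ C : ℝ, 0 < C ∧ ∀ P : ℕ, 1 ≤ P → (((box k P).filter (fun r => ¬ Function.Injective (cs r))).card : ℝ) * P ≤ C * P ^ k := by
  refine ⟨((univ : Finset (Finset (Fin k) × Finset (Fin k))).card + 1) * 3 ^ k, by positivity, ?_⟩
  intro P hP
  have hP0 : (0 : ℝ) < P := by exact_mod_cast hP
  set W := (univ : Finset (Finset (Fin k) × Finset (Fin k))).filter (fun w => w.1 ≠ w.2) with hW
  have h1 : (((box k P).filter (fun r => ¬ Function.Injective (cs r))).card : ℝ) ≤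
      ∑ w ∈ W, ∑ r ∈ box k P, (if cs r w.1 - cs r w.2 = 0 then (1 : ℝ) else 0) := by
    rw [sum_comm, card_eq_sum_ones, Nat.cast_sum, sum_filter]
    apply sum_le_sum
    intro r _
    have hnn : ∀ w ∈ W, (0 : ℝ) ≤ (if cs r w.1 - cs r w.2 = 0 then (1 : ℝ) else 0) := by
      intro w _
      split_ifs <;> norm_num
    by_cases hr : Function.Injective (cs r)
    · rw [if_neg (not_not.2 hr)]
      exact sum_nonneg hnn
    · rw [if_pos hr]
      obtain ⟨ω, ω', h2, h3⟩ := Function.not_injective_iff.1 hr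
      have h4 : (ω, ω') ∈ W := by
        rw [hW, mem_filter]
        exact ⟨mem_univ _, h3⟩
      have h5 := single_le_sum hnn h4
      simp only [h2, sub_self, if_true] at h5
      simpa using h5
  have h2 : ∀ w ∈ W, (∑ r ∈ box k P, (if cs r w.1 - cs r w.2 = 0 then (1 : ℝ) else 0)) * P ≤
      (3 * (P : ℝ)) ^ k := by
    intro w hw
    rw [hW, mem_filter] at hw
    have h3 := avg_lin k P hP w.1 w.2 hw.2 (fun m => if m = 0 then (1 : ℝ) else 0) (by
      intro m
      split_ifs <;> norm_num)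
    refine h3.trans ?_
    have h4 : ∑ m ∈ Icc (-(2 * k * P : ℤ)) (2 * k * P), (if m = 0 then (1 : ℝ) else 0) ≤ 1 := by
      rw [sum_ite_eq']
      split_ifs <;> norm_num
    exact mul_le_of_le_one_right (by positivity) h4
  calc (((box k P).filter (fun r => ¬ Function.Injective (cs r))).card : ℝ) * P
      ≤ (∑ w ∈ W, ∑ r ∈ box k P, (if cs r w.1 - cs r w.2 = 0 then (1 : ℝ) else 0)) * P :=
        mul_le_mul_of_nonneg_right h1 hP0.le
    _ = ∑ w ∈ W, (∑ r ∈ box k P, (if cs r w.1 - cs r w.2 = 0 then (1 : ℝ) else 0)) * P := sum_mul _ _ _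
    _ ≤ ∑ _w ∈ W, (3 * (P : ℝ)) ^ k := sum_le_sum h2
    _ = W.card * (3 * (P : ℝ)) ^ k := by rw [sum_const, nsmul_eq_mul]
    _ ≤ ((univ : Finset (Finset (Fin k) × Finset (Fin k))).card + 1) * (3 * (P : ℝ)) ^ k := by
        apply mul_le_mul_of_nonneg_right _ (by positivity)
        have : (W.card : ℝ) ≤ (univ : Finset (Finset (Fin k) × Finset (Fin k))).card := by
          exact_mod_cast card_le_card (filter_subset _ _)
        linarith
    _ = _ := by rw [mul_pow]; ring

open Classical in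
/-- the product of the differences -/
noncomputable def Dl {k : ℕ} (r : Fin k → ℤ) : ℕ := ∏ w ∈ (univ : Finset (Finset (Fin k) × Finset (Fin k))).filter (fun w => w.1 ≠ w.2), (cs r w.1 - cs r w.2).natAbs

private theorem avg_gf_prod {ι : Type*} (s : Finset ι) (a : ι → ℕ) :
    gf (∏ i ∈ s, a i) ≤ ∏ i ∈ s, gf (a i) := by
  classical
  induction s using Finset.induction_on with
  | empty => simp [gf]
  | insert i s hi ih =>
    rw [prod_insert hi, prod_insert hi]
    exact (gf_mul_le _ _).trans (mul_le_mul_of_nonneg_left ih (zero_le_one.trans (gf_one_le _)))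

private theorem avg_prod_le {ι : Type*} (s : Finset ι) (a : ι → ℝ) (ha : ∀ i, 1 ≤ a i) :
    ∏ i ∈ s, a i ≤ 1 + ∑ i ∈ s, a i ^ s.card := by
  have hnn : ∀ i ∈ s, 0 ≤ a i ^ s.card := fun i _ => pow_nonneg (zero_le_one.trans (ha i)) _
  rcases s.eq_empty_or_nonempty with rfl | hs
  · simp
  · obtain ⟨j, hj, hmax⟩ := exists_max_image s a hs
    have h1 : ∏ i ∈ s, a i ≤ a j ^ s.card := by
      calc ∏ i ∈ s, a i ≤ ∏ _i ∈ s, a j :=
            prod_le_prod (fun i _ => zero_le_one.trans (ha i)) hmax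
        _ = a j ^ s.card := by rw [prod_const]
    have h2 := single_le_sum hnn hj
    linarith

open Classical in
theorem avg (k K : ℕ) : ∃ C : ℝ, 0 < C ∧ ∀ P : ℕ, 1 ≤ P → ∑ r ∈ (box k P).filter (fun r => Function.Injective (cs r)), gf (Dl r) ^ K ≤ C * P ^ k := by
  set W := (univ : Finset (Finset (Fin k) × Finset (Fin k))).filter (fun w => w.1 ≠ w.2) with hW
  obtain ⟨C, hC, h1⟩ := avgL k (K * W.card)
  refine ⟨3 ^ k + W.card * C, by positivity, ?_⟩
  intro P hP
  have hP1 : (1 : ℝ) ≤ P := by exact_mod_cast hP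
  have hbox : ((box k P).card : ℝ) ≤ 3 ^ k * P ^ k := by
    have h2 : (box k P).card = (2 * P + 1) ^ k := by
      unfold box
      rw [Fintype.card_piFinset]
      rw [prod_const, card_univ, Fintype.card_fin, Int.card_Icc]
      congr 1
      omega
    rw [h2, ← mul_pow]
    push_cast
    apply pow_le_pow_left₀ (by positivity)
    linarith
  have h2 : ∀ r ∈ (box k P).filter (fun r => Function.Injective (cs r)), gf (Dl r) ^ K ≤
      1 + ∑ w ∈ W, (if cs r w.1 - cs r w.2 ≠ 0 then
        gf (cs r w.1 - cs r w.2).natAbs ^ (K * W.card) else 0) := by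
    intro r hr
    rw [mem_filter] at hr
    have h3 : gf (Dl r) ≤ ∏ w ∈ W, gf (cs r w.1 - cs r w.2).natAbs := avg_gf_prod _ _
    have h4 : gf (Dl r) ^ K ≤ ∏ w ∈ W, gf (cs r w.1 - cs r w.2).natAbs ^ K := by
      rw [prod_pow]
      exact pow_le_pow_left₀ (zero_le_one.trans (gf_one_le _)) h3 K
    refine h4.trans ((avg_prod_le W (fun w => gf (cs r w.1 - cs r w.2).natAbs ^ K)
      (fun w => one_le_pow₀ (gf_one_le _))).trans (le_of_eq ?_))
    congr 1
    apply sum_congr rfl
    intro w hw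
    rw [hW, mem_filter] at hw
    have h5 : cs r w.1 - cs r w.2 ≠ 0 := by
      intro h
      exact hw.2 (hr.2 (sub_eq_zero.1 h))
    rw [if_pos h5, ← pow_mul]
  calc ∑ r ∈ (box k P).filter (fun r => Function.Injective (cs r)), gf (Dl r) ^ K
      ≤ ∑ r ∈ (box k P).filter (fun r => Function.Injective (cs r)),
        (1 + ∑ w ∈ W, (if cs r w.1 - cs r w.2 ≠ 0 then
        gf (cs r w.1 - cs r w.2).natAbs ^ (K * W.card) else 0)) := sum_le_sum h2
    _ ≤ ∑ r ∈ box k P,
        (1 + ∑ w ∈ W, (if cs r w.1 - cs r w.2 ≠ 0 then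
        gf (cs r w.1 - cs r w.2).natAbs ^ (K * W.card) else 0)) := by
        apply sum_le_sum_of_subset_of_nonneg (filter_subset _ _)
        intro r _ _
        have : 0 ≤ ∑ w ∈ W, (if cs r w.1 - cs r w.2 ≠ 0 then
          gf (cs r w.1 - cs r w.2).natAbs ^ (K * W.card) else 0) := by
          apply sum_nonneg
          intro w _
          split_ifs
          · exact pow_nonneg (zero_le_one.trans (gf_one_le _)) _
          · exact le_rfl
        linarith
    _ = (box k P).card + ∑ w ∈ W, ∑ r ∈ (box k P).filter (fun r => cs r w.1 - cs r w.2 ≠ 0),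
        gf (cs r w.1 - cs r w.2).natAbs ^ (K * W.card) := by
        rw [sum_add_distrib, sum_const, nsmul_eq_mul, mul_one, sum_comm]
        congr 1
        apply sum_congr rfl
        intro w _
        rw [sum_filter]
    _ ≤ 3 ^ k * P ^ k + ∑ _w ∈ W, C * P ^ k := by
        apply add_le_add hbox
        apply sum_le_sum
        intro w hw
        rw [hW, mem_filter] at hw
        exact h1 P hP w.1 w.2 hw.2
    _ = _ := by rw [sum_const, nsmul_eq_mul]; ring

end Pool.H2.WE
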