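import Mathlib

/-!
# [H2 WE SCL] Scales

Claim: for `K > 0` (real) and `P0` there is a sequence of scales `Q : ℕ → ℕ`, `Q i ≥ P0`, `Q (i+1) = t i * Q i` with `t i ≥ K log (Q i)`, and `∑_{i<I} 1/log(Q i) → ∞`.

PROOF. Take `Q i = D^(i+1) ((i+1)!)²` with an integer `D ≥ max(P0, 3)` large, `t i = D (i+2)²`. `log Q i ≤ (i+1)(log D + 2 log(i+1))`. `t i ≥ K log Q i`: `(i+1) log D ≤ (i+2)² log D` and `2(i+1) log(i+1) ≤ 2(i+2)²`,
so `K log Q i ≤ K (i+2)² (log D + 2) ≤ D (i+2)²` if `D ≥ K(log D + 2)` (`D` large). Divergence: for `i + 1 ≥ D` `log Q i ≤ 3(i+1) log(i+1)` and `∑ 1/(n log n)` diverges (Mathlib: Cauchy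
condensation `summable_condensed_iff_of_nonneg` and divergence of the harmonic series; or directly: `1/(n log n) ≥ log log (n+1) - log log n`).
-/

namespace Pool.H2.WE

open Finset

theorem scl (K : ℝ) (hK : 0 < K) (P0 : ℕ) : ∃ (Q t : ℕ → ℕ), (∀ i, P0 ≤ Q i ∧ 3 ≤ Q i) ∧ (∀ i, Q (i + 1) = t i * Q i) ∧
    (∀ i, K * Real.log (Q i) ≤ t i) ∧ Filter.Tendsto (fun I : ℕ => ∑ i ∈ range I, 1 / Real.log (Q i)) Filter.atTop Filter.atTop := by
  -- choice of `D`
  have hlim : Filter.Tendsto (fun x : ℝ => Real.log x / x) Filter.atTop (nhds 0) := by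
    have h := Real.isLittleO_log_id_atTop.tendsto_div_nhds_zero
    simpa using h
  have hlim2 : Filter.Tendsto (fun x : ℝ => K * (Real.log x / x) + K * 2 / x) Filter.atTop
      (nhds (K * 0 + 0)) :=
    (hlim.const_mul K).add (tendsto_const_nhds.div_atTop Filter.tendsto_id)
  have hev : ∀ᶠ n : ℕ in Filter.atTop, K * (Real.log n / n) + K * 2 / n < 1 := by
    have h1 := (hlim2.comp tendsto_natCast_atTop_atTop).eventually_lt_const
      (show K * 0 + 0 < (1 : ℝ) by norm_num)
    exact h1
  obtain ⟨D, hD1, hD2⟩ := (hev.and (Filter.eventually_ge_atTop (max P0 3))).exists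
  have hD3 : 3 ≤ D := (le_max_right _ _).trans hD2
  have hDP : P0 ≤ D := (le_max_left _ _).trans hD2
  have hDr : (3 : ℝ) ≤ D := by exact_mod_cast hD3
  have hD0 : (0 : ℝ) < D := by linarith
  have hDK : K * (Real.log D + 2) ≤ D := by
    have h1 : K * (Real.log D / D) + K * 2 / D = K * (Real.log D + 2) / D := by
      field_simp
    rw [h1, div_lt_one hD0] at hD1
    exact hD1.le
  have hlD : 1 ≤ Real.log D := by
    rw [Real.le_log_iff_exp_le hD0]
    linarith [Real.exp_one_lt_d9]
  refine ⟨fun i => D ^ (i + 1) * ((i + 1).factorial) ^ 2, fun i => D * (i + 2) ^ 2, ?_, ?_, ?_, ?_⟩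
  · intro i
    have h1 : D ≤ D ^ (i + 1) * ((i + 1).factorial) ^ 2 := by
      calc D = D ^ 1 * 1 := by ring
        _ ≤ D ^ (i + 1) * ((i + 1).factorial) ^ 2 :=
          Nat.mul_le_mul (Nat.pow_le_pow_right (by omega) (by omega))
            (Nat.one_le_pow _ _ (Nat.factorial_pos _))
    exact ⟨hDP.trans h1, hD3.trans h1⟩
  · intro i
    simp only
    rw [Nat.factorial_succ (i + 1)]
    ring
  all_goals
    have hlog : ∀ i : ℕ, Real.log ((D ^ (i + 1) * ((i + 1).factorial) ^ 2 : ℕ) : ℝ) ≤
        (i + 1) * (Real.log D + 2 * Real.log (i + 1)) := by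
      intro i
      have h1 : (D ^ (i + 1) * ((i + 1).factorial) ^ 2 : ℕ) ≤ D ^ (i + 1) * ((i + 1) ^ (i + 1)) ^ 2 :=
        Nat.mul_le_mul le_rfl (Nat.pow_le_pow_left (Nat.factorial_le_pow _) _)
      have h2 : Real.log ((D ^ (i + 1) * ((i + 1).factorial) ^ 2 : ℕ) : ℝ) ≤
          Real.log ((D : ℝ) ^ (i + 1) * (((i : ℝ) + 1) ^ (i + 1)) ^ 2) := by
        refine Real.log_le_log ?_ ?_
        · have h3 : 0 < D ^ (i + 1) * ((i + 1).factorial) ^ 2 :=
            Nat.mul_pos (Nat.pow_pos (by omega)) (Nat.pow_pos (Nat.factorial_pos _))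
          exact_mod_cast h3
        · exact_mod_cast h1
      refine h2.trans (le_of_eq ?_)
      rw [Real.log_mul (by positivity) (by positivity), Real.log_pow, Real.log_pow, Real.log_pow]
      push_cast
      ring
  · intro i
    have h1 := mul_le_mul_of_nonneg_left (hlog i) hK.le
    refine h1.trans ?_
    have hi : (0 : ℝ) ≤ i := Nat.cast_nonneg i
    have h2 : Real.log ((i : ℝ) + 1) ≤ i := by
      have h3 := Real.log_le_sub_one_of_pos (show (0 : ℝ) < (i : ℝ) + 1 by linarith)
      linarith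
    have h4 : ((i : ℝ) + 1) * (Real.log D + 2 * Real.log (i + 1)) ≤
        (i + 2) ^ 2 * (Real.log D + 2) := by
      have h5 : ((i : ℝ) + 1) * (Real.log D + 2 * Real.log (i + 1)) ≤
          (i + 1) * (Real.log D + 2 * i) :=
        mul_le_mul_of_nonneg_left (by linarith) (by linarith)
      refine h5.trans ?_
      nlinarith [mul_nonneg hi (sub_nonneg.2 hlD), mul_nonneg (mul_nonneg hi hi)
        (sub_nonneg.2 hlD)]
    calc K * (((i : ℝ) + 1) * (Real.log D + 2 * Real.log (i + 1)))
        ≤ K * ((i + 2) ^ 2 * (Real.log D + 2)) := mul_le_mul_of_nonneg_left h4 hK.le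
      _ = (K * (Real.log D + 2)) * (i + 2) ^ 2 := by ring
      _ ≤ D * (i + 2) ^ 2 := mul_le_mul_of_nonneg_right hDK (by positivity)
      _ = _ := by push_cast; ring
  · -- divergence
    have hv : ∀ i : ℕ, 1 ≤ Real.log D + 2 * Real.log ((i : ℝ) + 1) := by
      intro i
      have hi : (0 : ℝ) ≤ i := Nat.cast_nonneg i
      have h1 := Real.log_nonneg (show (1 : ℝ) ≤ (i : ℝ) + 1 by linarith)
      linarith
    have hstep : ∀ i : ℕ, (1 / 2) * (Real.log (Real.log D + 2 * Real.log ((i + 1 : ℕ) + 1)) -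
        Real.log (Real.log D + 2 * Real.log ((i : ℝ) + 1))) ≤
        1 / Real.log ((D ^ (i + 1) * ((i + 1).factorial) ^ 2 : ℕ) : ℝ) := by
      intro i
      have hi : (0 : ℝ) ≤ i := Nat.cast_nonneg i
      have hi1 : (0 : ℝ) < (i : ℝ) + 1 := by linarith
      have h1 := hv i
      have h2 := hv (i + 1)
      have h3 : Real.log (Real.log D + 2 * Real.log ((i + 1 : ℕ) + 1)) -
          Real.log (Real.log D + 2 * Real.log ((i : ℝ) + 1)) ≤
          2 / (((i : ℝ) + 1) * (Real.log D + 2 * Real.log ((i : ℝ) + 1))) := by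
        rw [← Real.log_div (by linarith) (by linarith)]
        have h4 := Real.log_le_sub_one_of_pos (show 0 < (Real.log D +
          2 * Real.log ((i + 1 : ℕ) + 1)) / (Real.log D + 2 * Real.log ((i : ℝ) + 1)) from
          div_pos (by linarith) (by linarith))
        refine h4.trans ?_
        have h5 : Real.log (((i + 1 : ℕ) : ℝ) + 1) - Real.log ((i : ℝ) + 1) ≤ 1 / ((i : ℝ) + 1) := by
          rw [← Real.log_div (by positivity) (by positivity)]
          have h6 := Real.log_le_sub_one_of_pos (show 0 < (((i + 1 : ℕ) : ℝ) + 1) / ((i : ℝ) + 1) by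
            positivity)
          refine h6.trans (le_of_eq ?_)
          push_cast
          field_simp
          ring
        have h7 : (Real.log D + 2 * Real.log ((i + 1 : ℕ) + 1)) /
            (Real.log D + 2 * Real.log ((i : ℝ) + 1)) - 1 =
            2 * (Real.log (((i + 1 : ℕ) : ℝ) + 1) - Real.log ((i : ℝ) + 1)) /
            (Real.log D + 2 * Real.log ((i : ℝ) + 1)) := by
          rw [div_sub_one (by linarith)]
          ring
        rw [h7, ← div_div]
        refine div_le_div_of_nonneg_right ?_ (by linarith)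
        calc 2 * (Real.log (((i + 1 : ℕ) : ℝ) + 1) - Real.log ((i : ℝ) + 1))
            ≤ 2 * (1 / ((i : ℝ) + 1)) := by linarith
          _ = _ := by ring
      have h8 : 0 < Real.log ((D ^ (i + 1) * ((i + 1).factorial) ^ 2 : ℕ) : ℝ) := by
        refine Real.log_pos ?_
        have h9 : 1 < D ^ (i + 1) * ((i + 1).factorial) ^ 2 := by
          calc 1 < D := by omega
            _ = D ^ 1 * 1 := by ring
            _ ≤ D ^ (i + 1) * ((i + 1).factorial) ^ 2 :=
              Nat.mul_le_mul (Nat.pow_le_pow_right (by omega) (by omega))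
                (Nat.one_le_pow _ _ (Nat.factorial_pos _))
        exact_mod_cast h9
      calc (1 / 2) * (Real.log (Real.log D + 2 * Real.log ((i + 1 : ℕ) + 1)) -
            Real.log (Real.log D + 2 * Real.log ((i : ℝ) + 1)))
          ≤ (1 / 2) * (2 / (((i : ℝ) + 1) * (Real.log D + 2 * Real.log ((i : ℝ) + 1)))) := by
            linarith
        _ = 1 / (((i : ℝ) + 1) * (Real.log D + 2 * Real.log ((i : ℝ) + 1))) := by ring
        _ ≤ _ := one_div_le_one_div_of_le h8 (hlog i)
    have hsum : ∀ I : ℕ, (1 / 2) * (Real.log (Real.log D + 2 * Real.log ((I : ℝ) + 1)) -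
        Real.log (Real.log D + 2 * Real.log ((0 : ℝ) + 1))) ≤
        ∑ i ∈ range I, 1 / Real.log ((D ^ (i + 1) * ((i + 1).factorial) ^ 2 : ℕ) : ℝ) := by
      intro I
      induction I with
      | zero => simp
      | succ I ih =>
        rw [sum_range_succ]
        have h1 := hstep I
        linarith
    refine Filter.tendsto_atTop_mono hsum ?_
    have h1 : Filter.Tendsto (fun I : ℕ => (I : ℝ) + 1) Filter.atTop Filter.atTop :=
      Filter.tendsto_atTop_add_const_right _ _ tendsto_natCast_atTop_atTop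
    have h2 := Real.tendsto_log_atTop.comp h1
    have h3 : Filter.Tendsto (fun I : ℕ => Real.log D + 2 * Real.log ((I : ℝ) + 1)) Filter.atTop
        Filter.atTop :=
      Filter.tendsto_atTop_add_const_left _ _ (h2.const_mul_atTop (by norm_num))
    have h4 := Real.tendsto_log_atTop.comp h3
    have h5 : Filter.Tendsto (fun I : ℕ => Real.log (Real.log D + 2 * Real.log ((I : ℝ) + 1)) -
        Real.log (Real.log D + 2 * Real.log ((0 : ℝ) + 1))) Filter.atTop Filter.atTop :=
      Filter.tendsto_atTop_add_const_right _ _ h4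
    exact h5.const_mul_atTop (by norm_num)

end Pool.H2.WE
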