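import Pool.Agent.H2.WE.Dec
import Pool.Agent.H2.WE.Scl
import Pool.Agent.H5.PNT.PNT

/-!
# [H2 WE GDS] A good scale exists

PROOF. Chebyshev/PNT: there are `c > 0`, `P1` with `#PP P ≥ c P/log P` for `P ≥ P1` (from `H5.PNT.pi_tendsto` or Bertrand-type bounds in Mathlib/Chebyshev). `scl` with
`K = 6/(c ε)`-like and `P0' = max P0 P1`. Suppose that for every `i < I` `I(Q i) := Hn(Xw (L Q_i)) + Hn Y - Hn(Xw (L Q_i), Y) > ε #PP(Q i)`. By `dec` with `m = L Q_i`, `t = t_i`, `t m = L Q_(i+1)`: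
`Hn(Xw(L Q_(i+1))) ≤ Hn Y + t_i (Hn(Xw m) - I) ≤ 3Q_i + t_i Hn(Xw(L Q_i)) - t_i ε c Q_i/log Q_i`. Divide by `L Q_(i+1) = L t_i Q_i`: with `e_i = Hn(Xw(L Q_i))/(L Q_i)`
`e_(i+1) ≤ e_i + 3/(L t_i) - ε c/(L log Q_i) ≤ e_i - ε c/(2 L log Q_i)` if `t_i ≥ (6/(εc)) log Q_i`. Sum: `0 ≤ e_I ≤ e_0 - (εc/2L) ∑_{i<I} 1/log Q_i`, `e_0 ≤ log A` (`Hn_Xw`). For `I` with
`∑_{i<I} 1/log Q_i > 2L log A/(εc)` this is a contradiction. `Pmax = Q_I` (`Q` is nondecreasing: `t_i ≥ 1` as `K log Q_i > 0`).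
-/

namespace Pool.H2.WE

open Finset

private theorem gds_PP (P : ℕ) : Chebyshev.theta ((2 * P : ℕ) : ℝ) - Chebyshev.theta (P : ℝ) = ∑ p ∈ PP P, Real.log p := by
  unfold Chebyshev.theta PP
  rw [Nat.floor_natCast, Nat.floor_natCast]
  have h1 : (Ioc 0 (2 * P)).filter Nat.Prime = (Ioc 0 P).filter Nat.Prime ∪ (Ioc P (2 * P)).filter Nat.Prime := by
    rw [← filter_union]
    congr 1
    ext n
    simp only [mem_union, mem_Ioc]
    omega
  rw [h1, sum_union]
  · ring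
  · rw [disjoint_left]
    intro n hn hn'
    rw [mem_filter, mem_Ioc] at hn hn'
    omega

theorem PP_card : ∃ c : ℝ, ∃ P1 : ℕ, 0 < c ∧ 2 ≤ P1 ∧ ∀ P : ℕ, P1 ≤ P → c * P / Real.log P ≤ (PP P).card := by
  have h1 := Pool.Agent.H5.PNT.theta_tendsto
  have h2 : ∀ᶠ x : ℝ in Filter.atTop, |Chebyshev.theta x / x - 1| < 1 / 10 := by
    have h3 := (Metric.tendsto_nhds.1 h1) (1 / 10) (by norm_num)
    exact h3.mono fun x hx => by rwa [Real.dist_eq] at hx
  obtain ⟨x0, hx0⟩ := Filter.eventually_atTop.1 h2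
  refine ⟨1 / 4, ⌈x0⌉₊ + 2, by norm_num, by omega, ?_⟩
  intro P hP
  have hPx : x0 ≤ P := (Nat.le_ceil x0).trans (by exact_mod_cast (show ⌈x0⌉₊ ≤ P by omega))
  have hP2 : (2 : ℝ) ≤ P := by exact_mod_cast (show 2 ≤ P by omega)
  have hP0 : (0 : ℝ) < P := by linarith
  have h3 := hx0 P hPx
  have h4 := hx0 ((2 * P : ℕ) : ℝ) (by push_cast; linarith)
  rw [abs_lt] at h3 h4
  have h5 : Chebyshev.theta (P : ℝ) ≤ 11 / 10 * P := by
    have h6 : Chebyshev.theta (P : ℝ) / P < 11 / 10 := by linarith [h3.2]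
    rw [div_lt_iff₀ hP0] at h6
    exact h6.le
  have h6 : 9 / 10 * (2 * P) ≤ Chebyshev.theta ((2 * P : ℕ) : ℝ) := by
    have h7 : 9 / 10 < Chebyshev.theta ((2 * P : ℕ) : ℝ) / ((2 * P : ℕ) : ℝ) := by linarith [h4.1]
    rw [lt_div_iff₀ (by push_cast; linarith)] at h7
    push_cast at h7
    push_cast
    linarith
  have h7 := gds_PP P
  have hlog : 0 < Real.log P := Real.log_pos (by linarith)
  have h8 : ∑ p ∈ PP P, Real.log p ≤ (PP P).card * (2 * Real.log P) := by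
    rw [← nsmul_eq_mul, ← sum_const]
    apply sum_le_sum
    intro p hp
    unfold PP at hp
    rw [mem_filter, mem_Ioc] at hp
    have h9 : (2 : ℝ) * Real.log P = Real.log ((P : ℝ) ^ 2) := by rw [Real.log_pow]; push_cast; ring
    rw [h9]
    apply Real.log_le_log (by exact_mod_cast (show 0 < p by omega))
    have h10 : (p : ℝ) ≤ 2 * P := by exact_mod_cast hp.1.2
    nlinarith
  rw [div_le_iff₀ hlog]
  nlinarith

theorem gds (ε : ℝ) (hε : 0 < ε) (A L P0 : ℕ) (hA : 1 ≤ A) (hL : 1 ≤ L) : ∃ Pmax : ℕ, ∀ (N : ℕ) [NeZero N] (a : ZMod N → Fin A),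
    (∀ p : ℕ, p.Prime → p ≤ 2 * Pmax → p ∣ N) → ∃ P : ℕ, P0 ≤ P ∧ 1 ≤ P ∧ P ≤ Pmax ∧
      Hn (Xw a (L * P)) + Hn (Yw N P) - Hn (fun n => (Xw a (L * P) n, Yw N P n)) ≤ ε * (PP P).card := by
  obtain ⟨c, P1, hc, hP1, hPP⟩ := PP_card
  obtain ⟨Q, t, hQ, hQt, ht, hdiv⟩ := scl (6 / (c * ε)) (by positivity) (max P0 P1)
  obtain ⟨I, hI⟩ := (hdiv.eventually_gt_atTop (2 * L * Real.log A / (ε * c))).exists
  refine ⟨Q I, ?_⟩
  intro N _ a hN
  have hQ3 : ∀ i, (3 : ℝ) ≤ Q i := fun i => by exact_mod_cast (hQ i).2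
  have hlogQ : ∀ i, 0 < Real.log (Q i) := fun i => Real.log_pos (by linarith [hQ3 i])
  have htpos : ∀ i, (0 : ℝ) < t i := fun i => lt_of_lt_of_le (by have := hlogQ i; positivity) (ht i)
  have htn : ∀ i, 1 ≤ t i := fun i => by
    have h1 := htpos i
    have h2 : 0 < t i := by exact_mod_cast h1
    exact h2
  have hmono : Monotone Q := by
    apply monotone_nat_of_le_succ
    intro i
    rw [hQt i]
    exact Nat.le_mul_of_pos_left _ (htn i)
  have hLR : (1 : ℝ) ≤ L := by exact_mod_cast hL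
  by_contra hcon
  push Not at hcon
  -- the information at the scales Q i, i ≤ I
  have hinf : ∀ i, i ≤ I → ε * (c * Q i / Real.log (Q i)) ≤
      Hn (Xw a (L * Q i)) + Hn (Yw N (Q i)) - Hn (fun n => (Xw a (L * Q i) n, Yw N (Q i) n)) := by
    intro i hi
    have h1 := hcon (Q i) (le_trans (le_max_left _ _) (hQ i).1) (by have := (hQ i).2; omega) (hmono hi)
    have h2 := hPP (Q i) (le_trans (le_max_right _ _) (hQ i).1)
    have h3 := mul_le_mul_of_nonneg_left h2 hε.le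
    linarith
  obtain ⟨e, he⟩ : ∃ e : ℕ → ℝ, ∀ i, e i = Hn (Xw a (L * Q i)) / (L * Q i) := ⟨fun i => Hn (Xw a (L * Q i)) / (L * Q i), fun i => rfl⟩
  have hstep : ∀ i, i < I → e (i + 1) ≤ e i - ε * c / (2 * L) * (1 / Real.log (Q i)) := by
    intro i hi
    have hQi0 : (0 : ℝ) < Q i := by linarith [hQ3 i]
    have hLQ : (0 : ℝ) < L * Q i := by positivity
    have h1 := dec N A (Q i) (L * Q i) (t i) (by
      intro p hp
      unfold PP at hp
      rw [mem_filter, mem_Ioc] at hp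
      exact hN p hp.2 (hp.1.2.trans (Nat.mul_le_mul_left _ (hmono hi.le)))) a
    have h2 : t i * (L * Q i) = L * Q (i + 1) := by rw [hQt]; ring
    rw [h2] at h1
    have h3 := hinf i hi.le
    have h4 := Hn_Yw N (Q i) (by have := (hQ i).2; omega)
    have h5 : (t i : ℝ) * (Hn (fun n => (Xw a (L * Q i) n, Yw N (Q i) n)) - Hn (Yw N (Q i))) ≤
        t i * (Hn (Xw a (L * Q i)) - ε * (c * Q i / Real.log (Q i))) :=
      mul_le_mul_of_nonneg_left (by linarith) (htpos i).le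
    have h6 : Hn (Xw a (L * Q (i + 1))) ≤ 3 * Q i + t i * (Hn (Xw a (L * Q i)) - ε * (c * Q i / Real.log (Q i))) := by linarith
    have h7 : e (i + 1) ≤ (3 * Q i + t i * (Hn (Xw a (L * Q i)) - ε * (c * Q i / Real.log (Q i)))) / (t i * (L * Q i)) := by
      rw [he]
      have e1 : (L : ℝ) * Q (i + 1) = t i * (L * Q i) := by exact_mod_cast h2.symm
      rw [e1]
      exact div_le_div_of_nonneg_right h6 (mul_pos (htpos i) hLQ).le
    have h8 : (3 * Q i + t i * (Hn (Xw a (L * Q i)) - ε * (c * Q i / Real.log (Q i)))) / (t i * (L * Q i)) =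
        3 / (L * t i) + e i - ε * c / L * (1 / Real.log (Q i)) := by
      rw [he]
      have := (htpos i).ne'
      have := (hlogQ i).ne'
      have := hQi0.ne'
      field_simp
      ring
    have h9 : 3 / (L * t i) ≤ ε * c / (2 * L) * (1 / Real.log (Q i)) := by
      have h10 := ht i
      have e2 : ε * c / (2 * L) * (1 / Real.log (Q i)) = ε * c / (2 * L * Real.log (Q i)) := by
        have := (hlogQ i).ne'
        field_simp
      rw [e2, div_le_div_iff₀ (mul_pos (by linarith) (htpos i)) (mul_pos (by linarith) (hlogQ i))]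
      have e3 : 6 / (c * ε) * Real.log (Q i) = 6 * Real.log (Q i) / (ε * c) := by
        field_simp
      rw [e3, div_le_iff₀ (by positivity)] at h10
      nlinarith
    have e4 : ε * c / L * (1 / Real.log (Q i)) = 2 * (ε * c / (2 * L) * (1 / Real.log (Q i))) := by
      have := (hlogQ i).ne'
      field_simp
    rw [h8, e4] at h7
    linarith
  have hsum : ∀ j, j ≤ I → e j ≤ e 0 - ε * c / (2 * L) * ∑ i ∈ range j, 1 / Real.log (Q i) := by
    intro j
    induction j with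
    | zero => intro _; simp
    | succ j ih =>
      intro hj
      rw [sum_range_succ, mul_add]
      linarith [ih (by omega), hstep j (by omega)]
  have h1 := hsum I le_rfl
  have h2 : 0 ≤ e I := by
    rw [he]
    exact div_nonneg (Hn_nonneg _) (by positivity)
  have h3 : e 0 ≤ Real.log A := by
    rw [he, div_le_iff₀ (by have := hQ3 0; positivity)]
    have h4 := Hn_Xw N A (L * Q 0) a
    push_cast at h4
    linarith
  have h4 : 2 * L * Real.log A / (ε * c) < ∑ i ∈ range I, 1 / Real.log (Q i) := hI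
  rw [div_lt_iff₀ (by positivity)] at h4
  have h5 : ε * c / (2 * L) * ∑ i ∈ range I, 1 / Real.log (Q i) ≤ Real.log A := by linarith
  have h6 : ε * c / (2 * L) * ∑ i ∈ range I, 1 / Real.log (Q i) = (∑ i ∈ range I, 1 / Real.log (Q i)) * (ε * c) / (2 * L) := by ring
  rw [h6, div_le_iff₀ (by positivity)] at h5
  linarith

end Pool.H2.WE
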