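import Pool.Agent.H2.WE.Cub
import Pool.Agent.H2.WE.Spt
import Pool.Agent.H2.WE.Avg
import Pool.Agent.H2.WE.Gds

/-!
# [H2 WE POS] A positive proportion of the difference vectors occur

`𝒢 ⊂ PP P` contains at least half of the primes of `(P, 2P]`. Then the set `R` of the `r ∈ [-P,P]^k` such that some `p` has all `p + cs r ω ∈ 𝒢` has at least `c P^k` elements.

PROOF. Let `κ = 2^k`, `A = 𝒢` (cast to `ℤ`), `N(r) = #{x : (x, r) ∈ cb A k P}`. `PP_card`: `|A| ≥ c₁ P/log P`. `cub`: `∑_r N(r) = #cb A k P ≥ 3^(-κ) |A|^κ P^(k+1-κ) ≥ c₂ P^(k+1)/(log P)^κ`. The `r` with non-injective `cs r` contribute at most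
`P · #{..} ≤ C P^k` (`deg`; `N(r) ≤ |A| ≤ P`), which is at most half of this for `P ≥ P1`. For injective `cs r` `spt` (`S = image of cs r`, `|S| = κ`, `Δ = Dl r`; elements of `A` are primes in `(P, 2P]`) gives `N(r) ≤ C P/(log P)^κ gf(Dl r)^κ`. `N(r) > 0` implies `r ∈ R`. So
`(c₂/2) P^(k+1)/(log P)^κ ≤ C P/(log P)^κ ∑_{r∈R, injective} gf(Dl r)^κ`, and by Cauchy-Schwarz and `avg` (`K = 2κ`) `c₃ P^k ≤ |R|^(1/2) (C P^k)^(1/2)`, i.e. `|R| ≥ c P^k`.
-/

namespace Pool.H2.WE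

open Finset

private theorem pos_log (κ : ℕ) (B : ℝ) : ∀ᶠ P : ℕ in Filter.atTop,
    B * Real.log P ^ κ ≤ P := by
  have h1 := isLittleO_log_rpow_atTop (r := 1 / ((κ : ℝ) + 1)) (by positivity)
  have h2 : ∀ᶠ x : ℝ in Filter.atTop, ‖Real.log x‖ ≤ 1 * ‖x ^ (1 / ((κ : ℝ) + 1))‖ :=
    h1.def one_pos
  have h3 := (tendsto_natCast_atTop_atTop (R := ℝ)).eventually
    (h2.and (Filter.eventually_ge_atTop (max 1 (max B 0 ^ (κ + 1)))))
  filter_upwards [h3] with P hP
  obtain ⟨hP1, hP2⟩ := hP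
  have hP3 : (1 : ℝ) ≤ P := (le_max_left _ _).trans hP2
  have hP4 : max B 0 ^ (κ + 1) ≤ (P : ℝ) := (le_max_right _ _).trans hP2
  have hP0 : (0 : ℝ) < P := by linarith
  have hlog : 0 ≤ Real.log P := Real.log_nonneg hP3
  rw [Real.norm_of_nonneg hlog, one_mul, Real.norm_of_nonneg (by positivity)] at hP1
  set y := (P : ℝ) ^ (1 / ((κ : ℝ) + 1)) with hy
  have hy0 : 0 ≤ y := by positivity
  have hyP : y ^ (κ + 1) = P := by
    rw [hy, ← Real.rpow_natCast, ← Real.rpow_mul hP0.le]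
    push_cast
    rw [one_div_mul_cancel (by positivity), Real.rpow_one]
  have hB : max B 0 ≤ y := by
    rw [← hyP] at hP4
    exact le_of_pow_le_pow_left₀ (by omega) hy0 hP4
  calc B * Real.log P ^ κ ≤ y * y ^ κ := by
        apply mul_le_mul ((le_max_left _ _).trans hB) (pow_le_pow_left₀ hlog hP1 _)
          (pow_nonneg hlog _) hy0
    _ = P := by rw [← hyP, pow_succ]; ring

theorem pos (k : ℕ) : ∃ (c : ℝ) (P1 : ℕ), 0 < c ∧ 2 ≤ P1 ∧ ∀ (P : ℕ) (𝒢 : Finset ℕ), P1 ≤ P → 𝒢 ⊆ PP P → (PP P).card ≤ 2 * 𝒢.card →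
    ∃ R : Finset (Fin k → ℤ), (∀ r ∈ R, (∀ i, |r i| ≤ P) ∧ ∃ p : ℤ, ∀ ω, ∃ p' ∈ 𝒢, p + cs r ω = (p' : ℤ)) ∧ c * (P : ℝ) ^ k ≤ R.card := by
  classical
  obtain ⟨c₁, Pa, hc₁, hPa, hPP⟩ := PP_card
  obtain ⟨Cs, Pb, hCs, hPb, hspt⟩ := spt (2 ^ k) Nat.one_le_two_pow
  obtain ⟨Cd, hCd, hdeg⟩ := deg k
  obtain ⟨Ca, hCa, havg⟩ := avg k (2 ^ k * 2)
  set κ := 2 ^ k with hκ
  have hkκ : k + 1 ≤ κ := Nat.lt_two_pow_self
  set c₂ : ℝ := (c₁ / 6) ^ κ with hc₂
  have hc₂0 : 0 < c₂ := by positivity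
  obtain ⟨Pc, hPc⟩ := Filter.eventually_atTop.1 (pos_log κ (2 * Cd / c₂))
  refine ⟨(c₂ / 2) ^ 2 / (Cs ^ 2 * Ca), max (max Pa Pb) Pc, by positivity,
    hPa.trans ((le_max_left _ _).trans (le_max_left _ _)), ?_⟩
  intro P 𝒢 hP h𝒢 hcard
  have hPa' : Pa ≤ P := ((le_max_left _ _).trans (le_max_left _ _)).trans hP
  have hPb' : Pb ≤ P := ((le_max_right _ _).trans (le_max_left _ _)).trans hP
  have hPc' := hPc P ((le_max_right _ _).trans hP)
  have hP3 : 3 ≤ P := hPb.trans hPb'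
  have hP0 : (0 : ℝ) < P := by
    have : 0 < P := by omega
    exact_mod_cast this
  have hP1 : (1 : ℝ) < P := by
    have : 1 < P := by omega
    exact_mod_cast this
  have hlog : 0 < Real.log P := Real.log_pos hP1
  have hL : 0 < Real.log P ^ κ := by positivity
  -- the set `A`
  set A : Finset ℤ := 𝒢.map Nat.castEmbedding with hA
  have hAmem : ∀ a : ℤ, a ∈ A ↔ ∃ n ∈ 𝒢, (n : ℤ) = a := by
    intro a
    rw [hA, mem_map]
    rfl
  have hAcard : A.card = 𝒢.card := card_map _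
  have hPPm : ∀ n ∈ 𝒢, P < n ∧ n ≤ 2 * P ∧ n.Prime := by
    intro n hn
    have := h𝒢 hn
    unfold PP at this
    rw [mem_filter, mem_Ioc] at this
    exact ⟨this.1.1, this.1.2, this.2⟩
  have hArange : ∀ a ∈ A, (P : ℤ) < a ∧ a ≤ 2 * P := by
    intro a ha
    obtain ⟨n, hn, rfl⟩ := (hAmem a).1 ha
    obtain ⟨h1, h2, _⟩ := hPPm n hn
    constructor
    · exact_mod_cast h1
    · exact_mod_cast h2
  have hAP : A.card ≤ P := by
    rw [hAcard]
    calc 𝒢.card ≤ (Ioc P (2 * P)).card := by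
          apply card_le_card
          intro n hn
          obtain ⟨h1, h2, _⟩ := hPPm n hn
          exact mem_Ioc.2 ⟨h1, h2⟩
      _ = P := by rw [Nat.card_Ioc]; omega
  -- number of cubes
  let N : (Fin k → ℤ) → ℕ := fun r => (A.filter (fun x => ∀ ω, x + cs r ω ∈ A)).card
  have hcb : (cb A k P).card = ∑ r ∈ box k P, N r := by
    have h1 : (cb A k P).card = ∑ r ∈ box k P, ((cb A k P).filter (fun v => v.2 = r)).card := by
      apply card_eq_sum_card_fiberwise
      intro v hv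
      unfold cb at hv
      rw [mem_coe, mem_filter, mem_product] at hv
      exact hv.1.2
    rw [h1]
    apply sum_congr rfl
    intro r hr
    apply card_bij (fun v _ => v.1)
    · intro v hv
      unfold cb at hv
      rw [mem_filter, mem_filter, mem_product] at hv
      rw [mem_filter]
      refine ⟨hv.1.1.1, ?_⟩
      rw [← hv.2]
      exact hv.1.2
    · intro v hv w hw hvw
      rw [mem_filter] at hv hw
      exact Prod.ext hvw (hv.2.trans hw.2.symm)
    · intro x hx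
      rw [mem_filter] at hx
      refine ⟨(x, r), ?_, rfl⟩
      unfold cb
      rw [mem_filter, mem_filter, mem_product]
      exact ⟨⟨⟨hx.1, hr⟩, hx.2⟩, rfl⟩
  have hlow : c₂ * P ^ (k + 1) / Real.log P ^ κ ≤ ∑ r ∈ box k P, (N r : ℝ) := by
    have h1 := cub k P (by omega) A hArange
    rw [← hκ] at h1
    have h2 : ((A.card : ℝ)) ^ κ ≤ 3 ^ κ * ((cb A k P).card : ℝ) * P ^ (κ - k - 1) := by
      exact_mod_cast h1
    have h3 : c₁ / 2 * P / Real.log P ≤ A.card := by
      have h4 := hPP P hPa'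
      have h5 : ((PP P).card : ℝ) ≤ 2 * (A.card : ℝ) := by
        rw [hAcard]
        exact_mod_cast hcard
      have e : c₁ / 2 * P / Real.log P = (c₁ * P / Real.log P) / 2 := by ring
      rw [e]
      linarith
    have h4 : (c₁ / 2 * P / Real.log P) ^ κ ≤ (A.card : ℝ) ^ κ :=
      pow_le_pow_left₀ (by positivity) h3 _
    have h5 : (c₁ / 2 * P / Real.log P) ^ κ =
        3 ^ κ * (c₂ * P ^ (k + 1) / Real.log P ^ κ) * P ^ (κ - k - 1) := by
      have e1 : (P : ℝ) ^ κ = P ^ (k + 1) * P ^ (κ - k - 1) := by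
        rw [← pow_add]
        congr 1
        omega
      rw [div_pow, mul_pow, e1, hc₂]
      have e2 : (c₁ / 2) ^ κ = 3 ^ κ * (c₁ / 6) ^ κ := by
        rw [← mul_pow]
        congr 1
        ring
      rw [e2]
      ring
    rw [h5] at h4
    have h6 := h4.trans h2
    have h7 : (0 : ℝ) < P ^ (κ - k - 1) := by positivity
    have h8 := le_of_mul_le_mul_right h6 h7
    have h9 := le_of_mul_le_mul_left h8 (by positivity : (0 : ℝ) < 3 ^ κ)
    rw [hcb] at h9
    push_cast at h9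
    exact h9
  -- degenerate ones
  have hdegen : ∑ r ∈ (box k P).filter (fun r => ¬ Function.Injective (cs r)), (N r : ℝ) ≤
      c₂ / 2 * P ^ (k + 1) / Real.log P ^ κ := by
    have h1 : ∀ r ∈ (box k P).filter (fun r => ¬ Function.Injective (cs r)), (N r : ℝ) ≤ P := by
      intro r _
      have : N r ≤ P := (card_le_card (filter_subset _ _)).trans hAP
      exact_mod_cast this
    calc ∑ r ∈ (box k P).filter (fun r => ¬ Function.Injective (cs r)), (N r : ℝ)
        ≤ ∑ _r ∈ (box k P).filter (fun r => ¬ Function.Injective (cs r)), (P : ℝ) := sum_le_sum h1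
      _ = ((box k P).filter (fun r => ¬ Function.Injective (cs r))).card * P := by
          rw [sum_const, nsmul_eq_mul]
      _ ≤ Cd * P ^ k := hdeg P (by omega)
      _ ≤ c₂ / 2 * P ^ (k + 1) / Real.log P ^ κ := by
          rw [le_div_iff₀ hL]
          have h2 : (2 * Cd / c₂ * Real.log P ^ κ) * (c₂ / 2) ≤ P * (c₂ / 2) :=
            mul_le_mul_of_nonneg_right hPc' (by positivity)
          have h3 : (2 * Cd / c₂ * Real.log P ^ κ) * (c₂ / 2) = Cd * Real.log P ^ κ := by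
            field_simp
          rw [h3] at h2
          calc Cd * P ^ k * Real.log P ^ κ = (Cd * Real.log P ^ κ) * P ^ k := by ring
            _ ≤ (P * (c₂ / 2)) * P ^ k := mul_le_mul_of_nonneg_right h2 (by positivity)
            _ = c₂ / 2 * P ^ (k + 1) := by ring
  -- injective ones
  set I := (box k P).filter (fun r => Function.Injective (cs r)) with hI
  have hinj : c₂ / 2 * P ^ (k + 1) / Real.log P ^ κ ≤ ∑ r ∈ I, (N r : ℝ) := by
    have h1 := sum_filter_add_sum_filter_not (box k P) (fun r => Function.Injective (cs r))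
      (fun r => (N r : ℝ))
    have h2 : c₂ * P ^ (k + 1) / Real.log P ^ κ =
        c₂ / 2 * P ^ (k + 1) / Real.log P ^ κ + c₂ / 2 * P ^ (k + 1) / Real.log P ^ κ := by ring
    rw [h2] at hlow
    rw [hI]
    linarith
  have hNr : ∀ r ∈ I, (N r : ℝ) ≤ Cs * P / Real.log P ^ κ * gf (Dl r) ^ κ := by
    intro r hr
    rw [hI, mem_filter] at hr
    have hS : ((univ : Finset (Finset (Fin k))).image (cs r)).card = κ := by
      rw [card_image_of_injective _ hr.2, card_univ, Fintype.card_finset, Fintype.card_fin]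
    have hD : 0 < Dl r := by
      unfold Dl
      apply prod_pos
      intro w hw
      rw [mem_filter] at hw
      rw [Int.natAbs_pos, sub_ne_zero]
      exact fun h => hw.2 (hr.2 h)
    have hdv : ∀ s ∈ (univ : Finset (Finset (Fin k))).image (cs r),
        ∀ t ∈ (univ : Finset (Finset (Fin k))).image (cs r), s ≠ t → (s - t).natAbs ∣ Dl r := by
      intro s hs t ht hst
      obtain ⟨ω, _, rfl⟩ := mem_image.1 hs
      obtain ⟨ω', _, rfl⟩ := mem_image.1 ht
      unfold Dl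
      have h1 : (ω, ω') ∈ (univ : Finset (Finset (Fin k) × Finset (Fin k))).filter
          (fun w => w.1 ≠ w.2) := by
        rw [mem_filter]
        refine ⟨mem_univ _, ?_⟩
        intro h
        simp only at h
        exact hst (by rw [h])
      exact dvd_prod_of_mem (fun w : Finset (Fin k) × Finset (Fin k) =>
        (cs r w.1 - cs r w.2).natAbs) h1
    have h1 := hspt P _ (Dl r) hPb' hS hD hdv
    refine le_trans ?_ h1
    have h2 : N r ≤ ((Ioc P (2 * P)).filter (fun x : ℕ =>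
        ∀ s ∈ (univ : Finset (Finset (Fin k))).image (cs r),
        ∃ p : ℕ, p.Prime ∧ P < p ∧ (x : ℤ) + s = p)).card := by
      apply card_le_card_of_injOn (fun x : ℤ => x.toNat)
      · intro x hx
        rw [mem_coe, mem_filter] at hx
        obtain ⟨n, hn, rfl⟩ := (hAmem x).1 hx.1
        obtain ⟨h3, h4, _⟩ := hPPm n hn
        rw [mem_coe, mem_filter, mem_Ioc]
        simp only [Int.toNat_natCast]
        refine ⟨⟨h3, h4⟩, ?_⟩
        intro s hs
        obtain ⟨ω, _, rfl⟩ := mem_image.1 hs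
        obtain ⟨n', hn', hnn⟩ := (hAmem _).1 (hx.2 ω)
        obtain ⟨h5, _, h6⟩ := hPPm n' hn'
        exact ⟨n', h6, h5, hnn.symm⟩
      · intro x hx y hy hxy
        rw [mem_coe, mem_filter] at hx hy
        have h3 := (hArange x hx.1).1
        have h4 := (hArange y hy.1).1
        simp only at hxy
        omega
    exact_mod_cast h2
  -- the set `R`
  set R := I.filter (fun r => 0 < N r) with hR
  refine ⟨R, ?_, ?_⟩
  · intro r hr
    rw [hR, mem_filter, hI, mem_filter] at hr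
    constructor
    · intro i
      have h1 := hr.1.1
      unfold box at h1
      rw [Fintype.mem_piFinset] at h1
      exact abs_le.2 (mem_Icc.1 (h1 i))
    · obtain ⟨x, hx⟩ := card_pos.1 hr.2
      rw [mem_filter] at hx
      refine ⟨x, fun ω => ?_⟩
      obtain ⟨n, hn, hnx⟩ := (hAmem _).1 (hx.2 ω)
      exact ⟨n, hn, hnx.symm⟩
  · have h1 : ∑ r ∈ I, (N r : ℝ) = ∑ r ∈ R, (N r : ℝ) := by
      symm
      apply sum_subset (filter_subset _ _)
      intro r hrI hrR
      rw [mem_filter] at hrR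
      have : N r = 0 := by
        by_contra h
        exact hrR ⟨hrI, Nat.pos_of_ne_zero h⟩
      rw [this, Nat.cast_zero]
    have h2 : c₂ / 2 * P ^ (k + 1) / Real.log P ^ κ ≤
        Cs * P / Real.log P ^ κ * ∑ r ∈ R, gf (Dl r) ^ κ := by
      rw [h1] at hinj
      refine hinj.trans ?_
      rw [mul_sum]
      apply sum_le_sum
      intro r hr
      exact hNr r (filter_subset _ _ hr)
    have h3 : c₂ / 2 * P ^ k ≤ Cs * ∑ r ∈ R, gf (Dl r) ^ κ := by
      have e1 : c₂ / 2 * P ^ (k + 1) / Real.log P ^ κ =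
          (P / Real.log P ^ κ) * (c₂ / 2 * P ^ k) := by
        rw [pow_succ]
        ring
      have e2 : Cs * P / Real.log P ^ κ * ∑ r ∈ R, gf (Dl r) ^ κ =
          (P / Real.log P ^ κ) * (Cs * ∑ r ∈ R, gf (Dl r) ^ κ) := by ring
      rw [e1, e2] at h2
      exact le_of_mul_le_mul_left h2 (by positivity)
    have h4 : (∑ r ∈ R, gf (Dl r) ^ κ) ^ 2 ≤ R.card * ∑ r ∈ R, (gf (Dl r) ^ κ) ^ 2 :=
      sq_sum_le_card_mul_sum_sq
    have h5 : ∑ r ∈ R, (gf (Dl r) ^ κ) ^ 2 ≤ Ca * P ^ k := by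
      calc ∑ r ∈ R, (gf (Dl r) ^ κ) ^ 2 ≤ ∑ r ∈ I, (gf (Dl r) ^ κ) ^ 2 :=
            sum_le_sum_of_subset_of_nonneg (filter_subset _ _) fun r _ _ => by positivity
        _ = ∑ r ∈ I, gf (Dl r) ^ (κ * 2) := by
            apply sum_congr rfl
            intro r _
            rw [pow_mul]
        _ ≤ Ca * P ^ k := havg P (by omega)
    have h6 : (c₂ / 2 * P ^ k) ^ 2 ≤ Cs ^ 2 * (R.card * (Ca * P ^ k)) := by
      calc (c₂ / 2 * P ^ k) ^ 2 ≤ (Cs * ∑ r ∈ R, gf (Dl r) ^ κ) ^ 2 :=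
            pow_le_pow_left₀ (by positivity) h3 2
        _ = Cs ^ 2 * (∑ r ∈ R, gf (Dl r) ^ κ) ^ 2 := mul_pow _ _ _
        _ ≤ Cs ^ 2 * (R.card * ∑ r ∈ R, (gf (Dl r) ^ κ) ^ 2) :=
            mul_le_mul_of_nonneg_left h4 (by positivity)
        _ ≤ Cs ^ 2 * (R.card * (Ca * P ^ k)) := by
            apply mul_le_mul_of_nonneg_left _ (by positivity)
            exact mul_le_mul_of_nonneg_left h5 (Nat.cast_nonneg _)
    have hPk : (0 : ℝ) < (P : ℝ) ^ k := by positivity
    have h7 : ((c₂ / 2) ^ 2 * P ^ k) * P ^ k ≤ (Cs ^ 2 * Ca * R.card) * P ^ k := by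
      calc ((c₂ / 2) ^ 2 * P ^ k) * P ^ k = (c₂ / 2 * P ^ k) ^ 2 := by ring
        _ ≤ Cs ^ 2 * (R.card * (Ca * P ^ k)) := h6
        _ = _ := by ring
    have h8 := le_of_mul_le_mul_right h7 hPk
    rw [div_mul_eq_mul_div, div_le_iff₀ (by positivity)]
    linarith

end Pool.H2.WE
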