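import Mathlib

/-!
# [H2 WE SML] From a dense set of vectors to a small vector

`R ⊂ [-P, P]^k` with `≥ c P^k` elements; `Q r E` a property closed under taking the difference in one coordinate (at the cost `E → 2E + B`). Then some vector `d` with `1 ≤ d i ≤ D(k, c)` satisfies `Q d (2^k (E + B))`.

PROOF (induction on `k`). `k = 0`: `R` is nonempty (`c > 0`), the only vector is `Fin 0 → ℤ`; `hmono`. Step `k + 1`: for `r' ∈ [-P,P]^k` let `F(r') = {x ∈ [-P,P] : cons x r' ∈ R}`; `∑_{r'} |F(r')| = |R| ≥ c P^(k+1)`. Call `r'` good if `|F(r')| ≥ c' P`, `c' = c/(2·3^k)`. The others contribute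
`≤ (2P+1)^k c' P ≤ (c/2) P^(k+1)`; `|F| ≤ 2P+1 ≤ 3P`, so at least `(c/6) P^k` good `r'`. Let `D₁ = ⌈12/c'⌉` and `P ≥ 6/c'`-like: the blocks `{x : (x + P)/D₁ = j}`, `0 ≤ j ≤ 2P/D₁`, are at most `2P/D₁ + 1 < c' P` many, so `F(r')` contains `x < y` in one block, `1 ≤ y - x ≤ D₁`
(`Finset.exists_ne_map_eq_of_card_lt_of_maps_to`). By the closure property for the coordinate `0` (`cons x r' = update (cons 0 r') 0 x`) `Q (cons (y-x) r') (2E + B)`. By the pigeonhole principle one value `d₀ = y - x ∈ [1, D₁]` occurs for at least `(c/(6 D₁)) P^k` good `r'` (`Finset.exists_le_card_fiber_of_...` or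
a sum over `d₀`). Apply the induction hypothesis (with the constant `c/(6D₁)`) to `Q'(r', E') = Q (cons d₀ r') E'`, `E' = 2E + B` (closure at the coordinate `i` of `r'` from the closure at `i.succ`: `cons d₀ (update r' i x) = update (cons d₀ r') i.succ x`, `Fin.cons_update`). `D = max D₁ D'`,
`2^k(2E + B + B) = 2^(k+1)(E + B)`.
-/

namespace Pool.H2.WE

open Finset

theorem sml (k : ℕ) : ∀ c : ℝ, 0 < c → ∃ (D P1 : ℕ), 1 ≤ D ∧ ∀ (P : ℕ), P1 ≤ P → 1 ≤ P → ∀ (R : Finset (Fin k → ℤ)) (Q : (Fin k → ℤ) → ℕ → Prop) (E B : ℕ),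
    (∀ r ∈ R, ∀ i, |r i| ≤ P) → c * (P : ℝ) ^ k ≤ R.card → (∀ r ∈ R, Q r E) → (∀ r E E', E ≤ E' → Q r E → Q r E') →
    (∀ (r : Fin k → ℤ) (i : Fin k) (x y : ℤ) (E : ℕ), |x| ≤ P → |y| ≤ P → Q (Function.update r i x) E → Q (Function.update r i y) E →
      Q (Function.update r i (y - x)) (2 * E + B)) →
    ∃ d : Fin k → ℤ, (∀ i, 1 ≤ d i ∧ d i ≤ D) ∧ Q d (2 ^ k * (E + B)) := by
  classical
  induction k with
  | zero =>
    intro c hc
    refine ⟨1, 0, le_rfl, ?_⟩
    intro P _ _ R Q E B _ hcard hQ hmono _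
    have h1 : 0 < R.card := by
      have h2 : (0 : ℝ) < R.card := by
        refine lt_of_lt_of_le ?_ hcard
        simpa using hc
      exact_mod_cast h2
    obtain ⟨r, hr⟩ := Finset.card_pos.1 h1
    refine ⟨r, fun i => i.elim0, ?_⟩
    exact hmono r E _ (by omega) (hQ r hr)
  | succ k ih =>
    intro c hc
    set c' : ℝ := c / (2 * 3 ^ k) with hc'
    have hc'0 : 0 < c' := by positivity
    obtain ⟨D₁, hD₁⟩ := exists_nat_gt (4 / c')
    have hD₁0 : (0 : ℝ) < D₁ := lt_of_le_of_lt (by positivity) hD₁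
    have hD₁1 : 1 ≤ D₁ := by exact_mod_cast hD₁0
    obtain ⟨P₂, hP₂⟩ := exists_nat_gt (2 / c')
    obtain ⟨D', P₁', hD', ih'⟩ := ih (c / (6 * D₁)) (by positivity)
    refine ⟨max D₁ D', max P₂ P₁', le_max_of_le_left hD₁1, ?_⟩
    intro P hP hP1 R Q E B hR hcard hQ hmono hcl
    have hPR : (1 : ℝ) ≤ P := by exact_mod_cast hP1
    have hPpos : (0 : ℝ) < P := by linarith
    set box : Finset (Fin k → ℤ) := Fintype.piFinset fun _ => Finset.Icc (-(P : ℤ)) P with hbox
    have hboxcard : (box.card : ℝ) ≤ (3 * P) ^ k := by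
      rw [hbox, Fintype.card_piFinset, Finset.prod_const, Finset.card_univ, Fintype.card_fin, Int.card_Icc]
      have h1 : ((P : ℤ) + 1 - -(P : ℤ)).toNat = 2 * P + 1 := by omega
      rw [h1]
      push_cast
      apply pow_le_pow_left₀ (by positivity)
      linarith
    set F : (Fin k → ℤ) → Finset (Fin (k + 1) → ℤ) := fun r' => R.filter fun r => Fin.tail r = r' with hF
    have hmaps : ∀ r ∈ R, Fin.tail r ∈ box := by
      intro r hr
      rw [hbox, Fintype.mem_piFinset]
      intro i
      rw [Finset.mem_Icc]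
      exact abs_le.1 (hR r hr i.succ)
    have hsum : R.card = ∑ r' ∈ box, (F r').card := Finset.card_eq_sum_card_fiberwise hmaps
    have hinj : ∀ r', Set.InjOn (fun r : Fin (k + 1) → ℤ => r 0) (F r') := by
      intro r' r hr s hs h
      rw [hF, Finset.mem_coe, Finset.mem_filter] at hr hs
      have h1 : Fin.cons (r 0) (Fin.tail r) = r := Fin.cons_self_tail r
      have h2 : Fin.cons (s 0) (Fin.tail s) = s := Fin.cons_self_tail s
      rw [← h1, ← h2, hr.2, hs.2]
      exact congrArg (fun t : ℤ => (Fin.cons t r' : Fin (k + 1) → ℤ)) h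
    have hFcard : ∀ r', ((F r').card : ℝ) ≤ 3 * P := by
      intro r'
      have h1 : (F r').card ≤ (Finset.Icc (-(P : ℤ)) P).card := by
        refine Finset.card_le_card_of_injOn (fun r => r 0) ?_ (hinj r')
        intro r hr
        rw [hF, Finset.mem_coe, Finset.mem_filter] at hr
        rw [Finset.mem_coe, Finset.mem_Icc]
        exact abs_le.1 (hR r hr.1 0)
      rw [Int.card_Icc] at h1
      have h2 : ((P : ℤ) + 1 - -(P : ℤ)).toNat = 2 * P + 1 := by omega
      rw [h2] at h1
      have h3 : ((F r').card : ℝ) ≤ 2 * P + 1 := by exact_mod_cast h1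
      linarith
    set G : Finset (Fin k → ℤ) := box.filter fun r' => c' * P ≤ ((F r').card : ℝ) with hG
    have hGcard : c / 6 * (P : ℝ) ^ k ≤ G.card := by
      have h1 : (R.card : ℝ) = ∑ r' ∈ box, ((F r').card : ℝ) := by
        rw [hsum]
        push_cast
        rfl
      have h2 := Finset.sum_filter_add_sum_filter_not box (fun r' => c' * P ≤ ((F r').card : ℝ))
        (fun r' => ((F r').card : ℝ))
      have h3 : ∑ r' ∈ G, ((F r').card : ℝ) ≤ G.card * (3 * P) := by
        rw [← nsmul_eq_mul, ← Finset.sum_const]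
        exact Finset.sum_le_sum fun r' _ => hFcard r'
      have h4 : ∑ r' ∈ box.filter (fun r' => ¬ c' * P ≤ ((F r').card : ℝ)), ((F r').card : ℝ) ≤ (3 * P) ^ k * (c' * P) := by
        calc ∑ r' ∈ box.filter (fun r' => ¬ c' * P ≤ ((F r').card : ℝ)), ((F r').card : ℝ)
            ≤ ∑ _r' ∈ box.filter (fun r' => ¬ c' * P ≤ ((F r').card : ℝ)), c' * P := by
              refine Finset.sum_le_sum fun r' hr' => ?_
              exact (not_le.1 (Finset.mem_filter.1 hr').2).le
          _ = ((box.filter (fun r' => ¬ c' * P ≤ ((F r').card : ℝ))).card : ℝ) * (c' * P) := by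
              rw [Finset.sum_const, nsmul_eq_mul]
          _ ≤ (box.card : ℝ) * (c' * P) := by
              apply mul_le_mul_of_nonneg_right _ (by positivity)
              exact_mod_cast Finset.card_filter_le _ _
          _ ≤ _ := mul_le_mul_of_nonneg_right hboxcard (by positivity)
      have h5 : (3 * (P : ℝ)) ^ k * (c' * P) = c / 2 * (P : ℝ) ^ (k + 1) := by
        rw [hc', mul_pow, pow_succ]
        field_simp
      have h6 : c / 2 * (P : ℝ) ^ (k + 1) ≤ G.card * (3 * P) := by
        have h7 : c * (P : ℝ) ^ (k + 1) ≤ ∑ r' ∈ box, ((F r').card : ℝ) := h1 ▸ hcard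
        rw [← h2] at h7
        have h8 : ∑ r' ∈ box.filter (fun r' => c' * P ≤ ((F r').card : ℝ)), ((F r').card : ℝ) ≤ G.card * (3 * P) := h3
        linarith [h4, h5]
      have h7 : c / 6 * (P : ℝ) ^ k * (3 * P) ≤ G.card * (3 * P) := by
        refine le_trans (le_of_eq ?_) h6
        rw [pow_succ]
        ring
      exact le_of_mul_le_mul_right h7 (by positivity)
    -- a good vector gives a small difference
    have hgood : ∀ r' ∈ G, ∃ d₀ ∈ Finset.Icc (1 : ℤ) D₁, Q (Fin.cons d₀ r') (2 * E + B) := by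
      intro r' hr'
      have hr'2 := (Finset.mem_filter.1 hr').2
      have hpig : (Finset.range (2 * P / D₁ + 1)).card < (F r').card := by
        rw [Finset.card_range]
        have h1 : ((2 * P / D₁ + 1 : ℕ) : ℝ) < (F r').card := by
          refine lt_of_lt_of_le ?_ hr'2
          push_cast
          have h2 : ((2 * P / D₁ : ℕ) : ℝ) ≤ (2 * P : ℝ) / D₁ := by
            have := @Nat.cast_div_le ℝ _ _ _ (2 * P) D₁
            push_cast at this
            exact this
          have h3 : (2 * P : ℝ) / D₁ ≤ c' * P / 2 := by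
            rw [div_le_iff₀ hD₁0]
            have h4 : 4 < c' * D₁ := by
              rw [div_lt_iff₀ hc'0] at hD₁
              linarith
            nlinarith
          have h4 : 1 < c' * P / 2 := by
            have h5 : (P₂ : ℝ) ≤ P := by exact_mod_cast (le_max_left _ _).trans hP
            rw [div_lt_iff₀ hc'0] at hP₂
            nlinarith
          linarith
        exact_mod_cast h1
      obtain ⟨r, hr, s, hs, hrs, hblock⟩ := Finset.exists_ne_map_eq_of_card_lt_of_maps_to
        (f := fun r : Fin (k + 1) → ℤ => ((r 0 + P).toNat / D₁)) hpig (by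
          intro r hr
          rw [Finset.mem_coe, hF, Finset.mem_filter] at hr
          have h1 := abs_le.1 (hR r hr.1 0)
          rw [Finset.mem_coe, Finset.mem_range, Nat.lt_succ_iff]
          apply Nat.div_le_div_right
          omega)
      rw [hF, Finset.mem_filter] at hr hs
      -- order them
      have key : ∀ r s : Fin (k + 1) → ℤ, r ∈ R → s ∈ R → Fin.tail r = r' → Fin.tail s = r' → r 0 < s 0 →
          (r 0 + P).toNat / D₁ = (s 0 + P).toNat / D₁ → ∃ d₀ ∈ Finset.Icc (1 : ℤ) D₁, Q (Fin.cons d₀ r') (2 * E + B) := by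
        intro r s hr hs hrt hst hlt hb
        have h1 := abs_le.1 (hR r hr 0)
        have h2 := abs_le.1 (hR s hs 0)
        refine ⟨s 0 - r 0, ?_, ?_⟩
        · rw [Finset.mem_Icc]
          refine ⟨by omega, ?_⟩
          have h3 := Nat.div_add_mod (r 0 + P).toNat D₁
          have h4 := Nat.div_add_mod (s 0 + P).toNat D₁
          have h5 := Nat.mod_lt (s 0 + P).toNat (by omega : D₁ > 0)
          rw [← hb] at h4
          omega
        · have h3 := hcl (Fin.cons 0 r') 0 (r 0) (s 0) E (hR r hr 0) (hR s hs 0)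
          have h4 : ∀ t : ℤ, Function.update (Fin.cons 0 r' : Fin (k + 1) → ℤ) 0 t = Fin.cons t r' := by
            intro t
            exact Fin.update_cons_zero (α := fun _ => ℤ) (0 : ℤ) r' t
          rw [h4, h4, h4] at h3
          have h5 : (Fin.cons (r 0) r' : Fin (k + 1) → ℤ) = r := by
            rw [← hrt]
            exact Fin.cons_self_tail r
          have h6 : (Fin.cons (s 0) r' : Fin (k + 1) → ℤ) = s := by
            rw [← hst]
            exact Fin.cons_self_tail s
          rw [h5, h6] at h3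
          exact h3 (hQ r hr) (hQ s hs)
      rcases lt_trichotomy (r 0) (s 0) with h | h | h
      · exact key r s hr.1 hs.1 hr.2 hs.2 h hblock
      · exfalso
        apply hrs
        have h1 : Fin.cons (r 0) (Fin.tail r) = r := Fin.cons_self_tail r
        have h2 : Fin.cons (s 0) (Fin.tail s) = s := Fin.cons_self_tail s
        rw [← h1, ← h2, hr.2, hs.2, h]
      · exact key s r hs.1 hr.1 hs.2 hr.2 h hblock.symm
    -- pigeonhole on the difference
    obtain ⟨d₀, hd₀, hd₀card⟩ : ∃ d₀ ∈ Finset.Icc (1 : ℤ) D₁, c / (6 * D₁) * (P : ℝ) ^ k ≤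
        ((G.filter fun r' => Q (Fin.cons d₀ r') (2 * E + B)).card : ℝ) := by
      by_contra hcon
      push Not at hcon
      have h1 : G.card ≤ ∑ d₀ ∈ Finset.Icc (1 : ℤ) D₁, (G.filter fun r' => Q (Fin.cons d₀ r') (2 * E + B)).card := by
        refine le_trans (Finset.card_le_card ?_) Finset.card_biUnion_le
        intro r' hr'
        obtain ⟨d₀, hd₀, h⟩ := hgood r' hr'
        rw [Finset.mem_biUnion]
        exact ⟨d₀, hd₀, Finset.mem_filter.2 ⟨hr', h⟩⟩
      have h2 : (G.card : ℝ) ≤ ∑ d₀ ∈ Finset.Icc (1 : ℤ) D₁,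
          ((G.filter fun r' => Q (Fin.cons d₀ r') (2 * E + B)).card : ℝ) := by exact_mod_cast h1
      have hne : (Finset.Icc (1 : ℤ) D₁).Nonempty := ⟨1, Finset.mem_Icc.2 ⟨le_rfl, by exact_mod_cast hD₁1⟩⟩
      have h3 : ∑ d₀ ∈ Finset.Icc (1 : ℤ) D₁, ((G.filter fun r' => Q (Fin.cons d₀ r') (2 * E + B)).card : ℝ) <
          ∑ _d₀ ∈ Finset.Icc (1 : ℤ) D₁, c / (6 * D₁) * (P : ℝ) ^ k :=
        Finset.sum_lt_sum_of_nonempty hne fun d₀ hd₀ => hcon d₀ hd₀
      rw [Finset.sum_const, Int.card_Icc, nsmul_eq_mul] at h3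
      have h4 : ((D₁ : ℤ) + 1 - 1).toNat = D₁ := by omega
      rw [h4] at h3
      have h5 : (D₁ : ℝ) * (c / (6 * D₁) * (P : ℝ) ^ k) = c / 6 * (P : ℝ) ^ k := by
        field_simp
      linarith
    -- induction hypothesis
    obtain ⟨d', hd', hQ'⟩ := ih' P ((le_max_right _ _).trans hP) hP1
      (G.filter fun r' => Q (Fin.cons d₀ r') (2 * E + B)) (fun r' E' => Q (Fin.cons d₀ r') E') (2 * E + B) B
      (by
        intro r' hr' i
        have h1 := (Finset.mem_filter.1 (Finset.mem_filter.1 hr').1).1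
        rw [hbox, Fintype.mem_piFinset] at h1
        exact abs_le.2 (Finset.mem_Icc.1 (h1 i)))
      hd₀card
      (fun r' hr' => (Finset.mem_filter.1 hr').2)
      (fun r' E₁ E₂ h => hmono _ _ _ h)
      (by
        intro r' i x y E₁ hx hy h1 h2
        rw [Fin.cons_update] at h1 h2 ⊢
        exact hcl _ i.succ x y E₁ hx hy h1 h2)
    refine ⟨Fin.cons d₀ d', ?_, ?_⟩
    · intro i
      have hd₀' := Finset.mem_Icc.1 hd₀
      refine Fin.cases ?_ (fun j => ?_) i
      · rw [Fin.cons_zero]
        refine ⟨hd₀'.1, hd₀'.2.trans ?_⟩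
        exact_mod_cast le_max_left D₁ D'
      · rw [Fin.cons_succ]
        refine ⟨(hd' j).1, (hd' j).2.trans ?_⟩
        exact_mod_cast le_max_right D₁ D'
    · have h1 : 2 ^ k * (2 * E + B + B) = 2 ^ (k + 1) * (E + B) := by
        rw [pow_succ]
        ring
      rw [← h1]
      exact hQ'

end Pool.H2.WE
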