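import Pool.Agent.H2.WE.Exl
import Pool.Agent.H2.MR.Mrt

/-!
# [H2 WE CTR] A function with condition (N) is not almost periodic in direction

`CondNN f`: condition (N) for all Dirichlet characters. Claim: for every `K ≥ 1` there is `ρ > 0` such that a 1-bounded multiplicative `f` with condition (N) cannot satisfy `‖dir f(n+K) - dir f(n)‖ ≤ ρ` and `‖f n‖ ≥ 1/2` for all `n ≤ N` off `ρ N` exceptions, for large `N`.

PROOF. `ε = 1/(16 K²)`, `H₀` from `mrt ε`, `H ≥ 1` with `H K ≥ H₀` (e.g. `H = H₀ + 1`), `ρ = 1/(64 K² H)`. For every character `χ` mod `K` `f χ` is 1-bounded multiplicative (`OB`) and satisfies `CondN1` (`chr_cond`; `CondNN` for the character `χ̄ = χ⁻¹`: `conj(χ̄(p) p^(it)) = χ(p) p^(-it)`; the real threshold `X` there is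
used at natural numbers). `mrt`: `∑_{n≤N} ‖∑_{j<HK} (fχ)(n+j)‖ ≤ ε H K N` for all (finitely many) `χ` and `N ≥ N₁`. For `n ≡ 1 mod K`: `∑_{j<H} f(n + jK) = ∑_{j'<HK, n+j'≡1 mod K} f(n+j') = (1/φ(K)) ∑_χ ∑_{j'<HK} χ(n+j') f(n+j')` (orthogonality of the characters modulo `K`, Mathlib:
`DirichletCharacter.sum_char_inv_mul_char_eq` or `DirichletCharacter.sum_characters_eq`; number of characters = `φ(K)`), so `∑_{n≤N, n≡1 (K)} ‖∑_{j<H} f(n+jK)‖ ≤ ε H K N`.
On the other hand for all `n ≤ N` off `2H(ρN + HK)` exceptions (`ex_shift`, `ex_all`) all `f(n + jK)`, `j < H`, have modulus `≥ 1/2` and a direction within `Hρ ≤ 1/4` of `u = dir f(n)`, so `Re(f(n+jK) conj u) ≥ (1/2)(1 - 1/4) ≥ 3/8` and `‖∑_{j<H} f(n+jK)‖ ≥ 3H/8`.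
The number of `n ≤ N`, `n ≡ 1 mod K`, is `≥ N/K - 1`, so the left side is `≥ (3H/8)(N/K - 1 - 2HρN - 2H²K) ≥ (3H/8)(N/(2K)) = 3HN/(16K)` for large `N` (`2Hρ ≤ 1/(32K²)`). But `εHKN = HN/(16K)`: contradiction.
`ctrU`: one `ρ` for all `K ≤ M`: the minimum of the finitely many `ρ` (smaller `ρ` is a stronger hypothesis, `ex_mono`).
-/

namespace Pool.H2.WE

open Finset Pool.H2.MR

/-- condition (N) -/
def CondNN (f : ℕ → ℂ) : Prop :=
  ∀ (q : ℕ) (χ : DirichletCharacter ℂ q), 0 < q → ∀ M : ℝ, ∃ X₀ : ℝ, ∀ X : ℝ, X₀ ≤ X → ∀ t : ℝ, |t| ≤ X →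
      M ≤ ∑ p ∈ Finset.filter Nat.Prime (Finset.Iic ⌊X⌋₊),
        (1 - (f p * starRingEnd ℂ (χ (p : ZMod q) * (p : ℂ) ^ (Complex.I * (t : ℂ)))).re) / (p : ℝ)

theorem chr_ob (f : ℕ → ℂ) (hf : OB f) (K : ℕ) (χ : DirichletCharacter ℂ K) : OB (fun n => f n * χ (n : ZMod K)) := by
  refine ⟨?_, ?_, ?_⟩
  · simp only [Nat.cast_one, map_one, hf.one, mul_one]
  · intro m n hmn
    rw [hf.mul m n hmn, Nat.cast_mul, map_mul]
    ring
  · intro n
    rw [norm_mul]
    have h1 := hf.bd n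
    have h2 := χ.norm_le_one (n : ZMod K)
    calc ‖f n‖ * ‖χ (n : ZMod K)‖ ≤ 1 * 1 := mul_le_mul h1 h2 (norm_nonneg _) (by norm_num)
      _ = 1 := by norm_num

theorem chr_cond (f : ℕ → ℂ) (hf : CondNN f) (K : ℕ) (hK : 1 ≤ K) (χ : DirichletCharacter ℂ K) : CondN1 (fun n => f n * χ (n : ZMod K)) := by
  have : NeZero K := ⟨by omega⟩
  intro M
  obtain ⟨X₀, hX₀⟩ := hf K χ⁻¹ hK M
  obtain ⟨X1, hX1⟩ := exists_nat_ge X₀
  refine ⟨X1, ?_⟩
  intro X hX t ht
  have h1 := hX₀ X (hX1.trans (by exact_mod_cast hX)) t ht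
  refine h1.trans (le_of_eq ?_)
  unfold DD
  rw [Nat.floor_natCast]
  have h2 : Finset.filter Nat.Prime (Finset.Iic X) = (Icc 1 X).filter Nat.Prime := by
    ext p
    simp only [Finset.mem_filter, Finset.mem_Iic, Finset.mem_Icc]
    constructor
    · rintro ⟨h3, h4⟩
      exact ⟨⟨h4.pos, h3⟩, h4⟩
    · rintro ⟨⟨_, h3⟩, h4⟩
      exact ⟨h3, h4⟩
  rw [h2]
  refine Finset.sum_congr rfl fun p _ => ?_
  have h3 : (starRingEnd ℂ) (χ⁻¹ (p : ZMod K)) = χ (p : ZMod K) := by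
    rw [← MulChar.star_eq_inv, MulChar.star_apply]
    exact star_star _
  have h4 : (starRingEnd ℂ) ((p : ℂ) ^ (Complex.I * (t : ℂ))) = ni t p := by
    unfold ni
    have h5 : (p : ℂ).arg ≠ Real.pi := by
      rw [Complex.natCast_arg]
      exact Real.pi_pos.ne
    have h6 := Complex.conj_cpow (p : ℂ) (-((t : ℂ) * Complex.I)) h5
    rw [Complex.conj_natCast] at h6
    rw [h6]
    congr 2
    simp [mul_comm]
  rw [map_mul, h3, h4, mul_assoc]

theorem ctr_sum (K H : ℕ) (hK : 1 ≤ K) (g : ℕ → ℂ) :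
    ∑ j ∈ range (H * K), (if j % K = 0 then g j else 0) = ∑ j ∈ range H, g (j * K) := by
  rw [← Finset.sum_filter]
  symm
  apply Finset.sum_nbij' (fun j => j * K) (fun j => j / K)
  · intro j hj
    rw [Finset.mem_range] at hj
    rw [Finset.mem_filter, Finset.mem_range]
    exact ⟨Nat.mul_lt_mul_of_pos_right hj hK, Nat.mul_mod_left _ _⟩
  · intro j hj
    rw [Finset.mem_filter, Finset.mem_range] at hj
    rw [Finset.mem_range]
    exact Nat.div_lt_of_lt_mul (by rw [mul_comm]; exact hj.1)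
  · intro j _
    exact Nat.mul_div_cancel _ hK
  · intro j hj
    rw [Finset.mem_filter] at hj
    exact Nat.div_mul_cancel (Nat.dvd_of_mod_eq_zero hj.2)
  · intro j _
    rfl

theorem ctr_orth (K H n : ℕ) (hK : 1 ≤ K) (hn : n % K = 1 % K) (f : ℕ → ℂ) :
    (K.totient : ℂ) * ∑ j ∈ range H, f (n + j * K) =
      ∑ χ : DirichletCharacter ℂ K, ∑ j ∈ range (H * K), f (n + j) * χ ((n + j : ℕ) : ZMod K) := by
  have : NeZero K := ⟨by omega⟩
  rw [Finset.sum_comm]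
  have h1 : ∀ j : ℕ, ∑ χ : DirichletCharacter ℂ K, f (n + j) * χ ((n + j : ℕ) : ZMod K) =
      if j % K = 0 then (K.totient : ℂ) * f (n + j) else 0 := by
    intro j
    rw [← Finset.mul_sum, DirichletCharacter.sum_characters_eq]
    have h2 : (((n + j : ℕ) : ZMod K) = 1) ↔ j % K = 0 := by
      rw [← Nat.cast_one, ZMod.natCast_eq_natCast_iff]
      constructor
      · intro h3
        have h4 : n + j ≡ n + 0 [MOD K] := h3.trans (by rw [add_zero]; exact hn.symm)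
        have h5 := Nat.ModEq.add_left_cancel' n h4
        rw [Nat.ModEq, Nat.zero_mod] at h5
        exact h5
      · intro h3
        have h4 : j ≡ 0 [MOD K] := by
          rw [Nat.ModEq, Nat.zero_mod]
          exact h3
        exact (Nat.ModEq.add_left n h4).trans (by rw [add_zero]; exact hn)
    by_cases h3 : j % K = 0
    · rw [if_pos (h2.2 h3), if_pos h3, mul_comm]
    · rw [if_neg (fun hc => h3 (h2.1 hc)), if_neg h3, mul_zero]
  rw [Finset.sum_congr rfl fun j _ => h1 j, ctr_sum K H hK (fun j => (K.totient : ℂ) * f (n + j)), ← Finset.mul_sum]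

theorem ctr_card (K : ℕ) (hK : 1 ≤ K) : (Fintype.card (DirichletCharacter ℂ K) : ℝ) = K.totient := by
  have : NeZero K := ⟨by omega⟩
  have h1 := DirichletCharacter.sum_characters_eq ℂ (1 : ZMod K)
  rw [if_pos rfl] at h1
  simp only [map_one, Finset.sum_const, Finset.card_univ, nsmul_eq_mul, mul_one] at h1
  exact_mod_cast h1

/-- the upper bound -/
theorem ctr_up (K H N : ℕ) (hK : 1 ≤ K) (f : ℕ → ℂ) (B : ℝ)
    (h : ∀ χ : DirichletCharacter ℂ K, ∑ n ∈ Icc 1 N, ‖∑ j ∈ range (H * K), f (n + j) * χ ((n + j : ℕ) : ZMod K)‖ ≤ B) :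
    ∑ n ∈ (Icc 1 N).filter (fun n => n % K = 1 % K), ‖∑ j ∈ range H, f (n + j * K)‖ ≤ B := by
  have hφ : (0 : ℝ) < K.totient := by exact_mod_cast Nat.totient_pos.2 hK
  have h1 : (K.totient : ℝ) * ∑ n ∈ (Icc 1 N).filter (fun n => n % K = 1 % K), ‖∑ j ∈ range H, f (n + j * K)‖ ≤
      K.totient * B := by
    rw [Finset.mul_sum]
    have h2 : ∀ n ∈ (Icc 1 N).filter (fun n => n % K = 1 % K), (K.totient : ℝ) * ‖∑ j ∈ range H, f (n + j * K)‖ ≤
        ∑ χ : DirichletCharacter ℂ K, ‖∑ j ∈ range (H * K), f (n + j) * χ ((n + j : ℕ) : ZMod K)‖ := by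
      intro n hn
      have h3 := ctr_orth K H n hK (Finset.mem_filter.1 hn).2 f
      have h4 := congrArg norm h3
      rw [norm_mul, Complex.norm_natCast] at h4
      rw [h4]
      exact norm_sum_le _ _
    refine (Finset.sum_le_sum h2).trans ?_
    refine (Finset.sum_le_sum_of_subset_of_nonneg (Finset.filter_subset _ _)
      (fun n _ _ => Finset.sum_nonneg fun χ _ => norm_nonneg _)).trans ?_
    rw [Finset.sum_comm]
    refine (Finset.sum_le_sum fun χ _ => h χ).trans ?_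
    rw [Finset.sum_const, Finset.card_univ, nsmul_eq_mul, ctr_card K hK]
  exact le_of_mul_le_mul_left h1 hφ

theorem ctr_cnt (K N : ℕ) (hK : 1 ≤ K) (hN : 1 ≤ N) :
    (N : ℝ) / K ≤ ((Icc 1 N).filter (fun n => n % K = 1 % K)).card := by
  have h1 : (Finset.range ((N - 1) / K + 1)).card ≤ ((Icc 1 N).filter (fun n => n % K = 1 % K)).card := by
    apply Finset.card_le_card_of_injOn (fun i => 1 + i * K)
    · intro i hi
      simp only [Finset.coe_range, Set.mem_Iio] at hi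
      simp only [Finset.coe_filter, Finset.mem_Icc, Set.mem_ofPred_eq]
      have h2 : i * K ≤ N - 1 := by
        have h3 : i ≤ (N - 1) / K := by omega
        exact (Nat.mul_le_mul_right K h3).trans (Nat.div_mul_le_self _ _)
      refine ⟨⟨by omega, by omega⟩, ?_⟩
      rw [Nat.add_mul_mod_self_right]
    · intro i _ j _ hij
      simp only at hij
      have h2 : i * K = j * K := by omega
      exact Nat.eq_of_mul_eq_mul_right hK h2
  rw [Finset.card_range] at h1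
  have hKr : (0 : ℝ) < K := by exact_mod_cast hK
  rw [div_le_iff₀ hKr]
  have h2 : N ≤ ((N - 1) / K + 1) * K := by
    have h3 := Nat.lt_mul_div_succ (N - 1) hK
    rw [mul_comm] at h3
    omega
  have h4 : N ≤ ((Icc 1 N).filter (fun n => n % K = 1 % K)).card * K := h2.trans (Nat.mul_le_mul_right K h1)
  exact_mod_cast h4

theorem ctr_dn (z : ℂ) : ‖dir z‖ = 1 := by
  unfold dir
  split_ifs with h
  · exact norm_one
  · rw [norm_div, Complex.norm_real, norm_norm, div_self (norm_ne_zero_iff.2 h)]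

theorem ctr_dm (z : ℂ) : (‖z‖ : ℂ) * dir z = z := by
  unfold dir
  split_ifs with h
  · rw [h, norm_zero]
    simp
  · have h1 : (‖z‖ : ℂ) ≠ 0 := by
      exact_mod_cast norm_ne_zero_iff.2 h
    field_simp

/-- all values point in the same direction -/
theorem ctr_low (H : ℕ) (x : ℕ → ℂ) (ρ : ℝ) (hρ : 0 ≤ ρ) (hρ4 : H * ρ ≤ 1 / 4) (h1 : ∀ j ∈ range H, ‖dir (x (j + 1)) - dir (x j)‖ ≤ ρ)
    (h2 : ∀ j ∈ range H, 1 / 2 ≤ ‖x j‖) : 3 / 8 * (H : ℝ) ≤ ‖∑ j ∈ range H, x j‖ := by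
  have h3 : ∀ j : ℕ, j ≤ H → ‖dir (x j) - dir (x 0)‖ ≤ j * ρ := by
    intro j
    induction j with
    | zero =>
      intro _
      rw [sub_self, norm_zero]
      simp
    | succ j ih =>
      intro hj
      have h4 := ih (by omega)
      have h5 := h1 j (Finset.mem_range.2 (by omega))
      have h6 : dir (x (j + 1)) - dir (x 0) = (dir (x (j + 1)) - dir (x j)) + (dir (x j) - dir (x 0)) := by ring
      rw [h6]
      refine (norm_add_le _ _).trans ?_
      push_cast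
      linarith
  obtain ⟨u, hu⟩ : ∃ u, u = dir (x 0) := ⟨_, rfl⟩
  have hu1 : ‖u‖ = 1 := by rw [hu]; exact ctr_dn _
  have h4 : ∀ j ∈ range H, 3 / 8 ≤ (x j * (starRingEnd ℂ) u).re := by
    intro j hj
    rw [Finset.mem_range] at hj
    have h5 := h3 j hj.le
    have h6 : (j : ℝ) * ρ ≤ H * ρ := mul_le_mul_of_nonneg_right (by exact_mod_cast hj.le) hρ
    have h7 : ‖dir (x j) - u‖ ≤ 1 / 4 := by
      rw [hu]
      linarith
    have h8 : dir (x j) * (starRingEnd ℂ) u = 1 + (dir (x j) - u) * (starRingEnd ℂ) u := by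
      have h9 : u * (starRingEnd ℂ) u = 1 := by
        rw [Complex.mul_conj, Complex.normSq_eq_norm_sq, hu1]
        norm_num
      rw [sub_mul, h9]
      ring
    have h9 : 3 / 4 ≤ (dir (x j) * (starRingEnd ℂ) u).re := by
      rw [h8, Complex.add_re, Complex.one_re]
      have h10 := Complex.abs_re_le_norm ((dir (x j) - u) * (starRingEnd ℂ) u)
      rw [norm_mul, Complex.norm_conj, hu1, mul_one] at h10
      have h11 := (abs_le.1 h10).1
      linarith
    have h10 : (x j * (starRingEnd ℂ) u).re = ‖x j‖ * (dir (x j) * (starRingEnd ℂ) u).re := by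
      have h11 : x j * (starRingEnd ℂ) u = (‖x j‖ : ℂ) * (dir (x j) * (starRingEnd ℂ) u) := by
        rw [← mul_assoc, ctr_dm]
      rw [h11, Complex.re_ofReal_mul]
    rw [h10]
    have h11 := h2 j (Finset.mem_range.2 hj)
    have h12 := mul_le_mul h11 h9 (by norm_num) (norm_nonneg _)
    linarith
  have h5 : 3 / 8 * (H : ℝ) ≤ ((∑ j ∈ range H, x j) * (starRingEnd ℂ) u).re := by
    rw [Finset.sum_mul, Complex.re_sum]
    have h6 := Finset.sum_le_sum h4
    rw [Finset.sum_const, Finset.card_range, nsmul_eq_mul] at h6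
    linarith
  refine h5.trans ((Complex.re_le_norm _).trans (le_of_eq ?_))
  rw [norm_mul, Complex.norm_conj, hu1, mul_one]

theorem ctr (K : ℕ) (hK : 1 ≤ K) : ∃ ρ : ℝ, 0 < ρ ∧ ∀ f : ℕ → ℂ, OB f → CondNN f → ∃ N₀ : ℕ, ∀ N : ℕ, N₀ ≤ N →
    (ex N (fun n => ‖dir (f (n + (K : ℤ)).toNat) - dir (f n.toNat)‖ ≤ ρ) : ℝ) ≤ ρ * N →
      (ex N (fun n => 1 / 2 ≤ ‖f n.toNat‖) : ℝ) ≤ ρ * N → False := by
  classical
  have hKr : (1 : ℝ) ≤ K := by exact_mod_cast hK
  obtain ⟨H₀, hH₀⟩ := mrt (1 / (16 * (K : ℝ) ^ 2)) (by positivity)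
  obtain ⟨H, hH⟩ : ∃ H, H = H₀ + 1 := ⟨_, rfl⟩
  have hHr : (1 : ℝ) ≤ H := by
    have : 1 ≤ H := by omega
    exact_mod_cast this
  obtain ⟨ρ, hρ⟩ : ∃ ρ : ℝ, ρ = 1 / (64 * (K : ℝ) ^ 2 * H) := ⟨_, rfl⟩
  have hρ0 : 0 < ρ := by rw [hρ]; positivity
  have hρH : H * ρ = 1 / (64 * (K : ℝ) ^ 2) := by
    rw [hρ]
    field_simp
  have hρ4 : H * ρ ≤ 1 / 4 := by
    rw [hρH, div_le_div_iff₀ (by positivity) (by norm_num)]
    nlinarith
  refine ⟨ρ, hρ0, ?_⟩
  intro f hf hN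
  have hχ : ∀ χ : DirichletCharacter ℂ K, ∃ N₀ : ℕ, ∀ N : ℕ, N₀ ≤ N →
      ∑ n ∈ Icc 1 N, ‖∑ j ∈ range (H * K), f (n + j) * χ ((n + j : ℕ) : ZMod K)‖ ≤ 1 / (16 * (K : ℝ) ^ 2) * (H * K : ℕ) * N := by
    intro χ
    refine hH₀ (H * K) ?_ (fun n => f n * χ (n : ZMod K)) (chr_ob f hf K χ) (chr_cond f hN K hK χ)
    have : H * 1 ≤ H * K := Nat.mul_le_mul_left H hK
    omega
  choose Nχ hNχ using hχ
  refine ⟨max (Finset.univ.sup Nχ) (8 * H ^ 2 * K ^ 2 + 1), ?_⟩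
  intro N hNN e1 e2
  have hN1 : ∀ χ : DirichletCharacter ℂ K, Nχ χ ≤ N := fun χ =>
    (Finset.le_sup (f := Nχ) (Finset.mem_univ χ)).trans ((le_max_left _ _).trans hNN)
  have hN2 : 8 * H ^ 2 * K ^ 2 + 1 ≤ N := (le_max_right _ _).trans hNN
  have hN3 : 8 * (H : ℝ) ^ 2 * K ^ 2 ≤ N := by
    have : 8 * H ^ 2 * K ^ 2 ≤ N := by omega
    exact_mod_cast this
  have hNr : (1 : ℝ) ≤ N := by
    have : 1 ≤ N := by omega
    exact_mod_cast this
  have hup := ctr_up K H N hK f (1 / (16 * (K : ℝ) ^ 2) * (H * K : ℕ) * N) (fun χ => hNχ χ N (hN1 χ))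
  -- the exceptions
  obtain ⟨Q, hQ⟩ : ∃ Q : ℤ → Prop, Q = fun n => ‖dir (f (n + (K : ℤ)).toNat) - dir (f n.toNat)‖ ≤ ρ := ⟨_, rfl⟩
  obtain ⟨R, hR⟩ : ∃ R : ℤ → Prop, R = fun n => 1 / 2 ≤ ‖f n.toNat‖ := ⟨_, rfl⟩
  obtain ⟨P, hP⟩ : ∃ P : ℕ → Prop, P = fun n => ∀ j ∈ range H, ‖dir (f (n + (j + 1) * K)) - dir (f (n + j * K))‖ ≤ ρ ∧
    1 / 2 ≤ ‖f (n + j * K)‖ := ⟨_, rfl⟩
  have hex : (((Icc 1 N).filter (fun n => ¬ P n)).card : ℝ) ≤ 2 * H * (ρ * N + H * K) := by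
    have h1 := ex_nat N P
    rw [← h1]
    have h2 : ex N (fun n => P n.toNat) ≤ ex N (fun n => ∀ j ∈ range H, Q (n + (j * K : ℕ)) ∧ R (n + (j * K : ℕ))) := by
      apply ex_mono
      intro n hn1 _ h3
      rw [hP]
      intro j hj
      obtain ⟨h4, h5⟩ := h3 j hj
      rw [hQ] at h4
      rw [hR] at h5
      have h6 : (n + (j * K : ℕ)).toNat = n.toNat + j * K := by omega
      have h7 : (n + (j * K : ℕ) + (K : ℤ)).toNat = n.toNat + (j + 1) * K := by
        have h8 : (j + 1) * K = j * K + K := by ring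
        rw [h8]
        omega
      rw [h6, h7] at h4
      rw [h6] at h5
      exact ⟨h4, h5⟩
    have h3 := ex_all (range H) N (fun j n => Q (n + (j * K : ℕ)) ∧ R (n + (j * K : ℕ)))
    have h4 : ∀ j ∈ range H, ((ex N (fun n => Q (n + (j * K : ℕ)) ∧ R (n + (j * K : ℕ))) : ℕ) : ℝ) ≤ 2 * (ρ * N + H * K) := by
      intro j hj
      rw [Finset.mem_range] at hj
      have h5 := ex_and N (fun n => Q (n + (j * K : ℕ))) (fun n => R (n + (j * K : ℕ)))
      have h6 := ex_shift N Q (j * K : ℕ)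
      have h7 := ex_shift N R (j * K : ℕ)
      rw [Int.natAbs_natCast] at h6 h7
      have h8 : (ex N Q : ℝ) ≤ ρ * N := by
        rw [hQ]
        exact e1
      have h9 : (ex N R : ℝ) ≤ ρ * N := by
        rw [hR]
        exact e2
      have h10 : (ex N (fun n => Q (n + (j * K : ℕ)) ∧ R (n + (j * K : ℕ))) : ℝ) ≤
          (ex N Q + j * K) + (ex N R + j * K) := by
        exact_mod_cast h5.trans (add_le_add h6 h7)
      have h11 : (j : ℝ) * K ≤ H * K := mul_le_mul_of_nonneg_right (by exact_mod_cast hj.le) (by linarith)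
      linarith
    have h5 : (ex N (fun n => P n.toNat) : ℝ) ≤ ∑ j ∈ range H, ((ex N (fun n => Q (n + (j * K : ℕ)) ∧ R (n + (j * K : ℕ))) : ℕ) : ℝ) := by
      exact_mod_cast h2.trans h3
    refine h5.trans ((Finset.sum_le_sum h4).trans (le_of_eq ?_))
    rw [Finset.sum_const, Finset.card_range, nsmul_eq_mul]
    ring
  -- the lower bound
  have hlow : 3 / 8 * (H : ℝ) * ((N : ℝ) / K - 2 * H * (ρ * N + H * K)) ≤
      ∑ n ∈ (Icc 1 N).filter (fun n => n % K = 1 % K), ‖∑ j ∈ range H, f (n + j * K)‖ := by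
    have h1 := ctr_cnt K N hK (by omega)
    have h2 : ((Icc 1 N).filter (fun n => n % K = 1 % K)).card ≤
        (((Icc 1 N).filter (fun n => n % K = 1 % K)).filter P).card + ((Icc 1 N).filter (fun n => ¬ P n)).card := by
      rw [← Finset.card_filter_add_card_filter_not (s := (Icc 1 N).filter (fun n => n % K = 1 % K)) P]
      apply Nat.add_le_add_left
      apply Finset.card_le_card
      intro n hn
      rw [Finset.mem_filter, Finset.mem_filter] at hn
      rw [Finset.mem_filter]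
      exact ⟨hn.1.1, hn.2⟩
    have h3 : (((Icc 1 N).filter (fun n => n % K = 1 % K)).card : ℝ) ≤
        ((((Icc 1 N).filter (fun n => n % K = 1 % K)).filter P).card : ℝ) + (((Icc 1 N).filter (fun n => ¬ P n)).card : ℝ) := by
      exact_mod_cast h2
    have h4 : ∑ n ∈ ((Icc 1 N).filter (fun n => n % K = 1 % K)).filter P, 3 / 8 * (H : ℝ) ≤
        ∑ n ∈ ((Icc 1 N).filter (fun n => n % K = 1 % K)).filter P, ‖∑ j ∈ range H, f (n + j * K)‖ := by
      apply Finset.sum_le_sum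
      intro n hn
      have h5 := (Finset.mem_filter.1 hn).2
      rw [hP] at h5
      exact ctr_low H (fun j => f (n + j * K)) ρ hρ0.le hρ4 (fun j hj => (h5 j hj).1) (fun j hj => (h5 j hj).2)
    rw [Finset.sum_const, nsmul_eq_mul] at h4
    have h5 := Finset.sum_le_sum_of_subset_of_nonneg
      (Finset.filter_subset P ((Icc 1 N).filter (fun n => n % K = 1 % K)))
      (fun n _ _ => norm_nonneg (∑ j ∈ range H, f (n + j * K)))
    have h6 : (N : ℝ) / K - 2 * H * (ρ * N + H * K) ≤ ((((Icc 1 N).filter (fun n => n % K = 1 % K)).filter P).card : ℝ) := by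
      linarith
    have h7 := mul_le_mul_of_nonneg_left h6 (show (0 : ℝ) ≤ 3 / 8 * H by positivity)
    linarith
  have hcmp := hlow.trans hup
  -- comparison
  obtain ⟨y, hy⟩ : ∃ y : ℝ, y = (N : ℝ) / K := ⟨_, rfl⟩
  have hy0 : 0 < y := by
    rw [hy]
    positivity
  have k1 : 1 / (16 * (K : ℝ) ^ 2) * (H * K : ℕ) * N = H * y / 16 := by
    rw [hy]
    push_cast
    field_simp
  have k2 : 2 * (H : ℝ) * (ρ * N + H * K) ≤ y / 32 + y / 4 := by
    have k3 : 2 * (H : ℝ) * (ρ * N + H * K) = 2 * (H * ρ) * N + 2 * H ^ 2 * K := by ring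
    rw [k3, hρH]
    have k4 : 2 * (1 / (64 * (K : ℝ) ^ 2)) * N ≤ y / 32 := by
      rw [hy, div_div]
      have k5 : 2 * (1 / (64 * (K : ℝ) ^ 2)) * N = N / (32 * K ^ 2) := by
        field_simp
        norm_num
      rw [k5]
      apply div_le_div_of_nonneg_left (by linarith) (by positivity)
      nlinarith
    have k6 : 2 * (H : ℝ) ^ 2 * K ≤ y / 4 := by
      rw [hy, div_div, le_div_iff₀ (by positivity)]
      nlinarith
    linarith
  rw [k1, ← hy] at hcmp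
  have k7 : 3 / 8 * (H : ℝ) * (y / 2) ≤ 3 / 8 * (H : ℝ) * (y - 2 * H * (ρ * N + H * K)) := by
    apply mul_le_mul_of_nonneg_left _ (by positivity)
    linarith
  have k8 : 0 < (H : ℝ) * y := by positivity
  linarith

theorem ctrU (M : ℕ) : ∃ ρ : ℝ, 0 < ρ ∧ ∀ f : ℕ → ℂ, OB f → CondNN f → ∃ N₀ : ℕ, ∀ N : ℕ, N₀ ≤ N → ∀ K : ℕ, 1 ≤ K → K ≤ M →
    (ex N (fun n => ‖dir (f (n + (K : ℤ)).toNat) - dir (f n.toNat)‖ ≤ ρ) : ℝ) ≤ ρ * N →
      (ex N (fun n => 1 / 2 ≤ ‖f n.toNat‖) : ℝ) ≤ ρ * N → False := by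
  induction M with
  | zero => exact ⟨1, one_pos, fun f _ _ => ⟨0, fun N _ K hK hKM => absurd hKM (by omega)⟩⟩
  | succ M ih =>
    obtain ⟨ρ1, hρ1, h1⟩ := ih
    obtain ⟨ρ2, hρ2, h2⟩ := ctr (M + 1) (by omega)
    refine ⟨min ρ1 ρ2, lt_min hρ1 hρ2, ?_⟩
    intro f hf hN
    obtain ⟨N1, hN1⟩ := h1 f hf hN
    obtain ⟨N2, hN2⟩ := h2 f hf hN
    refine ⟨max N1 N2, ?_⟩
    intro N hNN K hK hKM e1 e2
    have m1 : min ρ1 ρ2 ≤ ρ1 := min_le_left _ _
    have m2 : min ρ1 ρ2 ≤ ρ2 := min_le_right _ _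
    have hNn : (0 : ℝ) ≤ N := Nat.cast_nonneg _
    have m3 : min ρ1 ρ2 * N ≤ ρ1 * N := mul_le_mul_of_nonneg_right m1 hNn
    have m4 : min ρ1 ρ2 * N ≤ ρ2 * N := mul_le_mul_of_nonneg_right m2 hNn
    rcases Nat.lt_or_ge K (M + 1) with h | h
    · refine hN1 N ((le_max_left _ _).trans hNN) K hK (by omega) ?_ (e2.trans m3)
      refine le_trans ?_ (e1.trans m3)
      exact_mod_cast ex_mono (fun n _ _ hn => le_trans hn m1)
    · have hKe : K = M + 1 := by omega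
      subst hKe
      refine hN2 N ((le_max_right _ _).trans hNN) ?_ (e2.trans m4)
      refine le_trans ?_ (e1.trans m4)
      exact_mod_cast ex_mono (fun n _ _ hn => le_trans hn m2)

end Pool.H2.WE
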