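import Mathlib

/-!
# [H2 WE SM1] Two close elements of a dense set

PROOF. `D = ⌈12/c⌉ + 1`, `P ≥ 6/c + 1`: the blocks `{x : (x + P)/D = j}`, `0 ≤ j ≤ 2P/D`, are at most `2P/D + 1 < c P ≤ #R` many, so two elements of `R` lie in the same block (`Finset.exists_ne_map_eq_of_card_lt_of_maps_to`).
-/

namespace Pool.H2.WE

open Finset

theorem sm1 (c : ℝ) (hc : 0 < c) : ∃ (D P1 : ℕ), 1 ≤ D ∧ ∀ (P : ℕ), P1 ≤ P → 1 ≤ P → ∀ (R : Finset ℤ),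
    (∀ r ∈ R, |r| ≤ P) → c * (P : ℝ) ≤ R.card → ∃ x ∈ R, ∃ y ∈ R, 1 ≤ y - x ∧ y - x ≤ D := by
  obtain ⟨D0, hD0⟩ := exists_nat_ge (12 / c)
  obtain ⟨P0, hP0⟩ := exists_nat_ge (6 / c)
  refine ⟨D0 + 1, P0 + 1, by omega, ?_⟩
  intro P hP hP1 R hR hcard
  have hPr : (1 : ℝ) ≤ P := by exact_mod_cast hP1
  have hcP : 6 < c * P := by
    have h1 : 6 ≤ (P0 : ℝ) * c := (div_le_iff₀ hc).1 hP0
    have h2 : (P0 : ℝ) + 1 ≤ P := by exact_mod_cast hP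
    nlinarith
  have hcD : 12 ≤ c * ((D0 : ℝ) + 1) := by
    have h1 : 12 ≤ (D0 : ℝ) * c := (div_le_iff₀ hc).1 hD0
    nlinarith
  obtain ⟨D, hD⟩ : ∃ D : ℤ, D = (D0 : ℤ) + 1 := ⟨_, rfl⟩
  have hDpos : 0 < D := by omega
  have hmaps : ∀ x ∈ R, (x + P) / D ∈ Finset.Icc (0 : ℤ) (2 * P / D) := by
    intro x hx
    have h1 := abs_le.1 (hR x hx)
    rw [Finset.mem_Icc]
    exact ⟨Int.ediv_nonneg (by omega) hDpos.le, Int.ediv_le_ediv hDpos (by omega)⟩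
  have hlt : (Finset.Icc (0 : ℤ) (2 * P / D)).card < R.card := by
    rw [Int.card_Icc]
    have h0 : 0 ≤ 2 * (P : ℤ) / D := Int.ediv_nonneg (by omega) hDpos.le
    have h1 : (((2 * (P : ℤ) / D + 1 - 0).toNat : ℤ) : ℝ) = ((2 * (P : ℤ) / D : ℤ) : ℝ) + 1 := by
      rw [Int.toNat_of_nonneg (by omega)]
      push_cast
      ring
    have h2 : ((2 * (P : ℤ) / D : ℤ) : ℝ) * ((D0 : ℝ) + 1) ≤ 2 * P := by
      have h3 : 2 * (P : ℤ) / D * D ≤ 2 * P := Int.ediv_mul_le _ hDpos.ne'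
      rw [hD] at h3 ⊢
      exact_mod_cast h3
    have h4 : ((2 * (P : ℤ) / D : ℤ) : ℝ) ≤ c * P / 6 := by
      have h5 : (0 : ℝ) < (D0 : ℝ) + 1 := by positivity
      by_contra hc2
      push Not at hc2
      have h6 : c * P / 6 * ((D0 : ℝ) + 1) < ((2 * (P : ℤ) / D : ℤ) : ℝ) * ((D0 : ℝ) + 1) := mul_lt_mul_of_pos_right hc2 h5
      have h7 : 12 * (P : ℝ) ≤ c * ((D0 : ℝ) + 1) * P := mul_le_mul_of_nonneg_right hcD (by linarith)
      nlinarith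
    have h8 : (((2 * (P : ℤ) / D + 1 - 0).toNat : ℕ) : ℝ) < (R.card : ℝ) := by
      have h9 : (((2 * (P : ℤ) / D + 1 - 0).toNat : ℕ) : ℝ) = (((2 * (P : ℤ) / D + 1 - 0).toNat : ℤ) : ℝ) := by norm_cast
      rw [h9, h1]
      linarith
    exact_mod_cast h8
  obtain ⟨x, hx, y, hy, hne, he⟩ := Finset.exists_ne_map_eq_of_card_lt_of_maps_to hlt hmaps
  have k1 := Int.mul_ediv_add_emod (x + P) D
  have k2 := Int.mul_ediv_add_emod (y + P) D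
  have k3 := Int.emod_nonneg (x + P) hDpos.ne'
  have k4 := Int.emod_nonneg (y + P) hDpos.ne'
  have k5 := Int.emod_lt_of_pos (x + P) hDpos
  have k6 := Int.emod_lt_of_pos (y + P) hDpos

  rw [he] at k1
  rcases lt_or_gt_of_ne hne with h | h
  · exact ⟨x, hx, y, hy, by omega, by push_cast; omega⟩
  · exact ⟨y, hy, x, hx, by omega, by push_cast; omega⟩

end Pool.H2.WE
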