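import Pool.Agent.H2.WE.Rel
import Pool.Agent.H2.MR.Defs

/-!
# [H2 WE TWO] The factor of a first order relation is `± 1`

`γ(n) = dir (f n.toNat)`, `f` 1-bounded multiplicative. If `γ(n+a) conj γ(n)` is within `η` of a constant `C`, `‖C‖ = 1`, and `‖f n‖ ≥ 1/2` for most `n ≤ N`, then `‖C² - 1‖ ≤ 6η` and so `‖γ(n+2a) - γ(n)‖ ≤ 8η` for most `n`.

PROOF. Look at odd `n` with `4|a| < n` and `2n + 8|a| ≤ N`: at least `N/4 - 10|a| - 2` of them. For all of them outside at most `E` exceptions for each of the following conditions (the maps `n ↦ n + i a`, `n ↦ 2n + i a` are injective with values in `[1, N]`): `γ(n+a) ≈ C γ(n)`, `γ(n+2a) ≈ C γ(n+a)`, `γ(2n+(i+1)a) ≈ C γ(2n+ia)` for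
`i = 0,1,2,3`, and `f(n) ≠ 0`, `f(n+2a) ≠ 0`, `f(2n) ≠ 0`, at most `9E` exceptions in all, and `N/4 - 10|a| - 2 > 9E`, so there is such an `n` with all of them. `n` and `n + 2a` are odd, so `f(2n) = f(2) f(n)`, `f(2n+4a) = f(2) f(n+2a)`, `f(2) ≠ 0`, and `dir(zw) = dir z dir w` for `z, w ≠ 0`:
`γ(2n) = dir f(2) γ(n)`, `γ(2n+4a) = dir f(2) γ(n+2a)`. Now `γ(2n+4a) = C⁴ γ(2n) + O(4η)`, `γ(n+2a) = C² γ(n) + O(2η)`: `‖C⁴ - C²‖ ≤ 6η`, `‖C² - 1‖ ≤ 6η`. Finally `‖γ(n+2a) - C² γ(n)‖ ≤ 2η` off `2E + |a|` exceptions (`ex_shift`).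
-/

namespace Pool.H2.WE

open Finset Pool.H2.MR

theorem dir_mul (z w : ℂ) (hz : z ≠ 0) (hw : w ≠ 0) : dir (z * w) = dir z * dir w := by
  unfold dir
  rw [if_neg hz, if_neg hw, if_neg (mul_ne_zero hz hw), norm_mul]
  push_cast
  rw [mul_div_mul_comm]

private noncomputable def bd (T : Finset ℤ) (P : ℤ → Prop) : ℕ := by
  classical exact (T.filter (fun k => ¬ P k)).card

private theorem two_inj (T : Finset ℤ) (N : ℕ) (Q : ℤ → Prop) (φ : ℤ → ℤ) (hφ : Function.Injective φ)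
    (hT : ∀ k ∈ T, 1 ≤ φ k ∧ φ k ≤ N) : bd T (fun k => Q (φ k)) ≤ ex N Q := by
  classical
  unfold ex bd
  have h1 : ((T.filter (fun k => ¬ Q (φ k))).image φ).card = (T.filter (fun k => ¬ Q (φ k))).card :=
    Finset.card_image_of_injective _ hφ
  rw [← h1]
  apply Finset.card_le_card
  intro x hx
  obtain ⟨k, hk, rfl⟩ := Finset.mem_image.1 hx
  obtain ⟨hk1, hk2⟩ := Finset.mem_filter.1 hk
  rw [Finset.mem_filter, Finset.mem_Icc]
  exact ⟨hT k hk1, hk2⟩

private theorem two_and (T : Finset ℤ) (P Q : ℤ → Prop) (m n : ℕ) (h1 : bd T P ≤ m)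
    (h2 : bd T Q ≤ n) : bd T (fun k => P k ∧ Q k) ≤ m + n := by
  classical
  unfold bd at *
  have h3 : T.filter (fun k => ¬ (P k ∧ Q k)) ⊆ T.filter (fun k => ¬ P k) ∪ T.filter (fun k => ¬ Q k) := by
    intro k hk
    obtain ⟨hk1, hk2⟩ := Finset.mem_filter.1 hk
    rw [Finset.mem_union, Finset.mem_filter, Finset.mem_filter]
    by_cases hP : P k
    · exact Or.inr ⟨hk1, fun hQ => hk2 ⟨hP, hQ⟩⟩
    · exact Or.inl ⟨hk1, hP⟩
  refine le_trans ?_ (le_trans (Finset.card_le_card h3) ((Finset.card_union_le _ _).trans (add_le_add ?_ ?_)))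
  · apply le_of_eq
    congr 1
    ext k
    simp only [Finset.mem_filter]
  · refine le_trans (le_of_eq ?_) h1
    congr 1
  · refine le_trans (le_of_eq ?_) h2
    congr 1

private theorem two_pick (T : Finset ℤ) (P : ℤ → Prop) (m : ℕ) (h1 : bd T P ≤ m) (h2 : m < T.card) :
    ∃ k ∈ T, P k := by
  classical
  by_contra hc
  push Not at hc
  unfold bd at h1
  rw [Finset.filter_true_of_mem (fun k hk => hc k hk)] at h1
  omega

private theorem two_nd (z : ℂ) : ‖dir z‖ = 1 := by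
  unfold dir
  split_ifs with h
  · exact norm_one
  · rw [norm_div, Complex.norm_real, norm_norm, div_self (norm_ne_zero_iff.2 h)]

/-- one step -/
private theorem two_step {x y C : ℂ} {η : ℝ} (hx : ‖x‖ = 1) (h : ‖y * (starRingEnd ℂ) x - C‖ ≤ η) : ‖y - C * x‖ ≤ η := by
  have h1 : (starRingEnd ℂ) x * x = 1 := by
    rw [mul_comm, Complex.mul_conj, Complex.normSq_eq_norm_sq, hx]
    norm_num
  have h2 : y - C * x = (y * (starRingEnd ℂ) x - C) * x := by
    rw [sub_mul, mul_assoc, h1, mul_one]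
  rw [h2, norm_mul, hx, mul_one]
  exact h

private theorem two_trans {x y z C D : ℂ} {η ε : ℝ} (hC : ‖C‖ = 1) (h1 : ‖y - D * x‖ ≤ ε) (h2 : ‖z - C * y‖ ≤ η) :
    ‖z - C * D * x‖ ≤ ε + η := by
  have h3 : z - C * D * x = (z - C * y) + C * (y - D * x) := by ring
  rw [h3]
  refine (norm_add_le _ _).trans ?_
  rw [norm_mul, hC, one_mul]
  linarith

theorem two (f : ℕ → ℂ) (hf : OB f) (N E : ℕ) (a : ℤ) (C : ℂ) (hC : ‖C‖ = 1) (η : ℝ) (hN : 100 * (E + a.natAbs + 1) ≤ N)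
    (h1 : ex N (fun n => ‖dl a (fun n => dir (f n.toNat)) n - C‖ ≤ η) ≤ E)
    (h2 : ex N (fun n => 1 / 2 ≤ ‖f n.toNat‖) ≤ E) :
    ex N (fun n => ‖dir (f (n + 2 * a).toNat) - dir (f n.toNat)‖ ≤ 8 * η) ≤ 2 * E + a.natAbs := by
  classical
  obtain ⟨G, hG⟩ : ∃ G : ℤ → ℂ, G = fun n => dir (f n.toNat) := ⟨_, rfl⟩
  have hGn : ∀ n, ‖G n‖ = 1 := by
    intro n
    rw [hG]
    exact two_nd _
  obtain ⟨Q, hQ⟩ : ∃ Q : ℤ → Prop, Q = fun n => ‖dl a G n - C‖ ≤ η := ⟨_, rfl⟩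
  obtain ⟨R, hR⟩ : ∃ R : ℤ → Prop, R = fun n => 1 / 2 ≤ ‖f n.toNat‖ := ⟨_, rfl⟩
  have h1' : ex N Q ≤ E := by
    rw [hQ, hG]
    exact h1
  have h2' : ex N R ≤ E := by
    rw [hR]
    exact h2
  have hQs : ∀ n, Q n → ‖G (n + a) - C * G n‖ ≤ η := by
    intro n hn
    rw [hQ] at hn
    exact two_step (hGn n) hn
  have ha1 : a ≤ a.natAbs := Int.le_natAbs
  have ha2 : -(a.natAbs : ℤ) ≤ a := by omega
  obtain ⟨A, hA⟩ : ∃ A : ℕ, A = a.natAbs := ⟨_, rfl⟩
  rw [← hA] at ha1 ha2 hN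
  obtain ⟨T, hT⟩ : ∃ T : Finset ℤ, T = Finset.Icc (2 * (A : ℤ)) (((N : ℤ) - 2 - 8 * A) / 4) := ⟨_, rfl⟩
  have hTm : ∀ k ∈ T, 2 * (A : ℤ) ≤ k ∧ 4 * k + 2 + 8 * A ≤ N := by
    intro k hk
    rw [hT, Finset.mem_Icc] at hk
    omega
  have hTc : 9 * E < T.card := by
    rw [hT, Int.card_Icc]
    omega
  -- the point
  have hlin : ∀ (c d : ℤ), c ≠ 0 → Function.Injective (fun k : ℤ => c * k + d) := by
    intro c d hc x y hxy
    simp only at hxy
    exact mul_left_cancel₀ hc (by linarith)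
  have b1 := two_inj T N Q (fun k => 2 * k + 1) (hlin 2 1 (by norm_num)) (fun k hk => by have := hTm k hk; constructor <;> omega)
  have b2 := two_inj T N Q (fun k => 2 * k + (1 + a)) (hlin 2 _ (by norm_num)) (fun k hk => by have := hTm k hk; constructor <;> omega)
  have b3 := two_inj T N Q (fun k => 4 * k + 2) (hlin 4 _ (by norm_num)) (fun k hk => by have := hTm k hk; constructor <;> omega)
  have b4 := two_inj T N Q (fun k => 4 * k + (2 + a)) (hlin 4 _ (by norm_num)) (fun k hk => by have := hTm k hk; constructor <;> omega)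
  have b5 := two_inj T N Q (fun k => 4 * k + (2 + 2 * a)) (hlin 4 _ (by norm_num))
    (fun k hk => by have := hTm k hk; constructor <;> omega)
  have b6 := two_inj T N Q (fun k => 4 * k + (2 + 3 * a)) (hlin 4 _ (by norm_num))
    (fun k hk => by have := hTm k hk; constructor <;> omega)
  have b7 := two_inj T N R (fun k => 2 * k + 1) (hlin 2 1 (by norm_num)) (fun k hk => by have := hTm k hk; constructor <;> omega)
  have b8 := two_inj T N R (fun k => 2 * k + (1 + 2 * a)) (hlin 2 _ (by norm_num))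
    (fun k hk => by have := hTm k hk; constructor <;> omega)
  have b9 := two_inj T N R (fun k => 4 * k + 2) (hlin 4 _ (by norm_num)) (fun k hk => by have := hTm k hk; constructor <;> omega)
  obtain ⟨k, hkT, ⟨⟨⟨q1, q2⟩, q3, q4⟩, ⟨q5, q6⟩, r1, r2⟩, r3⟩ := two_pick T
    (fun k => (((Q (2 * k + 1) ∧ Q (2 * k + (1 + a))) ∧ Q (4 * k + 2) ∧ Q (4 * k + (2 + a))) ∧
      (Q (4 * k + (2 + 2 * a)) ∧ Q (4 * k + (2 + 3 * a))) ∧ R (2 * k + 1) ∧ R (2 * k + (1 + 2 * a))) ∧ R (4 * k + 2))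
    (((E + E) + (E + E)) + ((E + E) + (E + E)) + E)
    (two_and T (fun k => ((Q (2 * k + 1) ∧ Q (2 * k + (1 + a))) ∧ Q (4 * k + 2) ∧ Q (4 * k + (2 + a))) ∧
      (Q (4 * k + (2 + 2 * a)) ∧ Q (4 * k + (2 + 3 * a))) ∧ R (2 * k + 1) ∧ R (2 * k + (1 + 2 * a))) (fun k => R (4 * k + 2)) _ _
      (two_and T (fun k => (Q (2 * k + 1) ∧ Q (2 * k + (1 + a))) ∧ Q (4 * k + 2) ∧ Q (4 * k + (2 + a)))
        (fun k => (Q (4 * k + (2 + 2 * a)) ∧ Q (4 * k + (2 + 3 * a))) ∧ R (2 * k + 1) ∧ R (2 * k + (1 + 2 * a))) _ _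
        (two_and T (fun k => Q (2 * k + 1) ∧ Q (2 * k + (1 + a))) (fun k => Q (4 * k + 2) ∧ Q (4 * k + (2 + a))) _ _
          (two_and T (fun k => Q (2 * k + 1)) (fun k => Q (2 * k + (1 + a))) _ _ (b1.trans h1') (b2.trans h1'))
          (two_and T (fun k => Q (4 * k + 2)) (fun k => Q (4 * k + (2 + a))) _ _ (b3.trans h1') (b4.trans h1')))
        (two_and T (fun k => Q (4 * k + (2 + 2 * a)) ∧ Q (4 * k + (2 + 3 * a))) (fun k => R (2 * k + 1) ∧ R (2 * k + (1 + 2 * a))) _ _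
          (two_and T (fun k => Q (4 * k + (2 + 2 * a))) (fun k => Q (4 * k + (2 + 3 * a))) _ _ (b5.trans h1') (b6.trans h1'))
          (two_and T (fun k => R (2 * k + 1)) (fun k => R (2 * k + (1 + 2 * a))) _ _ (b7.trans h2') (b8.trans h2'))))
      (b9.trans h2')) (by omega)
  have hk := hTm k hkT
  -- the values
  have s1 := hQs _ q1
  have s2 := hQs _ q2
  have s3 := hQs _ q3
  have s4 := hQs _ q4
  have s5 := hQs _ q5
  have s6 := hQs _ q6
  rw [show 2 * k + 1 + a = 2 * k + (1 + a) by ring] at s1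
  rw [show 2 * k + (1 + a) + a = 2 * k + (1 + 2 * a) by ring] at s2
  rw [show 4 * k + 2 + a = 4 * k + (2 + a) by ring] at s3
  rw [show 4 * k + (2 + a) + a = 4 * k + (2 + 2 * a) by ring] at s4
  rw [show 4 * k + (2 + 2 * a) + a = 4 * k + (2 + 3 * a) by ring] at s5
  rw [show 4 * k + (2 + 3 * a) + a = 4 * k + (2 + 4 * a) by ring] at s6
  have t1 := two_trans hC s1 s2
  have t2 := two_trans hC (two_trans hC (two_trans hC s3 s4) s5) s6
  have hf2 : ∀ j : ℤ, 1 ≤ j → j % 2 = 1 → f (2 * j).toNat = f 2 * f j.toNat := by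
    intro j hj hj2
    have e1 : (2 * j).toNat = 2 * j.toNat := by omega
    rw [e1]
    apply hf.mul
    rw [Nat.coprime_two_left]
    rw [Nat.odd_iff]
    omega
  have g1 := hf2 (2 * k + 1) (by omega) (by omega)
  have g2 := hf2 (2 * k + (1 + 2 * a)) (by omega) (by omega)
  rw [show 2 * (2 * k + 1) = 4 * k + 2 by ring] at g1
  rw [show 2 * (2 * k + (1 + 2 * a)) = 4 * k + (2 + 4 * a) by ring] at g2
  have n1 : f (2 * k + 1).toNat ≠ 0 := by
    intro h0
    rw [hR] at r1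
    rw [h0, norm_zero] at r1
    linarith
  have n2 : f (2 * k + (1 + 2 * a)).toNat ≠ 0 := by
    intro h0
    rw [hR] at r2
    rw [h0, norm_zero] at r2
    linarith
  have n3 : f 2 ≠ 0 := by
    intro h0
    rw [hR] at r3
    rw [g1, h0, zero_mul, norm_zero] at r3
    linarith
  have G1 : G (4 * k + 2) = dir (f 2) * G (2 * k + 1) := by
    rw [hG]
    simp only
    rw [g1, dir_mul _ _ n3 n1]
  have G2 : G (4 * k + (2 + 4 * a)) = dir (f 2) * G (2 * k + (1 + 2 * a)) := by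
    rw [hG]
    simp only
    rw [g2, dir_mul _ _ n3 n2]
  rw [G1, G2] at t2
  have u1 : ‖G (2 * k + (1 + 2 * a)) - C * (C * (C * C)) * G (2 * k + 1)‖ ≤ η + η + η + η := by
    have e1 : dir (f 2) * G (2 * k + (1 + 2 * a)) - C * (C * (C * C)) * (dir (f 2) * G (2 * k + 1)) =
        dir (f 2) * (G (2 * k + (1 + 2 * a)) - C * (C * (C * C)) * G (2 * k + 1)) := by ring
    rw [e1, norm_mul, two_nd, one_mul] at t2
    exact t2
  have u2 : ‖C * C - 1‖ ≤ 6 * η := by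
    have e1 : C * C * (C * C - 1) * G (2 * k + 1) = (G (2 * k + (1 + 2 * a)) - C * C * G (2 * k + 1)) -
        (G (2 * k + (1 + 2 * a)) - C * (C * (C * C)) * G (2 * k + 1)) := by ring
    have e2 := congrArg norm e1
    rw [norm_mul, norm_mul, norm_mul, hC, hGn, one_mul, one_mul, mul_one] at e2
    rw [e2]
    refine (norm_sub_le _ _).trans ?_
    linarith
  -- the conclusion
  have hsh := ex_shift N Q a
  have hand := ex_and N Q (fun n => Q (n + a))
  have hfin : ex N (fun n => ‖dir (f (n + 2 * a).toNat) - dir (f n.toNat)‖ ≤ 8 * η) ≤ ex N (fun n => Q n ∧ Q (n + a)) := by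
    apply ex_mono
    intro n _ _ hn
    have v1 := two_trans hC (hQs _ hn.1) (hQs _ hn.2)
    have e1 : n + a + a = n + 2 * a := by ring
    rw [e1, hG] at v1
    simp only at v1
    have e2 : dir (f (n + 2 * a).toNat) - dir (f n.toNat) = (dir (f (n + 2 * a).toNat) - C * C * dir (f n.toNat)) +
        (C * C - 1) * dir (f n.toNat) := by ring
    rw [e2]
    refine (norm_add_le _ _).trans ?_
    rw [norm_mul, two_nd, mul_one]
    linarith
  rw [hA] at *
  omega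

end Pool.H2.WE
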