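import Pool.Agent.H2.WE.Edc
import Pool.Agent.H2.WE.Pos
import Pool.Agent.H2.WE.Eli
import Pool.Agent.H2.WE.Two
import Pool.Agent.H2.WE.Sm1
import Pool.Agent.H2.WE.Dir
import Pool.Agent.H2.WE.Ctr

/-!
# [H2 WE FI1] Assembly for two functions, first function complex

PROOF. As `Fin.lean` with `k = 1`, but the relations are only approximate. `c, P1` from `pos 1`; `D, P1'` from `sm1 c`; `Mh` = a bound `≥ 1` for `h 0, h 1`; `M = 2 D Mh`; `ρ ≤ 1` from `ctrU M`; `η ≤ 1/8` with `8·16 η ≤ ρ`, i.e. `η = ρ/128`; `ε = ρ/4000`; `Pmax, N0, δ₀` from `edc` (`k = 1`) with `P0 = max P1 P1' 1`; `δ = min(1/2, (η²/8) min(δ₀, ε))`.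
Suppose `‖∑‖ > (1-δ)N`. As in `Fin.lean`: `str`, `edc`, `𝒢`, `drl`: `‖dir g 0 (n + p h 0) dir g 1 (n + p h 1) - c' p‖ ≤ 4η` for `p ∈ 𝒢` off `E3 ≤ 4εN + O(1)` exceptions. `pos 1`: `R` (vectors `Fin 1 → ℤ`; take the image `R' ⊂ ℤ` under `r ↦ r 0`, injective). `eli` (`k = 1`, list `[r 0 * (h 0 - h 1)]`): for `r ∈ R'`
`‖dl (r s) γ n - C_r‖ ≤ 8η`, `s = h 0 - h 1 ≠ 0`, `γ = dir g 0 (toNat)`, off `E4 = 2(E3 + 2P Mh)` exceptions. `sm1`: `x, y ∈ R'`, `1 ≤ y - x ≤ D`. `γ(n + y s) ≈ C_y γ(n)`, `γ(n + x s) ≈ C_x γ(n)`, so `γ(n + y s) conj γ(n + x s) ≈ C_y conj C_x` (error `16η`), and replacing `n` by `n - x s` (`ex_shift`): with `a = (y-x) s`,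
`‖dl a γ n - C‖ ≤ 16η` off `2E4 + P Mh` exceptions. `siz`: `‖f n‖ ≥ 1/2` off `E1 + Mh` exceptions. `two` with `E = max` of the two bounds (`≤ 16εN + O(1)`, so `100(E + |a| + 1) ≤ N` for large `N`): `‖γ(n + 2a) - γ(n)‖ ≤ 128η ≤ ρ` off `2E + |a| ≤ ρN` exceptions. If `a < 0` replace `n` by `n - 2a` (`ex_shift`).
`ctrU` with `K = 2|a| ≤ M` gives the contradiction.
-/

namespace Pool.H2.WE

open Finset Pool.H2.MR

theorem fi1_half (S : Finset ℕ) (u : ℕ → ℝ) (hu : ∀ p ∈ S, 0 ≤ u p) (t : ℝ) (ht : 0 < t)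
    (h : ∑ p ∈ S, u p ≤ t * S.card) : S.card ≤ 2 * (S.filter (fun p => u p ≤ 2 * t)).card := by
  have h1 : (S.filter (fun p => u p ≤ 2 * t)).card + (S.filter (fun p => ¬ u p ≤ 2 * t)).card = S.card :=
    Finset.card_filter_add_card_filter_not _
  set B := S.filter (fun p => ¬ u p ≤ 2 * t) with hB
  have h2 : 2 * t * B.card ≤ ∑ p ∈ S, u p := by
    calc 2 * t * B.card = ∑ p ∈ B, 2 * t := by rw [Finset.sum_const, nsmul_eq_mul]; ring
      _ ≤ ∑ p ∈ B, u p := Finset.sum_le_sum fun p hp => (not_le.mp (Finset.mem_filter.mp hp).2).le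
      _ ≤ ∑ p ∈ S, u p := Finset.sum_le_sum_of_subset_of_nonneg (Finset.filter_subset _ _) (fun p hp _ => hu p hp)
  have h3 : 2 * (B.card : ℝ) ≤ S.card := by
    have h4 : t * (2 * (B.card : ℝ)) ≤ t * S.card := by linarith
    exact le_of_mul_le_mul_left h4 ht
  have h4 : 2 * B.card ≤ S.card := by exact_mod_cast h3
  omega

theorem fi1_comb (N : ℕ) (G : ℤ → ℂ) (hG : ∀ n, ‖G n‖ = 1) (x y s : ℤ) (Cx Cy : ℂ) (hCx : ‖Cx‖ = 1)
    (η : ℝ) (E : ℕ) (hx : ex N (fun n => ‖dl (x * s) G n - Cx‖ ≤ η) ≤ E)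
    (hy : ex N (fun n => ‖dl (y * s) G n - Cy‖ ≤ η) ≤ E) :
    ex N (fun n => ‖dl ((y - x) * s) G n - Cy * (starRingEnd ℂ) Cx‖ ≤ 2 * η) ≤ 2 * E + (x * s).natAbs := by
  set Q : ℤ → Prop := fun n => ‖dl (y * s) G n - Cy‖ ≤ η ∧ ‖dl (x * s) G n - Cx‖ ≤ η with hQ
  have h1 : ex N Q ≤ 2 * E := by
    have := ex_and N (fun n => ‖dl (y * s) G n - Cy‖ ≤ η) (fun n => ‖dl (x * s) G n - Cx‖ ≤ η)
    exact this.trans (by omega)
  have h2 := ex_shift N Q (-(x * s))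
  rw [Int.natAbs_neg] at h2
  have h3 : ex N (fun n => ‖dl ((y - x) * s) G n - Cy * (starRingEnd ℂ) Cx‖ ≤ 2 * η) ≤
      ex N (fun n => Q (n + -(x * s))) := by
    refine ex_mono fun n _ _ hn => ?_
    obtain ⟨h4, h5⟩ := hn
    set m := n + -(x * s) with hm
    have e1 : m + y * s = n + (y - x) * s := by rw [hm]; ring
    have e2 : m + x * s = n := by rw [hm]; ring
    have e3 : G m * (starRingEnd ℂ) (G m) = 1 := by
      rw [Complex.mul_conj, Complex.normSq_eq_norm_sq, hG]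
      simp
    set U := dl (y * s) G m with hU
    set V := dl (x * s) G m with hV
    have e4 : dl ((y - x) * s) G n = U * (starRingEnd ℂ) V := by
      rw [hU, hV]
      unfold dl
      rw [e1, e2, map_mul, Complex.conj_conj]
      calc G (n + (y - x) * s) * (starRingEnd ℂ) (G n)
          = G (n + (y - x) * s) * (starRingEnd ℂ) (G n) * (G m * (starRingEnd ℂ) (G m)) := by rw [e3, mul_one]
        _ = _ := by ring
    rw [e4]
    have e5 : U * (starRingEnd ℂ) V - Cy * (starRingEnd ℂ) Cx =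
        U * (starRingEnd ℂ) (V - Cx) + (U - Cy) * (starRingEnd ℂ) Cx := by
      rw [map_sub]
      ring
    have hUn : ‖U‖ = 1 := by
      rw [hU]
      unfold dl
      rw [norm_mul, RCLike.norm_conj, hG, hG, one_mul]
    rw [e5]
    refine (norm_add_le _ _).trans ?_
    rw [norm_mul, norm_mul, RCLike.norm_conj, RCLike.norm_conj, hUn, hCx, one_mul, mul_one]
    linarith
  omega

theorem fi1_sign (N : ℕ) (F : ℤ → ℂ) (a : ℤ) (t : ℝ) (E : ℕ) (h : ex N (fun n => ‖F (n + 2 * a) - F n‖ ≤ t) ≤ E) :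
    ex N (fun n => ‖F (n + ((2 * a.natAbs : ℕ) : ℤ)) - F n‖ ≤ t) ≤ E + 2 * a.natAbs := by
  rcases le_total 0 a with ha | ha
  · have h1 : ((2 * a.natAbs : ℕ) : ℤ) = 2 * a := by
      push_cast
      rw [abs_of_nonneg ha]
    rw [h1]
    omega
  · have h1 : ((2 * a.natAbs : ℕ) : ℤ) = -(2 * a) := by
      push_cast
      rw [abs_of_nonpos ha]
      ring
    have h2 := ex_shift N (fun n => ‖F (n + 2 * a) - F n‖ ≤ t) (-(2 * a))
    have h3 : ex N (fun n => ‖F (n + ((2 * a.natAbs : ℕ) : ℤ)) - F n‖ ≤ t) ≤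
        ex N (fun n => (fun n => ‖F (n + 2 * a) - F n‖ ≤ t) (n + -(2 * a))) := by
      refine ex_mono fun n _ _ hn => ?_
      rw [h1]
      have e1 : n + -(2 * a) + 2 * a = n := by ring
      simp only [e1] at hn
      rw [norm_sub_rev]
      exact hn
    have h4 : (-(2 * a)).natAbs = 2 * a.natAbs := by
      rw [Int.natAbs_neg, Int.natAbs_mul]
      rfl
    rw [h4] at h2
    exact (h3.trans h2).trans (by omega)

/-- relations for the vectors of `R` -/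
theorem fi1_rel (h : Fin 2 → ℕ) (N P Mh E1 E2 : ℕ) (g : Fin 2 → ℕ → ℂ) (𝒢 : Finset ℕ) (h𝒢 : 𝒢 ⊆ PP P) (η : ℝ)
    (hhM : ∀ i, h i ≤ Mh)
    (hd : ∀ p ∈ 𝒢, ∃ c' : ℂ, ‖c'‖ = 1 ∧
      ex N (fun n => ‖∏ i, dir (g i (n + (p : ℤ) * h i).toNat) - c'‖ ≤ 4 * η) ≤ E2 + 2 * (E1 + p * Mh))
    (r : Fin 1 → ℤ) (hr : ∀ i, |r i| ≤ P) (hrp : ∃ p : ℤ, ∀ ω, ∃ p' ∈ 𝒢, p + cs r ω = (p' : ℤ)) :
    ∃ C : ℂ, ‖C‖ = 1 ∧ ex N (fun n => ‖dl (r 0 * ((h 0 : ℤ) - h 1)) (fun n => dir (g 0 n.toNat)) n - C‖ ≤ 8 * η) ≤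
      2 * (E2 + 2 * (E1 + 2 * P * Mh) + 2 * P * Mh) := by
  classical
  choose! cc hcc1 hcc2 using hd
  obtain ⟨p, hp⟩ := hrp
  have hmem : ∀ p ∈ 𝒢, p ≤ 2 * P := by
    intro p hp
    exact (Finset.mem_Ioc.mp (Finset.mem_filter.mp (h𝒢 hp)).1).2
  have h1 := eli 1 N (fun n => dir (g 0 n.toNat)) (fun i n => dir (g i.succ n.toNat)) (fun n => dir_norm _)
    (fun i n => dir_norm _) (h 0 : ℤ) (fun i => (h i.succ : ℤ)) (𝒢.image (fun p : ℕ => (p : ℤ)))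
    (fun z => cc z.toNat) (by
      intro z hz
      obtain ⟨q, hq, rfl⟩ := Finset.mem_image.mp hz
      simpa using hcc1 q hq) (4 * η) (E2 + 2 * (E1 + 2 * P * Mh)) (2 * P) Mh (by
      intro z hz
      obtain ⟨q, hq, rfl⟩ := Finset.mem_image.mp hz
      have h2 := hcc2 q hq
      have h3 : E2 + 2 * (E1 + q * Mh) ≤ E2 + 2 * (E1 + 2 * P * Mh) := by
        have := Nat.mul_le_mul_right Mh (hmem q hq)
        omega
      refine le_trans (ex_mono fun n _ _ hn => ?_) (h2.trans h3)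
      rw [Fin.prod_univ_succ] at hn
      simpa using hn) (by
      intro z hz
      obtain ⟨q, hq, rfl⟩ := Finset.mem_image.mp hz
      have := hmem q hq
      simpa using this) (by simpa using hhM 0) (fun i => by simpa using hhM i.succ) r (by
      intro i
      have := abs_le.mp (hr i)
      omega) p (by
      intro ω
      obtain ⟨q, hq, he⟩ := hp ω
      rw [he]
      exact Finset.mem_image_of_mem _ hq)
  obtain ⟨C, hC1, hC2⟩ := h1
  refine ⟨C, hC1, ?_⟩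
  have e1 : (2 : ℝ) ^ 1 * (4 * η) = 8 * η := by ring
  rw [e1, pow_one] at hC2
  refine le_trans (ex_mono fun n _ _ hn => ?_) hC2
  simpa [dls, List.ofFn_succ] using hn

theorem fi1 (h : Fin 2 → ℕ) (hh : h 1 ≠ h 0) : ∃ δ : ℝ, 0 < δ ∧
    ∀ f : ℕ → ℂ, OB f → CondNN f → ∃ N₀ : ℕ, ∀ N : ℕ, N₀ ≤ N →
      ∀ g : Fin 2 → ℕ → ℂ, (∀ i, OB (g i)) → g 0 = f → ‖∑ n ∈ Icc 1 N, ∏ i, g i (n + h i)‖ ≤ (1 - δ) * N := by
  classical
  obtain ⟨c, P1, hc, hP1, hpos⟩ := pos 1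
  obtain ⟨D, P1', hD, hsm⟩ := sm1 c hc
  set Mh := h 0 + h 1 + 1 with hMh
  have hhM : ∀ i, h i ≤ Mh := by
    intro i
    fin_cases i
    · simp only [hMh, Fin.zero_eta]
      omega
    · simp only [hMh, Fin.mk_one]
      omega
  obtain ⟨ρ, hρ, hctr⟩ := ctrU (2 * D * Mh)
  set η : ℝ := min (ρ / 128) (1 / 8) with hηd
  have hη : 0 < η := lt_min (by positivity) (by norm_num)
  have hη1 : η ≤ ρ / 128 := min_le_left _ _
  have hη2 : η ≤ 1 / 8 := min_le_right _ _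
  set ε : ℝ := min (ρ / 4000) (1 / 4000) with hεd
  have hε : 0 < ε := lt_min (by positivity) (by norm_num)
  have hε1 : ε ≤ ρ / 4000 := min_le_left _ _
  have hε2 : ε ≤ 1 / 4000 := min_le_right _ _
  obtain ⟨Pm, N0, δ0, hδ0, hedc⟩ := edc 1 h ε η hε (by linarith) hη (max P1 (max P1' 1))
  set δ : ℝ := min (1 / 2) (η ^ 2 / 8 * min δ0 ε) with hδd
  have hmin : 0 < min δ0 ε := lt_min hδ0 hε
  have hδ : 0 < δ := lt_min (by norm_num) (by positivity)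
  have hδ1 : 8 * δ / η ^ 2 ≤ min δ0 ε := by
    rw [div_le_iff₀ (by positivity)]
    have : δ ≤ η ^ 2 / 8 * min δ0 ε := min_le_right _ _
    linarith
  refine ⟨δ, hδ, ?_⟩
  intro f hf hfN
  obtain ⟨N2, hN2⟩ := hctr f hf hfN
  obtain ⟨N3, hN3⟩ := exists_nat_ge (2 * (2600 * Pm * Mh + 100 * (D * Mh) + 100) : ℝ)
  obtain ⟨N4, hN4⟩ := exists_nat_ge (2 * (52 * Pm * Mh + 3 * (D * Mh) + Mh) / ρ : ℝ)
  refine ⟨max (max N0 N2) (max (max N3 N4) 1), ?_⟩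
  intro N hN g hg hg0
  have hNN0 : N0 ≤ N := le_trans (le_trans (le_max_left _ _) (le_max_left _ _)) hN
  have hNN2 : N2 ≤ N := le_trans (le_trans (le_max_right _ _) (le_max_left _ _)) hN
  have hNN3 : N3 ≤ N := le_trans (le_trans (le_trans (le_max_left _ _) (le_max_left _ _)) (le_max_right _ _)) hN
  have hNN4 : N4 ≤ N := le_trans (le_trans (le_trans (le_max_right _ _) (le_max_left _ _)) (le_max_right _ _)) hN
  have hNN1 : 1 ≤ N := le_trans (le_trans (le_max_right _ _) (le_max_right _ _)) hN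
  have hNR : (1 : ℝ) ≤ N := by exact_mod_cast hNN1
  by_contra hcon
  rw [not_le] at hcon
  have hg1 : ∀ i n, ‖g i n‖ ≤ 1 := fun i n => (hg i).bd n
  obtain ⟨ζ, hζ, hstr⟩ := str N (fun n => ∏ i, g i (n + h i)) (fun n => by
    rw [norm_prod]
    exact Finset.prod_le_one (fun i _ => norm_nonneg _) (fun i _ => hg1 i _)) δ η hη hcon
  have hstr2 : (((Icc 1 N).filter (fun n => η / 2 < ‖∏ i, g i (n + h i) - ζ‖)).card : ℝ) ≤ min δ0 ε * N :=
    hstr.trans (mul_le_mul_of_nonneg_right hδ1 (by positivity))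
  obtain ⟨E1, hE1⟩ : ∃ E1, E1 = ((Icc 1 N).filter (fun n => η / 2 < ‖∏ i, g i (n + h i) - ζ‖)).card := ⟨_, rfl⟩
  have hE1d : (E1 : ℝ) ≤ δ0 * N := by
    rw [hE1]
    exact hstr2.trans (mul_le_mul_of_nonneg_right (min_le_left _ _) (by positivity))
  have hE1e : (E1 : ℝ) ≤ ε * N := by
    rw [hE1]
    exact hstr2.trans (mul_le_mul_of_nonneg_right (min_le_right _ _) (by positivity))
  obtain ⟨P, c', hP0, hP1', hPPm, hsum⟩ := hedc N g ζ hNN0 hg (by rw [← hE1]; exact hE1d)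
  have hPa : P1 ≤ P := (le_max_left _ _).trans hP0
  have hPb : P1' ≤ P := ((le_max_left _ _).trans (le_max_right _ _)).trans hP0
  set u : ℕ → ℝ := fun p => (((Icc 1 N).filter (fun n => η < ‖∏ i, g i (n + p * h i) - c' p‖)).card : ℝ) with hu
  set 𝒢 := (PP P).filter (fun p => u p ≤ 2 * (ε * N)) with h𝒢
  have h𝒢c : (PP P).card ≤ 2 * 𝒢.card := by
    refine fi1_half (PP P) u (fun p _ => Nat.cast_nonneg _) (ε * N) (by positivity) ?_
    refine hsum.trans (le_of_eq ?_)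
    ring
  have h𝒢s : 𝒢 ⊆ PP P := Finset.filter_subset _ _
  set E2 := ⌊2 * (ε * N)⌋₊ with hE2
  have hE2e : (E2 : ℝ) ≤ 2 * (ε * N) := Nat.floor_le (by positivity)
  have hd : ∀ p ∈ 𝒢, ∃ c' : ℂ, ‖c'‖ = 1 ∧
      ex N (fun n => ‖∏ i, dir (g i (n + (p : ℤ) * h i).toNat) - c'‖ ≤ 4 * η) ≤ E2 + 2 * (E1 + p * Mh) := by
    intro p hp
    have hp1 : 1 ≤ p := (Finset.mem_filter.mp (h𝒢s hp)).2.one_le
    have h1 := drl 1 N h g hg1 ζ hζ η hη (by push_cast; linarith) p hp1 (c' p) E1 E2 Mh hhM hE1.ge (by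
      have h2 : u p ≤ 2 * (ε * N) := (Finset.mem_filter.mp hp).2
      exact Nat.le_floor h2)
    obtain ⟨c'', h3, h4⟩ := h1
    refine ⟨c'', h3, ?_⟩
    have e1 : (((1 : ℕ) : ℝ) + 3) * η = 4 * η := by push_cast; ring
    rw [e1] at h4
    exact h4
  obtain ⟨R, hR1, hR2⟩ := hpos P 𝒢 hPa h𝒢s h𝒢c
  obtain ⟨x, hx, y, hy, hxy1, hxyD⟩ := hsm P hPb hP1' (R.image (fun r => r 0)) (by
    intro z hz
    obtain ⟨r, hr, rfl⟩ := Finset.mem_image.mp hz
    exact (hR1 r hr).1 0) (by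
    rw [Finset.card_image_of_injective]
    · simpa using hR2
    · intro r r' hrr
      funext i
      fin_cases i
      exact hrr)
  obtain ⟨rx, hrx, rfl⟩ := Finset.mem_image.mp hx
  obtain ⟨ry, hry, rfl⟩ := Finset.mem_image.mp hy
  obtain ⟨Cx, hCx, hx2⟩ := fi1_rel h N P Mh E1 E2 g 𝒢 h𝒢s η hhM hd rx (hR1 rx hrx).1 (hR1 rx hrx).2
  obtain ⟨Cy, hCy, hy2⟩ := fi1_rel h N P Mh E1 E2 g 𝒢 h𝒢s η hhM hd ry (hR1 ry hry).1 (hR1 ry hry).2
  set s : ℤ := (h 0 : ℤ) - h 1 with hs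
  have hs0 : s ≠ 0 := by
    rw [hs]
    omega
  have hsM : s.natAbs ≤ Mh := by
    rw [hs]
    omega
  have h1 := fi1_comb N (fun n => dir (g 0 n.toNat)) (fun n => dir_norm _) (rx 0) (ry 0) s Cx Cy hCx (8 * η) _ hx2 hy2
  set a := (ry 0 - rx 0) * s with ha
  have ha0 : a ≠ 0 := mul_ne_zero (by omega) hs0
  have haM : a.natAbs ≤ D * Mh := by
    rw [ha, Int.natAbs_mul]
    refine Nat.mul_le_mul ?_ hsM
    omega
  have hxs : (rx 0 * s).natAbs ≤ P * Mh := by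
    rw [Int.natAbs_mul]
    refine Nat.mul_le_mul ?_ hsM
    have := abs_le.mp ((hR1 rx hrx).1 0)
    omega
  set E4 := 2 * (E2 + 2 * (E1 + 2 * P * Mh) + 2 * P * Mh) with hE4
  obtain ⟨E, hE⟩ : ∃ E, E = 2 * E4 + P * Mh + (E1 + Mh) := ⟨_, rfl⟩
  have hsz := siz 1 N h g hg1 ζ hζ η hη (by linarith) E1 Mh hhM hE1.ge
  have hPR : (1 : ℝ) ≤ P := by exact_mod_cast hP1'
  have hPPR : (P : ℝ) ≤ Pm := by exact_mod_cast hPPm
  have hMhR : (0 : ℝ) ≤ Mh := by positivity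
  have hPM : (P : ℝ) * Mh ≤ Pm * Mh := mul_le_mul_of_nonneg_right hPPR hMhR
  have hPM1 : (Mh : ℝ) ≤ Pm * Mh := by nlinarith
  have hER : (E : ℝ) ≤ 17 * (ε * N) + 26 * (Pm * Mh) := by
    rw [hE, hE4]
    push_cast
    linarith
  have haR : (a.natAbs : ℝ) ≤ D * Mh := by exact_mod_cast haM
  have hN3' : 2 * (2600 * Pm * Mh + 100 * (D * Mh) + 100) ≤ (N : ℝ) := hN3.trans (by exact_mod_cast hNN3)
  have hN4' : 2 * (52 * Pm * Mh + 3 * (D * Mh) + Mh) ≤ ρ * (N : ℝ) := by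
    have := hN4.trans (by exact_mod_cast hNN4 : (N4 : ℝ) ≤ N)
    rw [div_le_iff₀ hρ] at this
    linarith
  have hεN : ε * N ≤ 1 / 4000 * N := mul_le_mul_of_nonneg_right hε2 (by positivity)
  have hεN' : ε * N ≤ ρ / 4000 * N := mul_le_mul_of_nonneg_right hε1 (by positivity)
  have hbig : 100 * (E + a.natAbs + 1) ≤ N := by
    have : 100 * ((E : ℝ) + a.natAbs + 1) ≤ N := by
      have e1 : 2600 * (Pm : ℝ) * Mh = 2600 * (Pm * Mh) := by ring
      rw [e1] at hN3'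
      linarith
    exact_mod_cast this
  have hCC : ‖Cy * (starRingEnd ℂ) Cx‖ = 1 := by
    rw [norm_mul, RCLike.norm_conj, hCx, hCy, one_mul]
  have h2 := two f hf N E a (Cy * (starRingEnd ℂ) Cx) hCC (2 * (8 * η)) hbig (by
    rw [hg0] at h1
    omega) (by
    rw [hg0] at hsz
    omega)
  have h3 := fi1_sign N (fun n => dir (f n.toNat)) a (8 * (2 * (8 * η))) _ h2
  have hK : 2 * a.natAbs ≤ 2 * D * Mh := by
    rw [mul_assoc]
    exact Nat.mul_le_mul_left _ haM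
  refine hN2 N hNN2 (2 * a.natAbs) (by omega) hK ?_ ?_
  · have h4 : ex N (fun n => ‖dir (f (n + ((2 * a.natAbs : ℕ) : ℤ)).toNat) - dir (f n.toNat)‖ ≤ ρ) ≤
        2 * E + a.natAbs + 2 * a.natAbs := by
      refine le_trans (ex_mono fun n _ _ hn => ?_) h3
      refine le_trans hn ?_
      linarith
    have h5 : (ex N (fun n => ‖dir (f (n + ((2 * a.natAbs : ℕ) : ℤ)).toNat) - dir (f n.toNat)‖ ≤ ρ) : ℝ) ≤
        2 * E + a.natAbs + 2 * a.natAbs := by exact_mod_cast h4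
    refine h5.trans ?_
    have e1 : 52 * (Pm : ℝ) * Mh = 52 * (Pm * Mh) := by ring
    have e2 : ρ / 4000 * (N : ℝ) = ρ * N / 4000 := by ring
    have e3 : 0 < ρ * (N : ℝ) := by positivity
    rw [e1] at hN4'
    rw [e2] at hεN'
    linarith
  · rw [hg0] at hsz
    have h4 : (ex N (fun n => 1 / 2 ≤ ‖f n.toNat‖) : ℝ) ≤ E1 + Mh := by exact_mod_cast hsz
    refine h4.trans ?_
    have : (0 : ℝ) ≤ Pm * Mh := by positivity
    have h6 : (0 : ℝ) ≤ D * Mh := by positivity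
    have h7 : 0 < ρ * N := by positivity
    have e1 : 52 * (Pm : ℝ) * Mh = 52 * (Pm * Mh) := by ring
    have e2 : ρ / 4000 * (N : ℝ) = ρ * N / 4000 := by ring
    rw [e1] at hN4'
    rw [e2] at hεN'
    linarith

end Pool.H2.WE
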