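import Pool.Agent.H2.WE.Edc
import Pool.Agent.H2.WE.Pos
import Pool.Agent.H2.WE.Eli
import Pool.Agent.H2.WE.Rel
import Pool.Agent.H2.WE.Sml
import Pool.Agent.H2.WE.Ord
import Pool.Agent.H2.WE.Dir
import Pool.Agent.H2.WE.Ctr

/-!
# [H2 WE FIN] Assembly

PROOF. `c, P1` from `pos k`; `D, P1'` from `sml k c`; `Mh` = a bound `≥ 1` for all `h i`; `M = D Mh` (a bound for `|d (h 0 - h i)|`, `1 ≤ d ≤ D`); `K = (q M!)^k`; `C` from `ord q M`; `ρ` from `ctr K`; `η = 1/(8 q 2^k (k+3))`; `ε ≤ 1` with `C 4^k (k + 3) ε ≤ ρ/4`; `Pmax, N0, δ₀` from `edc` with `P0 = max P1 P1' 1`;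
`δ = min(1/2, (η²/8) min(δ₀, ε))`. Given `f`, `N₀` = maximum of `N0`, that of `ctr` for `f` and a bound that makes all `O(1)` below `≤ (ρ/4C..) N`.
Suppose `‖∑ ∏ g i (n + h i)‖ > (1-δ)N`. `str`: `ζ`, at most `8δ/η² N ≤ min(δ₀, ε) N` exceptions, `E1 = ⌊εN⌋`. `edc`: `P ∈ [P0, Pmax]`, `c : ℕ → ℂ`. `𝒢 = {p ∈ PP P : #exceptions ≤ 2εN}`: by the sum bound at most half of the primes are not in `𝒢`. `drl` for `p ∈ 𝒢` (`E2 = ⌊2εN⌋`): unimodular `c' p` with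
`‖∏ dir g i (n + p h i) - c' p‖ ≤ (k+3)η` off `E3 = E2 + (k+1)(E1 + 2Pmax Mh) ≤ (k+3)εN + O(1)` exceptions. `pos k`: `R`, `|R| ≥ c P^k`. For `r ∈ R` `eli` (`G0 = dir g 0`, `G i = dir g (i+1)`, `Fin.prod_univ_succ`, `B = 2P`, `M = Mh`) and `rel_of_approx` (`2·2^k (k+3) η = 1/(4q) < 1/q`; `dir_pow`):
`Rel N G0 (List.ofFn fun i => r i * (h 0 - h i.succ)) E4`, `E4 = 2^k (E3 + 2P Mh)`. `sml` with `Q r E = Rel N G0 (List.ofFn ..) E` (`rel_mono`, `rel_upd`, `B = P Mh`): `d` with `1 ≤ d i ≤ D`, `Rel ... (2^k (E4 + P Mh))`. `ord`: `G0 (n + K) = G0 n` (so `‖G0 (n+K) - G0 n‖ = 0 ≤ ρ`) off `C(2^k(E4 + P Mh) + 1) ≤ C 4^k (k+3) ε N + O(1) ≤ ρN` exceptions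
(`d i * (h 0 - h i.succ) ≠ 0`). `siz`: `‖f n‖ ≥ 1/2` off `E1 + Mh ≤ ρN` exceptions (`ε ≤ ρ/4`, may assume `C ≥ 1`). `ctr` gives the contradiction.
-/

namespace Pool.H2.WE

open Finset Pool.H2.MR

/-- the algebraic part at one scale -/
theorem fin_core (k q N : ℕ) (hq : 1 ≤ q) (h : Fin (k + 1) → ℕ) (hh : ∀ i, i ≠ 0 → h i ≠ h 0) (Mh : ℕ)
    (hMi : ∀ i, h i ≤ Mh) (D C : ℕ) (P : ℕ) (c : ℝ)
    (hC : ∀ (l : List ℤ), l.length = k → (∀ a ∈ l, a ≠ 0 ∧ a.natAbs ≤ D * Mh) →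
      ∀ (N : ℕ) (G : ℤ → ℂ) (E : ℕ) (c : ℂ), (∀ n, G n ^ q = 1) → ex N (fun n => dls l G n = c) ≤ E →
      ex N (fun n => G (n + ((q * (D * Mh).factorial) ^ k : ℕ)) = G n) ≤ C * (E + 1))
    (hsml : ∀ (R : Finset (Fin k → ℤ)) (Q : (Fin k → ℤ) → ℕ → Prop) (E B : ℕ),
      (∀ r ∈ R, ∀ i, |r i| ≤ P) → c * (P : ℝ) ^ k ≤ R.card → (∀ r ∈ R, Q r E) → (∀ r E E', E ≤ E' → Q r E → Q r E') →
      (∀ (r : Fin k → ℤ) (i : Fin k) (x y : ℤ) (E : ℕ), |x| ≤ P → |y| ≤ P → Q (Function.update r i x) E → Q (Function.update r i y) E →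
        Q (Function.update r i (y - x)) (2 * E + B)) →
      ∃ d : Fin k → ℤ, (∀ i, 1 ≤ d i ∧ d i ≤ D) ∧ Q d (2 ^ k * (E + B)))
    (g : Fin (k + 1) → ℕ → ℂ) (hgq : ∀ n, dir (g 0 n) ^ q = 1) (𝒢 : Finset ℕ) (h𝒢 : 𝒢 ⊆ PP P) (c' : ℕ → ℂ)
    (hc' : ∀ p ∈ 𝒢, ‖c' p‖ = 1) (η' : ℝ) (hη' : 2 * (2 ^ k * η') < 1 / q) (E3 : ℕ)
    (hR : ∀ p ∈ 𝒢, ex N (fun n => ‖∏ i, dir (g i (n + (p : ℤ) * h i).toNat) - c' p‖ ≤ η') ≤ E3)
    (R : Finset (Fin k → ℤ))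
    (hR1 : ∀ r ∈ R, (∀ i, |r i| ≤ P) ∧ ∃ p : ℤ, ∀ ω, ∃ p' ∈ 𝒢, p + cs r ω = (p' : ℤ)) (hR2 : c * (P : ℝ) ^ k ≤ R.card) :
    ex N (fun n => dir (g 0 (n + (((q * (D * Mh).factorial) ^ k : ℕ) : ℤ)).toNat) = dir (g 0 n.toNat)) ≤
      C * (2 ^ k * (2 ^ k * (E3 + 2 * P * Mh) + P * Mh) + 1) := by
  classical
  obtain ⟨G0, hG0⟩ : ∃ G0 : ℤ → ℂ, G0 = fun n => dir (g 0 n.toNat) := ⟨_, rfl⟩
  have hG0n : ∀ n, ‖G0 n‖ = 1 := fun n => by rw [hG0]; exact dir_norm _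
  have hG0q : ∀ n, G0 n ^ q = 1 := fun n => by rw [hG0]; exact hgq _
  obtain ⟨s, hs⟩ : ∃ s : Fin k → ℤ, s = fun i => (h 0 : ℤ) - h i.succ := ⟨_, rfl⟩
  have hs0 : ∀ i, s i ≠ 0 := by
    intro i
    rw [hs]
    have h1 := hh i.succ (Fin.succ_ne_zero i)
    simp only
    omega
  have hsM : ∀ i, (s i).natAbs ≤ Mh := by
    intro i
    rw [hs]
    have h1 := hMi 0
    have h2 := hMi i.succ
    simp only
    omega
  have hrel : ∀ r ∈ R, Rel N G0 (List.ofFn fun i => r i * s i) (2 ^ k * (E3 + 2 * P * Mh)) := by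
    intro r hr
    obtain ⟨hr1, p, hp⟩ := hR1 r hr
    obtain ⟨C1, _, hC2⟩ := eli k N G0 (fun i n => dir (g i.succ n.toNat)) hG0n (fun i n => dir_norm _) (h 0 : ℤ)
      (fun i => (h i.succ : ℤ)) (𝒢.image (fun p : ℕ => (p : ℤ))) (fun z => c' z.toNat) (by
        intro z hz
        obtain ⟨p', hp', rfl⟩ := Finset.mem_image.1 hz
        simpa using hc' p' hp') η' E3 (2 * P) Mh (by
        intro z hz
        obtain ⟨p', hp', rfl⟩ := Finset.mem_image.1 hz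
        refine le_trans (le_of_eq ?_) (hR p' hp')
        congr 1
        funext n
        rw [Fin.prod_univ_succ, hG0]
        simp only [Int.toNat_natCast]) (by
        intro z hz
        obtain ⟨p', hp', rfl⟩ := Finset.mem_image.1 hz
        have h1 := h𝒢 hp'
        unfold PP at h1
        rw [Finset.mem_filter, Finset.mem_Ioc] at h1
        have h2 := h1.1.2
        simpa using h2) (by simpa using hMi 0) (by intro i; simpa using hMi i.succ) r (by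
        intro i
        have h1 := hr1 i
        rw [Int.abs_eq_natAbs] at h1
        omega) p (by
        intro ω
        obtain ⟨p', hp', he⟩ := hp ω
        rw [he]
        exact Finset.mem_image_of_mem _ hp')
    refine rel_of_approx q hq N G0 hG0q _ C1 (2 ^ k * η') hη' _ ?_
    refine le_trans (le_of_eq ?_) hC2
    rw [hs]
  obtain ⟨d, hd1, c1, _, hc2⟩ := hsml R (fun r E => Rel N G0 (List.ofFn fun i => r i * s i) E) (2 ^ k * (E3 + 2 * P * Mh))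
    (P * Mh) (fun r hr => (hR1 r hr).1) hR2 hrel (fun r E E' hE hr => rel_mono hr hE) (by
      intro r i x y E hx hy h1 h2
      refine rel_upd k N G0 hG0n s r i x y E (P * Mh) ?_ h1 h2
      rw [Int.abs_eq_natAbs] at hx
      rw [Int.natAbs_mul]
      exact Nat.mul_le_mul (by omega) (hsM i))
  have hfin := hC (List.ofFn fun i => d i * s i) (by rw [List.length_ofFn]) (by
    intro a ha
    rw [List.mem_ofFn] at ha
    obtain ⟨i, rfl⟩ := ha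
    obtain ⟨h1, h2⟩ := hd1 i
    refine ⟨mul_ne_zero (by omega) (hs0 i), ?_⟩
    rw [Int.natAbs_mul]
    exact Nat.mul_le_mul (by omega) (hsM i)) N G0 _ c1 hG0q hc2
  rw [hG0] at hfin
  exact hfin

theorem fin (k q : ℕ) (hq : 1 ≤ q) (h : Fin (k + 1) → ℕ) (hh : ∀ i, i ≠ 0 → h i ≠ h 0) : ∃ δ : ℝ, 0 < δ ∧
    ∀ f : ℕ → ℂ, OB f → CondNN f → (∀ n, ∃ r : ℝ, 0 ≤ r ∧ f n ^ q = r) → ∃ N₀ : ℕ, ∀ N : ℕ, N₀ ≤ N →
      ∀ g : Fin (k + 1) → ℕ → ℂ, (∀ i, OB (g i)) → g 0 = f → ‖∑ n ∈ Icc 1 N, ∏ i, g i (n + h i)‖ ≤ (1 - δ) * N := by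
  classical
  obtain ⟨c, P1, hc, hP1, hpos⟩ := pos k
  obtain ⟨D, P1', hD, hsml⟩ := sml k c hc
  obtain ⟨Mh, hMh⟩ : ∃ Mh : ℕ, Mh = ∑ i, h i + 1 := ⟨_, rfl⟩
  have hMi : ∀ i, h i ≤ Mh := by
    intro i
    have := Finset.single_le_sum (f := h) (fun _ _ => Nat.zero_le _) (Finset.mem_univ i)
    omega
  have hMh1 : 1 ≤ Mh := by omega
  obtain ⟨C, hC⟩ := ord q (D * Mh) hq k
  obtain ⟨ρ, hρ, hctr⟩ := ctr ((q * (D * Mh).factorial) ^ k) (Nat.one_le_iff_ne_zero.2 (by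
    have h1 := Nat.factorial_pos (D * Mh)
    positivity))
  have hq0 : (0 : ℝ) < q := by exact_mod_cast hq
  have hk3 : (0 : ℝ) < (k : ℝ) + 3 := by positivity
  obtain ⟨η, hη⟩ : ∃ η : ℝ, η = 1 / (8 * q * 2 ^ k * (k + 3)) := ⟨_, rfl⟩
  have hη0 : 0 < η := by rw [hη]; positivity
  have hηk : ((k : ℝ) + 3) * η = 1 / (8 * q * 2 ^ k) := by
    rw [hη]
    field_simp
  have h2k : (1 : ℝ) ≤ 2 ^ k := one_le_pow₀ (by norm_num)
  have hq1 : (1 : ℝ) ≤ q := by exact_mod_cast hq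
  have hηk1 : ((k : ℝ) + 3) * η ≤ 1 := by
    rw [hηk, div_le_one (by positivity)]
    nlinarith
  have hη1 : η ≤ 1 := by
    have : (0 : ℝ) ≤ k := Nat.cast_nonneg k
    nlinarith
  have hηq : 2 * (2 ^ k * (((k : ℝ) + 3) * η)) < 1 / q := by
    rw [hηk]
    have h1 : 2 * (2 ^ k * (1 / (8 * (q : ℝ) * 2 ^ k))) = 1 / q / 4 := by
      field_simp
      norm_num
    rw [h1]
    have h2 : (0 : ℝ) < 1 / q := by positivity
    linarith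
  obtain ⟨α, hα⟩ : ∃ α : ℝ, α = 4 ^ k * ((k : ℝ) + 3) := ⟨_, rfl⟩
  have hα1 : 1 ≤ α := by
    rw [hα]
    have h1 : (1 : ℝ) ≤ 4 ^ k := one_le_pow₀ (by norm_num)
    have h2 : (0 : ℝ) ≤ k := Nat.cast_nonneg k
    nlinarith
  have hC0 : (0 : ℝ) ≤ C := Nat.cast_nonneg C
  have hCα : 1 ≤ ((C : ℝ) + 1) * α := by nlinarith
  obtain ⟨ε, hε⟩ : ∃ ε : ℝ, ε = min 1 (ρ / (2 * (((C : ℝ) + 1) * α))) := ⟨_, rfl⟩
  have hε0 : 0 < ε := by
    rw [hε]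
    exact lt_min one_pos (by positivity)
  have hε1 : ε ≤ 1 := by
    rw [hε]
    exact min_le_left _ _
  have hερ : ((C : ℝ) + 1) * α * ε ≤ ρ / 2 := by
    have h1 : ε ≤ ρ / (2 * (((C : ℝ) + 1) * α)) := by
      rw [hε]
      exact min_le_right _ _
    rw [le_div_iff₀ (by positivity)] at h1
    linarith
  obtain ⟨Pmax, N0, δ₀, hδ₀, hedc⟩ := edc k h ε η hε0 hε1 hη0 (max P1 (max P1' 1))
  refine ⟨min δ₀ ε * η ^ 2 / 8, by positivity, ?_⟩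
  intro f hf hN hr
  obtain ⟨N1, hN1⟩ := hctr f hf hN
  obtain ⟨β, hβ⟩ : ∃ β : ℝ, β = 4 ^ k * (2 * ((k : ℝ) + 2) * Pmax * Mh) + 2 ^ k * (Pmax * Mh) := ⟨_, rfl⟩
  obtain ⟨N2, hN2⟩ : ∃ N2 : ℕ, N2 = ⌈(C * (β + 1) + Mh) / (ρ / 2)⌉₊ := ⟨_, rfl⟩
  refine ⟨N0 + N1 + N2 + 1, fun N hNN g hg hg0 => ?_⟩
  by_contra hcon
  rw [not_le] at hcon
  have hNpos : (0 : ℝ) < N := by
    have : 0 < N := by omega
    exact_mod_cast this
  have hβ0 : 0 ≤ β := by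
    rw [hβ]
    positivity
  have hNβ : C * (β + 1) + Mh ≤ ρ / 2 * N := by
    have h1 : (C * (β + 1) + Mh) / (ρ / 2) ≤ N := by
      refine (Nat.le_ceil _).trans ?_
      rw [← hN2]
      exact_mod_cast (by omega : N2 ≤ N)
    rw [div_le_iff₀ (by positivity)] at h1
    linarith
  have hgn : ∀ i n, ‖g i n‖ ≤ 1 := fun i n => (hg i).bd n
  obtain ⟨ζ, hζ, hstr⟩ := str N (fun n => ∏ i, g i (n + h i)) (by
    intro n
    rw [norm_prod]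
    exact Finset.prod_le_one (fun _ _ => norm_nonneg _) (fun i _ => hgn i _)) (min δ₀ ε * η ^ 2 / 8) η hη0 hcon
  have h8 : 8 * (min δ₀ ε * η ^ 2 / 8) / η ^ 2 = min δ₀ ε := by
    field_simp
  rw [h8] at hstr
  obtain ⟨E1, hE1⟩ : ∃ E1 : ℕ, E1 = ((Icc 1 N).filter (fun n => η / 2 < ‖∏ i, g i (n + h i) - ζ‖)).card := ⟨_, rfl⟩
  rw [← hE1] at hstr
  have hE1ε : (E1 : ℝ) ≤ ε * N := hstr.trans (mul_le_mul_of_nonneg_right (min_le_right _ _) hNpos.le)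
  obtain ⟨P, cc, hPP, hP1', hPmax, hsum⟩ := hedc N g ζ (by omega) hg (by
    rw [← hE1]
    exact hstr.trans (mul_le_mul_of_nonneg_right (min_le_left _ _) hNpos.le))
  have hPP1 : P1 ≤ P := le_trans (le_max_left _ _) hPP
  have hPP2 : P1' ≤ P := le_trans (le_trans (le_max_left _ _) (le_max_right _ _)) hPP
  obtain ⟨cnt, hcnt⟩ : ∃ cnt : ℕ → ℕ, cnt = fun p => ((Icc 1 N).filter (fun n => η < ‖∏ i, g i (n + p * h i) - cc p‖)).card := ⟨_, rfl⟩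
  obtain ⟨𝒢, h𝒢⟩ : ∃ 𝒢 : Finset ℕ, 𝒢 = (PP P).filter (fun p => (cnt p : ℝ) ≤ 2 * ε * N) := ⟨_, rfl⟩
  have hsub : 𝒢 ⊆ PP P := by
    rw [h𝒢]
    exact Finset.filter_subset _ _
  have hcard : (PP P).card ≤ 2 * 𝒢.card := by
    have h1 := Finset.card_filter_add_card_filter_not (s := PP P) (fun p => (cnt p : ℝ) ≤ 2 * ε * N)
    rw [← h𝒢] at h1
    have h2 : (((PP P).filter (fun p => ¬ (cnt p : ℝ) ≤ 2 * ε * N)).card : ℝ) * (2 * ε * N) ≤ ε * (PP P).card * N := by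
      refine le_trans ?_ hsum
      rw [← nsmul_eq_mul, ← Finset.sum_const]
      refine le_trans (Finset.sum_le_sum (g := fun p => (cnt p : ℝ)) fun p hp => ?_) ?_
      · exact (not_le.1 (Finset.mem_filter.1 hp).2).le
      · rw [hcnt]
        exact Finset.sum_le_sum_of_subset_of_nonneg (Finset.filter_subset _ _) (fun _ _ _ => Nat.cast_nonneg _)
    have h3 : 2 * (((PP P).filter (fun p => ¬ (cnt p : ℝ) ≤ 2 * ε * N)).card : ℝ) ≤ (PP P).card := by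
      have h4 : 0 < ε * N := by positivity
      have h5 : 2 * (((PP P).filter (fun p => ¬ (cnt p : ℝ) ≤ 2 * ε * N)).card : ℝ) * (ε * N) ≤ (PP P).card * (ε * N) := by
        linarith
      exact le_of_mul_le_mul_right h5 h4
    have h4 : 2 * ((PP P).filter (fun p => ¬ (cnt p : ℝ) ≤ 2 * ε * N)).card ≤ (PP P).card := by exact_mod_cast h3
    omega
  obtain ⟨R, hR1, hR2⟩ := hpos P 𝒢 hPP1 hsub hcard
  obtain ⟨E3, hE3⟩ : ∃ E3 : ℕ, E3 = ⌊2 * ε * N⌋₊ + (k + 1) * (E1 + 2 * Pmax * Mh) := ⟨_, rfl⟩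
  have key : ∀ p : ℕ, ∃ c' : ℂ, p ∈ 𝒢 → ‖c'‖ = 1 ∧
      ex N (fun n => ‖∏ i, dir (g i (n + (p : ℤ) * h i).toNat) - c'‖ ≤ (k + 3) * η) ≤ E3 := by
    intro p
    by_cases hp : p ∈ 𝒢
    · have hp1 := hp
      rw [h𝒢, Finset.mem_filter] at hp1
      have hp2 := hp1.1
      unfold PP at hp2
      rw [Finset.mem_filter, Finset.mem_Ioc] at hp2
      obtain ⟨c', h1, h2⟩ := drl k N h g hgn ζ hζ η hη0 hηk1 p hp2.2.one_lt.le (cc p) E1 (cnt p) Mh hMi (by rw [hE1])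
        (by rw [hcnt])
      refine ⟨c', fun _ => ⟨h1, h2.trans ?_⟩⟩
      rw [hE3]
      have h3 : cnt p ≤ ⌊2 * ε * N⌋₊ := Nat.le_floor hp1.2
      have h4 : p * Mh ≤ 2 * Pmax * Mh := Nat.mul_le_mul_right _ (by omega)
      have h5 : (k + 1) * (E1 + p * Mh) ≤ (k + 1) * (E1 + 2 * Pmax * Mh) := Nat.mul_le_mul_left _ (by omega)
      omega
    · exact ⟨1, fun h => absurd h hp⟩
  choose c' hc' using key
  have hmain := fin_core k q N hq h hh Mh hMi D C P c hC (hsml P hPP2 hP1') g (by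
    intro n
    rw [hg0]
    obtain ⟨r, hr1, hr2⟩ := hr n
    exact dir_pow q _ r hr1 hr2) 𝒢 hsub c' (fun p hp => (hc' p hp).1) _ hηq E3 (fun p hp => (hc' p hp).2) R hR1 hR2
  have hsiz := siz k N h g hgn ζ hζ η hη0 hη1 E1 Mh hMi (by rw [hE1])
  rw [hg0] at hmain hsiz
  have hPR : (P : ℝ) ≤ Pmax := by exact_mod_cast hPmax
  refine hN1 N (by omega) ?_ ?_
  · refine le_trans (b := (ex N (fun n => dir (f (n + (((q * (D * Mh).factorial) ^ k : ℕ) : ℤ)).toNat) = dir (f n.toNat)) : ℝ)) ?_ ?_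
    · exact_mod_cast ex_mono (fun n _ _ hn => by rw [hn, sub_self, norm_zero]; exact hρ.le)
    have h1 : (E3 : ℝ) ≤ ((k : ℝ) + 3) * (ε * N) + 2 * (k + 1) * Pmax * Mh := by
      rw [hE3]
      push_cast
      have h2 : (⌊2 * ε * N⌋₊ : ℝ) ≤ 2 * ε * N := Nat.floor_le (by positivity)
      have h3 : ((k : ℝ) + 1) * E1 ≤ (k + 1) * (ε * N) := mul_le_mul_of_nonneg_left hE1ε (by positivity)
      nlinarith
    have hPM : (P : ℝ) * Mh ≤ Pmax * Mh := mul_le_mul_of_nonneg_right hPR (Nat.cast_nonneg _)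
    have h44 : (4 : ℝ) ^ k = 2 ^ k * 2 ^ k := by
      rw [← mul_pow]
      norm_num
    have h2 : (2 : ℝ) ^ k * (2 ^ k * ((E3 : ℝ) + 2 * P * Mh) + P * Mh) ≤ α * (ε * N) + β := by
      have h3 : (E3 : ℝ) + 2 * P * Mh ≤ ((k : ℝ) + 3) * (ε * N) + 2 * (k + 2) * Pmax * Mh := by
        linarith
      have h4 : (2 : ℝ) ^ k * (2 ^ k * ((E3 : ℝ) + 2 * P * Mh)) ≤
          2 ^ k * (2 ^ k * (((k : ℝ) + 3) * (ε * N) + 2 * (k + 2) * Pmax * Mh)) :=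
        mul_le_mul_of_nonneg_left (mul_le_mul_of_nonneg_left h3 (by positivity)) (by positivity)
      have h5 : (2 : ℝ) ^ k * (P * Mh) ≤ 2 ^ k * (Pmax * Mh) := mul_le_mul_of_nonneg_left hPM (by positivity)
      calc (2 : ℝ) ^ k * (2 ^ k * ((E3 : ℝ) + 2 * P * Mh) + P * Mh)
          = 2 ^ k * (2 ^ k * ((E3 : ℝ) + 2 * P * Mh)) + 2 ^ k * (P * Mh) := by ring
        _ ≤ 2 ^ k * (2 ^ k * (((k : ℝ) + 3) * (ε * N) + 2 * (k + 2) * Pmax * Mh)) + 2 ^ k * (Pmax * Mh) := add_le_add h4 h5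
        _ = α * (ε * N) + β := by
          rw [hα, hβ, h44]
          ring
    have h3 : (ex N (fun n => dir (f (n + (((q * (D * Mh).factorial) ^ k : ℕ) : ℤ)).toNat) = dir (f n.toNat)) : ℝ) ≤
        C * (2 ^ k * (2 ^ k * ((E3 : ℝ) + 2 * P * Mh) + P * Mh) + 1) := by exact_mod_cast hmain
    refine h3.trans ?_
    calc (C : ℝ) * (2 ^ k * (2 ^ k * ((E3 : ℝ) + 2 * P * Mh) + P * Mh) + 1) ≤ C * ((α * (ε * N) + β) + 1) :=
          mul_le_mul_of_nonneg_left (by linarith) hC0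
      _ = C * α * ε * N + C * (β + 1) := by ring
      _ ≤ (C + 1) * α * ε * N + C * (β + 1) := by
          have : 0 ≤ α * ε * N := by positivity
          nlinarith
      _ ≤ ρ / 2 * N + (C * (β + 1) + Mh) := by
          have h6 : ((C : ℝ) + 1) * α * ε * N ≤ ρ / 2 * N := mul_le_mul_of_nonneg_right hερ hNpos.le
          have h7 : (0 : ℝ) ≤ Mh := Nat.cast_nonneg _
          linarith
      _ ≤ ρ / 2 * N + ρ / 2 * N := by linarith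
      _ = ρ * N := by ring
  · have h3 : (ex N (fun n => 1 / 2 ≤ ‖f n.toNat‖) : ℝ) ≤ (E1 : ℝ) + Mh := by exact_mod_cast hsiz
    refine h3.trans ?_
    have h4 : ε ≤ ρ / 2 := by
      refine le_trans ?_ hερ
      nlinarith
    have h5 : ε * N ≤ ρ / 2 * N := mul_le_mul_of_nonneg_right h4 hNpos.le
    have h6 : 0 ≤ C * (β + 1) := by positivity
    linarith

end Pool.H2.WE
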