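import Pool.Agent.H2.WE.Fin
import Pool.Agent.H2.WE.Fi1

/-!
# [H2 WE RES] The weak Elliott conjecture

The first function `f` satisfies condition (N) and either `k = 1` or all `f n ^ q` are nonnegative real numbers.

PROOF. Let `T = ∑ |h i|`, `h' i = (h i + T).toNat`, `δ'` from `fin` (and the minimum with that of `fi1` if `k = 1`), `δ = δ'/2`. For `N ≥ N₀`: `∑_{n≤N} f((n + h 0).toNat) ∏ g i ((n + h i.succ).toNat)`: the terms `n ≤ T` contribute at most `T`, the others are `∑_{m≤N-T} ∏ (m + h' i)` (`n = m + T`), bounded by `(1 - δ')(N - T)`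
(`fin`/`fi1` with the family `Fin.cons f g`, `Fin.prod_univ_succ`). Total `≤ T + (1 - δ') N ≤ (1 - δ) N` if `N ≥ 2T/δ'` and `N - T ≥ N₀'`. `OB` from `ArithmeticFunction.IsMultiplicative` (`map_one`, `map_mul_of_coprime`). For `k = 1` do `subst`/`obtain rfl` first.
-/

namespace Pool.H2.WE

open Finset Pool.H2.MR

theorem res_shift (k : ℕ) (h : Fin (k + 1) → ℤ) (T : ℕ) (hT : ∀ i, |h i| ≤ T) (δ : ℝ) (_hδ0 : 0 < δ) (hδ1 : δ ≤ 1)
    (G : Fin (k + 1) → ℕ → ℂ) (hbd : ∀ i n, ‖G i n‖ ≤ 1) (N : ℕ) (hTN : T ≤ N) (hN : 2 * (T : ℝ) ≤ δ * N)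
    (hG : ‖∑ n ∈ Icc 1 (N - T), ∏ i, G i (n + (h i + T).toNat)‖ ≤ (1 - δ) * ((N - T : ℕ) : ℝ)) :
    ‖(1 / (N : ℂ)) * ∑ n ∈ Icc 1 N, ∏ i, G i ((n : ℤ) + h i).toNat‖ ≤ 1 - δ / 2 := by
  have h1 : ∑ n ∈ Icc 1 N, ∏ i, G i ((n : ℤ) + h i).toNat = ∑ n ∈ Icc 1 T, ∏ i, G i ((n : ℤ) + h i).toNat +
      ∑ n ∈ Icc 1 (N - T), ∏ i, G i (n + (h i + T).toNat) := by
    have h2 : ∑ n ∈ Icc 1 (N - T), ∏ i, G i (n + (h i + T).toNat) =
        ∑ n ∈ Icc (T + 1) N, ∏ i, G i ((n : ℤ) + h i).toNat := by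
      refine Finset.sum_bij (fun n _ => n + T) ?_ ?_ ?_ ?_
      · intro n hn
        rw [Finset.mem_Icc] at hn ⊢
        omega
      · intro a _ b _ hab
        exact Nat.add_right_cancel hab
      · intro b hb
        rw [Finset.mem_Icc] at hb
        exact ⟨b - T, Finset.mem_Icc.2 (by omega), by omega⟩
      · intro n hn
        refine Finset.prod_congr rfl fun i _ => ?_
        congr 1
        have h3 := abs_le.1 (hT i)
        push_cast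
        omega
    rw [h2, ← Finset.sum_union]
    · refine Finset.sum_congr ?_ fun _ _ => rfl
      ext n
      simp only [Finset.mem_union, Finset.mem_Icc]
      omega
    · rw [Finset.disjoint_left]
      intro n hn hn'
      rw [Finset.mem_Icc] at hn hn'
      omega
  have h2 : ‖∑ n ∈ Icc 1 T, ∏ i, G i ((n : ℤ) + h i).toNat‖ ≤ T := by
    refine (norm_sum_le _ _).trans ?_
    have h3 : ∀ n ∈ Icc 1 T, ‖∏ i, G i ((n : ℤ) + h i).toNat‖ ≤ 1 := by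
      intro n _
      rw [norm_prod]
      exact Finset.prod_le_one (fun i _ => norm_nonneg _) fun i _ => hbd i _
    refine (Finset.sum_le_sum h3).trans ?_
    rw [Finset.sum_const, Nat.card_Icc, nsmul_eq_mul, mul_one, Nat.add_sub_cancel]
  have h3 : ‖∑ n ∈ Icc 1 N, ∏ i, G i ((n : ℤ) + h i).toNat‖ ≤ (1 - δ / 2) * N := by
    rw [h1]
    refine (norm_add_le _ _).trans ?_
    have h4 : ((N - T : ℕ) : ℝ) ≤ N := by exact_mod_cast Nat.sub_le N T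
    have h5 : (1 - δ) * ((N - T : ℕ) : ℝ) ≤ (1 - δ) * N := mul_le_mul_of_nonneg_left h4 (by linarith)
    linarith
  rw [norm_mul, norm_div, norm_one, Complex.norm_natCast]
  rcases Nat.eq_zero_or_pos N with h0 | h0
  · rw [h0, Nat.cast_zero, div_zero, zero_mul]
    linarith
  · have h4 : (0 : ℝ) < N := by exact_mod_cast h0
    rw [one_div, inv_mul_le_iff₀ h4]
    linarith

theorem res (k q : ℕ) (hq : 1 ≤ q) (h : Fin (k + 1) → ℤ) (hh : ∀ i, i ≠ 0 → h i ≠ h 0) : ∃ δ : ℝ, 0 < δ ∧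
    ∀ f : ArithmeticFunction ℂ, f.IsMultiplicative → (∀ n, ‖f n‖ ≤ 1) →
      (∀ (q : ℕ) (χ : DirichletCharacter ℂ q), 0 < q → ∀ M : ℝ, ∃ X₀ : ℝ, ∀ X : ℝ, X₀ ≤ X → ∀ t : ℝ, |t| ≤ X →
        M ≤ ∑ p ∈ Finset.filter Nat.Prime (Finset.Iic ⌊X⌋₊),
          (1 - (f p * starRingEnd ℂ (χ (p : ZMod q) * (p : ℂ) ^ (Complex.I * (t : ℂ)))).re) / (p : ℝ)) →
      (k = 1 ∨ ∀ n, ∃ r : ℝ, 0 ≤ r ∧ f n ^ q = r) →
      ∃ N₀ : ℕ, ∀ N : ℕ, N₀ ≤ N → ∀ g : Fin k → ArithmeticFunction ℂ, (∀ i, (g i).IsMultiplicative) → (∀ i n, ‖g i n‖ ≤ 1) →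
        ‖(1 / (N : ℂ)) * ∑ n ∈ Icc 1 N, f ((n : ℤ) + h 0).toNat * ∏ i : Fin k, g i ((n : ℤ) + h i.succ).toNat‖ ≤ 1 - δ := by
  classical
  obtain ⟨T, hTdef⟩ : ∃ T : ℕ, T = ∑ i, (h i).natAbs := ⟨_, rfl⟩
  have hT : ∀ i, |h i| ≤ T := by
    intro i
    have h1 : (h i).natAbs ≤ T := by
      rw [hTdef]
      exact Finset.single_le_sum (f := fun i => (h i).natAbs) (fun _ _ => Nat.zero_le _) (Finset.mem_univ i)
    rw [Int.abs_eq_natAbs]
    exact_mod_cast h1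
  have hh' : ∀ i, i ≠ 0 → (h i + T).toNat ≠ (h 0 + T).toNat := by
    intro i hi h1
    apply hh i hi
    have h2 := abs_le.1 (hT i)
    have h3 := abs_le.1 (hT 0)
    omega
  obtain ⟨δ₁, hδ₁, H₁⟩ := fin k q hq (fun i => (h i + T).toNat) hh'
  obtain ⟨δ₂, hδ₂, H₂⟩ : ∃ δ : ℝ, 0 < δ ∧ ∀ f : ℕ → ℂ, OB f → CondNN f → k = 1 → ∃ N₀ : ℕ, ∀ N : ℕ, N₀ ≤ N →
      ∀ g : Fin (k + 1) → ℕ → ℂ, (∀ i, OB (g i)) → g 0 = f →
        ‖∑ n ∈ Icc 1 N, ∏ i, g i (n + (h i + T).toNat)‖ ≤ (1 - δ) * N := by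
    by_cases hk : k = 1
    · subst hk
      obtain ⟨δ, hδ, H⟩ := fi1 (fun i => (h i + T).toNat) (hh' 1 (by decide))
      exact ⟨δ, hδ, fun f hf hc _ => H f hf hc⟩
    · exact ⟨1, one_pos, fun f _ _ hk' => absurd hk' hk⟩
  set δ : ℝ := min (min δ₁ δ₂) 1 with hδ
  have hδ0 : 0 < δ := lt_min (lt_min hδ₁ hδ₂) one_pos
  have hδ1 : δ ≤ 1 := min_le_right _ _
  have hδa : δ ≤ δ₁ := (min_le_left _ _).trans (min_le_left _ _)
  have hδb : δ ≤ δ₂ := (min_le_left _ _).trans (min_le_right _ _)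
  refine ⟨δ / 2, by positivity, ?_⟩
  intro f hf hbd hN hcase
  have hOB : OB (fun n => f n) := ⟨hf.map_one, fun m n hmn => hf.map_mul_of_coprime hmn, hbd⟩
  have hC : CondNN (fun n => f n) := hN
  obtain ⟨N₀, hN₀⟩ : ∃ N₀ : ℕ, ∀ N : ℕ, N₀ ≤ N → ∀ g : Fin (k + 1) → ℕ → ℂ, (∀ i, OB (g i)) → g 0 = (fun n => f n) →
      ‖∑ n ∈ Icc 1 N, ∏ i, g i (n + (h i + T).toNat)‖ ≤ (1 - δ) * N := by
    rcases hcase with hk | hr
    · obtain ⟨N₀, hN₀⟩ := H₂ (fun n => f n) hOB hC hk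
      refine ⟨N₀, fun N hN g hg hg0 => (hN₀ N hN g hg hg0).trans ?_⟩
      apply mul_le_mul_of_nonneg_right _ (Nat.cast_nonneg N)
      linarith
    · obtain ⟨N₀, hN₀⟩ := H₁ (fun n => f n) hOB hC hr
      refine ⟨N₀, fun N hN g hg hg0 => (hN₀ N hN g hg hg0).trans ?_⟩
      apply mul_le_mul_of_nonneg_right _ (Nat.cast_nonneg N)
      linarith
  obtain ⟨N₁, hN₁⟩ := exists_nat_ge (2 * (T : ℝ) / δ)
  refine ⟨max (N₀ + T) N₁, ?_⟩
  intro N hNN g hg hgbd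
  have hN1 : N₀ + T ≤ N := (le_max_left _ _).trans hNN
  have hN2 : (N₁ : ℝ) ≤ N := by exact_mod_cast (le_max_right _ _).trans hNN
  have hG : ∀ i, OB ((Fin.cons (fun n => f n) (fun i n => g i n) : Fin (k + 1) → ℕ → ℂ) i) := by
    intro i
    refine Fin.cases ?_ (fun j => ?_) i
    · exact hOB
    · rw [Fin.cons_succ]
      exact ⟨(hg j).map_one, fun m n hmn => (hg j).map_mul_of_coprime hmn, hgbd j⟩
  have h1 := res_shift k h T hT δ hδ0 hδ1 (Fin.cons (fun n => f n) (fun i n => g i n)) (fun i n => (hG i).bd n) N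
    (by omega) (by
      have h2 := hN₁.trans hN2
      rw [div_le_iff₀ hδ0] at h2
      linarith) (hN₀ (N - T) (by omega) _ hG rfl)
  simp only [Fin.prod_univ_succ, Fin.cons_zero, Fin.cons_succ] at h1
  exact h1

end Pool.H2.WE
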