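import Pool.Agent.H2.WE.Defs

/-!
# [H2 WE CUB] Lower bound for the number of cubes

`cb A k P` = the pairs `(x, r)`, `x ∈ A`, `r ∈ [-P, P]^k`, with all `x + ∑_{i∈ω} r i ∈ A`. Claim: `|A|^(2^k) ≤ 3^(2^k) #cb P^(2^k - k - 1)` for `A ⊂ (P, 2P]`.

PROOF (induction on `k`, for all `A`). `k = 0`: `cb A 0 P` is in bijection with `A` (`cs r ∅ = 0`), `2^0 - 0 - 1 = 0`: `|A| ≤ 3|A|`. Step: for `s ∈ [-P, P]` let `A_s = {a ∈ A : a + s ∈ A}`. `(x, r) ∈ cb A (k+1) P` with
`r = cons s r'` iff `(x, r') ∈ cb A_s k P` (subsets `ω` of `Fin (k+1)` without `0`, resp. with `0`; `Fin.cons`, `Finset.map Fin.succEmb`), so `#cb A (k+1) P = ∑_s #cb A_s k P`. `∑_{|s|≤P} |A_s| = |A|²` (all differences of elements of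
`A` are `< P` in absolute value). By induction and the power mean inequality (`inner_le_nnorm_mul_nnorm` / `inner_mul_le_norm_mul_norm` / `Finset.inner_mul_le_norm_mul_norm`, best: `Real.pow_sum_div_card_le_sum_pow` or `pow_sum_div_card_le_sum_pow`), with `M = 2^k`:
`|A|^(2M) = (∑_s |A_s|)^M ≤ (2P+1)^(M-1) ∑_s |A_s|^M ≤ (3P)^(M-1) 3^M P^(M-k-1) ∑_s #cb A_s k P`, and `3^(M-1) 3^M ≤ 3^(2M)`, `(M-1) + (M-k-1) = 2M - (k+1) - 1` (`M ≥ k + 1`).
-/

namespace Pool.H2.WE

open Finset

/-- `[-P, P]^k` -/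
noncomputable def box (k P : ℕ) : Finset (Fin k → ℤ) := Fintype.piFinset (fun _ => Icc (-(P : ℤ)) P)

/-- the cubes of dimension `k` in `A` -/
noncomputable def cb (A : Finset ℤ) (k P : ℕ) : Finset (ℤ × (Fin k → ℤ)) := (A ×ˢ box k P).filter (fun v => ∀ ω, v.1 + cs v.2 ω ∈ A)

private theorem cub_cs_cons_map {k : ℕ} (s : ℤ) (r : Fin k → ℤ) (ω : Finset (Fin k)) :
    cs (Fin.cons s r : Fin (k + 1) → ℤ) (ω.map (Fin.succEmb k)) = cs r ω := by
  unfold cs
  rw [Finset.sum_map]
  simp

private theorem cub_cs_cons_insert {k : ℕ} (s : ℤ) (r : Fin k → ℤ) (ω : Finset (Fin k)) :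
    cs (Fin.cons s r : Fin (k + 1) → ℤ) (insert 0 (ω.map (Fin.succEmb k))) = s + cs r ω := by
  unfold cs
  rw [Finset.sum_insert]
  · rw [Finset.sum_map]
    simp
  · simp [Fin.succ_ne_zero]

/-- every subset of `Fin (k+1)` is of one of the two forms -/
private theorem cub_form {k : ℕ} (ω : Finset (Fin (k + 1))) : ∃ ω' : Finset (Fin k),
    ω = ω'.map (Fin.succEmb k) ∨ ω = insert 0 (ω'.map (Fin.succEmb k)) := by
  classical
  refine ⟨univ.filter (fun i => i.succ ∈ ω), ?_⟩
  by_cases h0 : (0 : Fin (k + 1)) ∈ ω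
  · right
    ext i
    rw [mem_insert, mem_map]
    constructor
    · intro hi
      rcases Fin.eq_zero_or_eq_succ i with h | ⟨j, rfl⟩
      · exact Or.inl h
      · exact Or.inr ⟨j, by rw [mem_filter]; exact ⟨mem_univ _, hi⟩, rfl⟩
    · rintro (rfl | ⟨j, hj, rfl⟩)
      · exact h0
      · exact (mem_filter.1 hj).2
  · left
    ext i
    rw [mem_map]
    constructor
    · intro hi
      rcases Fin.eq_zero_or_eq_succ i with h | ⟨j, rfl⟩
      · exact absurd (h ▸ hi) h0
      · exact ⟨j, by rw [mem_filter]; exact ⟨mem_univ _, hi⟩, rfl⟩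
    · rintro ⟨j, hj, rfl⟩
      exact (mem_filter.1 hj).2

private theorem cub_step (k P : ℕ) (A : Finset ℤ) :
    ∑ s ∈ Icc (-(P : ℤ)) P, (cb (A.filter (fun a => a + s ∈ A)) k P).card ≤ (cb A (k + 1) P).card := by
  classical
  rw [← card_sigma]
  apply card_le_card_of_injOn
    (fun p : (Σ _ : ℤ, ℤ × (Fin k → ℤ)) => (p.2.1, (Fin.cons p.1 p.2.2 : Fin (k + 1) → ℤ)))
  · rintro ⟨s, x, r⟩ hp
    rw [mem_coe, mem_sigma] at hp
    obtain ⟨hs, hp⟩ := hp
    simp only at hs hp
    rw [cb, mem_filter, mem_product] at hp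
    obtain ⟨⟨hx, hr⟩, hω⟩ := hp
    simp only at hx hr hω
    rw [mem_coe, cb, mem_filter, mem_product]
    refine ⟨⟨(mem_filter.1 hx).1, ?_⟩, ?_⟩
    · rw [box, Fintype.mem_piFinset] at hr ⊢
      intro i
      refine Fin.cases ?_ (fun j => ?_) i
      · exact hs
      · simp only [Fin.cons_succ]
        exact hr j
    · intro ω
      obtain ⟨ω', h | h⟩ := cub_form ω
      · simp only
        rw [h, cub_cs_cons_map]
        exact (mem_filter.1 (hω ω')).1
      · simp only
        rw [h, cub_cs_cons_insert]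
        have h2 := (mem_filter.1 (hω ω')).2
        have e : x + (s + cs r ω') = x + cs r ω' + s := by ring
        rw [e]
        exact h2
  · rintro ⟨s, x, r⟩ _ ⟨s', x', r'⟩ _ h
    simp only [Prod.mk.injEq] at h
    obtain ⟨h1, h2⟩ := h
    have e0 : s = s' := by
      have := congrFun h2 0
      simpa using this
    have e1 : r = r' := by
      funext i
      have := congrFun h2 i.succ
      simpa using this
    subst h1 e0 e1
    rfl

private theorem cub_sq (P : ℕ) (A : Finset ℤ) (hA : ∀ a ∈ A, (P : ℤ) < a ∧ a ≤ 2 * P) :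
    A.card * A.card ≤ ∑ s ∈ Icc (-(P : ℤ)) P, (A.filter (fun a => a + s ∈ A)).card := by
  classical
  rw [← card_product, ← card_sigma]
  apply card_le_card_of_injOn (fun p : ℤ × ℤ => (⟨p.2 - p.1, p.1⟩ : Σ _ : ℤ, ℤ))
  · rintro ⟨a, b⟩ hp
    rw [mem_coe, mem_product] at hp
    rw [mem_coe, mem_sigma]
    obtain ⟨ha, hb⟩ := hp
    simp only at ha hb ⊢
    have h1 := hA a ha
    have h2 := hA b hb
    refine ⟨?_, ?_⟩
    · rw [mem_Icc]
      constructor <;> linarith
    · rw [mem_filter]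
      refine ⟨ha, ?_⟩
      rw [add_sub_cancel]
      exact hb
  · rintro ⟨a, b⟩ _ ⟨a', b'⟩ _ h
    simp only [Sigma.mk.injEq, heq_eq_eq] at h
    obtain ⟨h1, h2⟩ := h
    subst h2
    rw [Prod.mk.injEq]
    exact ⟨rfl, by linarith⟩

theorem cub (k P : ℕ) (hP : 1 ≤ P) (A : Finset ℤ) (hA : ∀ a ∈ A, (P : ℤ) < a ∧ a ≤ 2 * P) :
    A.card ^ (2 ^ k) ≤ 3 ^ (2 ^ k) * (cb A k P).card * P ^ (2 ^ k - k - 1) := by
  classical
  induction k generalizing A with
  | zero =>
    have h1 : A.card ≤ (cb A 0 P).card := by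
      apply card_le_card_of_injOn (fun a => (a, (fun i : Fin 0 => (0 : ℤ))))
      · intro a ha
        rw [mem_coe] at ha ⊢
        rw [cb, mem_filter, mem_product]
        refine ⟨⟨ha, ?_⟩, ?_⟩
        · rw [box, Fintype.mem_piFinset]
          intro i
          exact i.elim0
        · intro ω
          have : cs (fun i : Fin 0 => (0 : ℤ)) ω = 0 := by simp [cs]
          simp only [this, add_zero]
          exact ha
      · intro a _ b _ h
        exact (Prod.mk.inj h).1
    simp only [pow_zero, pow_one]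
    have e : 1 - 0 - 1 = 0 := rfl
    rw [e, pow_zero, mul_one]
    omega
  | succ k ih =>
    set M := 2 ^ k with hM
    have hMk : k + 1 ≤ M := Nat.lt_two_pow_self
    have e2 : 2 ^ (k + 1) = 2 * M := by rw [hM, pow_succ]; ring
    set I := Icc (-(P : ℤ)) P with hI
    have hIc : I.card = 2 * P + 1 := by
      rw [hI, Int.card_Icc]
      omega
    have h1 : ∀ s ∈ I, (A.filter (fun a => a + s ∈ A)).card ^ M ≤
        3 ^ M * (cb (A.filter (fun a => a + s ∈ A)) k P).card * P ^ (M - k - 1) := by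
      intro s _
      exact ih (A.filter (fun a => a + s ∈ A)) (fun a ha => hA a (mem_filter.1 ha).1)
    -- power mean
    have h2 : (∑ s ∈ I, (A.filter (fun a => a + s ∈ A)).card) ^ M ≤
        I.card ^ (M - 1) * ∑ s ∈ I, (A.filter (fun a => a + s ∈ A)).card ^ M := by
      have h4 := pow_sum_le_card_mul_sum_pow (s := I)
        (f := fun s => (((A.filter (fun a => a + s ∈ A)).card : ℕ) : ℝ)) (fun _ _ => Nat.cast_nonneg _)
        (M - 1)
      have h5 : M - 1 + 1 = M := by omega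
      rw [h5] at h4
      exact_mod_cast h4
    have h3 : A.card ^ (2 * M) ≤ (∑ s ∈ I, (A.filter (fun a => a + s ∈ A)).card) ^ M := by
      rw [pow_mul]
      apply Nat.pow_le_pow_left
      rw [pow_two]
      exact cub_sq P A hA
    rw [e2]
    calc A.card ^ (2 * M) ≤ (∑ s ∈ I, (A.filter (fun a => a + s ∈ A)).card) ^ M := h3
      _ ≤ I.card ^ (M - 1) * ∑ s ∈ I, (A.filter (fun a => a + s ∈ A)).card ^ M := h2
      _ ≤ (3 * P) ^ (M - 1) * ∑ s ∈ I, (3 ^ M *
          (cb (A.filter (fun a => a + s ∈ A)) k P).card * P ^ (M - k - 1)) := by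
          apply Nat.mul_le_mul
          · apply Nat.pow_le_pow_left
            rw [hIc]
            omega
          · exact sum_le_sum h1
      _ = (3 * P) ^ (M - 1) * (3 ^ M * P ^ (M - k - 1) *
          ∑ s ∈ I, (cb (A.filter (fun a => a + s ∈ A)) k P).card) := by
          congr 1
          rw [mul_sum]
          apply sum_congr rfl
          intro s _
          ring
      _ ≤ (3 * P) ^ (M - 1) * (3 ^ M * P ^ (M - k - 1) * (cb A (k + 1) P).card) := by
          apply Nat.mul_le_mul_left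
          apply Nat.mul_le_mul_left
          exact cub_step k P A
      _ = 3 ^ (M - 1 + M) * (cb A (k + 1) P).card * P ^ (M - 1 + (M - k - 1)) := by
          rw [mul_pow, pow_add, pow_add]
          ring
      _ ≤ 3 ^ (2 * M) * (cb A (k + 1) P).card * P ^ (M - 1 + (M - k - 1)) := by
          apply Nat.mul_le_mul_right
          apply Nat.mul_le_mul_right
          apply Nat.pow_le_pow_right (by norm_num)
          omega
      _ = _ := by
          congr 2
          omega

end Pool.H2.WE
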