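import Pool.Agent.H2.MR.Defs

/-!
# Weak Elliott conjecture (H2/WE): definitions and plan

For `g₀` of finite order type (values in `[0,1] μ_q`) with condition (N) and arbitrary 1-bounded multiplicative `g₁..g_k` the correlations are `≤ 1 - δ(k,h,q)` at all large scales.

* Entropy: `En1`, `En2` (facts), `Gib` (Gibbs variational inequality), `Dec` (one step), `Scl` (scales), `Gds` (a good scale), `Cyc` (conclusion on `ℤ/N`), `Net`, `Edc`
  (entropy decrement at one scale for multiplicative functions).
* Prime cubes: `Cub` (lower bound for cubes), `Ssm` (sieve sums), `Spt` (sieve bound for prime tuples), `Avg` (average of the singular series), `Pos` (positive density).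
* Elimination: `Eli`; small differences: `Rel`, `Sml`; finite order: `Ord`.
* `Dir` (directions), `Ctr` (contradiction with `MR.mrt`), `Fin`, `Res`.
-/

namespace Pool.H2.WE

open Finset

open Classical in
/-- entropy of `f` for the uniform distribution on `Ω` -/
noncomputable def Hn {Ω S : Type} [Fintype Ω] (f : Ω → S) : ℝ :=
  ∑ s ∈ univ.image f, Real.negMulLog (((univ.filter (fun w => f w = s)).card : ℝ) / Fintype.card Ω)

/-- primes of `(P, 2P]` -/
def PP (P : ℕ) : Finset ℕ := (Ioc P (2 * P)).filter Nat.Prime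

/-- window of length `m` -/
def Xw {N A : ℕ} (a : ZMod N → Fin A) (m : ℕ) (n : ZMod N) : Fin m → Fin A := fun j => a (n + ((j : ℕ) : ZMod N))

/-- residues modulo the primes of `(P, 2P]` -/
def Yw (N P : ℕ) (n : ZMod N) : {p // p ∈ PP P} → ℕ := fun p => n.val % p.1

/-- number of exceptions of `Q` in `[1, N]` -/
noncomputable def ex (N : ℕ) (Q : ℤ → Prop) : ℕ := by
  classical exact ((Icc (1 : ℤ) N).filter (fun n => ¬ Q n)).card

/-- multiplicative difference -/
noncomputable def dl (a : ℤ) (G : ℤ → ℂ) : ℤ → ℂ := fun n => G (n + a) * (starRingEnd ℂ) (G n)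

/-- iterated multiplicative differences -/
noncomputable def dls : List ℤ → (ℤ → ℂ) → (ℤ → ℂ)
  | [], G => G
  | a :: l, G => dls l (dl a G)

/-- direction of a complex number -/
noncomputable def dir (z : ℂ) : ℂ := if z = 0 then 1 else z / (‖z‖ : ℂ)

/-- the sums `∑_{i ∈ ω} r i` -/
def cs {k : ℕ} (r : Fin k → ℤ) (ω : Finset (Fin k)) : ℤ := ∑ i ∈ ω, r i

/-- `∏_{l ∣ n} (1 + 1/l)` -/
noncomputable def gf (n : ℕ) : ℝ := ∏ l ∈ n.primeFactors, (1 + 1 / (l : ℝ))

end Pool.H2.WE
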