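import Pool.Agent.H2.WE.Defs

/-!
# [H2 WE EN1] Entropy: elementary facts

`Hn f = ∑_s η(p_s)`, `η = negMulLog`, `p_s = #f⁻¹(s)/#Ω`.

PROOFS. `Hn_nonneg`: `η ≥ 0` on `[0,1]` (`Real.negMulLog_nonneg`). `Hn_equiv`: `#(f∘e)⁻¹(s) = #f⁻¹(s)`, same image. `Hn_inj`: `g` injective: the image of `g∘f` is in bijection with the image
of `f` and the fibres are the same. `Hn_comp` (`Hn (g ∘ f) ≤ Hn f`): the fibre of `t` under `g ∘ f` is the disjoint union of the fibres of the `s` with `g s = t`, and `η(∑ x_i) ≤ ∑ η(x_i)` for `x_i ≥ 0`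
(`η(x) = -x log x` and `-log` is decreasing: `-(∑ x_i) log(∑ x_j) ≤ ∑ -x_i log x_i` because `x_i ≤ ∑ x_j`).
`Hn_le_log`: Jensen, `η` is concave (`Real.concaveOn_negMulLog`): `∑_{s∈T} η(p_s) ≤ #T η((∑ p_s)/#T) = log #T` (values outside the image contribute `η(0) = 0`).
-/

namespace Pool.H2.WE

open Finset

variable {Ω S T : Type} [Fintype Ω] [Nonempty Ω]

open Classical in
/-- number of elements of the fibre through `w` -/
noncomputable def fbn (f : Ω → S) (w : Ω) : ℝ := ((univ.filter (fun w' => f w' = f w)).card : ℝ)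

omit [Nonempty Ω] in
theorem fbn_one_le (f : Ω → S) (w : Ω) : 1 ≤ fbn f w := by
  classical
  unfold fbn
  have h : 0 < (univ.filter (fun w' => f w' = f w)).card :=
    card_pos.2 ⟨w, by simp⟩
  exact_mod_cast h

omit [Nonempty Ω] in
theorem fbn_pos (f : Ω → S) (w : Ω) : 0 < fbn f w := lt_of_lt_of_le one_pos (fbn_one_le f w)

omit [Nonempty Ω] in
theorem fbn_le (f : Ω → S) (w : Ω) : fbn f w ≤ Fintype.card Ω := by
  classical
  unfold fbn
  exact_mod_cast card_le_univ _

omit [Nonempty Ω] in
open Classical in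
/-- sums grouped by the values of `f` -/
theorem fbn_sum (f : Ω → S) (F : S → ℝ) :
    ∑ w : Ω, F (f w) / fbn f w = ∑ s ∈ univ.image f, F s := by
  have h := Finset.sum_comp (s := (univ : Finset Ω))
    (fun s : S => F s / ((univ.filter (fun w' => f w' = s)).card : ℝ)) f
  have h1 : ∑ w : Ω, F (f w) / fbn f w =
      ∑ a ∈ (univ : Finset Ω), F (f a) / ((univ.filter (fun w' => f w' = f a)).card : ℝ) := rfl
  rw [h1, h]
  refine sum_congr rfl fun s hs => ?_
  obtain ⟨w, _, hw⟩ := mem_image.1 hs
  have h2 : ((univ.filter (fun w' => f w' = s)).card : ℝ) ≠ 0 := by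
    have h3 := fbn_pos f w
    unfold fbn at h3
    rw [hw] at h3
    exact h3.ne'
  rw [nsmul_eq_mul, mul_div_cancel₀ _ h2]

omit [Nonempty Ω] in
/-- sums grouped by the values of `f` -/
theorem fbn_sum_dec [DecidableEq S] (f : Ω → S) (F : S → ℝ) :
    ∑ w : Ω, F (f w) / fbn f w = ∑ s ∈ univ.image f, F s := by
  rw [fbn_sum f F]
  refine sum_congr ?_ fun _ _ => rfl
  ext s
  simp only [mem_image]

theorem En1_eq_sum (f : Ω → S) : Hn f =
    (1 / (Fintype.card Ω : ℝ)) * ∑ w : Ω, -Real.log (fbn f w / Fintype.card Ω) := by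
  classical
  have hn : (Fintype.card Ω : ℝ) ≠ 0 := by
    exact_mod_cast Fintype.card_ne_zero
  have h1 : Hn f = ∑ s ∈ univ.image f, (((univ.filter (fun w => f w = s)).card : ℝ) / Fintype.card Ω) *
      -Real.log (((univ.filter (fun w => f w = s)).card : ℝ) / Fintype.card Ω) := by
    unfold Hn
    refine sum_congr rfl fun s _ => ?_
    rw [Real.negMulLog_eq_neg]
    simp
  rw [h1, ← fbn_sum, mul_sum]
  refine sum_congr rfl fun w _ => ?_
  have h2 : ((univ.filter (fun w' => f w' = f w)).card : ℝ) = fbn f w := by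
    unfold fbn
    rfl
  rw [h2]
  have h3 := (fbn_pos f w).ne'
  field_simp

theorem Hn_nonneg (f : Ω → S) : 0 ≤ Hn f := by
  rw [En1_eq_sum]
  have hn : (0 : ℝ) < Fintype.card Ω := by exact_mod_cast Fintype.card_pos
  refine mul_nonneg (by positivity) (sum_nonneg fun w _ => ?_)
  rw [neg_nonneg]
  refine Real.log_nonpos (div_nonneg (fbn_pos f w).le hn.le) ?_
  rw [div_le_one hn]
  exact fbn_le f w

theorem Hn_equiv (f : Ω → S) (e : Ω ≃ Ω) : Hn (f ∘ e) = Hn f := by
  classical
  rw [En1_eq_sum, En1_eq_sum]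
  congr 1
  rw [← Equiv.sum_comp e (fun w => -Real.log (fbn f w / Fintype.card Ω))]
  refine sum_congr rfl fun w _ => ?_
  have h1 : fbn (f ∘ e) w = fbn f (e w) := by
    unfold fbn
    norm_cast
    refine card_bij (fun a _ => e a) ?_ ?_ ?_
    · intro a ha
      simpa using ha
    · intro a _ b _ hab
      exact e.injective hab
    · intro b hb
      refine ⟨e.symm b, ?_, by simp⟩
      simpa using hb
  rw [h1]

/-- the same if `g` is injective on the image -/
theorem Hn_injOn (f : Ω → S) (g : S → T) (hg : ∀ w w', g (f w) = g (f w') → f w = f w') : Hn (g ∘ f) = Hn f := by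
  classical
  rw [En1_eq_sum, En1_eq_sum]
  congr 1
  refine sum_congr rfl fun w _ => ?_
  have h1 : fbn (g ∘ f) w = fbn f w := by
    unfold fbn
    norm_cast
    congr 1
    ext w'
    simp only [mem_filter, mem_univ, true_and, Function.comp_apply]
    exact ⟨fun h => hg _ _ h, fun h => by rw [h]⟩
  rw [h1]

theorem Hn_inj (f : Ω → S) (g : S → T) (hg : Function.Injective g) : Hn (g ∘ f) = Hn f :=
  Hn_injOn f g fun _ _ h => hg h

theorem Hn_comp (f : Ω → S) (g : S → T) : Hn (g ∘ f) ≤ Hn f := by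
  classical
  rw [En1_eq_sum, En1_eq_sum]
  have hn : (0 : ℝ) < Fintype.card Ω := by exact_mod_cast Fintype.card_pos
  refine mul_le_mul_of_nonneg_left (sum_le_sum fun w _ => ?_) (by positivity)
  have h1 : fbn f w ≤ fbn (g ∘ f) w := by
    unfold fbn
    have h2 : (univ.filter (fun w' => f w' = f w)).card ≤
        (univ.filter (fun w' => (g ∘ f) w' = (g ∘ f) w)).card := by
      refine card_le_card fun w' hw' => ?_
      simp only [mem_filter, mem_univ, true_and, Function.comp_apply] at hw' ⊢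
      rw [hw']
    exact_mod_cast h2
  rw [neg_le_neg_iff]
  refine Real.log_le_log (div_pos (fbn_pos f w) hn) ?_
  exact div_le_div_of_nonneg_right h1 hn.le

theorem Hn_le_log (f : Ω → S) (F : Finset S) (hF : ∀ w, f w ∈ F) : Hn f ≤ Real.log F.card := by
  classical
  have hn : (0 : ℝ) < Fintype.card Ω := by exact_mod_cast Fintype.card_pos
  have hFc : (0 : ℝ) < F.card := by
    have h : 0 < F.card := card_pos.2 ⟨f (Classical.arbitrary Ω), hF _⟩
    exact_mod_cast h
  have h1 : ∑ w : Ω, 1 / fbn f w ≤ F.card := by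
    rw [fbn_sum f (fun _ => 1), sum_const, nsmul_eq_mul, mul_one]
    have h2 : (univ.image f).card ≤ F.card := card_le_card fun s hs => by
      obtain ⟨w, _, hw⟩ := mem_image.1 hs
      rw [← hw]
      exact hF w
    exact_mod_cast h2
  have h3 : ∀ w : Ω, -Real.log (fbn f w / Fintype.card Ω) ≤
      Real.log F.card + ((Fintype.card Ω : ℝ) / F.card * (1 / fbn f w) - 1) := by
    intro w
    have h4 := fbn_pos f w
    have h5 := Real.log_le_sub_one_of_pos (show 0 < (Fintype.card Ω : ℝ) / F.card * (1 / fbn f w) by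
      positivity)
    have h6 : Real.log ((Fintype.card Ω : ℝ) / F.card * (1 / fbn f w)) =
        -Real.log (fbn f w / Fintype.card Ω) - Real.log F.card := by
      rw [Real.log_mul (by positivity) (by positivity), Real.log_div hn.ne' hFc.ne',
        Real.log_div h4.ne' hn.ne', one_div, Real.log_inv]
      ring
    linarith
  rw [En1_eq_sum]
  have h7 : ∑ w : Ω, -Real.log (fbn f w / Fintype.card Ω) ≤
      (Fintype.card Ω : ℝ) * Real.log F.card := by
    calc ∑ w : Ω, -Real.log (fbn f w / Fintype.card Ω)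
        ≤ ∑ w : Ω, (Real.log F.card + ((Fintype.card Ω : ℝ) / F.card * (1 / fbn f w) - 1)) :=
          sum_le_sum fun w _ => h3 w
      _ = (Fintype.card Ω : ℝ) * Real.log F.card +
          ((Fintype.card Ω : ℝ) / F.card * ∑ w : Ω, 1 / fbn f w - Fintype.card Ω) := by
          rw [sum_add_distrib, sum_sub_distrib, ← mul_sum]
          simp
      _ ≤ (Fintype.card Ω : ℝ) * Real.log F.card +
          ((Fintype.card Ω : ℝ) / F.card * F.card - Fintype.card Ω) := by
          have h8 := mul_le_mul_of_nonneg_left h1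
            (show 0 ≤ (Fintype.card Ω : ℝ) / F.card by positivity)
          linarith
      _ = _ := by
          rw [div_mul_cancel₀ _ hFc.ne']
          ring
  calc 1 / (Fintype.card Ω : ℝ) * ∑ w : Ω, -Real.log (fbn f w / Fintype.card Ω)
      ≤ 1 / (Fintype.card Ω : ℝ) * ((Fintype.card Ω : ℝ) * Real.log F.card) :=
        mul_le_mul_of_nonneg_left h7 (by positivity)
    _ = _ := by
        field_simp

end Pool.H2.WE
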