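import Pool.Agent.H2.WE.En1

/-!
# [H2 WE EN2] Entropy: submodularity

PROOF. `Hn (f,g,h) + Hn h ≤ Hn (f,h) + Hn (g,h)`. Write `p(s,t,u)` for the joint distribution, `p(u), p(s,u), p(t,u)` for the marginals (all sums over the finite images). The claim is
`∑ p(s,t,u) log(p(s,u) p(t,u)/(p(s,t,u) p(u))) ≤ 0`: by `log x ≤ x - 1` (for the terms with `p(s,t,u) > 0`, then all marginals are positive) the left side is
`≤ ∑_{p(s,t,u)>0} (p(s,u) p(t,u)/p(u) - p(s,t,u)) ≤ ∑_u ∑_s p(s,u) ∑_t p(t,u)/p(u) - 1 = ∑_u p(u) - 1 = 0`. To write entropies as `-∑ p(s,t,u) log p(·)` use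
`∑_{t} p(s,t,u) = p(s,u)` etc. (Convenient: express everything as sums over `w ∈ Ω`: `Hn f = (1/#Ω) ∑_w -log(#f⁻¹(f w)/#Ω)`, `Finset.sum_fiberwise`; then the claim is
`∑_w log(a(w) b(w)/(c(w) d(w))) ≤ 0` with the numbers of elements of the fibres through `w`, and `∑_w (a b/(c d) - 1) ≤ 0`.)
`Hn_pair_le`: the case of constant `h` (`Hn` of a constant is `0`), with `Hn_injOn`.
-/

namespace Pool.H2.WE

open Finset

variable {Ω S T U : Type} [Fintype Ω] [Nonempty Ω]

open Classical in
theorem Hn_eq_sum (f : Ω → S) : Hn f =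
    (1 / (Fintype.card Ω : ℝ)) * ∑ w : Ω, -Real.log (((univ.filter (fun w' => f w' = f w)).card : ℝ) / Fintype.card Ω) :=
  En1_eq_sum f

open Classical in
/-- number of elements of a fibre -/
noncomputable def cnt (f : Ω → S) (s : S) : ℝ := ((univ.filter (fun w => f w = s)).card : ℝ)

omit [Nonempty Ω] in
theorem fbn_eq_cnt (f : Ω → S) (w : Ω) : fbn f w = cnt f (f w) := rfl

omit [Nonempty Ω] in
theorem cnt_nonneg (f : Ω → S) (s : S) : 0 ≤ cnt f s := Nat.cast_nonneg _

omit [Nonempty Ω] in
open Classical in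
theorem cnt_marg (f : Ω → S) (h : Ω → U) (u : U) :
    ∑ s ∈ univ.image f, cnt (fun w => (f w, h w)) (s, u) = cnt h u := by
  unfold cnt
  have h1 := Finset.card_eq_sum_card_fiberwise (f := f) (s := univ.filter (fun w => h w = u))
    (t := univ.image f) (fun w _ => by simp)
  rw [h1]
  push_cast
  refine sum_congr rfl fun s _ => ?_
  congr 2
  ext w
  simp only [mem_filter, mem_univ, true_and, Prod.mk.injEq]
  exact and_comm

omit [Nonempty Ω] in
open Classical in
theorem cnt_sum (h : Ω → U) : ∑ u ∈ univ.image h, cnt h u = Fintype.card Ω := by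
  have h1 := Finset.card_eq_sum_card_fiberwise (f := h) (s := (univ : Finset Ω))
    (t := univ.image h) (fun w _ => by simp)
  rw [card_univ] at h1
  rw [h1]
  push_cast
  rfl

theorem Hn_submod (f : Ω → S) (g : Ω → T) (h : Ω → U) :
    Hn (fun w => (f w, g w, h w)) + Hn h ≤ Hn (fun w => (f w, h w)) + Hn (fun w => (g w, h w)) := by
  classical
  have hn : (0 : ℝ) < Fintype.card Ω := by exact_mod_cast Fintype.card_pos
  -- the sum
  have hS : ∑ w : Ω, fbn (fun w => (f w, h w)) w * fbn (fun w => (g w, h w)) w / fbn h w /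
      fbn (fun w => (f w, g w, h w)) w ≤ Fintype.card Ω := by
    have e1 : ∑ w : Ω, fbn (fun w => (f w, h w)) w * fbn (fun w => (g w, h w)) w / fbn h w /
        fbn (fun w => (f w, g w, h w)) w =
        ∑ x ∈ univ.image (fun w => (f w, g w, h w)),
          cnt (fun w => (f w, h w)) (x.1, x.2.2) * cnt (fun w => (g w, h w)) (x.2.1, x.2.2) /
            cnt h x.2.2 :=
      fbn_sum_dec (fun w => (f w, g w, h w)) (fun x => cnt (fun w => (f w, h w)) (x.1, x.2.2) *
        cnt (fun w => (g w, h w)) (x.2.1, x.2.2) / cnt h x.2.2)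
    rw [e1]
    have e2 : univ.image (fun w => (f w, g w, h w)) ⊆
        univ.image f ×ˢ (univ.image g ×ˢ univ.image h) := by
      intro x hx
      obtain ⟨w, _, rfl⟩ := mem_image.1 hx
      simp
    refine (sum_le_sum_of_subset_of_nonneg e2 fun x _ _ => ?_).trans ?_
    · exact div_nonneg (mul_nonneg (cnt_nonneg _ _) (cnt_nonneg _ _)) (cnt_nonneg _ _)
    · rw [sum_product]
      have e3 : ∀ s ∈ univ.image f, ∑ y ∈ univ.image g ×ˢ univ.image h,
          cnt (fun w => (f w, h w)) ((s, y).1, (s, y).2.2) *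
            cnt (fun w => (g w, h w)) ((s, y).2.1, (s, y).2.2) / cnt h (s, y).2.2 =
          ∑ u ∈ univ.image h, cnt (fun w => (f w, h w)) (s, u) := by
        intro s _
        rw [sum_product_right]
        refine sum_congr rfl fun u hu => ?_
        simp only
        rw [← sum_div, ← mul_sum, cnt_marg g h u]
        obtain ⟨w, _, rfl⟩ := mem_image.1 hu
        have h2 : cnt h (h w) ≠ 0 := by
          rw [← fbn_eq_cnt]
          exact (fbn_pos h w).ne'
        rw [mul_div_cancel_right₀ _ h2]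
      rw [sum_congr rfl e3, sum_comm]
      rw [sum_congr rfl fun u _ => cnt_marg f h u, cnt_sum]
  -- termwise
  have hT : ∀ w : Ω, -Real.log (fbn (fun w => (f w, g w, h w)) w / Fintype.card Ω) +
      -Real.log (fbn h w / Fintype.card Ω) ≤
      -Real.log (fbn (fun w => (f w, h w)) w / Fintype.card Ω) +
      -Real.log (fbn (fun w => (g w, h w)) w / Fintype.card Ω) +
      (fbn (fun w => (f w, h w)) w * fbn (fun w => (g w, h w)) w / fbn h w /
      fbn (fun w => (f w, g w, h w)) w - 1) := by
    intro w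
    have p1 := fbn_pos (fun w => (f w, g w, h w)) w
    have p2 := fbn_pos h w
    have p3 := fbn_pos (fun w => (f w, h w)) w
    have p4 := fbn_pos (fun w => (g w, h w)) w
    have p5 := Real.log_le_sub_one_of_pos (show 0 < fbn (fun w => (f w, h w)) w *
      fbn (fun w => (g w, h w)) w / fbn h w / fbn (fun w => (f w, g w, h w)) w by positivity)
    rw [Real.log_div (by positivity) p1.ne', Real.log_div (by positivity) p2.ne',
      Real.log_mul p3.ne' p4.ne'] at p5
    rw [Real.log_div p1.ne' hn.ne', Real.log_div p2.ne' hn.ne', Real.log_div p3.ne' hn.ne',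
      Real.log_div p4.ne' hn.ne']
    linarith
  rw [En1_eq_sum, En1_eq_sum, En1_eq_sum, En1_eq_sum, ← mul_add, ← mul_add]
  refine mul_le_mul_of_nonneg_left ?_ (by positivity)
  rw [← sum_add_distrib, ← sum_add_distrib]
  refine (sum_le_sum fun w _ => hT w).trans ?_
  rw [sum_add_distrib, sum_sub_distrib]
  have h3 : ∑ _w : Ω, (1 : ℝ) = Fintype.card Ω := by simp
  rw [h3]
  linarith

theorem Hn_pair_le (f : Ω → S) (g : Ω → T) : Hn (fun w => (f w, g w)) ≤ Hn f + Hn g := by
  have h1 := Hn_submod f g (fun _ => ())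
  have h2 : Hn (fun w => (f w, g w, ())) = Hn (fun w => (f w, g w)) :=
    Hn_inj (fun w => (f w, g w)) (fun x => (x.1, x.2, ())) (fun x y hxy => by
      simp only [Prod.mk.injEq, and_true] at hxy
      exact Prod.ext hxy.1 hxy.2)
  have h3 : Hn (fun w => (f w, ())) = Hn f :=
    Hn_inj f (fun x => (x, ())) (fun x y hxy => by
      simp only [Prod.mk.injEq, and_true] at hxy
      exact hxy)
  have h4 : Hn (fun w => (g w, ())) = Hn g :=
    Hn_inj g (fun x => (x, ())) (fun x y hxy => by
      simp only [Prod.mk.injEq, and_true] at hxy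
      exact hxy)
  have h5 := Hn_nonneg (fun _ : Ω => ())
  rw [h2, h3, h4] at h1
  linarith

end Pool.H2.WE
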