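import Pool.Agent.H2.WE.En2

/-!
# [H2 WE GIB] Gibbs variational inequality for product distributions

Situation: `Ω` finite with the uniform distribution, `X : Ω → S`, `Y : Ω → ∏_i {0,..,m_i - 1}` (as natural numbers), `Y` equidistributed: every `y` with `y i < m i` is taken exactly `#Ω/∏ m_i` times.
`0 ≤ f_i(x, y_i) ≤ B`. Claim, for `0 < lam`, `lam B ≤ 1`: with `avg_i(x) = (1/m_i) ∑_{y<m_i} f_i(x,y)`,
`E ∑_i (avg_i(X) - f_i(X, Y_i)) ≤ (H(X) + H(Y) - H(X,Y))/lam + lam B² #ι`.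

PROOF. `F(x,y) = ∑_i (avg_i(x) - f_i(x,y_i))`, `Z(x) = (1/∏m_i) ∑_y exp(lam F(x,y)) = ∏_i (1/m_i) ∑_{y<m_i} exp(lam(avg_i(x) - f_i(x,y)))` (`Finset.prod_univ_sum`/`Finset.sum_prod_piFinset`). For
`|u| ≤ 1` `exp(u) ≤ 1 + u + u²` (`Real.exp_bound'`, or `Real.abs_exp_sub_one_sub_id_le`), and the mean of `avg - f` is `0`, `|avg - f| ≤ B`: every factor is
`≤ 1 + lam²B² ≤ exp(lam²B²)`, so `Z(x) ≤ exp(lam²B² #ι)`. Now, with `p(x,y)`, `p(x)` the distributions of `(X,Y)`, `X` and `M = ∏ m_i`,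
`lam E F(X,Y) - H(X) - H(Y) + H(X,Y) ≤ ∑ p(x,y) (lam F(x,y) + log p(x) - log M - log p(x,y))` (`H(Y) = log M` because of equidistribution)
`= ∑ p(x,y) log(p(x) exp(lam F(x,y))/(M p(x,y))) ≤ ∑_x p(x) log(Z(x))`-type bound: subtract `∑ p(x) log Z(x)`; by `log u ≤ u - 1`
`∑ p(x,y) log(p(x) exp(lam F)/(M Z(x) p(x,y))) ≤ ∑_{p(x,y)>0} (p(x) exp(lam F)/(M Z(x)) - p(x,y)) ≤ ∑_x p(x) - 1 = 0`. Hence
`lam E F ≤ I + ∑ p(x) log Z(x) ≤ I + lam²B² #ι`. (As in `En2`, one can work with sums over `w ∈ Ω`.)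
-/

namespace Pool.H2.WE

open Finset

/-- the factor of one coordinate -/
private theorem gib_one (m : ℕ) (hm : 1 ≤ m) (f : ℕ → ℝ) (B lam : ℝ) (hB : 0 ≤ B)
    (hf : ∀ y, 0 ≤ f y ∧ f y ≤ B) (hl : 0 < lam) (hlB : lam * B ≤ 1) :
    (1 / (m : ℝ)) * ∑ y ∈ range m, Real.exp (lam * ((1 / (m : ℝ)) * ∑ y ∈ range m, f y - f y)) ≤
      Real.exp (lam ^ 2 * B ^ 2) := by
  have hm0 : (0 : ℝ) < m := by exact_mod_cast hm
  obtain ⟨av, hav⟩ : ∃ av : ℝ, av = (1 / (m : ℝ)) * ∑ y ∈ range m, f y := ⟨_, rfl⟩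
  rw [← hav]
  have hsum : ∑ y ∈ range m, f y = m * av := by
    rw [hav]
    field_simp
  have hav0 : 0 ≤ av := by
    rw [hav]
    exact mul_nonneg (by positivity) (sum_nonneg fun y _ => (hf y).1)
  have havB : av ≤ B := by
    have h1 : ∑ y ∈ range m, f y ≤ ∑ _y ∈ range m, B := sum_le_sum fun y _ => (hf y).2
    rw [sum_const, card_range, nsmul_eq_mul, hsum] at h1
    exact le_of_mul_le_mul_left h1 hm0
  have h2 : ∀ y ∈ range m, Real.exp (lam * (av - f y)) ≤
      1 + lam * (av - f y) + lam ^ 2 * B ^ 2 := by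
    intro y _
    have h3 : |av - f y| ≤ B := by
      rw [abs_le]
      constructor
      · linarith [(hf y).2]
      · linarith [(hf y).1]
    have h4 : |lam * (av - f y)| ≤ 1 := by
      rw [abs_mul, abs_of_pos hl]
      exact (mul_le_mul_of_nonneg_left h3 hl.le).trans hlB
    have h5 := (abs_le.1 (Real.abs_exp_sub_one_sub_id_le h4)).2
    have h6 : (lam * (av - f y)) ^ 2 ≤ lam ^ 2 * B ^ 2 := by
      rw [mul_pow]
      refine mul_le_mul_of_nonneg_left ?_ (by positivity)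
      exact sq_le_sq' (by linarith [(abs_le.1 h3).1]) (abs_le.1 h3).2
    linarith
  have h7 : ∑ y ∈ range m, Real.exp (lam * (av - f y)) ≤ m * (1 + lam ^ 2 * B ^ 2) := by
    refine (sum_le_sum h2).trans (le_of_eq ?_)
    rw [sum_add_distrib, sum_add_distrib, ← mul_sum, sum_sub_distrib, hsum]
    simp only [sum_const, card_range, nsmul_eq_mul]
    ring
  calc (1 / (m : ℝ)) * ∑ y ∈ range m, Real.exp (lam * (av - f y))
      ≤ (1 / (m : ℝ)) * (m * (1 + lam ^ 2 * B ^ 2)) :=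
        mul_le_mul_of_nonneg_left h7 (by positivity)
    _ = lam ^ 2 * B ^ 2 + 1 := by
        field_simp
        ring
    _ ≤ _ := Real.add_one_le_exp _

open Classical in
theorem gib {Ω S ι : Type} [Fintype Ω] [Nonempty Ω] [Fintype ι] (X : Ω → S) (Y : Ω → ι → ℕ) (m : ι → ℕ) (hm : ∀ i, 1 ≤ m i)
    (hY : ∀ w i, Y w i < m i)
    (hYe : ∀ y : ι → ℕ, (∀ i, y i < m i) → (univ.filter (fun w => Y w = y)).card * ∏ i, m i = Fintype.card Ω)
    (f : ι → S → ℕ → ℝ) (B lam : ℝ) (hB : 0 ≤ B) (hf : ∀ i x y, 0 ≤ f i x y ∧ f i x y ≤ B) (hl : 0 < lam) (hlB : lam * B ≤ 1) :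
    (1 / (Fintype.card Ω : ℝ)) * ∑ w : Ω, ∑ i, ((1 / (m i : ℝ)) * ∑ y ∈ range (m i), f i (X w) y - f i (X w) (Y w i)) ≤
      (Hn X + Hn Y - Hn (fun w => (X w, Y w))) / lam + lam * B ^ 2 * Fintype.card ι := by
  have hn : (0 : ℝ) < Fintype.card Ω := by exact_mod_cast Fintype.card_pos
  obtain ⟨M, hM⟩ : ∃ M : ℝ, M = ∏ i, (m i : ℝ) := ⟨_, rfl⟩
  have hM0 : 0 < M := by
    rw [hM]
    exact prod_pos fun i _ => by exact_mod_cast hm i
  have hYn : ∀ w, fbn Y w * M = Fintype.card Ω := by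
    intro w
    have h1 := hYe (Y w) (hY w)
    have h2 : fbn Y w = ((univ.filter (fun w' => Y w' = Y w)).card : ℝ) := by
      unfold fbn
      exact congrArg (fun s : Finset Ω => (s.card : ℝ)) (by ext w'; simp only [mem_filter])
    rw [hM, h2]
    exact_mod_cast h1
  have hYf : ∀ w, fbn Y w = Fintype.card Ω / M := by
    intro w
    rw [eq_div_iff hM0.ne']
    exact hYn w
  obtain ⟨Φ, hΦ⟩ : ∃ Φ : S → (ι → ℕ) → ℝ, Φ = fun x y => ∑ i, ((1 / (m i : ℝ)) *
      ∑ y' ∈ range (m i), f i x y' - f i x (y i)) := ⟨_, rfl⟩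
  obtain ⟨L, hL⟩ : ∃ L : ℝ, L = lam ^ 2 * B ^ 2 * Fintype.card ι := ⟨_, rfl⟩
  -- the partition function
  have hZ : ∀ x : S, ∑ y ∈ Fintype.piFinset (fun i => range (m i)), Real.exp (lam * Φ x y) ≤
      M * Real.exp L := by
    intro x
    have h1 : ∀ y : ι → ℕ, Real.exp (lam * Φ x y) = ∏ i, Real.exp (lam * ((1 / (m i : ℝ)) *
        ∑ y' ∈ range (m i), f i x y' - f i x (y i))) := by
      intro y
      rw [hΦ, ← Real.exp_sum, mul_sum]
    rw [sum_congr rfl fun y _ => h1 y]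
    rw [← Finset.prod_univ_sum (fun i => range (m i)) (fun i y => Real.exp (lam * ((1 / (m i : ℝ)) *
        ∑ y' ∈ range (m i), f i x y' - f i x y)))]
    have h2 : M * Real.exp L = ∏ i : ι, ((m i : ℝ) * Real.exp (lam ^ 2 * B ^ 2)) := by
      rw [prod_mul_distrib, ← hM, prod_const, card_univ, ← Real.exp_nat_mul, hL]
      congr 2
      ring
    rw [h2]
    refine prod_le_prod (fun i _ => sum_nonneg fun y _ => (Real.exp_pos _).le) fun i _ => ?_
    have h3 := gib_one (m i) (hm i) (f i x) B lam hB (fun y => hf i x y) hl hlB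
    have h4 : (0 : ℝ) < m i := by exact_mod_cast hm i
    rw [one_div, inv_mul_le_iff₀ h4, ← one_div] at h3
    exact h3
  -- the sum
  have hS : ∑ w : Ω, Real.exp (lam * Φ (X w) (Y w) - L) * fbn X w / M /
      fbn (fun w => (X w, Y w)) w ≤ Fintype.card Ω := by
    have e1 : ∑ w : Ω, Real.exp (lam * Φ (X w) (Y w) - L) * fbn X w / M /
        fbn (fun w => (X w, Y w)) w =
        ∑ z ∈ univ.image (fun w => (X w, Y w)),
          Real.exp (lam * Φ z.1 z.2 - L) * cnt X z.1 / M :=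
      fbn_sum_dec (fun w => (X w, Y w)) (fun z => Real.exp (lam * Φ z.1 z.2 - L) * cnt X z.1 / M)
    rw [e1]
    have e2 : univ.image (fun w => (X w, Y w)) ⊆
        univ.image X ×ˢ Fintype.piFinset (fun i => range (m i)) := by
      intro x hx
      obtain ⟨w, _, rfl⟩ := mem_image.1 hx
      simp only [mem_product, mem_image, mem_univ, true_and, exists_apply_eq_apply,
        Fintype.mem_piFinset, mem_range]
      exact hY w
    refine (sum_le_sum_of_subset_of_nonneg e2 fun x _ _ => ?_).trans ?_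
    · exact div_nonneg (mul_nonneg (Real.exp_pos _).le (cnt_nonneg _ _)) hM0.le
    · rw [sum_product, ← cnt_sum X]
      refine sum_le_sum fun x _ => ?_
      have e3 : ∑ y ∈ Fintype.piFinset (fun i => range (m i)),
          Real.exp (lam * Φ (x, y).1 (x, y).2 - L) * cnt X (x, y).1 / M =
          cnt X x / M * Real.exp (-L) *
            ∑ y ∈ Fintype.piFinset (fun i => range (m i)), Real.exp (lam * Φ x y) := by
        rw [mul_sum]
        refine sum_congr rfl fun y _ => ?_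
        simp only
        rw [sub_eq_add_neg, Real.exp_add]
        ring
      rw [e3]
      have e4 := mul_le_mul_of_nonneg_left (hZ x)
        (show 0 ≤ cnt X x / M * Real.exp (-L) from
          mul_nonneg (div_nonneg (cnt_nonneg _ _) hM0.le) (Real.exp_pos _).le)
      refine e4.trans (le_of_eq ?_)
      rw [Real.exp_neg]
      have e5 := (Real.exp_pos L).ne'
      field_simp
  -- termwise
  have hT : ∀ w : Ω, lam * Φ (X w) (Y w) ≤
      (-Real.log (fbn X w / Fintype.card Ω) + -Real.log (fbn Y w / Fintype.card Ω) -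
        -Real.log (fbn (fun w => (X w, Y w)) w / Fintype.card Ω)) + L +
      (Real.exp (lam * Φ (X w) (Y w) - L) * fbn X w / M /
        fbn (fun w => (X w, Y w)) w - 1) := by
    intro w
    have p1 := fbn_pos (fun w => (X w, Y w)) w
    have p2 := fbn_pos X w
    have p5 := Real.log_le_sub_one_of_pos (show 0 < Real.exp (lam * Φ (X w) (Y w) - L) * fbn X w /
      M / fbn (fun w => (X w, Y w)) w from
        div_pos (div_pos (mul_pos (Real.exp_pos _) p2) hM0) p1)
    rw [Real.log_div (div_pos (mul_pos (Real.exp_pos _) p2) hM0).ne' p1.ne',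
      Real.log_div (mul_pos (Real.exp_pos _) p2).ne' hM0.ne',
      Real.log_mul (Real.exp_pos _).ne' p2.ne', Real.log_exp] at p5
    rw [hYf w, Real.log_div p1.ne' hn.ne', Real.log_div p2.ne' hn.ne',
      Real.log_div (div_pos hn hM0).ne' hn.ne', Real.log_div hn.ne' hM0.ne']
    linarith
  have hfin : lam * ((1 / (Fintype.card Ω : ℝ)) * ∑ w : Ω, Φ (X w) (Y w)) ≤
      (Hn X + Hn Y - Hn (fun w => (X w, Y w))) + L := by
    have h1 : ∑ w : Ω, lam * Φ (X w) (Y w) ≤ ∑ w : Ω,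
        (-Real.log (fbn X w / Fintype.card Ω) + -Real.log (fbn Y w / Fintype.card Ω) -
        -Real.log (fbn (fun w => (X w, Y w)) w / Fintype.card Ω)) + Fintype.card Ω * L := by
      refine (sum_le_sum fun w _ => hT w).trans ?_
      rw [sum_add_distrib, sum_add_distrib, sum_sub_distrib (f := fun w =>
        Real.exp (lam * Φ (X w) (Y w) - L) * fbn X w / M / fbn (fun w => (X w, Y w)) w)]
      have h3 : ∑ _w : Ω, (1 : ℝ) = Fintype.card Ω := by simp
      have h4 : ∑ _w : Ω, L = Fintype.card Ω * L := by simp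
      rw [h3, h4]
      linarith
    rw [En1_eq_sum, En1_eq_sum, En1_eq_sum, ← mul_add, ← mul_sub, ← sum_add_distrib,
      ← sum_sub_distrib]
    rw [← mul_sum] at h1
    have h2 := mul_le_mul_of_nonneg_left h1 (show 0 ≤ 1 / (Fintype.card Ω : ℝ) by positivity)
    have h5 : 1 / (Fintype.card Ω : ℝ) * (Fintype.card Ω * L) = L := by
      field_simp
    rw [mul_add, h5] at h2
    calc lam * ((1 / (Fintype.card Ω : ℝ)) * ∑ w : Ω, Φ (X w) (Y w))
        = (1 / (Fintype.card Ω : ℝ)) * (lam * ∑ w : Ω, Φ (X w) (Y w)) := by ring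
      _ ≤ _ := h2
  have hΦ2 : ∀ w, ∑ i, ((1 / (m i : ℝ)) * ∑ y ∈ range (m i), f i (X w) y - f i (X w) (Y w i)) =
      Φ (X w) (Y w) := fun w => by rw [hΦ]
  rw [sum_congr rfl fun w _ => hΦ2 w]
  have h6 : (Hn X + Hn Y - Hn (fun w => (X w, Y w))) / lam + lam * B ^ 2 * Fintype.card ι =
      ((Hn X + Hn Y - Hn (fun w => (X w, Y w))) + L) / lam := by
    rw [hL]
    field_simp
  rw [h6, le_div_iff₀ hl, mul_comm]
  exact hfin

end Pool.H2.WE
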