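import Pool.Agent.H2.WE.Defs
import Pool.Agent.H41.Sieve.SSUM

/-!
# [H2 WE SSM] Lower bound for the sieve sums of dimension `κ`

Claim: `c_κ (log z)^κ ≤ gf(E)^κ · sieveSum κ z E`, `sieveSum κ z E = ∑_{l≤z, squarefree, (l,E)=1} κ^ω(l)/l` (`gf E = ∏_{p ∣ E}(1+1/p) ≥ rhoz z E`).

PROOF (induction on `κ`). `κ = 1`: `sieveSum_one_ge` of `H41.Sieve.SSUM` (`log z ≤ 2 rhoz z E · sieveSum 1 z E`; `rhoz z E ≤ gf E`). Step `κ → κ+1`, `y = Nat.sqrt z`:
`sieveSum κ y E · sieveSum 1 y E ≤ e^(2κ) sieveSum (κ+1) z E`: write a pair `(a, b)` as `(g a', g b')`, `g = gcd`, `l = a' b'` is squarefree, `κ^ω(a)/(ab) = κ^ω(g)/g² κ^ω(a')/l` and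
`∑_{a' ∣ l} κ^ω(a') = (κ+1)^ω(l)`, `∑_g κ^ω(g)/g² ≤ ∏ (1 + κ/p²) ≤ e^(2κ)`.
-/

namespace Pool.H2.WE

open Finset Pool.Agent.H5.W

/-- sums over squarefree numbers -/
theorem sf_sum_le (y : ℕ) (f : ℕ → ℝ) (hf : ∀ p, 0 ≤ f p) :
    ∑ g ∈ (Icc 1 y).filter Squarefree, ∏ p ∈ g.primeFactors, f p ≤
      ∏ p ∈ (Icc 1 y).filter Nat.Prime, (1 + f p) := by
  classical
  rw [Finset.prod_one_add]
  apply sum_le_of_injOn _ _ (fun g => g.primeFactors)
  · intro g hg
    rw [mem_filter, mem_Icc] at hg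
    rw [mem_powerset]
    intro p hp
    rw [mem_filter, mem_Icc]
    have h1 := Nat.prime_of_mem_primeFactors hp
    exact ⟨⟨h1.one_lt.le, (Nat.le_of_dvd hg.1.1 (Nat.dvd_of_mem_primeFactors hp)).trans hg.1.2⟩, h1⟩
  · intro g hg h hh hgh
    rw [mem_coe, mem_filter] at hg hh
    simp only at hgh
    rw [← Nat.prod_primeFactors_of_squarefree hg.2, ← Nat.prod_primeFactors_of_squarefree hh.2, hgh]
  · intro g _
    exact le_rfl
  · intro t _
    exact prod_nonneg fun p _ => hf p

/-- `∑_{g ≤ y} κ^ω(g)/g² ≤ e^(2κ)` -/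
theorem sum_sq_le (κ y : ℕ) : ∑ g ∈ (Icc 1 y).filter Squarefree,
    (κ : ℝ) ^ g.primeFactors.card / (g : ℝ) ^ 2 ≤ Real.exp (2 * κ) := by
  have h1 := sf_sum_le y (fun p => (κ : ℝ) / (p : ℝ) ^ 2) (fun p => by positivity)
  have h2 : ∀ g ∈ (Icc 1 y).filter Squarefree, (κ : ℝ) ^ g.primeFactors.card / (g : ℝ) ^ 2 =
      ∏ p ∈ g.primeFactors, (κ : ℝ) / (p : ℝ) ^ 2 := by
    intro g hg
    rw [mem_filter] at hg
    rw [prod_div_distrib, prod_const, prod_pow]
    congr 2
    have h3 : ((∏ p ∈ g.primeFactors, p : ℕ) : ℝ) = (g : ℝ) := by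
      rw [Nat.prod_primeFactors_of_squarefree hg.2]
    rw [← h3, Nat.cast_prod]
  rw [sum_congr rfl h2]
  refine h1.trans ?_
  calc ∏ p ∈ (Icc 1 y).filter Nat.Prime, (1 + (κ : ℝ) / (p : ℝ) ^ 2)
      ≤ ∏ p ∈ (Icc 1 y).filter Nat.Prime, Real.exp ((κ : ℝ) / (p : ℝ) ^ 2) := by
        apply prod_le_prod
        · intro p _
          positivity
        · intro p _
          rw [add_comm]
          exact Real.add_one_le_exp _
    _ = Real.exp (∑ p ∈ (Icc 1 y).filter Nat.Prime, (κ : ℝ) / (p : ℝ) ^ 2) := by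
        rw [Real.exp_sum]
    _ ≤ Real.exp (2 * κ) := by
        apply Real.exp_le_exp.2
        calc ∑ p ∈ (Icc 1 y).filter Nat.Prime, (κ : ℝ) / (p : ℝ) ^ 2
            ≤ ∑ p ∈ Icc 1 y, (κ : ℝ) / (p : ℝ) ^ 2 :=
              sum_le_sum_of_subset_of_nonneg (filter_subset _ _) fun p _ _ => by positivity
          _ = κ * ∑ p ∈ Icc 1 y, 1 / (p : ℝ) ^ 2 := by
              rw [mul_sum]
              apply sum_congr rfl
              intro p _
              ring
          _ ≤ κ * 2 := mul_le_mul_of_nonneg_left (sum_inv_sq_le y) (Nat.cast_nonneg _)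
          _ = 2 * κ := by ring

/-- `∑_{d ∣ l} κ^ω(d) ≤ (κ+1)^ω(l)` -/
theorem sum_div_pow (κ l : ℕ) (hl : Squarefree l) :
    ∑ d ∈ l.divisors, (κ : ℝ) ^ d.primeFactors.card ≤ ((κ + 1 : ℕ) : ℝ) ^ l.primeFactors.card := by
  classical
  have h1 := Finset.prod_add_one (s := l.primeFactors) (f := fun _ => (κ : ℝ))
  rw [prod_const] at h1
  push_cast
  rw [h1]
  apply sum_le_of_injOn _ _ (fun d => d.primeFactors)
  · intro d hd
    rw [Nat.mem_divisors] at hd
    rw [mem_powerset]
    exact Nat.primeFactors_mono hd.1 hd.2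
  · intro a ha b hb hab
    rw [mem_coe, Nat.mem_divisors] at ha hb
    simp only at hab
    rw [← Nat.prod_primeFactors_of_squarefree (hl.squarefree_of_dvd ha.1),
      ← Nat.prod_primeFactors_of_squarefree (hl.squarefree_of_dvd hb.1), hab]
  · intro d _
    rw [prod_const]
  · intro t _
    exact prod_nonneg fun _ _ => Nat.cast_nonneg _

theorem ssum_step (κ y z E : ℕ) (hyz : y * y ≤ z) :
    sieveSum κ y E * sieveSum 1 y E ≤ Real.exp (2 * κ) * sieveSum (κ + 1) z E := by
  classical
  rw [sieveSum_one_eq, sieveSum_eq, Finset.sum_mul_sum, ← Finset.sum_product']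
  calc ∑ q ∈ idx y E ×ˢ idx y E, (κ : ℝ) ^ q.1.primeFactors.card / (q.1 : ℝ) * (1 / (q.2 : ℝ))
      ≤ ∑ r ∈ ((Icc 1 y).filter Squarefree) ×ˢ ((idx z E).sigma fun l => l.divisors),
          (κ : ℝ) ^ r.1.primeFactors.card / (r.1 : ℝ) ^ 2 *
            ((κ : ℝ) ^ r.2.2.primeFactors.card / (r.2.1 : ℝ)) := by
        apply sum_le_of_injOn _ _
          (fun q : ℕ × ℕ => (q.1.gcd q.2, (⟨(q.1 / q.1.gcd q.2) * (q.2 / q.1.gcd q.2),
            q.1 / q.1.gcd q.2⟩ : (_ : ℕ) × ℕ)))
        · rintro ⟨a, b⟩ hq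
          rw [Finset.mem_product, mem_idx, mem_idx] at hq
          obtain ⟨⟨⟨ha1, ha2⟩, ha3, ha4⟩, ⟨hb1, hb2⟩, hb3, hb4⟩ := hq
          simp only at ha1 ha2 ha3 ha4 hb1 hb2 hb3 hb4
          have hg : 0 < a.gcd b := Nat.gcd_pos_of_pos_left _ ha1
          have hga := Nat.gcd_dvd_left a b
          have hgb := Nat.gcd_dvd_right a b
          have hcop : (a / a.gcd b).Coprime (b / a.gcd b) := Nat.coprime_div_gcd_div_gcd hg
          have hada : a / a.gcd b ∣ a := Nat.div_dvd_of_dvd hga
          have hbdb : b / a.gcd b ∣ b := Nat.div_dvd_of_dvd hgb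
          have ha' : 0 < a / a.gcd b := Nat.div_pos (Nat.le_of_dvd ha1 hga) hg
          have hb' : 0 < b / a.gcd b := Nat.div_pos (Nat.le_of_dvd hb1 hgb) hg
          rw [Finset.mem_product, Finset.mem_sigma, Finset.mem_filter, Finset.mem_Icc, mem_idx,
            Nat.mem_divisors]
          refine ⟨⟨⟨hg, (Nat.le_of_dvd ha1 hga).trans ha2⟩, ha3.squarefree_of_dvd hga⟩,
            ⟨⟨Nat.mul_pos ha' hb', ?_⟩, ?_, ?_⟩, Dvd.intro _ rfl, (Nat.mul_pos ha' hb').ne'⟩
          · exact (Nat.mul_le_mul ((Nat.le_of_dvd ha1 hada).trans ha2)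
              ((Nat.le_of_dvd hb1 hbdb).trans hb2)).trans hyz
          · exact (Nat.squarefree_mul hcop).2
              ⟨ha3.squarefree_of_dvd hada, hb3.squarefree_of_dvd hbdb⟩
          · exact Nat.Coprime.mul_left (ha4.coprime_dvd_left hada) (hb4.coprime_dvd_left hbdb)
        · rintro ⟨a, b⟩ hab ⟨c, d⟩ hcd h
          simp only [Prod.mk.injEq, Sigma.mk.injEq, heq_eq_eq] at h
          obtain ⟨h1, h2, h3⟩ := h
          rw [Finset.mem_coe, Finset.mem_product, mem_idx, mem_idx] at hab hcd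
          obtain ⟨⟨⟨ha1, -⟩, -, -⟩, ⟨hb1, -⟩, -, -⟩ := hab
          obtain ⟨⟨⟨hc1, -⟩, -, -⟩, ⟨hd1, -⟩, -, -⟩ := hcd
          simp only at ha1 hb1 hc1 hd1
          have ea := Nat.div_mul_cancel (Nat.gcd_dvd_left a b)
          have eb := Nat.div_mul_cancel (Nat.gcd_dvd_right a b)
          have ec := Nat.div_mul_cancel (Nat.gcd_dvd_left c d)
          have ed := Nat.div_mul_cancel (Nat.gcd_dvd_right c d)
          have hc' : 0 < c / c.gcd d :=
            Nat.div_pos (Nat.le_of_dvd hc1 (Nat.gcd_dvd_left c d)) (Nat.gcd_pos_of_pos_left _ hc1)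
          have hac : a = c := by rw [← ea, ← ec, h3, h1]
          have hbd' : b / a.gcd b = d / c.gcd d := by
            rw [h3] at h2
            exact Nat.eq_of_mul_eq_mul_left hc' h2
          have hbd : b = d := by rw [← eb, ← ed, hbd', h1]
          rw [hac, hbd]
        · rintro ⟨a, b⟩ hab
          rw [Finset.mem_product, mem_idx, mem_idx] at hab
          obtain ⟨⟨⟨ha1, -⟩, ha3, -⟩, ⟨hb1, -⟩, -, -⟩ := hab
          simp only at ha1 ha3 hb1
          have ea := Nat.div_mul_cancel (Nat.gcd_dvd_left a b)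
          have eb := Nat.div_mul_cancel (Nat.gcd_dvd_right a b)
          have ea' : (a : ℝ) = ((a / a.gcd b : ℕ) : ℝ) * (a.gcd b : ℝ) := by
            exact_mod_cast ea.symm
          have eb' : (b : ℝ) = ((b / a.gcd b : ℕ) : ℝ) * (a.gcd b : ℝ) := by
            exact_mod_cast eb.symm
          have hcop : (a / a.gcd b).Coprime (a.gcd b) := by
            have h5 : Squarefree (a / a.gcd b * a.gcd b) := by rw [ea]; exact ha3
            exact Nat.coprime_of_squarefree_mul h5
          have hω : a.primeFactors.card = (a.gcd b).primeFactors.card +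
              (a / a.gcd b).primeFactors.card := by
            conv_lhs => rw [← ea]
            rw [hcop.primeFactors_mul, card_union_of_disjoint hcop.disjoint_primeFactors, add_comm]
          apply le_of_eq
          show (κ : ℝ) ^ a.primeFactors.card / (a : ℝ) * (1 / (b : ℝ)) =
            (κ : ℝ) ^ (a.gcd b).primeFactors.card / ((a.gcd b : ℕ) : ℝ) ^ 2 *
            ((κ : ℝ) ^ (a / a.gcd b).primeFactors.card / (((a / a.gcd b) * (b / a.gcd b) : ℕ) : ℝ))
          rw [Nat.cast_mul, hω, pow_add]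
          conv_lhs => rw [ea', eb']
          rw [div_mul_div_comm, div_mul_div_comm]
          congr 1
          · ring
          · ring
        · intro r _
          positivity
    _ ≤ (∑ g ∈ (Icc 1 y).filter Squarefree, (κ : ℝ) ^ g.primeFactors.card / (g : ℝ) ^ 2) *
          sieveSum (κ + 1) z E := by
        rw [Finset.sum_product, sieveSum_eq, Finset.sum_mul_sum]
        refine Finset.sum_le_sum fun s _ => ?_
        simp only
        rw [← Finset.mul_sum, ← Finset.mul_sum, Finset.sum_sigma]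
        apply mul_le_mul_of_nonneg_left _ (by positivity)
        refine Finset.sum_le_sum fun l hl => ?_
        rw [mem_idx] at hl
        simp only
        rw [← Finset.sum_div]
        apply div_le_div_of_nonneg_right _ (Nat.cast_nonneg _)
        exact sum_div_pow κ l hl.2.1
    _ ≤ _ := by
        have : 0 ≤ sieveSum (κ + 1) z E := by
          unfold sieveSum
          positivity
        exact mul_le_mul_of_nonneg_right (sum_sq_le κ y) this

theorem rhoz_le_gf (z E : ℕ) (hE : 0 < E) : rhoz z E ≤ gf E := by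
  classical
  have hsub : badPrimes z E ⊆ E.primeFactors := by
    intro p hp
    rw [mem_badPrimes] at hp
    exact Nat.mem_primeFactors.2 ⟨hp.2.1, hp.2.2, hE.ne'⟩
  unfold rhoz gf
  rw [← Finset.prod_sdiff hsub]
  have h1 := one_le_prod_aux (E.primeFactors \ badPrimes z E)
  have h2 := rhoz_pos z E
  unfold rhoz at h2
  nlinarith

theorem ssum_ge_one (κ z E : ℕ) (hz : 1 ≤ z) : 1 ≤ sieveSum κ z E := by
  rw [sieveSum_eq]
  calc (1 : ℝ) = ∑ l ∈ ({1} : Finset ℕ), (κ : ℝ) ^ l.primeFactors.card / (l : ℝ) := by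
        simp
    _ ≤ _ := by
        apply Finset.sum_le_sum_of_subset_of_nonneg
        · intro l hl
          rw [Finset.mem_singleton] at hl
          subst hl
          rw [mem_idx]
          exact ⟨⟨le_rfl, hz⟩, squarefree_one, Nat.coprime_one_left _⟩
        · intro _ _ _
          positivity

theorem ssm (κ : ℕ) (hκ : 1 ≤ κ) : ∃ c : ℝ, 0 < c ∧ ∀ z E : ℕ, 1 ≤ z → 0 < E →
    c * Real.log z ^ κ ≤ gf E ^ κ * Pool.Agent.H5.W.sieveSum κ z E := by
  induction κ, hκ using Nat.le_induction with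
  | base =>
    refine ⟨1 / 2, by norm_num, fun z E hz hE => ?_⟩
    have h1 := sieveSum_one_ge z E hz hE
    have h2 := rhoz_pos z E
    rw [div_le_iff₀ (by positivity)] at h1
    have h3 := rhoz_le_gf z E hE
    have h4 : 0 ≤ sieveSum 1 z E := le_trans zero_le_one (ssum_ge_one 1 z E hz)
    rw [pow_one, pow_one]
    nlinarith [mul_le_mul_of_nonneg_right h3 h4]
  | succ κ hκ ih =>
    obtain ⟨c, hc, ih⟩ := ih
    refine ⟨min ((1 / 3) ^ (κ + 1)) (c / (2 * Real.exp (2 * κ)) / 4 ^ (κ + 1)),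
      lt_min (by positivity) (by positivity), fun z E hz hE => ?_⟩
    have hlog0 : 0 ≤ Real.log z := Real.log_natCast_nonneg z
    have hg1 : 1 ≤ gf E := (one_le_rhoz z E).trans (rhoz_le_gf z E hE)
    have hg0 : 0 ≤ gf E := by linarith
    have hS1 := ssum_ge_one (κ + 1) z E hz
    by_cases h4 : z < 4
    · have h2 : Real.log z ≤ 3 := by
        have := Real.log_le_sub_one_of_pos (x := (z : ℝ)) (by exact_mod_cast hz)
        have h3 : (z : ℝ) ≤ 4 := by exact_mod_cast h4.le
        linarith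
      calc min ((1 / 3) ^ (κ + 1)) (c / (2 * Real.exp (2 * κ)) / 4 ^ (κ + 1)) *
            Real.log z ^ (κ + 1)
          ≤ (1 / 3) ^ (κ + 1) * 3 ^ (κ + 1) := by
            apply mul_le_mul (min_le_left _ _) (pow_le_pow_left₀ hlog0 h2 _) (by positivity)
              (by positivity)
        _ = 1 := by rw [← mul_pow]; norm_num
        _ ≤ gf E ^ (κ + 1) * sieveSum (κ + 1) z E :=
            one_le_mul_of_one_le_of_one_le (one_le_pow₀ hg1) hS1
    · rw [not_lt] at h4
      set y := Nat.sqrt z with hy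
      have hyy : y * y ≤ z := Nat.sqrt_le z
      have hy2 : 2 ≤ y := by
        rw [hy, Nat.le_sqrt]
        omega
      have hlt : z < (y + 1) * (y + 1) := Nat.lt_succ_sqrt z
      have hz4 : z ≤ y ^ 4 := by
        have : (y + 1) * (y + 1) ≤ (y * y) * (y * y) := by
          have h : y + 1 ≤ y * y := by nlinarith
          exact Nat.mul_le_mul h h
        calc z ≤ (y + 1) * (y + 1) := hlt.le
          _ ≤ (y * y) * (y * y) := this
          _ = y ^ 4 := by ring
      have hlogy : Real.log z ≤ 4 * Real.log y := by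
        calc Real.log z ≤ Real.log ((y : ℝ) ^ 4) := by
              apply Real.log_le_log
              · exact_mod_cast hz
              · exact_mod_cast hz4
          _ = 4 * Real.log y := by
              rw [Real.log_pow]
              norm_num
      have hly : 0 ≤ Real.log y := Real.log_natCast_nonneg y
      have h1 := ih y E (by omega) hE
      have h2 : Real.log y ≤ 2 * (gf E * sieveSum 1 y E) := by
        have h1 := sieveSum_one_ge y E (by omega) hE
        have h2 := rhoz_pos y E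
        rw [div_le_iff₀ (by positivity)] at h1
        have h3 := rhoz_le_gf y E hE
        have h4 : 0 ≤ sieveSum 1 y E := le_trans zero_le_one (ssum_ge_one 1 y E (by omega))
        nlinarith [mul_le_mul_of_nonneg_right h3 h4]
      have h3 := ssum_step κ y z E hyy
      have hexp : 0 < Real.exp (2 * κ) := Real.exp_pos _
      have h5 : c * Real.log y ^ κ * Real.log y ≤
          (gf E ^ κ * sieveSum κ y E) * (2 * (gf E * sieveSum 1 y E)) := by
        apply mul_le_mul h1 h2 hly
        exact mul_nonneg (by positivity) (le_trans zero_le_one (ssum_ge_one κ y E (by omega)))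
      calc min ((1 / 3) ^ (κ + 1)) (c / (2 * Real.exp (2 * κ)) / 4 ^ (κ + 1)) *
            Real.log z ^ (κ + 1)
          ≤ c / (2 * Real.exp (2 * κ)) / 4 ^ (κ + 1) * (4 * Real.log y) ^ (κ + 1) := by
            apply mul_le_mul (min_le_right _ _) (pow_le_pow_left₀ hlog0 hlogy _) (by positivity)
              (by positivity)
        _ = c * Real.log y ^ κ * Real.log y / (2 * Real.exp (2 * κ)) := by
            rw [mul_pow, pow_succ (Real.log y)]
            field_simp
        _ ≤ (gf E ^ κ * sieveSum κ y E) * (2 * (gf E * sieveSum 1 y E)) /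
            (2 * Real.exp (2 * κ)) := div_le_div_of_nonneg_right h5 (by positivity)
        _ = gf E ^ (κ + 1) * (sieveSum κ y E * sieveSum 1 y E) / Real.exp (2 * κ) := by
            rw [pow_succ]
            field_simp
        _ ≤ gf E ^ (κ + 1) * (Real.exp (2 * κ) * sieveSum (κ + 1) z E) / Real.exp (2 * κ) := by
            apply div_le_div_of_nonneg_right _ hexp.le
            exact mul_le_mul_of_nonneg_left h3 (by positivity)
        _ = _ := by field_simp

end Pool.H2.WE
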